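import Pool.Agent.FRB.F9b
import Pool.Agent.FRB.F3M

set_option maxSynthPendingDepth 3

/-!
# The assembly of the theorem
-/

set_option autoImplicit false

namespace Pool.Agent.FRB

open Polynomial Pool.Agent.TBR Pool.Agent.TUQ Pool.Agent.WLD Pool.Agent.UQ

universe u

/-- **The mixed theorem.** Let `k` be a field of characteristic `p` and `K₀` a function field of
transcendence degree `2` over `k` which contains the `e`-th roots of unity. Let `Y ^ p - Y` and `Z ^ e` belong to `K₀`, with irreducible equations. If the field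
`K₀(v, w)`, `w ^ p - w + Z ^ e v ^ e = Y ^ p - Y`, is uniruled, then `V_ℓ (K₀(Y, Z))` embeds in a
product of `V_ℓ`'s of the fields `K₁ K₂`, `K₀`, `K₀(Y)`, `K₀(Z)`. -/
theorem finalM {k M : Type u} [Field k] [Field M] [Algebra k M] [IsAlgClosed M]
    (K₀ : IntermediateField k M) (hfg : K₀.FG) (htd : Algebra.trdeg k M = 2)
    (hal : ∀ x : M, IsAlgebraic K₀ x) (p e : ℕ) (hp : p.Prime) (hch : CharP k p) (he : 2 ≤ e)
    (hek : (e : k) ≠ 0) (hμ : ∀ ζ : M, ζ ^ e = 1 → ζ ∈ K₀) (Y Z : M) (YK : Y ^ p - Y ∈ K₀)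
    (ZK : Z ^ e ∈ K₀) (Z0 : Z ≠ 0)
    (irrY : Irreducible (X ^ p - X - C (⟨Y ^ p - Y, YK⟩ : K₀)))
    (irrZ : Irreducible (X ^ e - C (⟨Z ^ e, ZK⟩ : K₀)))
    (L : Type u) [Field L] [Algebra k L] [Algebra K₀ L] [IsScalarTower k K₀ L] (v w : L)
    (hv : Transcendental K₀ v)
    (hw : w ^ p - w + algebraMap K₀ L ⟨Z ^ e, ZK⟩ * v ^ e = algebraMap K₀ L ⟨Y ^ p - Y, YK⟩)
    (hgen : IntermediateField.adjoin K₀ {v, w} = ⊤) (hL : Uniruled k L) :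
    ∃ (N : ℕ) (L' : Fin N → IntermediateField k M),
      (∀ j, GoodM K₀ Y Z (L' j) ∧ ∀ x : M, IsAlgebraic (L' j) x) ∧
      ∀ ℓ : ℕ, ℓ.Prime → (ℓ : k) ≠ 0 →
        ∃ f : Vl k (KYZ K₀ Y Z) M ℓ →* (∀ j, Vl k (L' j) M ℓ), Function.Injective f := by
  obtain ⟨K, hKdef⟩ : ∃ K, K = KYZ K₀ Y Z := ⟨_, rfl⟩
  have hYle : K₀ ≤ KZ K₀ Y := le_sup_left
  have hK₀K : K₀ ≤ K := by rw [hKdef]; exact hYle.trans le_sup_left
  have hKal : ∀ x : M, IsAlgebraic K x := by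
    intro x
    obtain ⟨q, hq, hq0⟩ := hal x
    refine ⟨q.map (IntermediateField.inclusion hK₀K : K₀ →+* K), ?_, ?_⟩
    · exact (Polynomial.map_ne_zero_iff (RingHom.injective _)).2 hq
    · rw [Polynomial.aeval_def, Polynomial.eval₂_map]
      exact hq0
  have hKfg : K.FG := by
    rw [hKdef]
    exact IntermediateField.fg_sup (IntermediateField.fg_sup hfg
      ⟨{Y}, by rw [Finset.coe_singleton]⟩) ⟨{Z}, by rw [Finset.coe_singleton]⟩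
  by_cases hNU : NU K
  swap
  · obtain ⟨K₁, K₂, h1, h2, h3, h4, h5, h6⟩ := nu_case K hKfg hKal hNU
    rw [← hKdef]
    refine ⟨1, fun _ => K₁ ⊔ K₂, fun _ => ⟨Or.inl ⟨K₁, K₂, h1, h2, h3, h4, rfl⟩, h5⟩,
      fun ℓ hℓ _ => ?_⟩
    obtain ⟨f, hf⟩ := h6 ℓ hℓ
    exact @pi_const_aux _ _ _ _ f hf
  -- the field with `p ^ n` elements
  have hpe : ¬ p ∣ e := fun h => hek ((CharP.cast_eq_zero_iff k p e).2 h)
  have hcop : Nat.Coprime p e := (Nat.Prime.coprime_iff_not_dvd hp).2 hpe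
  have hn : 0 < Nat.totient e := Nat.totient_pos.2 (by omega)
  have hen : e ∣ p ^ Nat.totient e - 1 :=
    (Nat.modEq_iff_dvd' (Nat.one_le_pow _ _ hp.pos)).1 (Nat.ModEq.pow_totient hcop).symm
  have irrZ' := irr_up K₀ p e hp hpe Y Z YK ZK irrY irrZ
  obtain ⟨Ω, _, _, A, H, ε, v', w', a', U, t, hΩ, hA, hH, hc⟩ := setupM K₀ hfg htd hal p e
    (Nat.totient e) hp hch he hek hn hen Y Z YK ZK Z0 irrY irrZ' L v w hv hw hgen hL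
  have hKZ : (KYZ K₀ Y Z).map (ε : M →ₐ[k] A) =
      KYZ (K₀.map (ε : M →ₐ[k] A)) (ε Y) (ε Z) := by
    have h1 : (KZ K₀ Y).map (ε : M →ₐ[k] A) = KZ (K₀.map (ε : M →ₐ[k] A)) (ε Y) :=
      map_sup_adjoin (ε : M →ₐ[k] A) K₀ Y
    have h2 : (KZ (KZ K₀ Y) Z).map (ε : M →ₐ[k] A) =
        KZ ((KZ K₀ Y).map (ε : M →ₐ[k] A)) (ε Z) :=
      map_sup_adjoin (ε : M →ₐ[k] A) (KZ K₀ Y) Z
    rw [h1] at h2
    exact h2
  have hNU' : NU (KYZ (K₀.map (ε : M →ₐ[k] A)) (ε Y) (ε Z)) := by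
    have h1 := hNU.congr ε
    rw [hKdef, hKZ] at h1
    exact h1
  have hμ' : ∀ ζ : A, ζ ^ e = 1 → ζ ∈ K₀.map (ε : M →ₐ[k] A) := by
    intro ζ hζ
    refine (IntermediateField.mem_map _).2 ⟨ε.symm ζ, hμ _ ?_, ?_⟩
    · rw [← map_pow, hζ, map_one]
    · exact ε.apply_symm_apply ζ
  obtain ⟨N, L₁, hL₁, hf⟩ := coreM A H (K₀.map (ε : M →ₐ[k] A)) (ε Y) (ε Z) p e
    (Nat.totient e) v' w' a' U t hc hμ' hNU'
  have hL₁e : ∀ j x, x ∈ L₁ j ↔ ε.symm x ∈ (L₁ j).map (ε.symm : A →ₐ[k] M) := fun j x =>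
    mem_map_iff ε.symm (L₁ j) x
  refine ⟨N, fun j => (L₁ j).map (ε.symm : A →ₐ[k] M), fun j => ⟨(hL₁ j).1.congr ε, fun x =>
    algK ε.symm (L₁ j) _ (hL₁e j) (hL₁ j).2 x⟩, fun ℓ hℓ hℓk => ?_⟩
  obtain ⟨f, hf⟩ := hf ℓ hℓ hℓk
  have hKe : ∀ x : M, x ∈ KYZ K₀ Y Z ↔ ε x ∈ KYZ (K₀.map (ε : M →ₐ[k] A)) (ε Y) (ε Z) := by
    intro x
    rw [← hKZ]
    exact mem_map_iff ε _ x
  rw [hKdef] at hKal
  exact @pi_comp_aux _ _ _ _ _ _ _ _ _ (vlH ε _ _ hKe hKal ℓ) (vlH_injective ε _ _ hKe hKal ℓ)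
    f hf (fun j => vlH ε.symm (L₁ j) _ (hL₁e j) (hL₁ j).2 ℓ)
    (fun j => vlH_injective ε.symm (L₁ j) _ (hL₁e j) (hL₁ j).2 ℓ)

end Pool.Agent.FRB
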