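import Pool.Agent.FRB.X3M
import Pool.Agent.FRB.F9M
import Pool.Agent.ADH.X4

/-!
# Towers of Artin-Schreier extensions and a Kummer extension of a uniruled surface
-/

set_option autoImplicit false

namespace Pool.Agent.FRB

open Polynomial Pool.Agent.TBR Pool.Agent.TUQ Pool.Agent.UQ Pool.Agent.WLD Pool.Agent.ADT
  Pool.Agent.ADH

universe u

section

variable {k M : Type u} [Field k] [Field M] [Algebra k M]

/-- existence of the threefold `w ^ p - w + δ v ^ e = F` -/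
theorem exists_threefoldM {K₀ : Type u} [Field K₀] [Algebra k K₀] (p : ℕ) (hp : 2 ≤ p) (e : ℕ)
    (δ F : K₀) :
    ∃ (L : Type u) (_ : Field L) (_ : Algebra k L) (_ : Algebra K₀ L) (_ : IsScalarTower k K₀ L)
      (v w : L), Transcendental K₀ v ∧ w ^ p - w + algebraMap K₀ L δ * v ^ e = algebraMap K₀ L F ∧
        IntermediateField.adjoin K₀ {v, w} = ⊤ := by
  let Ω := AlgebraicClosure (RatFunc K₀)
  let a : Ω := algebraMap (RatFunc K₀) Ω RatFunc.X
  have ha : Transcendental K₀ a := by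
    have h1 : Transcendental K₀ (RatFunc.X : RatFunc K₀) := RatFunc.transcendental_X
    exact (transcendental_algebraMap_iff (algebraMap (RatFunc K₀) Ω).injective).2 h1
  let b : Ω := algebraMap K₀ Ω F - algebraMap K₀ Ω δ * a ^ e
  obtain ⟨w, hw⟩ := IsAlgClosed.exists_root (X ^ p - X - C b : Polynomial Ω) (by
    have h1 : (X ^ p - X - C b : Polynomial Ω).natDegree = p := by
      rw [natDegree_sub_C, natDegree_sub_eq_left_of_natDegree_lt, natDegree_X_pow]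
      rw [natDegree_X, natDegree_X_pow]
      omega
    intro h2
    have h3 := natDegree_eq_zero_iff_degree_le_zero.2 h2.le
    rw [h1] at h3
    omega)
  have hw' : w ^ p - w + algebraMap K₀ Ω δ * a ^ e = algebraMap K₀ Ω F := by
    rw [IsRoot, eval_sub, eval_sub, eval_pow, eval_X, eval_C, sub_eq_zero] at hw
    rw [hw]
    simp only [b]
    ring
  let L := IntermediateField.adjoin K₀ {a, w}
  have haL : a ∈ L := IntermediateField.subset_adjoin _ _ (Or.inl rfl)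
  have hwL : w ∈ L := IntermediateField.subset_adjoin _ _ (Or.inr rfl)
  let algkL : Algebra k L := ((algebraMap K₀ L).comp (algebraMap k K₀)).toAlgebra
  have tow2 : IsScalarTower k K₀ L := IsScalarTower.of_algebraMap_eq (fun _ => rfl)
  refine ⟨L, inferInstance, algkL, inferInstance, tow2, ⟨a, haL⟩, ⟨w, hwL⟩, ?_, ?_, ?_⟩
  · have := (transcendental_algebraMap_iff (R := K₀) (S := L) (A := Ω) (a := ⟨a, haL⟩)
      (algebraMap L Ω).injective).1 ha
    exact this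
  · apply (algebraMap L Ω).injective
    exact hw'
  · apply IntermediateField.lift_injective L
    rw [IntermediateField.lift_adjoin, IntermediateField.lift_top, Set.image_pair]

/-- the families: `K₀ = E(x_1, …, x_r)`, `g(x) = 0`, `E / k` finitely generated of transcendence
degree `3 - r`, `Y ^ p - Y = f(x) / G(x)`, `G = G₁ Q₁ ^ p`, `Z ^ e = G₂(x) Q₂(x) ^ e / G(x)`, and the
equations `g = 0`, `G₁ (W ^ p - Q₁ ^ (p - 1) W) + G₂ T ^ e = f`, where `W = Q₁ w`, `T = Q₂ v`, have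
degrees at most `d` and `D` for weights `ω` of the `x_i`, `α` of `T` and `γ` of `W` whose sum is at
least `d + D` -/
def FamM (K₀ : IntermediateField k M) (Y Z : M) (p e : ℕ) : Prop :=
  ∃ (r : ℕ) (E : IntermediateField k M) (x : Fin r → M) (g f G₁ Q₁ G₂ Q₂ : MvPolynomial (Fin r) E)
    (ω : Fin r → ℕ) (α γ τ₁ κ₁ τ₂ d D : ℕ),
    E.FG ∧ K₀ = E ⊔ IntermediateField.adjoin k (Set.range x) ∧ Algebra.trdeg k E + r = 3 ∧
      g ≠ 0 ∧ MvPolynomial.aeval x g = 0 ∧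
      Z ^ e * MvPolynomial.aeval x (G₁ * Q₁ ^ p) = MvPolynomial.aeval x (G₂ * Q₂ ^ e) ∧
      MvPolynomial.aeval x (G₁ * Q₁ ^ p) ≠ 0 ∧
      (Y ^ p - Y) * MvPolynomial.aeval x (G₁ * Q₁ ^ p) = MvPolynomial.aeval x f ∧
      MvPolynomial.weightedTotalDegree ω g ≤ d ∧
      MvPolynomial.weightedTotalDegree ω f ≤ D ∧ MvPolynomial.weightedTotalDegree ω G₁ ≤ τ₁ ∧
      MvPolynomial.weightedTotalDegree ω Q₁ ≤ κ₁ ∧ MvPolynomial.weightedTotalDegree ω G₂ ≤ τ₂ ∧
      τ₂ + e * α ≤ D ∧ τ₁ + p * γ ≤ D ∧ τ₁ + (p - 1) * κ₁ + γ ≤ D ∧ τ₁ + p * κ₁ + 1 ≤ D ∧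
      d + D ≤ ∑ i, ω i + α + γ

/-- the threefolds of the families are uniruled -/
theorem uniruled_famM [IsAlgClosed M] (p : ℕ) [Fact p.Prime] [CharP k p]
    (K₀ : IntermediateField k M)
    (htd : Algebra.trdeg k M = 2) (hal : ∀ x : M, IsAlgebraic K₀ x) (e : ℕ) (he : 2 ≤ e)
    (Y Z : M) (YK : Y ^ p - Y ∈ K₀) (ZK : Z ^ e ∈ K₀) (Z0 : Z ≠ 0)
    (L : Type u) [Field L] [Algebra k L] [Algebra K₀ L] [IsScalarTower k K₀ L] (v w : L)
    (hv : Transcendental K₀ v)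
    (hw : w ^ p - w + algebraMap K₀ L ⟨Z ^ e, ZK⟩ * v ^ e = algebraMap K₀ L ⟨Y ^ p - Y, YK⟩)
    (hgen : IntermediateField.adjoin K₀ {v, w} = ⊤) (hF : FamM K₀ Y Z p e) : Uniruled k L := by
  obtain ⟨r, E, x, g, f, G₁, Q₁, G₂, Q₂, ω, α, γ, τ₁, κ₁, τ₂, d, D, hEfg, hK₀, htr, hg0, hg, hGG,
    hq, hzf, h0, h1, t1, t2, t3, h2, h3, h4, h5', h6'⟩ := hF
  have hEC : CharP E p := charP_of_injective_algebraMap (algebraMap k E).injective p
  have hle : E ≤ K₀ := by
    rw [hK₀]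
    exact le_sup_left
  have hxK : ∀ i, x i ∈ K₀ := fun i => by
    rw [hK₀]
    exact (le_sup_right : IntermediateField.adjoin k (Set.range x) ≤ _)
      (IntermediateField.subset_adjoin _ _ ⟨i, rfl⟩)
  let ι : E →ₐ[k] K₀ := IntermediateField.inclusion hle
  let algE : Algebra E K₀ := ι.toRingHom.toAlgebra
  let algL : Algebra E L := ((algebraMap K₀ L).comp ι.toRingHom).toAlgebra
  have tow1 : IsScalarTower E K₀ L := IsScalarTower.of_algebraMap_eq (fun _ => rfl)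
  have tow2 : IsScalarTower k E K₀ := IsScalarTower.of_algebraMap_eq (fun b => (ι.commutes b).symm)
  have tow3 : IsScalarTower k E L := IsScalarTower.of_algebraMap_eq (fun b => by
    rw [IsScalarTower.algebraMap_apply k K₀ L, ← ι.commutes b]
    rfl)
  have tow4 : IsScalarTower E K₀ M := IsScalarTower.of_algebraMap_eq (fun _ => rfl)
  let ξ : Fin r → K₀ := fun i => ⟨x i, hxK i⟩
  have hval : ∀ P : MvPolynomial (Fin r) E, ((MvPolynomial.aeval ξ P : K₀) : M) =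
      MvPolynomial.aeval x P := fun P =>
    (MvPolynomial.aeval_algebraMap_apply (A := K₀) (B := M) ξ P).symm
  have hgen₀ : IntermediateField.adjoin E (Set.range ξ) = ⊤ := by
    rw [eq_top_iff]
    intro b _
    let N' : IntermediateField k M :=
      ((IntermediateField.adjoin E (Set.range ξ)).restrictScalars k).map K₀.val
    have hE : E ≤ N' := fun c hc => ⟨⟨c, hle hc⟩,
      (IntermediateField.adjoin E (Set.range ξ)).algebraMap_mem ⟨c, hc⟩, rfl⟩
    have hx : IntermediateField.adjoin k (Set.range x) ≤ N' := by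
      rw [IntermediateField.adjoin_le_iff]
      rintro _ ⟨i, rfl⟩
      exact ⟨ξ i, IntermediateField.subset_adjoin E _ ⟨i, rfl⟩, rfl⟩
    have hb : (b : M) ∈ E ⊔ IntermediateField.adjoin k (Set.range x) := by
      rw [← hK₀]
      exact b.2
    obtain ⟨c, hc, hcb⟩ := (sup_le hE hx) hb
    have e : c = b := Subtype.ext hcb
    rw [← e]
    exact hc
  have htd₀ : Algebra.trdeg k K₀ = 2 := by
    have h1 : Algebra.IsAlgebraic K₀ M := ⟨hal⟩
    have h3 := trdeg_add_eq k K₀ (A := M)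
    rwa [trdeg_eq_zero_iff.2 h1, add_zero, htd] at h3
  have hlt : (2 : Cardinal.{u}) < Cardinal.aleph0 := by
    exact_mod_cast Cardinal.natCast_lt_aleph0 (n := 2)
  have h5 := trdeg_add_eq k E (A := K₀)
  rw [htd₀] at h5
  have hE2 : Algebra.trdeg k E ≤ 2 := by
    rw [← h5]
    exact self_le_add_right _ _
  have htdE : Algebra.trdeg E K₀ + 1 = r := by
    have h6 : Algebra.trdeg k E + (Algebra.trdeg E K₀ + 1) = Algebra.trdeg k E + r := by
      rw [htr, ← add_assoc, h5]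
      norm_num
    exact Cardinal.eq_of_add_eq_add_left h6 (hE2.trans_lt hlt)
  have hEfg' : (⊤ : IntermediateField k E).FG := by
    rw [IntermediateField.fg_top_iff]
    exact IntermediateField.essFiniteType_iff.2 hEfg
  have hq' : MvPolynomial.aeval ξ (G₁ * Q₁ ^ p) ≠ 0 := by
    intro h
    apply hq
    rw [← hval, h]
    rfl
  have hg' : MvPolynomial.aeval ξ g = 0 := by
    apply Subtype.ext
    rw [hval, hg]
    rfl
  have hw' : (w ^ p - w + algebraMap K₀ L ⟨Z ^ e, ZK⟩ * v ^ e) *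
      algebraMap K₀ L (MvPolynomial.aeval ξ (G₁ * Q₁ ^ p)) =
      algebraMap K₀ L (MvPolynomial.aeval ξ f) := by
    rw [hw, ← map_mul]
    congr 1
    apply Subtype.ext
    show (Y ^ p - Y) * ((MvPolynomial.aeval ξ (G₁ * Q₁ ^ p) : K₀) : M) =
      ((MvPolynomial.aeval ξ f : K₀) : M)
    rw [hval, hval, hzf]
  have hG' : (⟨Z ^ e, ZK⟩ : K₀) * MvPolynomial.aeval ξ (G₁ * Q₁ ^ p) =
      MvPolynomial.aeval ξ (G₂ * Q₂ ^ e) := by
    apply Subtype.ext
    show Z ^ e * ((MvPolynomial.aeval ξ (G₁ * Q₁ ^ p) : K₀) : M) =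
      ((MvPolynomial.aeval ξ (G₂ * Q₂ ^ e) : K₀) : M)
    rw [hval, hval, hGG]
  have hδ : (⟨Z ^ e, ZK⟩ : K₀) ≠ 0 := fun h => pow_ne_zero e Z0 (congrArg Subtype.val h)
  exact Uniruled.tower (E := E) hEfg' (fam_uniM (κ := E) p e he ξ hgen₀ htdE g hg0 hg' f
    G₁ Q₁ G₂ Q₂ ⟨Z ^ e, ZK⟩ hδ hG' hq' v w hv hw' hgen ω α γ τ₁ κ₁ τ₂ d D h0 h1 t1 t2 t3 h2 h3 h4
    h5' h6')


/-- the cyclic case -/
theorem emt_cyclicM [IsAlgClosed M] (p : ℕ) [Fact p.Prime] [CharP k p]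
    (K₀ : IntermediateField k M) (hfg : K₀.FG) (htd : Algebra.trdeg k M = 2)
    (hal : ∀ x : M, IsAlgebraic K₀ x) (e : ℕ) (he : 2 ≤ e) (hek : (e : k) ≠ 0)
    (hμ : ∀ ζ : M, ζ ^ e = 1 → ζ ∈ K₀) (Y Z : M) (YK : Y ^ p - Y ∈ K₀) (ZK : Z ^ e ∈ K₀)
    (Z0 : Z ≠ 0) (irrZ : Irreducible (X ^ e - C (⟨Z ^ e, ZK⟩ : K₀))) (h : FamM K₀ Y Z p e)
    (h1 : Emt K₀) (h2 : Emt (KZ K₀ Y)) (h3 : Emt (KZ K₀ Z)) : Emt (KYZ K₀ Y Z) := by
  by_cases hY : Y ∈ K₀
  · have h4 : KZ K₀ Y = K₀ := by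
      refine sup_eq_left.2 ?_
      rw [IntermediateField.adjoin_le_iff]
      rintro y rfl
      exact hY
    show Emt (KZ (KZ K₀ Y) Z)
    rw [h4]
    exact h3
  have haev : ∀ {A : Type u} [CommRing A] [Algebra k A] (b : A),
      aeval b (X ^ p - X : k[X]) = b ^ p - b := fun b => by
    rw [map_sub, map_pow, aeval_X]
  have zN : aeval Y (X ^ p - X : k[X]) ∈ K₀ := by
    rw [haev]
    exact YK
  have irrY : Irreducible (X ^ p - X - C (⟨Y ^ p - Y, YK⟩ : K₀)) := by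
    have h4 := irr_of_notMem p K₀ Y hY zN
    have h5 : (⟨aeval Y (X ^ p - X : k[X]), zN⟩ : K₀) = ⟨Y ^ p - Y, YK⟩ := Subtype.ext (haev Y)
    rw [h5, Polynomial.map_sub, Polynomial.map_pow, map_X] at h4
    exact h4
  obtain ⟨L, i1, i2, i3, i4, v, w, hv, hw, hgen⟩ := exists_threefoldM (k := k) p
    (Fact.out : p.Prime).two_le e (⟨Z ^ e, ZK⟩ : K₀) ⟨Y ^ p - Y, YK⟩
  obtain ⟨n, L', h4, h5⟩ := finalM K₀ hfg htd hal p e Fact.out inferInstance he hek hμ Y Z YK ZK Z0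
    irrY irrZ L v w hv hw hgen
    (uniruled_famM p K₀ htd hal e he Y Z YK ZK Z0 L v w hv hw hgen h)
  refine emt_of_inj (K' := KYZ K₀ Y Z) (fun ℓ _ => ⟨MonoidHom.id _, Function.injective_id⟩) L' h5
    fun j => ?_
  rcases (h4 j).1 with h6 | h6 | h6 | h6
  · exact emt_two h6 (h4 j).2
  · rw [h6]
    exact h1
  · rw [h6]
    exact h2
  · rw [h6]
    exact h3

/-- `exists_span` with the roots of unity -/
theorem exists_spanμ {m : ℕ} [IsAlgClosed M] (p : ℕ) [Fact p.Prime] [CharP k p] (x : Fin m → M)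
    (q : MvPolynomial (Fin m) k) (hq : MvPolynomial.aeval x q ≠ 0) (ω : Fin m → ℕ) (e D : ℕ)
    (S : Finset M) (hS : ∀ z ∈ S, ∃ (φ : k[X]) (f : MvPolynomial (Fin m) k),
      AddPoly φ ∧ derivative φ ≠ 0 ∧ MvPolynomial.weightedTotalDegree ω f ≤ D ∧
        aeval z φ * MvPolynomial.aeval x q ^ e = MvPolynomial.aeval x f) (N : ℕ) (hN : 0 < N) :
    ∃ (C₀ : Finset M) (r : ℕ) (y : Fin r → M), (∀ c ∈ C₀, IsAlgebraic k c) ∧
      (∀ ζ : M, ζ ^ N = 1 → ζ ∈ C₀) ∧
      (∀ i, ∃ f : MvPolynomial (Fin m) (IntermediateField.adjoin k (C₀ : Set M)),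
        MvPolynomial.weightedTotalDegree ω f ≤ D ∧
          (y i ^ p - y i) * MvPolynomial.aeval x q ^ e = MvPolynomial.aeval x f) ∧
      ∀ z ∈ S, z ∈ IntermediateField.adjoin k (C₀ : Set M) ⊔
        IntermediateField.adjoin k (Set.range x) ⊔ IntermediateField.adjoin k (Set.range y) := by
  classical
  obtain ⟨C₀, r, y, hC₀, hy, hz⟩ := exists_span p x q hq ω e D S hS
  have hle : IntermediateField.adjoin k (C₀ : Set M) ≤
      IntermediateField.adjoin k ((C₀ ∪ (nthRoots N (1 : M)).toFinset : Finset M) : Set M) := by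
    apply IntermediateField.adjoin.mono
    rw [Finset.coe_union]
    exact Set.subset_union_left
  refine ⟨C₀ ∪ (nthRoots N (1 : M)).toFinset, r, y, ?_, ?_, ?_, ?_⟩
  · intro c hc
    rcases Finset.mem_union.1 hc with hc | hc
    · exact hC₀ c hc
    · rw [Multiset.mem_toFinset, mem_nthRoots hN] at hc
      refine ⟨X ^ N - 1, ?_, ?_⟩
      · exact (monic_X_pow_sub_C (1 : k) hN.ne').ne_zero
      · rw [map_sub, map_pow, aeval_X, map_one, hc, sub_self]
  · intro ζ hζ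
    rw [Finset.mem_union, Multiset.mem_toFinset, mem_nthRoots hN]
    exact Or.inr hζ
  · intro i
    obtain ⟨f, h1, h2⟩ := hy i
    refine ⟨MvPolynomial.map (IntermediateField.inclusion hle :
      IntermediateField.adjoin k (C₀ : Set M) →+* _) f, ?_, ?_⟩
    · rw [wtd_le_iff] at h1 ⊢
      intro d hd
      exact h1 d (MvPolynomial.support_map_subset _ _ hd)
    · rw [h2, MvPolynomial.aeval_def, MvPolynomial.aeval_def, MvPolynomial.eval₂_map]
      rfl
  · intro z hz'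
    have h1 := hz z hz'
    exact (sup_le_sup_right (sup_le_sup_right hle _) _) h1

/-- **Towers.** `z ^ e = H(x)`, `φ(z') = f(x) / G(x)` for `z' ∈ S`. -/
theorem tower_injMμ [IsAlgClosed M] (p : ℕ) [Fact p.Prime] [CharP k p]
    (htd : Algebra.trdeg k M = 2) (x : Fin 3 → M)
    (hal : ∀ y : M, IsAlgebraic (IntermediateField.adjoin k (Set.range x)) y)
    (g G₁ Q₁ G₂ Q₂ H : MvPolynomial (Fin 3) k) (hg0 : g ≠ 0) (hg : MvPolynomial.aeval x g = 0)
    (ω : Fin 3 → ℕ) (e α γ τ₁ κ₁ τ₂ η d D : ℕ) (he : 2 ≤ e) (hek : (e : k) ≠ 0) (z : M)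
    (z0 : z ≠ 0) (hz : z ^ e = MvPolynomial.aeval x H)
    (hG : G₁ * Q₁ ^ p = G₂ * Q₂ ^ e) (hG0 : MvPolynomial.aeval x (G₁ * Q₁ ^ p) ≠ 0)
    (h0 : MvPolynomial.weightedTotalDegree ω g ≤ d)
    (t1 : MvPolynomial.weightedTotalDegree ω G₁ ≤ τ₁)
    (t2 : MvPolynomial.weightedTotalDegree ω Q₁ ≤ κ₁)
    (t3 : MvPolynomial.weightedTotalDegree ω G₂ ≤ τ₂)
    (t4 : MvPolynomial.weightedTotalDegree ω H ≤ η)
    (h1 : τ₂ + η + e * α ≤ D) (h2 : τ₁ + p * γ ≤ D) (h3 : τ₁ + (p - 1) * κ₁ + γ ≤ D)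
    (h4 : τ₁ + p * κ₁ + 1 ≤ D) (h5 : d + D ≤ ω 0 + ω 1 + ω 2 + α + γ) (S : Finset M)
    (hS : ∀ z ∈ S, ∃ (φ : k[X]) (f : MvPolynomial (Fin 3) k), AddPoly φ ∧ derivative φ ≠ 0 ∧
      MvPolynomial.weightedTotalDegree ω f ≤ D ∧
        aeval z φ * MvPolynomial.aeval x (G₁ * Q₁ ^ p) = MvPolynomial.aeval x f)
    (hirr : ∀ C₀ : Finset M, (∀ c ∈ C₀, IsAlgebraic k c) →
      ∀ zK : z ^ e ∈ IntermediateField.adjoin k (C₀ : Set M) ⊔
        IntermediateField.adjoin k (Set.range x),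
        Irreducible (X ^ e - C (⟨z ^ e, zK⟩ : (IntermediateField.adjoin k (C₀ : Set M) ⊔
          IntermediateField.adjoin k (Set.range x) : IntermediateField k M))))
    (hemt : ∀ C₀ : Finset M, (∀ c ∈ C₀, IsAlgebraic k c) → (∀ ζ : M, ζ ^ e = 1 → ζ ∈ C₀) →
      Emt (KZ (IntermediateField.adjoin k (C₀ : Set M) ⊔
        IntermediateField.adjoin k (Set.range x)) z))
    (F : IntermediateField k M)
    (hF : F ≤ IntermediateField.adjoin k (Set.range x ∪ insert z (S : Set M)))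
    (hFal : ∀ y : M, IsAlgebraic F y) : Emt F := by
  classical
  have hCM : CharP M p := charP_of_injective_algebraMap (algebraMap k M).injective p
  obtain ⟨q, hqdef⟩ : ∃ q, q = G₁ * Q₁ ^ p := ⟨_, rfl⟩
  have hq : MvPolynomial.aeval x q ≠ 0 := by rw [hqdef]; exact hG0
  have hS' : ∀ z ∈ S, ∃ (φ : k[X]) (f : MvPolynomial (Fin 3) k), AddPoly φ ∧
      derivative φ ≠ 0 ∧ MvPolynomial.weightedTotalDegree ω f ≤ D ∧
        aeval z φ * MvPolynomial.aeval x q ^ 1 = MvPolynomial.aeval x f := by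
    intro z hz
    obtain ⟨φ, f, a1, a2, a3, a4⟩ := hS z hz
    exact ⟨φ, f, a1, a2, a3, by rw [pow_one, hqdef]; exact a4⟩
  obtain ⟨C₀, r, y, hC₀, hμC, hy, hz'⟩ := exists_spanμ p x q hq ω 1 D S hS' e (by omega)
  choose f hf hfy using hy
  obtain ⟨E, hE⟩ : ∃ E, E = IntermediateField.adjoin k (C₀ : Set M) := ⟨_, rfl⟩
  rw [← hE] at hz'
  subst hE
  have hxfg : (IntermediateField.adjoin k (Set.range x) : IntermediateField k M).FG :=
    ⟨Finset.univ.image x, by rw [Finset.coe_image, Finset.coe_univ, Set.image_univ]⟩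
  have hyfg : (IntermediateField.adjoin k (Set.range y) : IntermediateField k M).FG :=
    ⟨Finset.univ.image y, by rw [Finset.coe_image, Finset.coe_univ, Set.image_univ]⟩
  have hEfg : (IntermediateField.adjoin k (C₀ : Set M)).FG := ⟨C₀, rfl⟩
  have hEalg : Algebra.IsAlgebraic k (IntermediateField.adjoin k (C₀ : Set M)) :=
    IntermediateField.isAlgebraic_adjoin fun c hc => (hC₀ c hc).isIntegral
  have hEtd : Algebra.trdeg k (IntermediateField.adjoin k (C₀ : Set M)) = 0 :=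
    trdeg_eq_zero_iff.2 hEalg
  obtain ⟨K₀, hK₀⟩ : ∃ K₀, K₀ = IntermediateField.adjoin k (C₀ : Set M) ⊔
    IntermediateField.adjoin k (Set.range x) := ⟨_, rfl⟩
  have hK₀fg : K₀.FG := by
    rw [hK₀]
    exact IntermediateField.fg_sup hEfg hxfg
  have hxK₀ : IntermediateField.adjoin k (Set.range x) ≤ K₀ := by
    rw [hK₀]
    exact le_sup_right
  have hK₀al : ∀ y : M, IsAlgebraic K₀ y := fun y => alg_le hxK₀ (hal y)
  have hmap : ∀ P : MvPolynomial (Fin 3) k, MvPolynomial.aeval x (MvPolynomial.map (algebraMap k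
      (IntermediateField.adjoin k (C₀ : Set M))) P) = MvPolynomial.aeval x P := fun P =>
    MvPolynomial.aeval_map_algebraMap _ x P
  have hqE := hmap q
  have hgE : MvPolynomial.aeval x (MvPolynomial.map (algebraMap k
      (IntermediateField.adjoin k (C₀ : Set M))) g) = 0 :=
    (MvPolynomial.aeval_map_algebraMap _ x g).trans hg
  have hgE0 : MvPolynomial.map (algebraMap k
      (IntermediateField.adjoin k (C₀ : Set M))) g ≠ 0 := by
    intro h
    exact hg0 (MvPolynomial.map_injective _ (algebraMap k _).injective (by rw [h, map_zero]))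
  have hmw : ∀ (P : MvPolynomial (Fin 3) k) (n : ℕ), MvPolynomial.weightedTotalDegree ω P ≤ n →
      MvPolynomial.weightedTotalDegree ω (MvPolynomial.map (algebraMap k
        (IntermediateField.adjoin k (C₀ : Set M))) P) ≤ n := by
    intro P n hP
    rw [wtd_le_iff]
    intro m hm
    exact (wtd_le_iff ω P _).1 hP m (MvPolynomial.support_map_subset _ _ hm)
  have hqK₀ : MvPolynomial.aeval x q ∈ K₀ := by
    rw [hK₀, ← hqE]
    exact aeval_mem_sup _ x _
  have hyK₀ : ∀ i, y i ^ p - y i ∈ K₀ := by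
    intro i
    have h7 : y i ^ p - y i = MvPolynomial.aeval x (f i) / MvPolynomial.aeval x q ^ 1 := by
      rw [eq_div_iff (pow_ne_zero _ hq), hfy i]
    rw [h7]
    refine div_mem ?_ (pow_mem hqK₀ _)
    rw [hK₀]
    exact aeval_mem_sup _ x _
  -- the big field
  obtain ⟨K₁, hK₁⟩ : ∃ K₁, K₁ = KZ K₀ z := ⟨_, rfl⟩
  have hK₀₁ : K₀ ≤ K₁ := by
    rw [hK₁]
    exact le_sup_left
  have hzK₁ : z ∈ K₁ := by
    rw [hK₁]
    exact (le_sup_right : IntermediateField.adjoin k {z} ≤ _)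
      (IntermediateField.mem_adjoin_simple_self k z)
  have hK₁fg : K₁.FG := by
    rw [hK₁]
    exact IntermediateField.fg_sup hK₀fg ⟨{z}, by rw [Finset.coe_singleton]⟩
  have hK₁al : ∀ y : M, IsAlgebraic K₁ y := fun y => alg_le hK₀₁ (hK₀al y)
  have hyK₁ : ∀ i, y i ^ p - y i ∈ K₁ := fun i => hK₀₁ (hyK₀ i)
  have hK'fg : (K₁ ⊔ IntermediateField.adjoin k (Set.range y) : IntermediateField k M).FG :=
    IntermediateField.fg_sup hK₁fg hyfg
  have hFK' : F ≤ K₁ ⊔ IntermediateField.adjoin k (Set.range y) := by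
    refine hF.trans ?_
    rw [IntermediateField.adjoin_le_iff]
    rintro u (hu | rfl | hu)
    · exact (le_sup_left : K₁ ≤ _) (hK₀₁ (hxK₀ (IntermediateField.subset_adjoin _ _ hu)))
    · exact (le_sup_left : K₁ ≤ _) hzK₁
    · have h7 := hz' u hu
      rw [← hK₀] at h7
      exact (sup_le_sup_right hK₀₁ _) h7
  refine emt_of_inj (K' := K₁ ⊔ IntermediateField.adjoin k (Set.range y)) (ι := Fin r → ZMod p)
    (fun ℓ hℓ => vl_res F _ hFK' hK'fg hFal hℓ) _
    (fun ℓ hℓ _ => ea_inj K₁ hK₁fg hK₁al p y hyK₁ hℓ) fun c => ?_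
  -- the cyclic case
  show Emt (K₁ ⊔ IntermediateField.adjoin k {∑ i, ((c i).val : M) * y i})
  have hY := comb_eq p (fun i => (c i).val) y
  set Y := ∑ i, ((c i).val : M) * y i with hYdef
  have hYa : aeval Y (X ^ p - X : k[X]) = Y ^ p - Y := by
    rw [map_sub, map_pow, aeval_X]
  have hYK₀' : Y ^ p - Y ∈ K₀ := by
    rw [hY]
    exact sum_mem fun i _ => mul_mem (natCast_mem K₀ _) (hyK₀ i)
  have hYK₀ : aeval Y (X ^ p - X : k[X]) ∈ K₀ := by
    rw [hYa]
    exact hYK₀'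
  have hzK₀ : z ^ e ∈ K₀ := by
    rw [hz, ← hmap H, hK₀]
    exact aeval_mem_sup _ x _
  have hμ : ∀ ζ : M, ζ ^ e = 1 → ζ ∈ K₀ := by
    intro ζ hζ
    rw [hK₀]
    exact (le_sup_left : IntermediateField.adjoin k (C₀ : Set M) ≤ _)
      (IntermediateField.subset_adjoin _ _ (hμC ζ hζ))
  have hGE : MvPolynomial.map (algebraMap k (IntermediateField.adjoin k (C₀ : Set M))) G₁ *
      MvPolynomial.map (algebraMap k (IntermediateField.adjoin k (C₀ : Set M))) Q₁ ^ p =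
      MvPolynomial.map (algebraMap k (IntermediateField.adjoin k (C₀ : Set M))) q := by
    rw [hqdef, map_mul, map_pow]
  have hGE' : MvPolynomial.map (algebraMap k (IntermediateField.adjoin k (C₀ : Set M))) G₂ *
      MvPolynomial.map (algebraMap k (IntermediateField.adjoin k (C₀ : Set M))) Q₂ ^ e =
      MvPolynomial.map (algebraMap k (IntermediateField.adjoin k (C₀ : Set M))) q := by
    rw [hqdef, hG, map_mul, map_pow]
  have hfY : (Y ^ p - Y) * MvPolynomial.aeval x q = MvPolynomial.aeval x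
      (∑ i, ((c i).val : IntermediateField.adjoin k (C₀ : Set M)) • f i) := by
    rw [hY, map_sum, Finset.sum_mul]
    refine Finset.sum_congr rfl fun i _ => ?_
    have h7 := hfy i
    rw [pow_one] at h7
    rw [mul_assoc, h7, map_smul, Algebra.smul_def, map_natCast]
  have hfw : MvPolynomial.weightedTotalDegree ω
      (∑ i, ((c i).val : IntermediateField.adjoin k (C₀ : Set M)) • f i) ≤ D := by
    rw [wtd_le_iff]
    intro d hd
    obtain ⟨i, -, hi⟩ := Finset.mem_biUnion.1 (MvPolynomial.support_sum hd)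
    exact (wtd_le_iff ω (f i) D).1 (hf i) d (MvPolynomial.support_smul hi)
  have htr : Algebra.trdeg k (IntermediateField.adjoin k (C₀ : Set M)) + ((3 : ℕ) : Cardinal.{u}) =
      3 := by
    rw [hEtd]
    norm_num
  have hsum : d + D ≤ ∑ i, ω i + α + γ := by
    rw [Fin.sum_univ_three]
    exact h5
  have hfamX : FamX K₀ Y p e := by
    refine ⟨3, IntermediateField.adjoin k (C₀ : Set M), x, MvPolynomial.map (algebraMap k _) g,
      ∑ i, ((c i).val : IntermediateField.adjoin k (C₀ : Set M)) • f i,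
      MvPolynomial.map (algebraMap k _) G₁, MvPolynomial.map (algebraMap k _) Q₁,
      MvPolynomial.map (algebraMap k _) G₂, MvPolynomial.map (algebraMap k _) Q₂,
      ω, α, γ, τ₁, κ₁, τ₂, d, D, hEfg, hK₀, htr, hgE0, hgE, ?_, ?_, ?_, hmw _ _ h0,
      hfw, hmw _ _ t1, hmw _ _ t2, hmw _ _ t3, ?_, h2, h3, h4, hsum⟩
    · rw [hGE, hGE']
    · rw [hGE, hqE]
      exact hq
    · rw [hGE, hqE]
      exact hfY
    · omega
  have e1 : Emt K₀ := hfamX.emt p K₀ htd hK₀al e he hek Y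
  have e2 : Emt (KZ K₀ Y) := emt_cyclicX p K₀ hK₀fg htd hK₀al e he hek Y hYK₀ hfamX
  have e3 : Emt (KZ K₀ z) := by
    rw [hK₀]
    exact hemt C₀ hC₀ hμC
  have irrZ : Irreducible (X ^ e - C (⟨z ^ e, hzK₀⟩ : K₀)) := by
    subst hK₀
    exact hirr C₀ hC₀ hzK₀
  have hfamM : FamM K₀ Y z p e := by
    refine ⟨3, IntermediateField.adjoin k (C₀ : Set M), x, MvPolynomial.map (algebraMap k _) g,
      ∑ i, ((c i).val : IntermediateField.adjoin k (C₀ : Set M)) • f i,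
      MvPolynomial.map (algebraMap k _) G₁, MvPolynomial.map (algebraMap k _) Q₁,
      MvPolynomial.map (algebraMap k _) (G₂ * H), MvPolynomial.map (algebraMap k _) Q₂,
      ω, α, γ, τ₁, κ₁, τ₂ + η, d, D, hEfg, hK₀, htr, hgE0, hgE, ?_, ?_, ?_, hmw _ _ h0,
      hfw, hmw _ _ t1, hmw _ _ t2, hmw _ _ (wle_mul _ _ _ _ _ t3 t4), h1, h2, h3, h4, hsum⟩
    · rw [hGE, hqE, hz, map_mul (MvPolynomial.map _), mul_right_comm, hGE', map_mul, hqE, hmap H,
        mul_comm]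
    · rw [hGE, hqE]
      exact hq
    · rw [hGE, hqE]
      exact hfY
  have e4 := emt_cyclicM p K₀ hK₀fg htd hK₀al e he hek hμ Y z hYK₀' hzK₀ z0 irrZ hfamM e1 e2 e3
  have e5 : (K₁ ⊔ IntermediateField.adjoin k {Y} : IntermediateField k M) = KYZ K₀ Y z := by
    rw [hK₁]
    show (K₀ ⊔ IntermediateField.adjoin k {z}) ⊔ IntermediateField.adjoin k {Y} =
      (K₀ ⊔ IntermediateField.adjoin k {Y}) ⊔ IntermediateField.adjoin k {z}
    rw [sup_right_comm]
  rw [e5]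
  exact e4

/-- **Towers.** `z ^ e = H(x)`, `φ(z') = f(x) / G(x)` for `z' ∈ S`. -/
theorem tower_injM [IsAlgClosed M] (p : ℕ) [Fact p.Prime] [CharP k p]
    (htd : Algebra.trdeg k M = 2) (x : Fin 3 → M)
    (hal : ∀ y : M, IsAlgebraic (IntermediateField.adjoin k (Set.range x)) y)
    (g G₁ Q₁ G₂ Q₂ H : MvPolynomial (Fin 3) k) (hg0 : g ≠ 0) (hg : MvPolynomial.aeval x g = 0)
    (ω : Fin 3 → ℕ) (e α γ τ₁ κ₁ τ₂ η d D : ℕ) (he : 2 ≤ e) (hek : (e : k) ≠ 0) (z : M)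
    (z0 : z ≠ 0) (hz : z ^ e = MvPolynomial.aeval x H)
    (hG : G₁ * Q₁ ^ p = G₂ * Q₂ ^ e) (hG0 : MvPolynomial.aeval x (G₁ * Q₁ ^ p) ≠ 0)
    (h0 : MvPolynomial.weightedTotalDegree ω g ≤ d)
    (t1 : MvPolynomial.weightedTotalDegree ω G₁ ≤ τ₁)
    (t2 : MvPolynomial.weightedTotalDegree ω Q₁ ≤ κ₁)
    (t3 : MvPolynomial.weightedTotalDegree ω G₂ ≤ τ₂)
    (t4 : MvPolynomial.weightedTotalDegree ω H ≤ η)
    (h1 : τ₂ + η + e * α ≤ D) (h2 : τ₁ + p * γ ≤ D) (h3 : τ₁ + (p - 1) * κ₁ + γ ≤ D)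
    (h4 : τ₁ + p * κ₁ + 1 ≤ D) (h5 : d + D ≤ ω 0 + ω 1 + ω 2 + α + γ) (S : Finset M)
    (hS : ∀ z ∈ S, ∃ (φ : k[X]) (f : MvPolynomial (Fin 3) k), AddPoly φ ∧ derivative φ ≠ 0 ∧
      MvPolynomial.weightedTotalDegree ω f ≤ D ∧
        aeval z φ * MvPolynomial.aeval x (G₁ * Q₁ ^ p) = MvPolynomial.aeval x f)
    (hirr : ∀ C₀ : Finset M, (∀ c ∈ C₀, IsAlgebraic k c) →
      ∀ zK : z ^ e ∈ IntermediateField.adjoin k (C₀ : Set M) ⊔
        IntermediateField.adjoin k (Set.range x),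
        Irreducible (X ^ e - C (⟨z ^ e, zK⟩ : (IntermediateField.adjoin k (C₀ : Set M) ⊔
          IntermediateField.adjoin k (Set.range x) : IntermediateField k M))))
    (hemt : ∀ C₀ : Finset M, (∀ c ∈ C₀, IsAlgebraic k c) →
      Emt (KZ (IntermediateField.adjoin k (C₀ : Set M) ⊔
        IntermediateField.adjoin k (Set.range x)) z))
    (F : IntermediateField k M)
    (hF : F ≤ IntermediateField.adjoin k (Set.range x ∪ insert z (S : Set M)))
    (hFal : ∀ y : M, IsAlgebraic F y) : Emt F :=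
  tower_injMμ p htd x hal g G₁ Q₁ G₂ Q₂ H hg0 hg ω e α γ τ₁ κ₁ τ₂ η d D he hek z z0 hz hG hG0 h0 t1
    t2 t3 t4 h1 h2 h3 h4 h5 S hS hirr (fun C₀ hC₀ _ => hemt C₀ hC₀) F hF hFal

end

end Pool.Agent.FRB
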