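import Pool.Agent.FRB.C9c
import Pool.Agent.WLD.W7

/-!
# W9: `V ⊉ H`, the analysis of `U`
-/

set_option autoImplicit false

namespace Pool.Agent.FRB

open Polynomial Pool.Agent.TBR Pool.Agent.TUQ Pool.Agent.WLD

universe u

section

variable {k Ω : Type u} [Field k] [Field Ω] [Algebra k Ω]
variable {A H : IntermediateField k Ω} {V : ValuationSubring Ω} {r : V →+* Ω}
variable {K₀ : IntermediateField k A} {z : A} {φ : k[X]} {e : ℕ} {a w U t : Ω}

/-- W9, case c1: `U` is integral up to an element of `H` -/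
theorem exists_K2_of_int [IsAlgClosed Ω] [IsAlgClosed H] [IsAlgClosed A]
    (hlft : ∀ (E : IntermediateField k Ω), (∀ x : Ω, IsAlgebraic E x) → ∀ g : A ≃ₐ[k] A,
      (∀ x ∈ E, ∀ (h : x ∈ V) (y : A), r ⟨x, h⟩ = y → g y = y) →
      ∃ σ ∈ Fx k (E : Set Ω), Lft A V r σ g)
    (hc : CfC H φ e a U) (hP : Plc A V r) (α π : H) (hπ : π ≠ 0)
    (hV : (a - α) / π ∈ V) (hη : r ⟨(a - α) / π, hV⟩ ∉ kap hP.res hP.mem H)
    (β D : H) (hD : V.valuation (D : Ω) ≤ 1) (y : Ω) (hy : y ∈ V) (j : ℕ) (hj : j ≠ 0)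
    (hx : aeval (U - β) φ = D * y) (hyr : r ⟨y, hy⟩ = r ⟨(a - α) / π, hV⟩ ^ j) :
    ∃ K₂ : IntermediateField k A, K₂.FG ∧ Algebra.trdeg k K₂ ≤ 1 ∧
      (∃ η ∈ K₂, (η : Ω) ∉ kap hP.res hP.mem H) ∧
      ∀ g : A ≃ₐ[k] A, (∀ x ∈ kA hP.res hP.mem H, g x = x) → (∀ x ∈ K₂, g x = x) →
        ∃ σ ∈ Fx k (H : Set Ω), σ a = a ∧ σ U = U ∧ Lft A V r σ g := by
  classical
  have hkc := kap_closed hP.res hP.mem H
  have haH := notMem_of_kap hP α π hV hη
  have hφdeg : 0 < φ.natDegree := by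
    have := hc.ad.deg
    omega
  have hDV : (D : Ω) ∈ V := (V.valuation_le_one_iff _).1 hD
  have hφV : aeval (U - (β : Ω)) φ ∈ V := by
    rw [hx]
    exact mul_mem hDV hy
  have hu : U - (β : Ω) ∈ V := mem_of_aeval hφdeg hP hφV
  set η : Ω := r ⟨(a - α) / π, hV⟩ with hηdef
  set κ := kap hP.res hP.mem H with hκ
  have hvA : r ⟨U - (β : Ω), hu⟩ ∈ A := hP.res.mem _
  set v : A := ⟨r ⟨U - (β : Ω), hu⟩, hvA⟩ with hvdef
  -- the equation of the residues
  have hφv : aeval (v : Ω) φ = r ⟨D, hDV⟩ * η ^ j := by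
    have h1 : aeval (v : Ω) φ = r ⟨aeval (U - (β : Ω)) φ, hP.aeval_mem φ hu⟩ :=
      (hP.res_aeval φ hu).symm
    rw [h1, ← hyr, ← map_mul]
    congr 1
    exact Subtype.ext hx
  have hDκ : r ⟨D, hDV⟩ ∈ κ := res_mem_kap hP.res hP.mem H hDV D.2
  -- the choice of the generator
  obtain ⟨η', hη', hle, hval⟩ : ∃ η' : A, (η' : Ω) ∉ κ ∧ AA κ {η} ≤ AA κ {(η' : Ω)} ∧
      IsAlgebraic (IntermediateField.adjoin k {η'}) v := by
    have hηA : η ∈ A := hP.res.mem _
    by_cases hD0 : r ⟨D, hDV⟩ = 0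
    · refine ⟨⟨η, hηA⟩, hη, le_rfl, ?_⟩
      rw [hD0, zero_mul] at hφv
      have h1 : aeval v φ = 0 := by
        apply Subtype.ext
        have h2 : ((aeval v φ : A) : Ω) = aeval (v : Ω) φ := by
          rw [← IntermediateField.algebraMap_apply, ← Polynomial.aeval_algebraMap_apply]
          rfl
        rw [h2, hφv]
        rfl
      exact (hc.ad.alg h1).tower_top _
    · obtain ⟨s, hs⟩ := IsAlgClosed.exists_pow_nat_eq (⟨_, hDκ⟩ : κ) (Nat.pos_of_ne_zero hj)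
      have hs' : (s : Ω) ^ j = r ⟨D, hDV⟩ := congrArg Subtype.val hs
      have hs0 : (s : Ω) ≠ 0 := by
        intro h0
        rw [h0, zero_pow hj] at hs'
        exact hD0 hs'.symm
      have hsA : (s : Ω) ∈ A := kap_le hP.res hP.mem H s.2
      refine ⟨⟨s * η, mul_mem hsA hηA⟩, ?_, ?_, ?_⟩
      · intro hmem
        apply hη
        have h1 : (s : Ω) * η ∈ κ := hmem
        have h2 := div_mem h1 s.2
        rwa [mul_div_cancel_left₀ _ hs0] at h2
      · refine sup_le le_sup_left ?_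
        rw [IntermediateField.adjoin_le_iff, Set.singleton_subset_iff]
        have h1 : (s : Ω) * η ∈ AA κ {(s : Ω) * η} :=
          (le_sup_right : IntermediateField.adjoin k {(s : Ω) * η} ≤ _)
            (IntermediateField.mem_adjoin_simple_self k _)
        have h2 : (s : Ω) ∈ AA κ {(s : Ω) * η} := Pool.Agent.TBR.V.le_AA _ _ s.2
        have h3 := div_mem h1 h2
        rw [mul_div_cancel_left₀ _ hs0] at h3
        exact h3
      · set η' : A := ⟨s * η, mul_mem hsA hηA⟩ with hη'def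
        have h1 : aeval v φ = η' ^ j := by
          apply Subtype.ext
          have h2 : ((aeval v φ : A) : Ω) = aeval (v : Ω) φ := by
            rw [← IntermediateField.algebraMap_apply, ← Polynomial.aeval_algebraMap_apply]
            rfl
          rw [h2, hφv, ← hs', ← mul_pow]
          rfl
        let η'' : IntermediateField.adjoin k {η'} :=
          ⟨η', IntermediateField.mem_adjoin_simple_self k η'⟩
        refine ⟨φ.map (algebraMap k (IntermediateField.adjoin k {η'})) - C (η'' ^ j), ?_, ?_⟩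
        · intro h0
          have h3 : (φ.map (algebraMap k (IntermediateField.adjoin k {η'})) -
              C (η'' ^ j)).natDegree = φ.natDegree := by
            rw [natDegree_sub_C, natDegree_map]
          rw [h0, natDegree_zero] at h3
          omega
        · rw [map_sub, aeval_map_algebraMap, aeval_C, h1, map_pow]
          exact sub_self _
  obtain ⟨hfg, htr⟩ := trdeg_adjoin_of_alg (k := k) η' ({η', v} : Finset A) (by
    intro x hx
    rw [Finset.mem_insert, Finset.mem_singleton] at hx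
    rcases hx with rfl | rfl
    · exact isAlgebraic_algebraMap (⟨x, IntermediateField.mem_adjoin_simple_self k x⟩ :
        IntermediateField.adjoin k {x})
    · exact hval)
  have hmem : ∀ x ∈ ({η', v} : Finset A),
      x ∈ IntermediateField.adjoin k (({η', v} : Finset A) : Set A) := fun x hx =>
    IntermediateField.subset_adjoin k _ (Finset.mem_coe.2 hx)
  have hηm : η' ∈ IntermediateField.adjoin k (({η', v} : Finset A) : Set A) :=
    hmem η' (Finset.mem_insert_self _ _)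
  have hvm : v ∈ IntermediateField.adjoin k (({η', v} : Finset A) : Set A) :=
    hmem v (Finset.mem_insert_of_mem (Finset.mem_singleton_self _))
  refine ⟨_, hfg, htr, ⟨η', hηm, hη'⟩, fun g hgκ hgK => ?_⟩
  have hκA : κ ≤ A := kap_le hP.res hP.mem H
  obtain ⟨σ, hσ, hL⟩ := hlft (AA H {a}) (hc.trH a haH) g (by
    intro x hx h y hy
    refine fixed_of_mem g κ hκA
      (fun x hx => hgκ x ((mem_kA _ _ _ _).2 hx)) η' v (hgK η' hηm) (hgK v hvm) y ?_
    rw [← hy]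
    exact Pool.Agent.TBR.V.le_AA _ _ (hle (res_Ha hP a α π hπ hV hη x hx h)))
  have hHE : H ≤ AA H {a} := le_sup_left
  have hσa : σ a = a := hσ a ((le_sup_right : IntermediateField.adjoin k {a} ≤ AA H {a})
      (IntermediateField.mem_adjoin_simple_self k a))
  refine ⟨σ, fun x hx => hσ x (hHE hx), hσa, ?_, hL⟩
  -- `σ` fixes `U`
  have hφc : aeval (σ U - U) φ = 0 := by
    rw [add_sub' hc.ad.add]
    have h1 : aeval (σ U) φ = σ (aeval U φ) := Polynomial.aeval_algHom_apply (σ : Ω →ₐ[k] Ω) U φ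
    rw [h1, hc.eqU, map_pow, hσa, sub_self]
  have hcA : σ U - U ∈ A := g_mem_of_alg A _ ((hc.ad.alg hφc).tower_top _)
  have hσβ : σ (β : Ω) = β := hσ _ (hHE β.2)
  have hσu : σ (U - (β : Ω)) ∈ V := (hL.mem _).2 hu
  have hrσ : r ⟨σ (U - (β : Ω)), hσu⟩ = r ⟨U - (β : Ω), hu⟩ := by
    rw [hL.res (U - (β : Ω)) hu hσu v rfl, hgK v hvm]
  have hdiff : σ (U - (β : Ω)) - (U - (β : Ω)) = σ U - U := by
    rw [map_sub, hσβ]
    ring
  have h2 : V.valuation (σ U - U) < 1 := by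
    rw [← hdiff]
    exact (hP.res.eq_of_sub hP.mem hσu hu).1 hrσ
  by_contra hne
  have h3 : σ U - U ≠ 0 := sub_ne_zero.2 hne
  rw [hP.val_A hcA h3] at h2
  exact lt_irrefl _ h2

/-- W9 with the lifting lemma as a hypothesis -/
theorem CfC.exists_K2' [IsAlgClosed Ω] [IsAlgClosed H] [IsAlgClosed A]
    (hlft : ∀ (E : IntermediateField k Ω), (∀ x : Ω, IsAlgebraic E x) → ∀ g : A ≃ₐ[k] A,
      (∀ x ∈ E, ∀ (h : x ∈ V) (y : A), r ⟨x, h⟩ = y → g y = y) →
      ∃ σ ∈ Fx k (E : Set Ω), Lft A V r σ g)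
    (hc : CfC H φ e a U) (hP : Plc A V r)
    (α π : H) (hπ : π ≠ 0) (hV : (a - α) / π ∈ V)
    (hη : r ⟨(a - α) / π, hV⟩ ∉ kap hP.res hP.mem H) :
    ∃ K₂ : IntermediateField k A, K₂.FG ∧ Algebra.trdeg k K₂ ≤ 1 ∧
      (∃ η ∈ K₂, (η : Ω) ∉ kap hP.res hP.mem H) ∧
      ∀ g : A ≃ₐ[k] A, (∀ x ∈ kA hP.res hP.mem H, g x = x) → (∀ x ∈ K₂, g x = x) →
        ∃ σ ∈ Fx k (H : Set Ω), σ a = a ∧ σ U = U ∧ Lft A V r σ g := by
  classical
  obtain ⟨p, n, hp, hk, hn, hQ, hpe⟩ := hc.ad.exists_p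
  have he0 : e ≠ 0 := by
    have := hc.ad.e2
    omega
  -- the general step
  have key : ∀ (α π : H) (hπ : π ≠ 0) (hV : (a - α) / π ∈ V)
      (hη : r ⟨(a - α) / π, hV⟩ ∉ kap hP.res hP.mem H) (β D : H) (y : Ω) (hy : y ∈ V) (j : ℕ)
      (hj0 : j ≠ 0) (hj : ¬ p ∣ j) (hx : aeval (U - β) φ = D * y)
      (hyr : r ⟨y, hy⟩ = r ⟨(a - α) / π, hV⟩ ^ j),
      ∃ K₂ : IntermediateField k A, K₂.FG ∧ Algebra.trdeg k K₂ ≤ 1 ∧
      (∃ η ∈ K₂, (η : Ω) ∉ kap hP.res hP.mem H) ∧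
      ∀ g : A ≃ₐ[k] A, (∀ x ∈ kA hP.res hP.mem H, g x = x) → (∀ x ∈ K₂, g x = x) →
        ∃ σ ∈ Fx k (H : Set Ω), σ a = a ∧ σ U = U ∧ Lft A V r σ g := by
    intro α π hπ hV hη β D y hy j hj0 hj hx hyr
    rcases le_or_gt (V.valuation (D : Ω)) 1 with hD | hD
    · exact exists_K2_of_int hlft hc hP α π hπ hV hη β D hD y hy j hj0 hx hyr
    · obtain ⟨ρ, hρ, hu, h1⟩ := exists_rho hc.ad.deg hP (U - β) D hD y hy hx
      exact exists_K2_of_pow hlft hc hP α π hπ hV hη β ρ hρ hu p j hp hk hj (by rw [h1, hyr])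
  rcases exists_center hP α π hπ hV hη with ⟨hV', hη'⟩ | h
  · refine key 0 π hπ hV' hη' 0 (π ^ e) (((a - (0 : H)) / π) ^ e) (pow_mem hV' e) e he0 hpe ?_ ?_
    · have h1 : U - ((0 : H) : Ω) = U := sub_zero U
      have h2 : (a - ((0 : H) : Ω)) / π = a / π := by rw [show ((0 : H) : Ω) = 0 from rfl, sub_zero]
      have hπ' : (π : Ω) ≠ 0 := fun h0 => hπ (Subtype.ext h0)
      rw [h1, hc.eqU, h2]
      push_cast
      rw [← mul_pow, mul_div_cancel₀ _ hπ']
    · rw [← map_pow]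
      rfl
  · obtain ⟨D, y, hy, -, h1, h2⟩ := pow_center hP hc.ad.ek α π hπ hV h
    -- the center of `U`
    obtain ⟨β, hβ⟩ : ∃ β : H, aeval β φ = α ^ e := by
      have h3 : (φ.map (algebraMap k H) - C (α ^ e)).degree ≠ 0 := by
        intro h0
        have h4 : (φ.map (algebraMap k H) - C (α ^ e)).natDegree = 0 :=
          Polynomial.natDegree_eq_zero_iff_degree_le_zero.2 h0.le
        rw [natDegree_sub_C, natDegree_map] at h4
        have h5 := hc.ad.deg
        omega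
      obtain ⟨β, hβ⟩ := IsAlgClosed.exists_root _ h3
      refine ⟨β, ?_⟩
      rw [IsRoot.def, eval_sub, eval_C, eval_map_algebraMap, sub_eq_zero] at hβ
      exact hβ
    have hβ' : aeval (β : Ω) φ = (α : Ω) ^ e := by
      have h3 := congrArg Subtype.val hβ
      have h4 : ((aeval β φ : H) : Ω) = aeval (β : Ω) φ := by
        rw [← IntermediateField.algebraMap_apply, ← Polynomial.aeval_algebraMap_apply]
        rfl
      rw [h4] at h3
      exact h3
    refine key α π hπ hV hη β D y hy 1 one_ne_zero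
      (fun h => hp.one_lt.ne' (Nat.dvd_one.1 h)) ?_ (by rw [pow_one]; exact h2)
    rw [add_sub' hc.ad.add, hc.eqU, hβ', h1]

/-- W9 -/
theorem CfC.exists_K2 [IsAlgClosed Ω] [IsAlgClosed H] [IsAlgClosed A]
    (hc : CfC H φ e a U) (hP : Plc A V r)
    (α π : H) (hπ : π ≠ 0) (hV : (a - α) / π ∈ V)
    (hη : r ⟨(a - α) / π, hV⟩ ∉ kap hP.res hP.mem H) :
    ∃ K₂ : IntermediateField k A, K₂.FG ∧ Algebra.trdeg k K₂ ≤ 1 ∧
      (∃ η ∈ K₂, (η : Ω) ∉ kap hP.res hP.mem H) ∧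
      ∀ g : A ≃ₐ[k] A, (∀ x ∈ kA hP.res hP.mem H, g x = x) → (∀ x ∈ K₂, g x = x) →
        ∃ σ ∈ Fx k (H : Set Ω), σ a = a ∧ σ U = U ∧ Lft A V r σ g :=
  CfC.exists_K2' (fun E halg g hg => exists_lft hP E halg g hg) hc hP α π hπ hV hη

end

end Pool.Agent.FRB
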