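import Pool.Agent.FRB.Defs
import Pool.Agent.WLD.W9

/-!
# W9, the totally ramified case: `U` has a purely inseparable residue
-/

set_option autoImplicit false

namespace Pool.Agent.FRB

open Polynomial Pool.Agent.TBR Pool.Agent.TUQ Pool.Agent.WLD

universe u

section

variable {k Ω : Type u} [Field k] [Field Ω] [Algebra k Ω]
variable {A H : IntermediateField k Ω} {V : ValuationSubring Ω} {r : V →+* Ω}
variable {K₀ : IntermediateField k A} {z : A} {φ : k[X]} {e : ℕ} {a w U t : Ω}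

/-- the conclusion from a description of the residue field of `H(a, U)` -/
theorem exists_K2_of_res [IsAlgClosed A]
    (hlft : ∀ (E : IntermediateField k Ω), (∀ x : Ω, IsAlgebraic E x) → ∀ g : A ≃ₐ[k] A,
      (∀ x ∈ E, ∀ (h : x ∈ V) (y : A), r ⟨x, h⟩ = y → g y = y) →
      ∃ σ ∈ Fx k (E : Set Ω), Lft A V r σ g)
    (hc : CfC H φ e a U) (hP : Plc A V r) (haH : a ∉ H) (η v : A)
    (hη : (η : Ω) ∉ kap hP.res hP.mem H)
    (hv : IsAlgebraic (IntermediateField.adjoin k {η}) v)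
    (hres : ∀ x ∈ AA (AA H {a}) {U}, ∀ h : x ∈ V,
      r ⟨x, h⟩ ∈ AA (AA (kap hP.res hP.mem H) {(η : Ω)}) {(v : Ω)}) :
    ∃ K₂ : IntermediateField k A, K₂.FG ∧ Algebra.trdeg k K₂ ≤ 1 ∧
      (∃ η ∈ K₂, (η : Ω) ∉ kap hP.res hP.mem H) ∧
      ∀ g : A ≃ₐ[k] A, (∀ x ∈ kA hP.res hP.mem H, g x = x) → (∀ x ∈ K₂, g x = x) →
        ∃ σ ∈ Fx k (H : Set Ω), σ a = a ∧ σ U = U ∧ Lft A V r σ g := by
  classical
  obtain ⟨hfg, htr⟩ := trdeg_adjoin_of_alg (k := k) η ({η, v} : Finset A) (by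
    intro x hx
    rw [Finset.mem_insert, Finset.mem_singleton] at hx
    rcases hx with rfl | rfl
    · exact isAlgebraic_algebraMap (⟨x, IntermediateField.mem_adjoin_simple_self k x⟩ :
        IntermediateField.adjoin k {x})
    · exact hv)
  have hmem : ∀ x ∈ ({η, v} : Finset A),
      x ∈ IntermediateField.adjoin k (({η, v} : Finset A) : Set A) := fun x hx =>
    IntermediateField.subset_adjoin k _ (Finset.mem_coe.2 hx)
  have hηm : η ∈ IntermediateField.adjoin k (({η, v} : Finset A) : Set A) :=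
    hmem η (Finset.mem_insert_self _ _)
  have hvm : v ∈ IntermediateField.adjoin k (({η, v} : Finset A) : Set A) :=
    hmem v (Finset.mem_insert_of_mem (Finset.mem_singleton_self _))
  refine ⟨_, hfg, htr, ⟨η, hηm, hη⟩, fun g hgκ hgK => ?_⟩
  have hle : AA H {a} ≤ AA (AA H {a}) {U} := le_sup_left
  obtain ⟨σ, hσ, hL⟩ := hlft (AA (AA H {a}) {U})
    (fun x => isAlg_mono hle (hc.trH a haH x)) g (by
      intro x hx h y hy
      refine fixed_of_mem g (kap hP.res hP.mem H) (kap_le _ _ _)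
        (fun x hx => hgκ x ((mem_kA _ _ _ _).2 hx)) η v (hgK η hηm) (hgK v hvm) y ?_
      rw [← hy]
      exact hres x hx h)
  have hHE : H ≤ AA (AA H {a}) {U} := le_sup_left.trans hle
  refine ⟨σ, fun x hx => hσ x (hHE hx), hσ a (hle ?_), hσ U ?_, hL⟩
  · exact (le_sup_right : IntermediateField.adjoin k {a} ≤ AA H {a})
      (IntermediateField.mem_adjoin_simple_self k a)
  · exact (le_sup_right : IntermediateField.adjoin k {U} ≤ AA (AA H {a}) {U})
      (IntermediateField.mem_adjoin_simple_self k U)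

/-- W9, case c2 -/
theorem exists_K2_of_pow [IsAlgClosed Ω] [IsAlgClosed H] [IsAlgClosed A]
    (hlft : ∀ (E : IntermediateField k Ω), (∀ x : Ω, IsAlgebraic E x) → ∀ g : A ≃ₐ[k] A,
      (∀ x ∈ E, ∀ (h : x ∈ V) (y : A), r ⟨x, h⟩ = y → g y = y) →
      ∃ σ ∈ Fx k (E : Set Ω), Lft A V r σ g)
    (hc : CfC H φ e a U) (hP : Plc A V r) (α π : H) (hπ : π ≠ 0)
    (hV : (a - α) / π ∈ V) (hη : r ⟨(a - α) / π, hV⟩ ∉ kap hP.res hP.mem H)
    (β ρ : H) (hρ : ρ ≠ 0) (hu : (U - β) / ρ ∈ V) (p j : ℕ) (hp : p.Prime) (hk : CharP k p)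
    (hj : ¬ p ∣ j)
    (h : r ⟨(U - β) / ρ, hu⟩ ^ φ.natDegree = r ⟨(a - α) / π, hV⟩ ^ j) :
    ∃ K₂ : IntermediateField k A, K₂.FG ∧ Algebra.trdeg k K₂ ≤ 1 ∧
      (∃ η ∈ K₂, (η : Ω) ∉ kap hP.res hP.mem H) ∧
      ∀ g : A ≃ₐ[k] A, (∀ x ∈ kA hP.res hP.mem H, g x = x) → (∀ x ∈ K₂, g x = x) →
        ∃ σ ∈ Fx k (H : Set Ω), σ a = a ∧ σ U = U ∧ Lft A V r σ g := by
  classical
  obtain ⟨p', n, hp', hk', hn, hQ, -⟩ := hc.ad.exists_p
  obtain rfl : p = p' := CharP.eq k hk hk'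
  have hkc := kap_closed hP.res hP.mem H
  have := Fact.mk hp
  have haH := notMem_of_kap hP α π hV hη
  have hρ' : (ρ : Ω) ≠ 0 := fun h0 => hρ (Subtype.ext h0)
  refine exists_K2_of_res hlft hc hP haH ⟨r ⟨(a - α) / π, hV⟩, hP.res.mem _⟩
    ⟨r ⟨(U - β) / ρ, hu⟩, hP.res.mem _⟩ hη ?_ ?_
  · -- algebraic
    refine IsAlgebraic.of_pow (n := φ.natDegree) (Nat.pos_of_ne_zero ?_) ?_
    · have := hc.ad.deg
      omega
    have h1 : (⟨r ⟨(U - β) / ρ, hu⟩, hP.res.mem _⟩ : A) ^ φ.natDegree =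
        ⟨r ⟨(a - α) / π, hV⟩, hP.res.mem _⟩ ^ j := Subtype.ext h
    rw [h1]
    exact isAlgebraic_algebraMap (⟨_, pow_mem (IntermediateField.mem_adjoin_simple_self k _) j⟩ :
      IntermediateField.adjoin k {(⟨r ⟨(a - α) / π, hV⟩, hP.res.mem _⟩ : A)})
  · have hind := ind_pow (kap hP.res hP.mem H) (r ⟨(a - α) / π, hV⟩) hη p n j hj 1 (one_mem _)
      one_ne_zero (r ⟨(U - β) / ρ, hu⟩) (by rw [one_mul, ← hQ]; exact h)
    have hHE : H ≤ AA H {a} := le_sup_left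
    have haE : a ∈ AA H {a} := (le_sup_right : IntermediateField.adjoin k {a} ≤ AA H {a})
      (IntermediateField.mem_adjoin_simple_self k a)
    let ρ' : AA H {a} := ⟨ρ, hHE ρ.2⟩
    let β' : AA H {a} := ⟨β, hHE β.2⟩
    let a' : AA H {a} := ⟨a, haE⟩
    have hρ0 : ρ' ≠ 0 := fun h0 => hρ' (congrArg Subtype.val h0)
    let P : (AA H {a})[X] := (φ.map (algebraMap k (AA H {a}))).comp (C ρ' * X + C β') - C (a' ^ e)
    have hPdeg : P.natDegree = p ^ n := by
      show ((φ.map (algebraMap k (AA H {a}))).comp (C ρ' * X + C β') - C (a' ^ e)).natDegree = _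
      rw [natDegree_sub_C, natDegree_comp, natDegree_map, hQ, natDegree_linear hρ0, mul_one]
    have hP0 : P ≠ 0 := by
      intro h0
      rw [h0, natDegree_zero] at hPdeg
      exact (pow_pos hp.pos n).ne hPdeg
    have hval : (ρ : Ω) * ((U - β) / ρ) + β = U := by
      rw [mul_div_cancel₀ _ hρ']
      ring
    have hroot : aeval ((U - β) / (ρ : Ω)) P = 0 := by
      show aeval ((U - β) / (ρ : Ω))
        ((φ.map (algebraMap k (AA H {a}))).comp (C ρ' * X + C β') - C (a' ^ e)) = 0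
      rw [map_sub, aeval_comp, map_add, map_mul, aeval_C, aeval_C, aeval_X, aeval_C]
      have h2 : (algebraMap (AA H {a}) Ω ρ') * ((U - β) / (ρ : Ω)) + algebraMap (AA H {a}) Ω β' =
        U := hval
      rw [h2, aeval_map_algebraMap, hc.eqU, map_pow]
      exact sub_self _
    obtain ⟨P', hm, hd, hr'⟩ := exists_monic ((U - β) / (ρ : Ω)) P hP0 hroot
    have hb := res_basis hP (AA H {a}) (AA (kap hP.res hP.mem H) {r ⟨(a - α) / π, hV⟩})
      (res_Ha hP a α π hπ hV hη) ((U - β) / ρ) hu (p ^ n) P' hm (hd.trans hPdeg) hr' hind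
    intro x hx hxV
    refine hb x ?_ hxV
    have hle : AA (AA H {a}) {U} ≤ AA (AA H {a}) {(U - β) / (ρ : Ω)} := by
      refine sup_le le_sup_left ?_
      rw [IntermediateField.adjoin_le_iff, Set.singleton_subset_iff]
      have h3 : H ≤ AA (AA H {a}) {(U - β) / (ρ : Ω)} := hHE.trans le_sup_left
      have h4 : (U - β) / (ρ : Ω) ∈ AA (AA H {a}) {(U - β) / (ρ : Ω)} :=
        (le_sup_right : IntermediateField.adjoin k {(U - β) / (ρ : Ω)} ≤ _)
          (IntermediateField.mem_adjoin_simple_self k _)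
      have h5 : (ρ : Ω) * ((U - β) / ρ) + β ∈ AA (AA H {a}) {(U - β) / (ρ : Ω)} :=
        add_mem (mul_mem (h3 ρ.2) h4) (h3 β.2)
      rw [hval] at h5
      exact h5
    exact hle hx


end

end Pool.Agent.FRB
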