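import Pool.Agent.WLD.F9
import Pool.Agent.WLD.S7

/-!
# Artin-Schreier and Kummer extensions with a uniruled quotient threefold: definitions

`Y ^ p - Y = F`, `Z ^ e = H`, and the threefold `w ^ p - w + H v ^ e = F` is uniruled.
-/

set_option autoImplicit false

namespace Pool.Agent.FRB

open Polynomial Pool.Agent.TBR Pool.Agent.TUQ Pool.Agent.WLD

universe u

/-- the trace of the field with `p ^ n` elements -/
def trq {R : Type*} [Semiring R] (p n : ℕ) (b : R) : R := ∑ j ∈ Finset.range n, b ^ (p ^ j)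

section

variable {k Ω : Type u} [Field k] [Field Ω] [Algebra k Ω]

/-- `K₀(Y, Z)` -/
abbrev KYZ {A : Type u} [Field A] [Algebra k A] (K₀ : IntermediateField k A) (Y Z : A) :
    IntermediateField k A := KZ (KZ K₀ Y) Z

/-- the curve `φ(U) = a ^ e` over `H` -/
structure CfC (H : IntermediateField k Ω) (φ : k[X]) (e : ℕ) (a U : Ω) : Prop where
  trH : ∀ x : Ω, x ∉ H → ∀ y : Ω, IsAlgebraic (AA H {x}) y
  ad : Ad φ e
  eqU : aeval U φ = a ^ e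

/-- The situation after the embedding of `L = K₀(v, w)`, `w ^ p - w + Z ^ e v ^ e = Y ^ p - Y`,
in `H(t)`; `a = Z v`, `U ^ p - U = a ^ e`, and `a ^ e` belongs to `H(t)`. -/
structure CfM (A H : IntermediateField k Ω) (K₀ : IntermediateField k A) (Y Z : A) (p e n : ℕ)
    (v w a U t : Ω) : Prop where
  trA : ∀ x : Ω, x ∉ A → ∀ y : Ω, IsAlgebraic (AA A {x}) y
  trH : ∀ x : Ω, x ∉ H → ∀ y : Ω, IsAlgebraic (AA H {x}) y
  tdA : Algebra.trdeg k A = 2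
  tdH : Algebra.trdeg k H = 2
  fg : K₀.FG
  al : ∀ x : A, IsAlgebraic K₀ x
  pp : p.Prime
  ch : CharP k p
  e2 : 2 ≤ e
  ek : (e : k) ≠ 0
  n0 : 0 < n
  en : e ∣ p ^ n - 1
  YK : Y ^ p - Y ∈ K₀
  ZK : Z ^ e ∈ K₀
  Z0 : Z ≠ 0
  irrY : Irreducible (X ^ p - X - C (⟨Y ^ p - Y, YK⟩ : K₀))
  irrZ : Irreducible (X ^ e - C (⟨Z ^ e, (le_sup_left : K₀ ≤ KZ K₀ Y) ZK⟩ : KZ K₀ Y))
  aA : a ∉ A
  tH : t ∉ H
  K₀t : ∀ x ∈ K₀, (x : Ω) ∈ AA H {t}
  vt : v ∈ AA H {t}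
  wt : w ∈ AA H {t}
  eqU : U ^ p - U = a ^ e
  eqY : w + U = Y
  eqZ : Z * v = a

/-- the fields which occur in the theorem -/
def GoodM {A : Type u} [Field A] [Algebra k A] (K₀ : IntermediateField k A) (Y Z : A)
    (L : IntermediateField k A) : Prop :=
  (∃ K₁ K₂ : IntermediateField k A, K₁.FG ∧ K₂.FG ∧ Algebra.trdeg k K₁ ≤ 1 ∧
    Algebra.trdeg k K₂ ≤ 1 ∧ L = K₁ ⊔ K₂) ∨ L = K₀ ∨ L = KZ K₀ Y ∨ L = KZ K₀ Z

/-- the data: `a ^ e = A₁(t) / A₂(t)`, the roots `T i` of `A₁(X) - (a ^ e) ^ (p ^ n) A₂(X)`,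
automorphisms over `H` which map `t` to `T i` and the embeddings of `A` -/
structure GDM (A H : IntermediateField k Ω) (K₀ : IntermediateField k A) (Y Z : A) (p e n : ℕ)
    (v w a U t : Ω) (A₁ A₂ : H[X]) {m : ℕ} (T : Fin m → Ω)
    (s : Fin m → (Ω ≃ₐ[k] Ω)) (ξ : Fin m → (A →ₐ[k] Ω)) (f : Polynomial Ω) : Prop where
  cop : IsCoprime A₁ A₂
  A₂0 : A₂ ≠ 0
  A₂t : aeval t A₂ ≠ 0
  yeq : a ^ e * aeval t A₂ = aeval t A₁
  f0 : f ≠ 0
  fdef : f = A₁.map (algebraMap H Ω) - C ((a ^ e) ^ (p ^ n)) * A₂.map (algebraMap H Ω)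
  roots : f.roots = Finset.univ.val.map T
  TH : ∀ i, T i ∉ H
  Tt : ∀ i, T i ≠ t
  sH : ∀ i, s i ∈ Fx k (H : Set Ω)
  st : ∀ i, s i t = T i
  sy : ∀ i, s i (a ^ e) = (a ^ e) ^ (p ^ n)
  sv : ∀ i, s i v ≠ 0
  ξK : ∀ i, ∀ x ∈ K₀, ξ i x = s i x
  ξY : ∀ i, ξ i Y = s i w + U ^ (p ^ n)
  ξZ : ∀ i, ξ i Z = a ^ (p ^ n) / s i v

/-- the residues of the embeddings `ξ i` with `h i` in the maximal ideal are permuted by the
automorphisms over a field `L` -/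
def LocB (A : IntermediateField k Ω) (Gd : IntermediateField k A → Prop)
    (K : IntermediateField k A) {m : ℕ} (ξ : Fin m → (A →ₐ[k] Ω)) (h : Fin m → Ω)
    (V : ValuationSubring Ω) (r : V →+* Ω) : Prop :=
  ∃ L : IntermediateField k A, Gd L ∧ (∀ x : A, IsAlgebraic L x) ∧
    ∀ g ∈ Fx k (L : Set A),
      ∃ π : Equiv.Perm {i : Fin m // (∀ x, ξ i x ∈ V) ∧ V.valuation (h i) ≠ 1},
        ∀ i, V.valuation (h (π i)) = V.valuation (h i) ∧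
          ∀ ψ ψ', ResE A V r (ξ i) ψ → ResE A V r (ξ (π i)) ψ' →
            ∀ x ∈ K, g (ψ x) = ψ' x

open Classical in
/-- the local statement of the combination: at the places with `y = bv b` the residues are `γ b`
and the product of the `h i` has the order of `y - bv b` -/
def LocM (A : IntermediateField k Ω) (Gd : IntermediateField k A → Prop)
    (K : IntermediateField k A) {m : ℕ} (ξ : Fin m → (A →ₐ[k] Ω)) (h : Fin m → Ω)
    {B : Type} (bv : B → Ω) (γ : B → (A ≃ₐ[k] A)) (y : Ω)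
    (V : ValuationSubring Ω) (r : V →+* Ω) : Prop :=
  (∀ b, V.valuation (y - bv b) < 1 →
    (∀ i, (∀ x, ξ i x ∈ V) → V.valuation (h i) ≠ 1 → V.valuation (h i) < 1 ∧
      ∀ ψ, ResE A V r (ξ i) ψ → ∀ x ∈ K, ψ x = γ b x) ∧
    V.valuation (∏ i, if (∀ x, ξ i x ∈ V) ∧ V.valuation (h i) ≠ 1 then h i else 1) =
      V.valuation (y - bv b)) ∧
  ((∀ b, ¬ V.valuation (y - bv b) < 1) → LocB A Gd K ξ h V r)

open Classical in
/-- the conclusion of block G, `y = a ^ e` -/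
def GStM (A : IntermediateField k Ω) (K₀ : IntermediateField k A) (Y Z : A) (p e n : ℕ)
    (y : Ω) : Prop :=
  ∃ (m : ℕ) (ξ : Fin m → (A →ₐ[k] Ω)) (h : Fin m → Ω), (∀ i, h i ≠ 0) ∧
    ∀ (V : ValuationSubring Ω) (r : V →+* Ω), Plc A V r →
      (∀ b : A, b ≠ 0 → b ^ (p ^ n) = b → V.valuation (y - b) < 1 →
        (∀ i, (∀ x, ξ i x ∈ V) → V.valuation (h i) ≠ 1 → V.valuation (h i) < 1 ∧
          ∀ ψ, ResE A V r (ξ i) ψ → (∀ x ∈ K₀, ψ x = x) ∧ ψ Y = Y + trq p n b ∧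
            ψ Z = b ^ ((p ^ n - 1) / e) * Z) ∧
        V.valuation (∏ i, if (∀ x, ξ i x ∈ V) ∧ V.valuation (h i) ≠ 1 then h i else 1) =
          V.valuation (y - b)) ∧
      ((∀ b : A, b ≠ 0 → b ^ (p ^ n) = b → ¬ V.valuation (y - b) < 1) →
        LocB A (GoodM K₀ Y Z) (KYZ K₀ Y Z) ξ h V r)

/-- block G: the geometry of the embeddings -/
def BlockGM (k Ω : Type u) [Field k] [Field Ω] [Algebra k Ω] : Prop :=
  ∀ (_ : IsAlgClosed Ω) (A H : IntermediateField k Ω) (_ : IsAlgClosed A) (_ : IsAlgClosed H)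
    (K₀ : IntermediateField k A) (Y Z : A) (p e n : ℕ) (v w a U t : Ω),
    CfM A H K₀ Y Z p e n v w a U t → NU (KYZ K₀ Y Z) → GStM A K₀ Y Z p e n (a ^ e)

open Classical in
/-- block R: the reciprocity relations, one for each index, and the orders are additive -/
def BlockRP (k Ω : Type u) [Field k] [Field Ω] [Algebra k Ω] : Prop :=
  ∀ (_ : IsAlgClosed Ω) (A : IntermediateField k Ω) (_ : IsAlgClosed A)
    (_ : ∀ x : Ω, x ∉ A → ∀ y : Ω, IsAlgebraic (AA A {x}) y)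
    (K : IntermediateField k A) (_ : K.FG) (_ : ∀ x : A, IsAlgebraic K x)
    (_ : Algebra.trdeg k A < Cardinal.aleph0)
    (ι : Type) (_ : Fintype ι) (ξ : ι → (A →ₐ[k] Ω)) (h : ι → Ω) (_ : ∀ i, h i ≠ 0)
    (T : Finset Ω) (_ : ∃ y : Ω, y ∉ A) (p : ℕ) (_ : ExpChar k p),
    ∃ (n : ℕ) (V : Fin n → ValuationSubring Ω) (r : ∀ j, V j →+* Ω) (e : Fin n → ι → ℤ)
      (S : Finset A),
      (∀ j, Plc A (V j) (r j)) ∧
      (∀ j i, 0 < e j i ↔ (V j).valuation (h i) < 1) ∧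
      (∀ j i, e j i < 0 ↔ 1 < (V j).valuation (h i)) ∧
      (∀ j i i', (V j).valuation (h i) = (V j).valuation (h i') → e j i = e j i') ∧
      (∀ j (ν : ι → ℤ), (V j).valuation (∏ i, h i ^ ν i) = 1 → ∑ i, ν i * e j i = 0) ∧
      (∀ (W : ValuationSubring Ω) (rW : W →+* Ω), Plc A W rW → (∃ i, W.valuation (h i) ≠ 1) →
        ∃ j, ∀ x ∈ T, (x ∈ W ↔ x ∈ V j) ∧ ∀ (h : x ∈ W) (h' : x ∈ V j), rW ⟨x, h⟩ = r j ⟨x, h'⟩) ∧
      ∀ c : (A ≃ₐ[k] A) → (A ≃ₐ[k] A) → Aˣ, UnC (K : Set A) c →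
        ∀ ψ : Fin n → ι → (A ≃ₐ[k] A),
          (∀ j i, (∀ x, ξ i x ∈ V j) → ResE A (V j) (r j) (ξ i) (ψ j i)) →
          ∀ i, ∃ s : ℕ, Tri (Ge k (S : Set A)) (fun σ τ => ∏ j,
            if (∀ x, ξ i x ∈ V j) ∧ (V j).valuation (h i) ≠ 1 then
              tw (ψ j i) c σ τ ^ (e j i * (p : ℤ) ^ s) else 1)

end

end Pool.Agent.FRB
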