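import Pool.Agent.ADH.T7
import Pool.Agent.FRB.I1
import Pool.Agent.FRB.X4M

/-!
# Elliptic curves over fields in mixed towers, characteristic two

`E : y² + a₁ x y + a₃(s) y = x³ + a₂(s) x² + a₄(s) x + a₆(s)`, `deg a_i ≤ i`, `a₁ ∈ k`, `deg a₃ ≤ 2`;
`Y = y / (a₁ x + a₃)`, `Y² + Y = (x³ + a₂ x² + a₄ x + a₆) / (a₁ x + a₃)²`.
-/

set_option autoImplicit false

namespace Pool.Agent.FRB

open Polynomial Pool.Agent.WLD Pool.Agent.ADT Pool.Agent.ADH Pool.Agent.UQ WeierstrassCurve
  WeierstrassCurve.Affine Pool.Agent.EFF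

open scoped Classical

/-- the weights of `x`, `s` -/
abbrev w21 : Fin 3 → ℕ := ![2, 1, 0]

/-- the line `a₁ x + a₃` -/
noncomputable abbrev Q13 {k : Type} [Field k] (W : WeierstrassCurve k[X]) :
    MvPolynomial (Fin 3) k :=
  aeval (MvPolynomial.X 1) W.a₁ * MvPolynomial.X 0 + aeval (MvPolynomial.X 1) W.a₃

theorem wle_Q13 {k : Type} [Field k] (W : WeierstrassCurve k[X]) (d1 : W.a₁.natDegree ≤ 0)
    (d3 : W.a₃.natDegree ≤ 2) : MvPolynomial.weightedTotalDegree w21 (Q13 W) ≤ 2 := by
  refine wle_add _ _ _ _ ?_ ?_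
  · refine (wle_mul _ _ _ _ _ (wle_aeval_X _ 1 W.a₁) (wle_X _ 0)).trans ?_
    show W.a₁.natDegree * 1 + 2 ≤ 2
    omega
  · refine (wle_aeval_X _ 1 W.a₃).trans ?_
    show W.a₃.natDegree * 1 ≤ 2
    omega

theorem aeval_one {k M : Type} [Field k] [Field M] [Algebra k M] (x s : M) (q : k[X]) :
    MvPolynomial.aeval ![x, s, 0] (aeval (MvPolynomial.X 1 : MvPolynomial (Fin 3) k) q) =
      aeval s q := by
  rw [← Polynomial.aeval_algHom_apply, MvPolynomial.aeval_X]
  rfl

/-- in characteristic two `a₁` or `a₃` is not zero -/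
theorem a13_ne {k : Type} [Field k] [CharP k 2] (W : WeierstrassCurve k[X]) (hΔ : W.Δ ≠ 0)
    (h1 : W.a₁ = 0) : W.a₃ ≠ 0 := by
  intro h3
  apply hΔ
  have hC : CharP k[X] 2 := charP_of_injective_algebraMap (algebraMap k k[X]).injective 2
  have h2 : (2 : k[X]) = 0 := CharTwo.two_eq_zero
  simp only [WeierstrassCurve.Δ, WeierstrassCurve.b₂, WeierstrassCurve.b₄, WeierstrassCurve.b₆,
    WeierstrassCurve.b₈, h1, h3]
  linear_combination (-8 * W.a₂ ^ 2 * (4 * W.a₂ * W.a₆ - W.a₄ ^ 2) - 32 * W.a₄ ^ 3 -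
    216 * W.a₆ ^ 2 + 144 * W.a₂ * W.a₄ * W.a₆) * h2

theorem trdeg_sup_alg {k M : Type} [Field k] [Field M] [Algebra k M] (E : IntermediateField k M)
    (x : M) (hx : IsAlgebraic E x) :
    Algebra.trdeg k (E ⊔ IntermediateField.adjoin k {x} : IntermediateField k M) ≤
      Algebra.trdeg k E := by
  have h1 : (E ⊔ IntermediateField.adjoin k {x} : IntermediateField k M) =
      (IntermediateField.adjoin E {x}).restrictScalars k := by
    rw [IntermediateField.restrictScalars_adjoin, IntermediateField.adjoin_union,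
      IntermediateField.adjoin_self]
  rw [h1]
  have h2 := trdeg_add_eq k E (A := IntermediateField.adjoin E {x})
  have h7 : Algebra.IsAlgebraic E (IntermediateField.adjoin E {x}) :=
    IntermediateField.isAlgebraic_adjoin fun c hc => by
      rw [Set.mem_singleton_iff.1 hc]
      exact hx.isIntegral
  have h3 : Algebra.trdeg E (IntermediateField.adjoin E {x}) = 0 := trdeg_eq_zero_iff.2 h7
  calc Algebra.trdeg k ((IntermediateField.adjoin E {x}).restrictScalars k) =
      Algebra.trdeg k (IntermediateField.adjoin E {x}) := rfl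
    _ = Algebra.trdeg k E + Algebra.trdeg E (IntermediateField.adjoin E {x}) := h2.symm
    _ = Algebra.trdeg k E := by rw [h3, add_zero]
    _ ≤ _ := le_refl _

/-- the curves `y² + a₁ x y + a₃ y = x³ + a₂ x² + a₄ x + a₆` of characteristic two -/
theorem sha_M2 {k K Kb : Type} [Field k] [Finite k] [Field K] [Field Kb] [Algebra k K]
    [Algebra k Kb] [Algebra K Kb] [IsScalarTower k K Kb] [IsAlgClosed Kb]
    [Algebra.IsAlgebraic K Kb] [CharP k 2] (s : K)
    (hs : Transcendental k s) (W : WeierstrassCurve k[X]) (hΔ : W.Δ ≠ 0)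
    (d1 : W.a₁.natDegree ≤ 0) (d2 : W.a₂.natDegree ≤ 2) (d3 : W.a₃.natDegree ≤ 2)
    (d4 : W.a₄.natDegree ≤ 4) (d6 : W.a₆.natDegree ≤ 6) (S : Finset Kb)
    (hS : ∀ z ∈ S, ∃ φ F : k[X], AddPoly φ ∧ derivative φ ≠ 0 ∧ F.natDegree ≤ 2 ∧
      aeval z φ = aeval (algebraMap K Kb s) F)
    (N : ℕ) (hN : Odd N) (z : Kb) (h : k[X]) (h1 : 1 ≤ h.natDegree) (h2 : h.natDegree ≤ 2)
    (hz : z ^ N = aeval (algebraMap K Kb s) h)
    (hK : ∀ a : K, algebraMap K Kb a ∈
      IntermediateField.adjoin k (insert (algebraMap K Kb s) (insert z (S : Set Kb))))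
    (ℓ : ℕ) (hℓ : ℓ.Prime) (hℓk : (ℓ : k) ≠ 0)
    (c : ℕ → (Kb ≃ₐ[K] Kb) → Pts (Ws W s) Kb) (hc : ShaSys (Ws W s) k ℓ c) (n : ℕ) :
    Principal (Ws W s) (T1B.geo k K Kb) (c n) := by
  have hp : Fact (Nat.Prime 2) := ⟨Nat.prime_two⟩
  have hN0 : N ≠ 0 := by
    rintro rfl
    exact absurd hN (by decide)
  have hS' : ∀ w ∈ insert z S, ∃ φ F : k[X], φ.natDegree ≠ 0 ∧
      aeval w φ = aeval (algebraMap K Kb s) F := by
    intro w hw
    rcases Finset.mem_insert.1 hw with rfl | hw
    · exact ⟨X ^ N, h, by rw [natDegree_X_pow]; exact hN0, by rw [map_pow, aeval_X, hz]⟩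
    · obtain ⟨φ, F, -, a2, -, a4⟩ := hS w hw
      refine ⟨φ, F, fun h => a2 ?_, a4⟩
      rw [eq_C_of_natDegree_eq_zero h, derivative_C]
  have hK' : ∀ a : K, algebraMap K Kb a ∈
      IntermediateField.adjoin k (insert (algebraMap K Kb s)
        ((insert z S : Finset Kb) : Set Kb)) := by
    intro a
    rw [Finset.coe_insert]
    exact hK a
  obtain ⟨M, _, _, _, _, x, y, t1, t2, t3, hM, htd, hx, hy, hal⟩ :=
    setup s hs (insert z S) hS' hK' W
  have hsM : Transcendental k (algebraMap K M s) :=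
    (transcendental_algebraMap_iff (algebraMap K M).injective).2 hs
  have hM2 : CharP M 2 := charP_of_injective_algebraMap (algebraMap k M).injective 2
  have hinj : ∀ q : k[X], aeval (algebraMap K M s) q = 0 → q = 0 := fun q hq =>
    transcendental_iff_injective.1 hsM (hq.trans (map_zero _).symm)
  -- the field of the curve
  obtain ⟨F, hF⟩ : ∃ F : IntermediateField K M, F = IntermediateField.adjoin K {x, y} := ⟨_, rfl⟩
  have hxF : x ∈ F := by
    rw [hF]
    exact IntermediateField.subset_adjoin _ _ (by simp)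
  have hyF : y ∈ F := by
    rw [hF]
    exact IntermediateField.subset_adjoin _ _ (by simp)
  have hsub : IntermediateField.adjoin k (Set.range ![x, y, algebraMap K M s]) ≤
      F.restrictScalars k := by
    rw [IntermediateField.adjoin_le_iff]
    rintro _ ⟨i, rfl⟩
    fin_cases i
    · exact hxF
    · exact hyF
    · exact F.algebraMap_mem s
  have hFal : ∀ b : M, IsAlgebraic (F.restrictScalars k) b := fun b => by
    refine algTrans (K := IntermediateField.adjoin k (Set.range ![x, y, algebraMap K M s])) _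
      (fun a => ?_) b (hal b)
    exact isAlgebraic_algebraMap (⟨a, hsub a.2⟩ : F.restrictScalars k)
  -- the line `L`
  obtain ⟨L, hL⟩ : ∃ L, L = aeval (algebraMap K M s) W.a₁ * x + aeval (algebraMap K M s) W.a₃ :=
    ⟨_, rfl⟩
  have hL0 : L ≠ 0 := by
    intro h0
    by_cases ha : W.a₁ = 0
    · refine a13_ne W hΔ ha (hinj _ ?_)
      rw [← h0, hL, ha, map_zero, zero_mul, zero_add]
    · apply hx
      have ha' : aeval (algebraMap K M s) W.a₁ ≠ 0 := fun h => ha (hinj _ h)
      have e1 : x = - aeval (algebraMap K M s) W.a₃ / aeval (algebraMap K M s) W.a₁ := by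
        rw [eq_div_iff ha']
        linear_combination h0 - hL
      have e2 : ∀ q : k[X], aeval (algebraMap K M s) q = algebraMap K M (aeval s q) := fun q =>
        Polynomial.aeval_algebraMap_apply M s q
      rw [e1, e2, e2, ← map_neg, ← map_div₀]
      exact isAlgebraic_algebraMap _
  have hy' : y ^ 2 + L * y = x ^ 3 + aeval (algebraMap K M s) W.a₂ * x ^ 2 +
      aeval (algebraMap K M s) W.a₄ * x + aeval (algebraMap K M s) W.a₆ := by
    rw [aeval_wpoly] at hy
    simp only [Matrix.cons_val_zero, Matrix.cons_val_one, Matrix.cons_val] at hy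
    rw [hL]
    linear_combination hy
  obtain ⟨Y, hY⟩ : ∃ Y, Y = y / L := ⟨_, rfl⟩
  have hYL : y = Y * L := by
    rw [hY, div_mul_cancel₀ _ hL0]
  have hY2 : (Y ^ 2 + Y) * L ^ 2 = x ^ 3 + aeval (algebraMap K M s) W.a₂ * x ^ 2 +
      aeval (algebraMap K M s) W.a₄ * x + aeval (algebraMap K M s) W.a₆ := by
    rw [← hy', hYL]
    ring
  -- the elements of `M` are algebraic over `k(x, s)`
  have hUal : ∀ b : M, IsAlgebraic
      (IntermediateField.adjoin k (Set.range ![x, algebraMap K M s, 0])) b := by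
    obtain ⟨A, hA⟩ : ∃ A, A = IntermediateField.adjoin k (Set.range ![x, algebraMap K M s, 0]) :=
      ⟨_, rfl⟩
    have hxA : x ∈ A := by
      rw [hA]
      exact IntermediateField.subset_adjoin _ _ ⟨0, rfl⟩
    have hsA : algebraMap K M s ∈ A := by
      rw [hA]
      exact IntermediateField.subset_adjoin _ _ ⟨1, rfl⟩
    have hLA : L ∈ A := by
      rw [hL]
      exact add_mem (mul_mem (aeval_mem' A _ hsA _) hxA) (aeval_mem' A _ hsA _)
    have hRA : x ^ 3 + aeval (algebraMap K M s) W.a₂ * x ^ 2 +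
        aeval (algebraMap K M s) W.a₄ * x + aeval (algebraMap K M s) W.a₆ ∈ A :=
      add_mem (add_mem (add_mem (pow_mem hxA 3) (mul_mem (aeval_mem' A _ hsA _) (pow_mem hxA 2)))
        (mul_mem (aeval_mem' A _ hsA _) hxA)) (aeval_mem' A _ hsA _)
    have hyA : IsAlgebraic A y := by
      refine ⟨X ^ 2 + C (⟨L, hLA⟩ : A) * X - C (⟨_, hRA⟩ : A), ?_, ?_⟩
      · apply Monic.ne_zero
        monicity!
      · simp only [map_add, map_sub, map_mul, map_pow, aeval_X, aeval_C]
        show y ^ 2 + L * y - _ = 0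
        rw [hy']
        exact sub_self _
    rw [← hA]
    intro b
    refine algTrans (K := IntermediateField.adjoin k (Set.range ![x, y, algebraMap K M s])) A
      (fun a => ?_) b (hal b)
    refine alg_adjoin A _ ?_ (a : M) a.2
    rintro _ ⟨i, rfl⟩
    fin_cases i
    · exact isAlgebraic_algebraMap (⟨_, hxA⟩ : A)
    · exact hyA
    · exact isAlgebraic_algebraMap (⟨_, hsA⟩ : A)
  -- the radical
  have hzM : algebraMap Kb M z ^ N = aeval (algebraMap K M s) h := by
    rw [← map_pow, hz, ← Polynomial.aeval_algebraMap_apply,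
      ← IsScalarTower.algebraMap_apply K Kb M]
  obtain ⟨e, z', he, heo, hz', hr⟩ : ∃ (e : ℕ) (z' : M), 2 ≤ e ∧ Odd e ∧
      z' ^ e = aeval (algebraMap K M s) h ∧ ∃ r : ℕ, algebraMap Kb M z = z' ^ r := by
    by_cases hN1 : N = 1
    · obtain ⟨z', hz'⟩ := IsAlgClosed.exists_pow_nat_eq (aeval (algebraMap K M s) h)
        (n := 3) (by norm_num)
      refine ⟨3, z', by norm_num, by decide, hz', 3, ?_⟩
      rw [hz', ← hzM, hN1, pow_one]
    · exact ⟨N, algebraMap Kb M z, by omega, hN, hzM, 1, (pow_one _).symm⟩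
  obtain ⟨r, hr⟩ := hr
  have hek : (e : k) ≠ 0 := by
    intro h0
    have h3 := (CharP.cast_eq_zero_iff k 2 e).1 h0
    rcases heo with ⟨m, hm⟩
    omega
  have hh0 : aeval (algebraMap K M s) h ≠ 0 := by
    intro h0
    have h3 := hinj _ h0
    rw [h3, natDegree_zero] at h1
    omega
  have hz'0 : z' ≠ 0 := by
    rintro rfl
    apply hh0
    rw [← hz', zero_pow (by omega)]
  -- the field is contained in the tower
  let ι : Kb →ₐ[k] M := IsScalarTower.toAlgHom k Kb M
  obtain ⟨T, hT⟩ : ∃ T : Finset M, T = {Y} ∪ S.image ι := ⟨_, rfl⟩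
  obtain ⟨B, hB⟩ : ∃ B : IntermediateField k M, B = IntermediateField.adjoin k
    (Set.range ![x, algebraMap K M s, 0] ∪ insert z' (T : Set M)) := ⟨_, rfl⟩
  have hxB : x ∈ B := by
    rw [hB]
    exact IntermediateField.subset_adjoin _ _ (Or.inl ⟨0, rfl⟩)
  have hsB : algebraMap K M s ∈ B := by
    rw [hB]
    exact IntermediateField.subset_adjoin _ _ (Or.inl ⟨1, rfl⟩)
  have hzB : z' ∈ B := by
    rw [hB]
    exact IntermediateField.subset_adjoin _ _ (Or.inr (Or.inl rfl))
  have hTB : ∀ t ∈ T, t ∈ B := fun t ht => by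
    rw [hB]
    exact IntermediateField.subset_adjoin _ _ (Or.inr (Or.inr ht))
  have hYB : Y ∈ B := hTB Y (by rw [hT]; simp)
  have hyB : y ∈ B := by
    rw [hYL, hL]
    exact mul_mem hYB (add_mem (mul_mem (aeval_mem' B _ hsB _) hxB) (aeval_mem' B _ hsB _))
  have hKM : ∀ a : K, algebraMap K M a ∈ B := by
    refine mem_of_gen s (insert z S) hK' B hsB fun w hw => ?_
    rcases Finset.mem_insert.1 hw with rfl | hw
    · rw [hr]
      exact pow_mem hzB _
    · refine hTB _ ?_
      rw [hT]
      exact Finset.mem_union_right _ (Finset.mem_image_of_mem ι hw)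
  have hle : F.restrictScalars k ≤ B := by
    let B' : IntermediateField K M := B.toSubfield.toIntermediateField hKM
    have hFB : F ≤ B' := by
      rw [hF, IntermediateField.adjoin_le_iff]
      rintro b (rfl | hb)
      · exact hxB
      · rw [Set.mem_singleton_iff.1 hb]
        exact hyB
    exact fun b hb => hFB hb
  -- the theorem on the towers
  have hX2 : (MvPolynomial.X 2 : MvPolynomial (Fin 3) k) ≠ 0 := MvPolynomial.X_ne_zero _
  have hQL : MvPolynomial.aeval ![x, algebraMap K M s, 0] (1 * Q13 W ^ 2) = L ^ 2 := by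
    rw [one_mul, map_pow, map_add, map_mul, aeval_one, aeval_one, MvPolynomial.aeval_X, hL]
    rfl
  have hemt : Emt (F.restrictScalars k) := by
    refine tower_injM 2 htd ![x, algebraMap K M s, 0] hUal (MvPolynomial.X 2) 1 (Q13 W)
      (Q13 W ^ 2) 1 (aeval (MvPolynomial.X 1) h) hX2 ?_ w21 e 0 3 0 2 4 2 0 6 he hek z' hz'0 ?_ ?_
      ?_ ?_ (wle_one _) (wle_Q13 W d1 d3) ?_ ?_ ?_ ?_ ?_ ?_ ?_ T ?_ ?_ ?_ _
      (hle.trans hB.le) hFal
    · rw [MvPolynomial.aeval_X]
      rfl
    · rw [aeval_one]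
      exact hz'
    · rw [one_pow, mul_one, one_mul]
    · rw [hQL]
      exact pow_ne_zero _ hL0
    · exact wle_X _ _
    · rw [sq]
      exact wle_mul _ _ _ 2 2 (wle_Q13 W d1 d3) (wle_Q13 W d1 d3)
    · refine (wle_aeval_X _ 1 h).trans ?_
      show h.natDegree * 1 ≤ 2
      omega
    · norm_num
    · norm_num
    · norm_num
    · norm_num
    · show 0 + 6 ≤ 2 + 1 + 0 + 0 + 3
      norm_num
    · intro t ht
      rw [hT, Finset.mem_union] at ht
      rw [hQL]
      rcases ht with ht | ht
      · rw [Finset.mem_singleton.1 ht]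
        refine ⟨X ^ 2 + X, MvPolynomial.X 0 ^ 3 + aeval (MvPolynomial.X 1) W.a₂ *
          MvPolynomial.X 0 ^ 2 + aeval (MvPolynomial.X 1) W.a₄ * MvPolynomial.X 0 +
            aeval (MvPolynomial.X 1) W.a₆, addPoly_two, derivative_two, ?_, ?_⟩
        · refine wle_add _ _ _ _ (wle_add _ _ _ _ (wle_add _ _ _ _ ?_ ?_) ?_) ?_
          · exact (wle_X_pow w21 0 3).trans (le_of_eq rfl)
          · refine (wle_mul _ _ _ _ _ (wle_aeval_X _ 1 W.a₂) (wle_X_pow _ 0 2)).trans ?_
            show W.a₂.natDegree * 1 + 2 * 2 ≤ 6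
            omega
          · refine (wle_mul _ _ _ _ _ (wle_aeval_X _ 1 W.a₄) (wle_X _ 0)).trans ?_
            show W.a₄.natDegree * 1 + 2 ≤ 6
            omega
          · refine (wle_aeval_X _ 1 W.a₆).trans ?_
            show W.a₆.natDegree * 1 ≤ 6
            omega
        · simp only [map_add, map_mul, map_pow, MvPolynomial.aeval_X, aeval_one, aeval_X,
            Matrix.cons_val_zero]
          exact hY2
      · obtain ⟨w, hw, rfl⟩ := Finset.mem_image.1 ht
        obtain ⟨φ, G, a1, a2, a3, a4⟩ := hS w hw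
        refine ⟨φ, aeval (MvPolynomial.X 1) G * (1 * Q13 W ^ 2), a1, a2, ?_, ?_⟩
        · rw [one_mul, sq]
          refine (wle_mul _ _ _ _ _ (wle_aeval_X _ 1 G)
            (wle_mul _ _ _ 2 2 (wle_Q13 W d1 d3) (wle_Q13 W d1 d3))).trans ?_
          show G.natDegree * 1 + (2 + 2) ≤ 6
          omega
        · rw [map_mul, hQL, aeval_one, Polynomial.aeval_algHom_apply, a4]
          congr 1
          show algebraMap Kb M (aeval (algebraMap K Kb s) G) = aeval (algebraMap K M s) G
          rw [← Polynomial.aeval_algebraMap_apply, ← IsScalarTower.algebraMap_apply K Kb M]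
    · intro C₀ hC₀ zK
      have hKh : aeval (algebraMap K M s) h ∈ IntermediateField.adjoin k (C₀ : Set M) ⊔
          IntermediateField.adjoin k (Set.range ![x, algebraMap K M s, 0]) := hz' ▸ zK
      have h3 := irr_kummer htd x (algebraMap K M s) hUal e heo h h1 h2 C₀ hC₀ hKh
      have h4 : (⟨z' ^ e, zK⟩ : (IntermediateField.adjoin k (C₀ : Set M) ⊔
          IntermediateField.adjoin k (Set.range ![x, algebraMap K M s, 0]) :
            IntermediateField k M)) = ⟨aeval (algebraMap K M s) h, hKh⟩ := Subtype.ext hz'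
      rw [h4]
      exact h3
    · intro C₀ hC₀
      have hEalg : Algebra.IsAlgebraic k (IntermediateField.adjoin k (C₀ : Set M)) :=
        IntermediateField.isAlgebraic_adjoin fun c hc => (hC₀ c hc).isIntegral
      have hEtd : Algebra.trdeg k (IntermediateField.adjoin k (C₀ : Set M)) = 0 :=
        trdeg_eq_zero_iff.2 hEalg
      have hle1 : IntermediateField.adjoin k (Set.range ![x, algebraMap K M s, 0]) ≤
          KZ (IntermediateField.adjoin k (C₀ : Set M) ⊔
            IntermediateField.adjoin k (Set.range ![x, algebraMap K M s, 0])) z' :=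
        le_trans le_sup_right le_sup_left
      refine emt_two ⟨IntermediateField.adjoin k (C₀ : Set M) ⊔ IntermediateField.adjoin k {x},
        IntermediateField.adjoin k {algebraMap K M s} ⊔ IntermediateField.adjoin k {z'},
        IntermediateField.fg_sup ⟨C₀, rfl⟩ ⟨{x}, by rw [Finset.coe_singleton]⟩,
        IntermediateField.fg_sup ⟨{algebraMap K M s}, by rw [Finset.coe_singleton]⟩
          ⟨{z'}, by rw [Finset.coe_singleton]⟩, ?_, ?_, ?_⟩ fun b => alg_le hle1 (hUal b)
      · refine (trdeg_sup_singleton_le _ x).trans ?_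
        rw [hEtd, zero_add]
      · have hsS : algebraMap K M s ∈ IntermediateField.adjoin k {algebraMap K M s} :=
          IntermediateField.mem_adjoin_simple_self _ _
        have h6 : IsAlgebraic (IntermediateField.adjoin k {algebraMap K M s}) z' :=
          alg_root _ _ z' hsS (X ^ e) h (by rw [natDegree_X_pow]; omega)
            (by rw [map_pow, aeval_X, hz'])
        exact (trdeg_sup_alg _ z' h6).trans (trdeg_adjoin_singleton_le (k := k) (algebraMap K M s))
      · refine le_antisymm (sup_le (sup_le ?_ ?_) ?_) (sup_le (sup_le ?_ ?_) (sup_le ?_ ?_))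
        · exact le_trans le_sup_left le_sup_left
        · rw [IntermediateField.adjoin_le_iff]
          rintro _ ⟨i, rfl⟩
          fin_cases i
          · exact (le_trans le_sup_right le_sup_left : IntermediateField.adjoin k {x} ≤ _)
              (IntermediateField.mem_adjoin_simple_self _ _)
          · exact (le_trans le_sup_left le_sup_right :
              IntermediateField.adjoin k {algebraMap K M s} ≤ _)
              (IntermediateField.mem_adjoin_simple_self _ _)
          · exact zero_mem _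
        · exact le_trans le_sup_right le_sup_right
        · exact le_trans le_sup_left le_sup_left
        · rw [IntermediateField.adjoin_simple_le_iff]
          exact hle1 (IntermediateField.subset_adjoin _ _ ⟨0, rfl⟩)
        · rw [IntermediateField.adjoin_simple_le_iff]
          exact hle1 (IntermediateField.subset_adjoin _ _ ⟨1, rfl⟩)
        · exact le_sup_right
  have hT1 : T1B.T1 k F ℓ := t1_of_emt (F.restrictScalars k) hFal hemt ℓ hℓ hℓk
  exact bridge s hs (alg_K' s (insert z S) hS' hK') W hΔ x y hx hy F hF ℓ hℓ hℓk hT1 c hc n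

end Pool.Agent.FRB
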