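import Pool.Agent.ADH.T7
import Pool.Agent.FRB.E1

/-!
# Elliptic curves `y ^ 2 + x y + a₃(s) y = x ^ 3 + a₂(s) x ^ 2 + a₄(s) x + a₆(s)` over fields in
mixed towers, characteristic two

`K` is contained in `k(s)(S, z)`, `z ^ 3 = h(s)`, `deg h = 1, 2`, `φ(z') = F(s)` for `z'` in `S`,
`deg a₂, a₃, a₄, a₆, F ≤ u, u, 3 u, 5 u, u`, `u = 6 - 2 deg h`. The generic point of the curve is
contained in `k(U, s)(w)` as in `ADH.T7`, the weights of `U`, `s` are `u`, `1`.
-/

set_option autoImplicit false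

namespace Pool.Agent.FRB

open Polynomial Pool.Agent.WLD Pool.Agent.ADT Pool.Agent.ADH Pool.Agent.UQ WeierstrassCurve
  WeierstrassCurve.Affine Pool.Agent.EFF

open scoped Classical

/-- the equations of degree at most `7 u` for the weights `u`, `1` of `U`, `s` -/
def Equ (u : ℕ) {k M : Type} [Field k] [Field M] [Algebra k M] (U s z : M) : Prop :=
  ∃ (φ : k[X]) (f : MvPolynomial (Fin 3) k), AddPoly φ ∧ derivative φ ≠ 0 ∧
    MvPolynomial.weightedTotalDegree ![u, 1, 0] f ≤ 7 * u ∧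
      aeval z φ * U ^ 6 = MvPolynomial.aeval ![U, s, 0] f

/-- the generic point of the curve `W` and the rational surface with the functions `U`, `s` -/
def Geou (u : ℕ) {k : Type} [Field k] (W : WeierstrassCurve k[X]) : Prop :=
  ∀ (M : Type) (_ : Field M) (_ : Algebra k M) (_ : IsAlgClosed M) (x y s : M),
    Transcendental k s → (∀ F : k[X], x ≠ aeval s F) →
    MvPolynomial.aeval ![x, y, s] (wpoly W) = 0 →
      ∃ (U : M) (S : Finset M), U ≠ 0 ∧ (∀ z ∈ S, Equ (k := k) u U s z) ∧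
        x ∈ IntermediateField.adjoin k (Set.range ![U, s, 0] ∪ (S : Set M)) ∧
        y ∈ IntermediateField.adjoin k (Set.range ![U, s, 0] ∪ (S : Set M))

/-- the solutions of the equations are algebraic -/
theorem Equ.alg {u : ℕ} {k M : Type} [Field k] [Field M] [Algebra k M] {U s z : M}
    (h : Equ (k := k) u U s z) (hU : U ≠ 0) :
    IsAlgebraic (IntermediateField.adjoin k (Set.range ![U, s, 0])) z := by
  obtain ⟨φ, f, -, h2, -, h4⟩ := h
  obtain ⟨A, hA⟩ : ∃ A, A = IntermediateField.adjoin k (Set.range ![U, s, 0]) := ⟨_, rfl⟩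
  rw [← hA]
  have hUA : U ∈ A := by
    rw [hA]
    exact IntermediateField.subset_adjoin _ _ ⟨0, rfl⟩
  have hx : ∀ i, ![U, s, 0] i ∈ A := fun i => by
    rw [hA]
    exact IntermediateField.subset_adjoin _ _ ⟨i, rfl⟩
  have hf : MvPolynomial.aeval ![U, s, 0] f ∈ A := by
    have h1 : MvPolynomial.aeval ![U, s, 0] f ∈ Algebra.adjoin k (Set.range ![U, s, 0]) := by
      rw [Algebra.adjoin_range_eq_range_aeval]
      exact ⟨f, rfl⟩
    have h3 : Algebra.adjoin k (Set.range ![U, s, 0]) ≤ A.toSubalgebra :=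
      Algebra.adjoin_le (by rintro _ ⟨i, rfl⟩; exact hx i)
    exact h3 h1
  have hz : aeval z φ ∈ A := by
    have h5 : aeval z φ = MvPolynomial.aeval ![U, s, 0] f / U ^ 6 := by
      rw [← h4, mul_div_assoc, div_self (pow_ne_zero _ hU), mul_one]
    rw [h5]
    exact div_mem hf (pow_mem hUA 6)
  refine ⟨φ.map (algebraMap k A) - C (⟨aeval z φ, hz⟩ : A), ?_, ?_⟩
  · intro h0
    apply h2
    have h6 : φ.natDegree = 0 := by
      rw [← natDegree_map (algebraMap k A), sub_eq_zero.1 h0, natDegree_C]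
    rw [eq_C_of_natDegree_eq_zero h6, derivative_C]
  · rw [map_sub, aeval_map_algebraMap, aeval_C]
    exact sub_self _

/-- the generic point of the curve and the rational surface -/
theorem geou (u : ℕ) {k : Type} [Field k] [CharP k 2] (W : WeierstrassCurve k[X]) (hΔ : W.Δ ≠ 0)
    (w1 : W.a₁ = 1) (d3 : W.a₃.natDegree ≤ u) (d4 : W.a₄.natDegree ≤ 3 * u)
    (d2 : W.a₂.natDegree ≤ u) (d6 : W.a₆.natDegree ≤ 5 * u) : Geou u W := by
  intro M _ _ _ x y s hs hx hy
  have hM2 : CharP M 2 := charP_of_injective_algebraMap (algebraMap k M).injective 2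
  have h2 : (2 : M) = 0 := CharTwo.two_eq_zero
  have h2X : (2 : k[X]) = 0 := CharTwo.two_eq_zero
  obtain ⟨P4, hP4⟩ : ∃ P4, P4 = W.a₃ ^ 2 + W.a₄ := ⟨_, rfl⟩
  obtain ⟨P6, hP6⟩ : ∃ P6, P6 = W.a₆ + W.a₃ ^ 3 + W.a₂ * W.a₃ ^ 2 + W.a₃ * W.a₄ := ⟨_, rfl⟩
  have ha6 : P6 + P4 ^ 2 ≠ 0 := by
    intro h
    apply hΔ
    rw [WeierstrassCurve.Δ, WeierstrassCurve.b₂, WeierstrassCurve.b₄, WeierstrassCurve.b₆,
      WeierstrassCurve.b₈, w1]
    rw [hP6, hP4] at h
    linear_combination h + (- 8 * W.a₂ ^ 3 * W.a₃ ^ 2 - 32 * W.a₂ ^ 3 * W.a₆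
      - 4 * W.a₂ ^ 2 * W.a₃ ^ 2 + 8 * W.a₂ ^ 2 * W.a₃ * W.a₄ + 8 * W.a₂ ^ 2 * W.a₄ ^ 2
      - 24 * W.a₂ ^ 2 * W.a₆ + 18 * W.a₂ * W.a₃ ^ 3 + 36 * W.a₂ * W.a₃ ^ 2 * W.a₄
      - W.a₂ * W.a₃ ^ 2 + 4 * W.a₂ * W.a₃ * W.a₄ + 72 * W.a₂ * W.a₃ * W.a₆
      + 4 * W.a₂ * W.a₄ ^ 2 + 144 * W.a₂ * W.a₄ * W.a₆ - 6 * W.a₂ * W.a₆ - 14 * W.a₃ ^ 4
      - 16 * W.a₃ ^ 2 * W.a₄ - 108 * W.a₃ ^ 2 * W.a₆ - 48 * W.a₃ * W.a₄ ^ 2
      + 18 * W.a₃ * W.a₆ - 32 * W.a₄ ^ 3 + 36 * W.a₄ * W.a₆ - 216 * W.a₆ ^ 2 - W.a₆) * h2X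
  obtain ⟨α, hα⟩ : ∃ α, α = aeval s W.a₃ := ⟨_, rfl⟩
  obtain ⟨A, hA⟩ : ∃ A, A = aeval s (W.a₂ + W.a₃) := ⟨_, rfl⟩
  obtain ⟨β, hβ⟩ : ∃ β, β = aeval s P4 := ⟨_, rfl⟩
  obtain ⟨G, hG⟩ : ∃ G, G = aeval s P6 := ⟨_, rfl⟩
  obtain ⟨B, hB⟩ : ∃ B, B = G + β ^ 2 := ⟨_, rfl⟩
  have hB0 : B ≠ 0 := by
    have h3 : B = aeval s (P6 + P4 ^ 2) := by
      rw [hB, hG, hβ, map_add, map_pow]
    rw [h3]
    exact fun h => ha6 (transcendental_iff_injective.1 hs (h.trans (map_zero _).symm))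
  obtain ⟨x', hx'⟩ : ∃ x', x' = x + α := ⟨_, rfl⟩
  obtain ⟨y', hy'⟩ : ∃ y', y' = y + β := ⟨_, rfl⟩
  have hx0 : x' ≠ 0 := by
    intro h
    apply hx (-W.a₃)
    rw [map_neg, ← hα]
    linear_combination h - hx'
  have heq : y' ^ 2 + x' * y' = x' ^ 3 + A * x' ^ 2 + B := by
    rw [aeval_wpoly] at hy
    simp only [Matrix.cons_val_zero, Matrix.cons_val_one, Matrix.cons_val, w1, map_one] at hy
    rw [hy', hx', hA, hB, hG, hβ, hα, hP4, hP6]
    simp only [map_add, map_mul, map_pow]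
    linear_combination hy + (- 2 * x ^ 2 * aeval s W.a₃ - x * aeval s W.a₂ * aeval s W.a₃
      - 2 * x * aeval s W.a₃ ^ 2 + x * aeval s W.a₄ + y * aeval s W.a₃ ^ 2 + y * aeval s W.a₄
      - aeval s W.a₂ * aeval s W.a₃ ^ 2 - aeval s W.a₃ ^ 3) * h2
  -- the function `U`
  obtain ⟨U, hU⟩ : ∃ U : M, U ^ 8 + x' * U ^ 4 + B = 0 := by
    have hd : (X ^ 8 + C x' * X ^ 4 + C B : M[X]).degree ≠ 0 := by
      have : (X ^ 8 + C x' * X ^ 4 + C B : M[X]).degree = 8 := by compute_degree!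
      rw [this]
      decide
    obtain ⟨U, hU⟩ := IsAlgClosed.exists_root _ hd
    exact ⟨U, by simpa [IsRoot] using hU⟩
  have hU0 : U ≠ 0 := by
    rintro rfl
    apply hB0
    simpa using hU
  have hP : x' * U ^ 4 = U ^ 8 + B := by
    linear_combination hU - (U ^ 8 + B) * h2
  have hP0 : U ^ 8 + B ≠ 0 := by
    rw [← hP]
    exact mul_ne_zero hx0 (pow_ne_zero _ hU0)
  obtain ⟨v, hv⟩ : ∃ v, (U ^ 8 + B) * v = y' * U ^ 4 + B :=
    ⟨(y' * U ^ 4 + B) / (U ^ 8 + B), by field_simp⟩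
  obtain ⟨w, hw⟩ : ∃ w, w = v + U + U ^ 2 + β / U ^ 2 := ⟨_, rfl⟩
  have hyy : y' ^ 2 * U ^ 12 + (U ^ 8 + B) * y' * U ^ 8 -
      ((U ^ 8 + B) ^ 3 + A * (U ^ 8 + B) ^ 2 * U ^ 4 + B * U ^ 12) = 0 := by
    rw [← hP]
    linear_combination U ^ 12 * heq
  have hv2 : (v ^ 2 + v) * U ^ 4 = U ^ 8 + B + A * U ^ 4 := by
    apply mul_left_cancel₀ (pow_ne_zero 2 hP0)
    have h3 : (U ^ 8 + B) ^ 2 * ((v ^ 2 + v) * U ^ 4) =
        ((U ^ 8 + B) * v) ^ 2 * U ^ 4 + (U ^ 8 + B) * ((U ^ 8 + B) * v) * U ^ 4 := by ring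
    rw [h3, hv]
    linear_combination hyy + (B * U ^ 12 + y' * B * U ^ 8 + B ^ 2 * U ^ 4) * h2
  have key : (w ^ 2 + w) * U ^ 6 = U ^ 7 + A * U ^ 6 + β * U ^ 4 + G * U ^ 2 := by
    have h3 : w * U ^ 2 = (v + U + U ^ 2) * U ^ 2 + β := by
      rw [hw, add_mul, div_mul_cancel₀ _ (pow_ne_zero _ hU0)]
    have h4 : (w ^ 2 + w) * U ^ 6 = (w * U ^ 2) ^ 2 * U ^ 2 + (w * U ^ 2) * U ^ 4 := by ring
    rw [h4, h3]
    rw [hB] at hv2
    linear_combination U ^ 2 * hv2 + (U ^ 2 * (U ^ 8 + U ^ 7 + U ^ 6 + v * U ^ 5 + v * U ^ 6) +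
      β * (v + U + U ^ 2) * U ^ 4 + β ^ 2 * U ^ 2) * h2
  obtain ⟨E, hE⟩ : ∃ E : IntermediateField k M, E = IntermediateField.adjoin k
    (Set.range ![U, s, 0] ∪ (({w} : Finset M) : Set M)) := ⟨_, rfl⟩
  have hUE : U ∈ E := by
    rw [hE]
    exact IntermediateField.subset_adjoin _ _ (Or.inl ⟨0, rfl⟩)
  have hsE : s ∈ E := by
    rw [hE]
    exact IntermediateField.subset_adjoin _ _ (Or.inl ⟨1, rfl⟩)
  have hwE : w ∈ E := by
    rw [hE]
    exact IntermediateField.subset_adjoin _ _ (Or.inr (by simp))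
  have hαE : α ∈ E := by
    rw [hα]
    exact aeval_mem' E s hsE _
  have hβE : β ∈ E := by
    rw [hβ]
    exact aeval_mem' E s hsE _
  have hBE : B ∈ E := by
    rw [hB, hG]
    exact add_mem (aeval_mem' E s hsE _) (pow_mem hβE _)
  have hvE : v ∈ E := by
    have h4 : v = w - U - U ^ 2 - β / U ^ 2 := by
      rw [hw]
      ring
    rw [h4]
    exact sub_mem (sub_mem (sub_mem hwE hUE) (pow_mem hUE _)) (div_mem hβE (pow_mem hUE _))
  refine ⟨U, {w}, hU0, ?_, ?_, ?_⟩
  · intro z hz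
    rw [Finset.mem_singleton.1 hz]
    refine ⟨X ^ 2 + X, MvPolynomial.X 0 ^ 7 + aeval (MvPolynomial.X 1) (W.a₂ + W.a₃) *
      MvPolynomial.X 0 ^ 6 + aeval (MvPolynomial.X 1) P4 * MvPolynomial.X 0 ^ 4 +
      aeval (MvPolynomial.X 1) P6 * MvPolynomial.X 0 ^ 2,
      addPoly_two, derivative_two, ?_, ?_⟩
    · refine wle_add _ _ _ _ (wle_add _ _ _ _ (wle_add _ _ _ _ ?_ ?_) ?_) ?_
      · exact (wle_X_pow ![u, 1, 0] 0 7).trans (le_of_eq rfl)
      · refine (wle_mul _ _ _ _ _ (wle_aeval_X _ 1 (W.a₂ + W.a₃)) (wle_X_pow _ 0 6)).trans ?_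
        show (W.a₂ + W.a₃).natDegree * 1 + 6 * u ≤ 7 * u
        have := natDegree_add_le W.a₂ W.a₃
        omega
      · refine (wle_mul _ _ _ _ _ (wle_aeval_X _ 1 P4) (wle_X_pow _ 0 4)).trans ?_
        show P4.natDegree * 1 + 4 * u ≤ 7 * u
        have h3 : P4.natDegree ≤ 3 * u := by
          rw [hP4]
          refine (natDegree_add_le _ _).trans (max_le (natDegree_pow_le.trans ?_) d4)
          omega
        omega
      · refine (wle_mul _ _ _ _ _ (wle_aeval_X _ 1 P6) (wle_X_pow _ 0 2)).trans ?_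
        show P6.natDegree * 1 + 2 * u ≤ 7 * u
        have h3 : P6.natDegree ≤ 5 * u := by
          rw [hP6]
          have e3 : (W.a₃ ^ 3).natDegree ≤ 3 * u :=
            natDegree_pow_le.trans (Nat.mul_le_mul_left 3 d3)
          have e2 : (W.a₃ ^ 2).natDegree ≤ 2 * u :=
            natDegree_pow_le.trans (Nat.mul_le_mul_left 2 d3)
          have e4 := natDegree_mul_le (p := W.a₂) (q := W.a₃ ^ 2)
          have e5 := natDegree_mul_le (p := W.a₃) (q := W.a₄)
          refine (natDegree_add_le _ _).trans (max_le ((natDegree_add_le _ _).trans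
            (max_le ((natDegree_add_le _ _).trans (max_le d6 (by omega))) (by omega)))
            (by omega))
        omega
    · have h3 : ∀ q : k[X], MvPolynomial.aeval ![U, s, 0]
          (aeval (MvPolynomial.X 1 : MvPolynomial (Fin 3) k) q) = aeval s q := by
        intro q
        rw [← Polynomial.aeval_algHom_apply, MvPolynomial.aeval_X]
        rfl
      rw [map_add (MvPolynomial.aeval ![U, s, 0]), map_add (MvPolynomial.aeval ![U, s, 0]),
        map_add (MvPolynomial.aeval ![U, s, 0])]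
      simp only [map_mul, map_pow, MvPolynomial.aeval_X, h3, Matrix.cons_val_zero, ← hA, ← hβ,
        ← hG]
      rw [map_add, map_pow, aeval_X]
      exact key
  · rw [← hE]
    have h3 : x = (U ^ 8 + B) / U ^ 4 - α := by
      rw [← hP, mul_div_assoc, div_self (pow_ne_zero _ hU0), mul_one, hx']
      ring
    rw [h3]
    exact sub_mem (div_mem (add_mem (pow_mem hUE _) hBE) (pow_mem hUE _)) hαE
  · rw [← hE]
    have h3 : y = ((U ^ 8 + B) * v - B) / U ^ 4 - β := by
      rw [hv, add_sub_cancel_right, mul_div_assoc, div_self (pow_ne_zero _ hU0), mul_one, hy']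
      ring
    rw [h3]
    exact sub_mem (div_mem (sub_mem (mul_mem (add_mem (pow_mem hUE _) hBE) hvE) hBE)
      (pow_mem hUE _)) hβE

/-- the curves `y ^ 2 + x y + a₃(s) y = x ^ 3 + a₂(s) x ^ 2 + a₄(s) x + a₆(s)` of characteristic
two over the mixed towers -/
theorem sha_M3 {k K Kb : Type} [Field k] [Finite k] [Field K] [Field Kb] [Algebra k K]
    [Algebra k Kb] [Algebra K Kb] [IsScalarTower k K Kb] [IsAlgClosed Kb]
    [Algebra.IsAlgebraic K Kb] [CharP k 2] (s : K)
    (hs : Transcendental k s) (W : WeierstrassCurve k[X]) (hΔ : W.Δ ≠ 0)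
    (w1 : W.a₁ = 1) (h : k[X]) (h1 : 1 ≤ h.natDegree) (h2 : h.natDegree ≤ 2)
    (d2 : W.a₂.natDegree ≤ 6 - 2 * h.natDegree) (d3 : W.a₃.natDegree ≤ 6 - 2 * h.natDegree)
    (d4 : W.a₄.natDegree ≤ 3 * (6 - 2 * h.natDegree))
    (d6 : W.a₆.natDegree ≤ 5 * (6 - 2 * h.natDegree)) (S : Finset Kb)
    (hS : ∀ z ∈ S, ∃ φ F : k[X], AddPoly φ ∧ derivative φ ≠ 0 ∧
      F.natDegree ≤ 6 - 2 * h.natDegree ∧ aeval z φ = aeval (algebraMap K Kb s) F)
    (z : Kb) (hz : z ^ 3 = aeval (algebraMap K Kb s) h)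
    (hK : ∀ a : K, algebraMap K Kb a ∈
      IntermediateField.adjoin k (insert (algebraMap K Kb s) (insert z (S : Set Kb))))
    (ℓ : ℕ) (hℓ : ℓ.Prime) (hℓk : (ℓ : k) ≠ 0)
    (c : ℕ → (Kb ≃ₐ[K] Kb) → Pts (Ws W s) Kb) (hc : ShaSys (Ws W s) k ℓ c) (n : ℕ) :
    Principal (Ws W s) (T1B.geo k K Kb) (c n) := by
  have hp : Fact (Nat.Prime 2) := ⟨Nat.prime_two⟩
  obtain ⟨u, hu⟩ : ∃ u, u = 6 - 2 * h.natDegree := ⟨_, rfl⟩
  rw [← hu] at d2 d3 d4 d6
  obtain ⟨α, γ, c1, c2, c3, c4, c5⟩ : ∃ α γ : ℕ, h.natDegree + 3 * α ≤ 7 * u ∧ 2 * γ ≤ 7 * u ∧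
      3 * u + γ ≤ 7 * u ∧ 7 * u ≤ u + 1 + α + γ ∧ 6 * u + 1 ≤ 7 * u := by
    rcases (by omega : h.natDegree = 1 ∨ h.natDegree = 2) with h3 | h3
    · exact ⟨9, 14, by omega, by omega, by omega, by omega, by omega⟩
    · exact ⟨4, 7, by omega, by omega, by omega, by omega, by omega⟩
  have hek : ((3 : ℕ) : k) ≠ 0 := by
    intro h
    have h4 := (CharP.cast_eq_zero_iff k 2 3).1 h
    omega
  have hS' : ∀ w ∈ insert z S, ∃ φ F : k[X], φ.natDegree ≠ 0 ∧
      aeval w φ = aeval (algebraMap K Kb s) F := by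
    intro w hw
    rcases Finset.mem_insert.1 hw with rfl | hw
    · exact ⟨X ^ 3, h, by rw [natDegree_X_pow]; norm_num, by rw [map_pow, aeval_X, hz]⟩
    · obtain ⟨φ, F, -, a2, -, a4⟩ := hS w hw
      refine ⟨φ, F, fun h => a2 ?_, a4⟩
      rw [eq_C_of_natDegree_eq_zero h, derivative_C]
  have hK' : ∀ a : K, algebraMap K Kb a ∈
      IntermediateField.adjoin k (insert (algebraMap K Kb s)
        ((insert z S : Finset Kb) : Set Kb)) := by
    intro a
    rw [Finset.coe_insert]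
    exact hK a
  obtain ⟨M, _, _, _, _, x, y, t1, t2, t3, hM, htd, hx, hy, hal⟩ :=
    setup s hs (insert z S) hS' hK' W
  have hsM : Transcendental k (algebraMap K M s) :=
    (transcendental_algebraMap_iff (algebraMap K M).injective).2 hs
  obtain ⟨U, S₁, hU, hS₁, hx₁, hy₁⟩ := geou u W hΔ w1 d3 d4 d2 d6 M _ _ hM x y
    (algebraMap K M s) hsM
    (fun G h => hx (h ▸ (Polynomial.aeval_algebraMap_apply M s G).symm ▸ isAlgebraic_algebraMap _)) hy
  obtain ⟨F, hF⟩ : ∃ F : IntermediateField K M, F = IntermediateField.adjoin K {x, y} := ⟨_, rfl⟩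
  have hxF : x ∈ F := by
    rw [hF]
    exact IntermediateField.subset_adjoin _ _ (by simp)
  have hyF : y ∈ F := by
    rw [hF]
    exact IntermediateField.subset_adjoin _ _ (by simp)
  have hsub : IntermediateField.adjoin k (Set.range ![x, y, algebraMap K M s]) ≤
      F.restrictScalars k := by
    rw [IntermediateField.adjoin_le_iff]
    rintro _ ⟨i, rfl⟩
    fin_cases i
    · exact hxF
    · exact hyF
    · exact F.algebraMap_mem s
  have hFal : ∀ b : M, IsAlgebraic (F.restrictScalars k) b := fun b => by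
    refine algTrans (K := IntermediateField.adjoin k (Set.range ![x, y, algebraMap K M s])) _
      (fun a => ?_) b (hal b)
    exact isAlgebraic_algebraMap (⟨a, hsub a.2⟩ : F.restrictScalars k)
  -- the elements of `M` are algebraic over `k(U, s)`
  have hUal : ∀ b : M, IsAlgebraic
      (IntermediateField.adjoin k (Set.range ![U, algebraMap K M s, 0])) b := by
    obtain ⟨A, hA⟩ : ∃ A, A = IntermediateField.adjoin k (Set.range ![U, algebraMap K M s, 0]) :=
      ⟨_, rfl⟩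
    have hxy : ∀ a ∈ IntermediateField.adjoin k
        (Set.range ![U, algebraMap K M s, 0] ∪ (S₁ : Set M)), IsAlgebraic A a := by
      intro a ha
      refine alg_adjoin A _ ?_ a ha
      rintro b (hb | hb)
      · have hbA : b ∈ A := by
          rw [hA]
          exact IntermediateField.subset_adjoin _ _ hb
        exact isAlgebraic_algebraMap (⟨b, hbA⟩ : A)
      · rw [hA]
        exact (hS₁ b hb).alg hU
    rw [← hA]
    intro b
    refine algTrans (K := IntermediateField.adjoin k (Set.range ![x, y, algebraMap K M s])) A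
      (fun a => ?_) b (hal b)
    refine alg_adjoin A _ ?_ (a : M) a.2
    rintro _ ⟨i, rfl⟩
    fin_cases i
    · exact hxy x hx₁
    · exact hxy y hy₁
    · have hbA : algebraMap K M s ∈ A := by
        rw [hA]
        exact IntermediateField.subset_adjoin _ _ ⟨1, rfl⟩
      exact isAlgebraic_algebraMap (⟨_, hbA⟩ : A)
  -- the radical
  have hinj : ∀ q : k[X], aeval (algebraMap K M s) q = 0 → q = 0 := fun q hq =>
    transcendental_iff_injective.1 hsM (hq.trans (map_zero _).symm)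
  obtain ⟨z', hzdef⟩ : ∃ z' : M, z' = algebraMap Kb M z := ⟨_, rfl⟩
  have hz' : z' ^ 3 = aeval (algebraMap K M s) h := by
    rw [hzdef, ← map_pow, hz, ← Polynomial.aeval_algebraMap_apply,
      ← IsScalarTower.algebraMap_apply K Kb M]
  have hh0 : aeval (algebraMap K M s) h ≠ 0 := by
    intro h0
    have h3 := hinj _ h0
    rw [h3, natDegree_zero] at h1
    omega
  have hz'0 : z' ≠ 0 := by
    rintro h0
    apply hh0
    rw [← hz', h0, zero_pow (by norm_num)]
  -- the field is contained in the tower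
  let ι : Kb →ₐ[k] M := IsScalarTower.toAlgHom k Kb M
  obtain ⟨T, hT⟩ : ∃ T : Finset M, T = S₁ ∪ S.image ι := ⟨_, rfl⟩
  obtain ⟨B, hB⟩ : ∃ B : IntermediateField k M, B = IntermediateField.adjoin k
    (Set.range ![U, algebraMap K M s, 0] ∪ insert z' (T : Set M)) := ⟨_, rfl⟩
  have hB₁ : IntermediateField.adjoin k (Set.range ![U, algebraMap K M s, 0] ∪ (S₁ : Set M)) ≤
      B := by
    rw [hB]
    apply IntermediateField.adjoin.mono
    apply Set.union_subset_union_right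
    refine Set.Subset.trans ?_ (Set.subset_insert _ _)
    rw [hT, Finset.coe_union]
    exact Set.subset_union_left
  have hsB : algebraMap K M s ∈ B := by
    rw [hB]
    exact IntermediateField.subset_adjoin _ _ (Or.inl ⟨1, rfl⟩)
  have hKM : ∀ a : K, algebraMap K M a ∈ B := by
    refine mem_of_gen s (insert z S) hK' B hsB fun w hw => ?_
    rw [hB]
    refine IntermediateField.subset_adjoin _ _ (Or.inr ?_)
    rcases Finset.mem_insert.1 hw with rfl | hw
    · exact Or.inl hzdef.symm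
    · refine Or.inr ?_
      rw [hT, Finset.coe_union, Finset.coe_image]
      exact Or.inr ⟨w, hw, rfl⟩
  have hle : F.restrictScalars k ≤ B := by
    let B' : IntermediateField K M := B.toSubfield.toIntermediateField hKM
    have hFB : F ≤ B' := by
      rw [hF, IntermediateField.adjoin_le_iff]
      rintro b (rfl | hb)
      · exact hB₁ hx₁
      · rw [Set.mem_singleton_iff.1 hb]
        exact hB₁ hy₁
    exact fun b hb => hFB hb
  -- the theorem on the towers
  have hX2 : (MvPolynomial.X 2 : MvPolynomial (Fin 3) k) ≠ 0 := MvPolynomial.X_ne_zero _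
  have hQU : MvPolynomial.aeval ![U, algebraMap K M s, 0]
      (1 * (MvPolynomial.X 0 ^ 3) ^ 2 : MvPolynomial (Fin 3) k) = U ^ 6 := by
    rw [one_mul, ← pow_mul, map_pow, MvPolynomial.aeval_X]
    rfl
  have hemt : Emt (F.restrictScalars k) := by
    refine tower_injM 2 htd ![U, algebraMap K M s, 0] hUal (MvPolynomial.X 2) 1
      (MvPolynomial.X 0 ^ 3) 1 (MvPolynomial.X 0 ^ 2) (aeval (MvPolynomial.X 1) h) hX2 ?_
      ![u, 1, 0] 3 α γ 0 (3 * u) 0 h.natDegree 0 (7 * u) (by norm_num) hek z' hz'0 ?_ ?_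
      ?_ ?_ (wle_one _) ?_ (wle_one _) ?_ ?_ ?_ ?_ ?_ ?_ T ?_ ?_ ?_ _
      (hle.trans hB.le) hFal
    · rw [MvPolynomial.aeval_X]
      rfl
    · rw [aeval_one]
      exact hz'
    · rw [one_mul, one_mul, ← pow_mul, ← pow_mul]
    · rw [hQU]
      exact pow_ne_zero _ hU
    · exact wle_X _ _
    · exact (wle_X_pow ![u, 1, 0] 0 3).trans (le_of_eq rfl)
    · refine (wle_aeval_X _ 1 h).trans ?_
      show h.natDegree * 1 ≤ h.natDegree
      omega
    · omega
    · omega
    · omega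
    · omega
    · show 0 + 7 * u ≤ u + 1 + 0 + α + γ
      omega
    · intro t ht
      rw [hT, Finset.mem_union] at ht
      rw [hQU]
      rcases ht with ht | ht
      · exact hS₁ t ht
      · obtain ⟨w, hw, rfl⟩ := Finset.mem_image.1 ht
        obtain ⟨φ, G, a1, a2, a3, a4⟩ := hS w hw
        refine ⟨φ, aeval (MvPolynomial.X 1) G * MvPolynomial.X 0 ^ 6, a1, a2, ?_, ?_⟩
        · refine (wle_mul _ _ _ _ _ (wle_aeval_X _ 1 G) (wle_X_pow _ 0 6)).trans ?_
          show G.natDegree * 1 + 6 * u ≤ 7 * u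
          omega
        · rw [map_mul, aeval_one, map_pow, MvPolynomial.aeval_X,
            Polynomial.aeval_algHom_apply, a4]
          congr 1
          show algebraMap Kb M (aeval (algebraMap K Kb s) G) = aeval (algebraMap K M s) G
          rw [← Polynomial.aeval_algebraMap_apply, ← IsScalarTower.algebraMap_apply K Kb M]
    · intro C₀ hC₀ zK
      have hKh : aeval (algebraMap K M s) h ∈ IntermediateField.adjoin k (C₀ : Set M) ⊔
          IntermediateField.adjoin k (Set.range ![U, algebraMap K M s, 0]) := hz' ▸ zK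
      have h3 := irr_kummer htd U (algebraMap K M s) hUal 3 (by decide) h h1 h2 C₀ hC₀ hKh
      have h4 : (⟨z' ^ 3, zK⟩ : (IntermediateField.adjoin k (C₀ : Set M) ⊔
          IntermediateField.adjoin k (Set.range ![U, algebraMap K M s, 0]) :
            IntermediateField k M)) = ⟨aeval (algebraMap K M s) h, hKh⟩ := Subtype.ext hz'
      rw [h4]
      exact h3
    · intro C₀ hC₀
      have hEalg : Algebra.IsAlgebraic k (IntermediateField.adjoin k (C₀ : Set M)) :=
        IntermediateField.isAlgebraic_adjoin fun c hc => (hC₀ c hc).isIntegral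
      have hEtd : Algebra.trdeg k (IntermediateField.adjoin k (C₀ : Set M)) = 0 :=
        trdeg_eq_zero_iff.2 hEalg
      have hle1 : IntermediateField.adjoin k (Set.range ![U, algebraMap K M s, 0]) ≤
          KZ (IntermediateField.adjoin k (C₀ : Set M) ⊔
            IntermediateField.adjoin k (Set.range ![U, algebraMap K M s, 0])) z' :=
        le_trans le_sup_right le_sup_left
      refine emt_two ⟨IntermediateField.adjoin k (C₀ : Set M) ⊔ IntermediateField.adjoin k {U},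
        IntermediateField.adjoin k {algebraMap K M s} ⊔ IntermediateField.adjoin k {z'},
        IntermediateField.fg_sup ⟨C₀, rfl⟩ ⟨{U}, by rw [Finset.coe_singleton]⟩,
        IntermediateField.fg_sup ⟨{algebraMap K M s}, by rw [Finset.coe_singleton]⟩
          ⟨{z'}, by rw [Finset.coe_singleton]⟩, ?_, ?_, ?_⟩ fun b => alg_le hle1 (hUal b)
      · refine (trdeg_sup_singleton_le _ U).trans ?_
        rw [hEtd, zero_add]
      · have hsS : algebraMap K M s ∈ IntermediateField.adjoin k {algebraMap K M s} :=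
          IntermediateField.mem_adjoin_simple_self _ _
        have h6 : IsAlgebraic (IntermediateField.adjoin k {algebraMap K M s}) z' :=
          alg_root _ _ z' hsS (X ^ 3) h (by rw [natDegree_X_pow]; omega)
            (by rw [map_pow, aeval_X, hz'])
        exact (trdeg_sup_alg _ z' h6).trans (trdeg_adjoin_singleton_le (k := k) (algebraMap K M s))
      · refine le_antisymm (sup_le (sup_le ?_ ?_) ?_) (sup_le (sup_le ?_ ?_) (sup_le ?_ ?_))
        · exact le_trans le_sup_left le_sup_left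
        · rw [IntermediateField.adjoin_le_iff]
          rintro _ ⟨i, rfl⟩
          fin_cases i
          · exact (le_trans le_sup_right le_sup_left : IntermediateField.adjoin k {U} ≤ _)
              (IntermediateField.mem_adjoin_simple_self _ _)
          · exact (le_trans le_sup_left le_sup_right :
              IntermediateField.adjoin k {algebraMap K M s} ≤ _)
              (IntermediateField.mem_adjoin_simple_self _ _)
          · exact zero_mem _
        · exact le_trans le_sup_right le_sup_right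
        · exact le_trans le_sup_left le_sup_left
        · rw [IntermediateField.adjoin_simple_le_iff]
          exact hle1 (IntermediateField.subset_adjoin _ _ ⟨0, rfl⟩)
        · rw [IntermediateField.adjoin_simple_le_iff]
          exact hle1 (IntermediateField.subset_adjoin _ _ ⟨1, rfl⟩)
        · exact le_sup_right
  have hT1 : T1B.T1 k F ℓ := t1_of_emt (F.restrictScalars k) hFal hemt ℓ hℓ hℓk
  exact bridge s hs (alg_K' s (insert z S) hS' hK') W hΔ x y hx hy F hF ℓ hℓ hℓk hT1 c hc n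

end Pool.Agent.FRB
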