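import Pool.Agent.FRJ.CasesJ
import Pool.Agent.FRB.E4a
import Pool.Agent.ADT.T3
import Pool.Agent.ADH.T7a

/-!
# Elliptic curves over `k(s)` with `deg a_i ≤ i / p` over fields in mixed towers

`K` is contained in `k(s)(v, S)`, `v ^ N = h(s)`, `N` prime to `p`, `deg h = 1`, `φ(z') = F(s)` for `z'`
in `S`, `deg F ≤ 1`.
-/

set_option autoImplicit false

namespace Pool.Agent.FRB

open Polynomial Pool.Agent.WLD Pool.Agent.ADT Pool.Agent.ADH Pool.Agent.UQ WeierstrassCurve
  WeierstrassCurve.Affine Pool.Agent.EFF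

open scoped Classical

/-- the elliptic curves over the mixed towers, `p * deg a_i ≤ i` -/
theorem sha_M4 {k K Kb : Type} [Field k] [Finite k] [Field K] [Field Kb] [Algebra k K]
    [Algebra k Kb] [Algebra K Kb] [IsScalarTower k K Kb] [IsAlgClosed Kb]
    [Algebra.IsAlgebraic K Kb] (p : ℕ) [Fact p.Prime] [CharP k p] (s : K)
    (hs : Transcendental k s) (W : WeierstrassCurve k[X]) (hΔ : W.Δ ≠ 0) (N : ℕ) (hN : 2 ≤ N)
    (hNk : (N : k) ≠ 0) (h : k[X]) (h1 : h.natDegree = 1) (w1 : p * W.a₁.natDegree ≤ 1)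
    (w2 : p * W.a₂.natDegree ≤ 2) (w3 : p * W.a₃.natDegree ≤ 3) (w4 : p * W.a₄.natDegree ≤ 4)
    (w6 : p * W.a₆.natDegree ≤ 6) (S : Finset Kb)
    (hS : ∀ z ∈ S, ∃ φ F : k[X], AddPoly φ ∧ derivative φ ≠ 0 ∧ F.natDegree ≤ 1 ∧
      aeval z φ = aeval (algebraMap K Kb s) F)
    (v : Kb) (hv : v ^ N = aeval (algebraMap K Kb s) h)
    (hK : ∀ a : K, algebraMap K Kb a ∈
      IntermediateField.adjoin k (insert (algebraMap K Kb s) (insert v (S : Set Kb))))
    (ℓ : ℕ) (hℓ : ℓ.Prime) (hℓk : (ℓ : k) ≠ 0)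
    (c : ℕ → (Kb ≃ₐ[K] Kb) → Pts (Ws W s) Kb) (hc : ShaSys (Ws W s) k ℓ c) (n : ℕ) :
    Principal (Ws W s) (T1B.geo k K Kb) (c n) := by
  have hp : 0 < p := (Fact.out : p.Prime).pos
  have hS' : ∀ w ∈ insert v S, ∃ φ F : k[X], φ.natDegree ≠ 0 ∧
      aeval w φ = aeval (algebraMap K Kb s) F := by
    intro w hw
    rcases Finset.mem_insert.1 hw with rfl | hw
    · exact ⟨X ^ N, h, by rw [natDegree_X_pow]; omega, by rw [map_pow, aeval_X, hv]⟩
    · obtain ⟨φ, F, -, a2, -, a4⟩ := hS w hw
      refine ⟨φ, F, fun h => a2 ?_, a4⟩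
      rw [eq_C_of_natDegree_eq_zero h, derivative_C]
  have hK' : ∀ a : K, algebraMap K Kb a ∈
      IntermediateField.adjoin k (insert (algebraMap K Kb s)
        ((insert v S : Finset Kb) : Set Kb)) := by
    intro a
    rw [Finset.coe_insert]
    exact hK a
  obtain ⟨M, _, _, _, _, x, y, t1, t2, t3, hM, htd, hx, hy, hal⟩ :=
    setup s hs (insert v S) hS' hK' W
  obtain ⟨F, hF⟩ : ∃ F : IntermediateField K M, F = IntermediateField.adjoin K {x, y} := ⟨_, rfl⟩
  have hxF : x ∈ F := by
    rw [hF]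
    exact IntermediateField.subset_adjoin _ _ (by simp)
  have hyF : y ∈ F := by
    rw [hF]
    exact IntermediateField.subset_adjoin _ _ (by simp)
  have hsub : IntermediateField.adjoin k (Set.range ![x, y, algebraMap K M s]) ≤
      F.restrictScalars k := by
    rw [IntermediateField.adjoin_le_iff]
    rintro _ ⟨i, rfl⟩
    fin_cases i
    · exact hxF
    · exact hyF
    · exact F.algebraMap_mem s
  have hFal : ∀ b : M, IsAlgebraic (F.restrictScalars k) b := fun b => by
    refine algTrans (K := IntermediateField.adjoin k (Set.range ![x, y, algebraMap K M s])) _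
      (fun a => ?_) b (hal b)
    exact isAlgebraic_algebraMap (⟨a, hsub a.2⟩ : F.restrictScalars k)
  -- the radical
  obtain ⟨z', hzdef⟩ : ∃ z' : M, z' = algebraMap Kb M v := ⟨_, rfl⟩
  have hz' : z' ^ N = aeval (algebraMap K M s) h := by
    rw [hzdef, ← map_pow, hv, ← Polynomial.aeval_algebraMap_apply,
      ← IsScalarTower.algebraMap_apply K Kb M]
  -- the field is contained in the tower
  let ι : Kb →ₐ[k] M := IsScalarTower.toAlgHom k Kb M
  obtain ⟨K₀, hK₀⟩ : ∃ K₀ : IntermediateField k M,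
    K₀ = IntermediateField.adjoin k (Set.range ![x, y, algebraMap K M s]) := ⟨_, rfl⟩
  obtain ⟨B, hB⟩ : ∃ B : IntermediateField k M, B = K₀ ⊔ IntermediateField.adjoin k
    ((insert z' (S.image ι) : Finset M) : Set M) := ⟨_, rfl⟩
  have hKB : K₀ ≤ B := by
    rw [hB]
    exact le_sup_left
  have hSB : ∀ b ∈ (insert z' (S.image ι) : Finset M), b ∈ B := by
    intro b hb
    rw [hB]
    exact (le_sup_right : IntermediateField.adjoin k
      ((insert z' (S.image ι) : Finset M) : Set M) ≤ _) (IntermediateField.subset_adjoin _ _ hb)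
  have hx₀ : ∀ i, ![x, y, algebraMap K M s] i ∈ K₀ := fun i => by
    rw [hK₀]
    exact IntermediateField.subset_adjoin _ _ ⟨i, rfl⟩
  have hsB : algebraMap K M s ∈ B := hKB (hx₀ 2)
  have hKM : ∀ a : K, algebraMap K M a ∈ B := by
    refine mem_of_gen s (insert v S) hK' B hsB fun w hw => ?_
    apply hSB
    rcases Finset.mem_insert.1 hw with rfl | hw
    · rw [← hzdef]
      exact Finset.mem_insert_self _ _
    · exact Finset.mem_insert_of_mem (Finset.mem_image.2 ⟨w, hw, rfl⟩)
  have hle : F.restrictScalars k ≤ B := by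
    let B' : IntermediateField K M := B.toSubfield.toIntermediateField hKM
    have hFB : F ≤ B' := by
      rw [hF, IntermediateField.adjoin_le_iff]
      rintro b (rfl | hb)
      · exact hKB (hx₀ 0)
      · rw [Set.mem_singleton_iff.1 hb]
        exact hKB (hx₀ 1)
    exact fun b hb => hFB hb
  -- the theorem on the towers
  have hev : ∀ q : k[X], MvPolynomial.aeval ![x, y, algebraMap K M s]
      (aeval (MvPolynomial.X 2 : MvPolynomial (Fin 3) k) q) = aeval (algebraMap K M s) q := by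
    intro q
    rw [← Polynomial.aeval_algHom_apply, MvPolynomial.aeval_X]
    rfl
  have halK : ∀ b : M, IsAlgebraic K₀ b := by
    rw [hK₀]
    exact hal
  have heq : y ^ 2 + aeval (algebraMap K M s) W.a₁ * x * y + aeval (algebraMap K M s) W.a₃ * y =
      x ^ 3 + aeval (algebraMap K M s) W.a₂ * x ^ 2 + aeval (algebraMap K M s) W.a₄ * x +
        aeval (algebraMap K M s) W.a₆ := by
    have hy' := hy
    rw [aeval_wpoly] at hy'
    simp only [Matrix.cons_val_zero, Matrix.cons_val_one, Matrix.cons_val] at hy'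
    linear_combination hy'
  have hcase : FRJ.CaseK p K₀ (insert z' (S.image ι)) N := by
    have w0 : MvPolynomial.weightedTotalDegree ![2, 3, p] (1 : MvPolynomial (Fin 3) k) = 0 :=
      Nat.le_zero.1 (wle_one _)
    have wg : MvPolynomial.weightedTotalDegree ![2, 3, p] (wpoly W) ≤ 6 :=
      wle_wpoly W 1 p ⟨by rw [mul_comm]; exact w1, by rw [mul_comm]; exact w2,
        by rw [mul_comm]; exact w3, by rw [mul_comm]; exact w4, by rw [mul_comm]; exact w6⟩ _
        rfl rfl rfl
    have wh : MvPolynomial.weightedTotalDegree ![2, 3, p]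
        (aeval (MvPolynomial.X 2 : MvPolynomial (Fin 3) k) h) ≤ p := by
      refine (wle_aeval_X _ 2 h).trans ?_
      show h.natDegree * p ≤ p
      rw [h1, one_mul]
    have zK : z' ^ N ∈ algebraicClosure k M ⊔ K₀ := by
      rw [hz']
      have h3 : aeval (algebraMap K M s) h ∈ K₀ := aeval_mem' K₀ h (hx₀ 2)
      exact (le_sup_right : K₀ ≤ algebraicClosure k M ⊔ K₀) h3
    refine ⟨![x, y, algebraMap K M s], wpoly W, 1, 1, 1, 1, 1, aeval (MvPolynomial.X 2) h,
      ![2, 3, p], p, S.image ι, z', zK, hK₀, wpoly_ne_zero W, hy, by rw [one_pow, mul_one],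
      by rw [one_pow, mul_one], by rw [map_one]; exact one_ne_zero, by rw [w0]; exact hp, ?_, ?_,
      Finset.coe_insert _ _, by rw [hev, hz'], ?_, ?_⟩
    · rw [w0, zero_add]
      exact wh
    · rw [w0]
      show N * p * (MvPolynomial.weightedTotalDegree ![2, 3, p] (wpoly W) + p) + N * 0 +
        p * (0 + MvPolynomial.weightedTotalDegree ![2, 3, p] (aeval (MvPolynomial.X 2) h)) ≤
          N * p * (2 + 3 + p) + (N + p) * p
      have e1 : N * p * (MvPolynomial.weightedTotalDegree ![2, 3, p] (wpoly W) + p) ≤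
          N * p * (6 + p) := Nat.mul_le_mul_left _ (Nat.add_le_add_right wg _)
      have e2 : p * (0 + MvPolynomial.weightedTotalDegree ![2, 3, p]
          (aeval (MvPolynomial.X 2 : MvPolynomial (Fin 3) k) h)) ≤ p * p := by
        rw [zero_add]
        exact Nat.mul_le_mul_left _ wh
      calc _ ≤ N * p * (6 + p) + N * 0 + p * p := Nat.add_le_add (Nat.add_le_add_right e1 _) e2
        _ = N * p * (2 + 3 + p) + (N + p) * p := by ring
    · subst hK₀
      exact irr_ell htd W.a₁ W.a₂ W.a₃ W.a₄ W.a₆ x y (algebraMap K M s) heq hal N (by omega) h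
        h1 (z' ^ N) hz' _ rfl zK
    · intro w hw
      obtain ⟨w', hw', rfl⟩ := Finset.mem_image.1 hw
      obtain ⟨φ, G, a1, a2, a3, a4⟩ := hS w' hw'
      refine ⟨φ, aeval (MvPolynomial.X 2) G, a1, a2, ?_, ?_⟩
      · refine (wle_aeval_X _ 2 G).trans ?_
        show G.natDegree * p ≤ p
        exact (Nat.mul_le_mul_right p a3).trans (one_mul p).le
      · rw [map_one, mul_one, hev, Polynomial.aeval_algHom_apply, a4]
        show algebraMap Kb M (aeval (algebraMap K Kb s) G) = aeval (algebraMap K M s) G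
        rw [← Polynomial.aeval_algebraMap_apply, ← IsScalarTower.algebraMap_apply K Kb M]
  have hemt : Emt (F.restrictScalars k) :=
    FRJ.CaseK.emt htd halK hN hNk hcase (F.restrictScalars k) (hle.trans hB.le) hFal
  have hT1 : T1B.T1 k F ℓ := t1_of_emt (F.restrictScalars k) hFal hemt ℓ hℓ hℓk
  exact bridge s hs (alg_K' s (insert v S) hS' hK') W hΔ x y hx hy F hF ℓ hℓ hℓk hT1 c hc n

end Pool.Agent.FRB
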