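import Pool.Agent.FRB.Defs
import Pool.Agent.WLD.EAI

set_option maxSynthPendingDepth 3

/-!
# The combination of the reciprocity relations and the local statements
-/

set_option autoImplicit false

namespace Pool.Agent.FRB

open Polynomial Pool.Agent.TBR Pool.Agent.TUQ Pool.Agent.WLD

universe u

/-! ## Linear algebra -/

section

variable {Q B : Type*} [AddCommGroup Q] [Fintype B]

/-- the sum of the relations, in terms of the classes `x j i` -/
private theorem main_alg {n m : ℕ} (P : Fin n → Fin m → Prop) [∀ j i, Decidable (P j i)]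
    (e : Fin n → Fin m → ℤ) (eb : Fin n → B → ℤ) (near : Fin n → B → Prop)
    [∀ j b, Decidable (near j b)] [∀ j, Decidable (∃ b, near j b)]
    (hun : ∀ j b b', near j b → near j b' → b = b') (N : ℤ)
    (hN : ∀ b, ∑ j, (if near j b then eb j b else 0) = N) (p : ℕ)
    (x : Fin n → Fin m → Q) (g : B → Q)
    (hg : ∀ j b, near j b → ∀ i, P j i → x j i = g b)
    (he : ∀ j b, near j b → ∑ i, (if P j i then e j i else 0) = eb j b)
    (μ : Fin n → ℕ)
    (hμ : ∀ j, (∀ b, ¬ near j b) → (μ j : ℤ) • ∑ i, (if P j i then e j i • x j i else 0) = 0)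
    (hrel : ∀ i, ∃ s : ℕ, ∑ j, (if P j i then (e j i * (p : ℤ) ^ s) • x j i else 0) = 0) :
    ∃ s : ℕ, (N * (∏ j, if (∃ b, near j b) then 1 else (μ j : ℤ)) * (p : ℤ) ^ s) • ∑ b, g b = 0 := by
  choose s hs using hrel
  refine ⟨∑ i, s i, ?_⟩
  obtain ⟨Pr, hPr⟩ : ∃ Pr : ℤ, Pr = ∏ j, if (∃ b, near j b) then 1 else (μ j : ℤ) := ⟨_, rfl⟩
  rw [← hPr]
  -- a common power of `p`
  have h1 : ∀ i, ((p : ℤ) ^ (∑ i, s i)) • ∑ j, (if P j i then e j i • x j i else 0) = 0 := by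
    intro i
    have h2 : (p : ℤ) ^ (∑ i, s i) = (p : ℤ) ^ (∑ i ∈ Finset.univ.erase i, s i) * (p : ℤ) ^ s i := by
      rw [← pow_add, Finset.sum_erase_add _ _ (Finset.mem_univ i)]
    rw [h2, mul_smul]
    have h3 : ((p : ℤ) ^ s i) • ∑ j, (if P j i then e j i • x j i else 0) =
        ∑ j, (if P j i then (e j i * (p : ℤ) ^ s i) • x j i else 0) := by
      rw [Finset.smul_sum]
      refine Finset.sum_congr rfl fun j _ => ?_
      split_ifs
      · rw [← mul_smul, mul_comm]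
      · rw [smul_zero]
    rw [h3, hs i, smul_zero]
  have h2 : ((p : ℤ) ^ (∑ i, s i)) • ∑ j, ∑ i, (if P j i then e j i • x j i else 0) = 0 := by
    rw [Finset.sum_comm, Finset.smul_sum]
    exact Finset.sum_eq_zero fun i _ => h1 i
  -- the places
  have h3 : ∀ j, Pr • ∑ i, (if P j i then e j i • x j i else 0) =
      Pr • ∑ b, (if near j b then eb j b • g b else 0) := by
    intro j
    by_cases hj : ∃ b, near j b
    · obtain ⟨b, hb⟩ := hj
      congr 1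
      have h4 : ∑ b', (if near j b' then eb j b' • g b' else 0) = eb j b • g b := by
        rw [Finset.sum_eq_single b (fun b' _ hb' => if_neg fun h => hb' (hun j b' b h hb))
          (fun h => absurd (Finset.mem_univ _) h), if_pos hb]
      rw [h4, ← he j b hb, Finset.sum_smul]
      refine Finset.sum_congr rfl fun i _ => ?_
      split_ifs with hi
      · rw [hg j b hb i hi]
      · rw [zero_smul]
    · push Not at hj
      have h4 : ∑ b', (if near j b' then eb j b' • g b' else 0) = 0 :=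
        Finset.sum_eq_zero fun b' _ => if_neg (hj b')
      rw [h4, smul_zero]
      obtain ⟨Pj, hPj⟩ : (μ j : ℤ) ∣ Pr := by
        rw [hPr]
        have h5 := Finset.dvd_prod_of_mem (fun j => if (∃ b, near j b) then (1 : ℤ) else (μ j : ℤ))
          (Finset.mem_univ j)
        have h6 : ¬ ∃ b, near j b := fun ⟨b, hb⟩ => hj b hb
        simpa only [if_neg h6] using h5
      rw [hPj, mul_comm, mul_smul, hμ j hj, smul_zero]
  have h4 : ∑ j, ∑ b, (if near j b then eb j b • g b else 0) = N • ∑ b, g b := by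
    rw [Finset.sum_comm, Finset.smul_sum]
    refine Finset.sum_congr rfl fun b _ => ?_
    rw [← hN b, Finset.sum_smul]
    refine Finset.sum_congr rfl fun j _ => ?_
    split_ifs
    · rfl
    · rw [zero_smul]
  calc (N * Pr * (p : ℤ) ^ (∑ i, s i)) • ∑ b, g b
      = ((p : ℤ) ^ (∑ i, s i)) • Pr • N • ∑ b, g b := by
        rw [← mul_smul, ← mul_smul]
        congr 1
        ring
    _ = ((p : ℤ) ^ (∑ i, s i)) • ∑ j, Pr • ∑ b, (if near j b then eb j b • g b else 0) := by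
        rw [← h4, Finset.smul_sum]
    _ = ((p : ℤ) ^ (∑ i, s i)) • ∑ j, Pr • ∑ i, (if P j i then e j i • x j i else 0) := by
        congr 1
        exact Finset.sum_congr rfl fun j _ => (h3 j).symm
    _ = Pr • ((p : ℤ) ^ (∑ i, s i)) • ∑ j, ∑ i, (if P j i then e j i • x j i else 0) := by
        rw [← Finset.smul_sum, smul_comm]
    _ = 0 := by rw [h2, smul_zero]

/-- the conjugates of the main relation and the norm relations -/
private theorem rel_alg {Γ J : Type*} [Fintype Γ] [DecidableEq Γ] [Fintype J] (g₀ : Γ)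
    (ρ : B → B → Γ) (wf : J → Γ → ℤ) (af : J → ℤ) (d : ℤ)
    (hnum : ∀ g : Γ, (((Finset.univ : Finset (B × B)).filter fun q => ρ q.1 q.2 = g).card : ℤ) +
      ∑ j, af j * wf j g = if g = g₀ then d else 0) (M : ℤ) (t : Γ → Q)
    (h1 : ∀ b', M • ∑ b, t (ρ b b') = 0) (μ : J → ℕ)
    (h2 : ∀ j, (μ j : ℤ) • ∑ g, wf j g • t g = 0) :
    (M * (∏ j, (μ j : ℤ)) * d) • t g₀ = 0 := by
  obtain ⟨Pr, hPr⟩ : ∃ Pr : ℤ, Pr = ∏ j, (μ j : ℤ) := ⟨_, rfl⟩
  rw [← hPr]
  have h3 : ∀ j, Pr • ∑ g, wf j g • t g = 0 := by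
    intro j
    obtain ⟨Pj, hPj⟩ : (μ j : ℤ) ∣ Pr := by
      rw [hPr]
      exact Finset.dvd_prod_of_mem (fun j => (μ j : ℤ)) (Finset.mem_univ j)
    rw [hPj, mul_comm, mul_smul, h2 j, smul_zero]
  have h4 : ∑ b', ∑ b, t (ρ b b') =
      ∑ g, (((Finset.univ : Finset (B × B)).filter fun q => ρ q.1 q.2 = g).card : ℤ) • t g := by
    rw [Finset.sum_comm, ← Finset.sum_product', Finset.univ_product_univ,
      ← Finset.sum_fiberwise (Finset.univ : Finset (B × B)) (fun q => ρ q.1 q.2)]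
    refine Finset.sum_congr rfl fun g _ => ?_
    rw [Finset.sum_congr rfl fun q hq => by rw [(Finset.mem_filter.1 hq).2], Finset.sum_const,
      natCast_zsmul]
  have h5 : ∑ j, af j • ∑ g, wf j g • t g = ∑ g, (∑ j, af j * wf j g) • t g := by
    simp only [Finset.smul_sum, Finset.sum_smul, mul_smul]
    exact Finset.sum_comm
  have h6 : ∑ b', ∑ b, t (ρ b b') + ∑ j, af j • ∑ g, wf j g • t g = d • t g₀ := by
    rw [h4, h5, ← Finset.sum_add_distrib]
    have h7 : ∀ g, (((Finset.univ : Finset (B × B)).filter fun q => ρ q.1 q.2 = g).card : ℤ) • t g +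
        (∑ j, af j * wf j g) • t g = (if g = g₀ then d else 0) • t g := by
      intro g
      rw [← add_smul, hnum g]
    rw [Finset.sum_congr rfl fun g _ => h7 g,
      Finset.sum_eq_single g₀ (fun g _ hg => by rw [if_neg hg, zero_smul])
        (fun h => absurd (Finset.mem_univ _) h), if_pos rfl]
  rw [mul_smul, ← h6, smul_add, Finset.smul_sum, Finset.smul_sum]
  have h8 : ∑ b', (M * Pr) • ∑ b, t (ρ b b') = 0 :=
    Finset.sum_eq_zero fun b' _ => by rw [mul_comm, mul_smul, h1 b', smul_zero]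
  have h9 : ∑ j, (M * Pr) • af j • ∑ g, wf j g • t g = 0 :=
    Finset.sum_eq_zero fun j _ => by
      rw [smul_comm, mul_smul, h3 j, smul_zero, smul_zero]
  rw [h8, h9, add_zero]

end


/-! ## The group of the classes -/

section

variable {k M : Type u} [Field k] [Field M] [Algebra k M]

/-- the cochains which are trivial on `D` -/
private def TriG (D : Subgroup (M ≃ₐ[k] M)) :
    Subgroup ((M ≃ₐ[k] M) → (M ≃ₐ[k] M) → Mˣ) where
  carrier := {c | Tri D c}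
  mul_mem' h h' := Tri.mul h h'
  one_mem' := Tri.one D
  inv_mem' h := Tri.inv h

/-- the class of a cochain -/
private def cl (D : Subgroup (M ≃ₐ[k] M)) :
    Additive ((M ≃ₐ[k] M) → (M ≃ₐ[k] M) → Mˣ) →+
      Additive (((M ≃ₐ[k] M) → (M ≃ₐ[k] M) → Mˣ) ⧸ TriG D) :=
  MonoidHom.toAdditive (QuotientGroup.mk' (TriG D))

private theorem cl_zero (D : Subgroup (M ≃ₐ[k] M)) (c : (M ≃ₐ[k] M) → (M ≃ₐ[k] M) → Mˣ) :
    cl D (Additive.ofMul c) = 0 ↔ Tri D c :=
  (Additive.ofMul.symm.injective.eq_iff' rfl).symm.trans (QuotientGroup.eq_one_iff c)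

private theorem cl_eq (D : Subgroup (M ≃ₐ[k] M)) (c c' : (M ≃ₐ[k] M) → (M ≃ₐ[k] M) → Mˣ)
    (h : Tri D (fun σ τ => c σ τ * (c' σ τ)⁻¹)) :
    cl D (Additive.ofMul c) = cl D (Additive.ofMul c') := by
  rw [← sub_eq_zero, ← map_sub]
  exact (cl_zero D (c * c'⁻¹)).2 h

private theorem cl_sum (D : Subgroup (M ≃ₐ[k] M)) {ι : Type*} (s : Finset ι)
    (c : ι → (M ≃ₐ[k] M) → (M ≃ₐ[k] M) → Mˣ) :
    cl D (Additive.ofMul fun σ τ => ∏ i ∈ s, c i σ τ) = ∑ i ∈ s, cl D (Additive.ofMul (c i)) := by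
  rw [← map_sum, ← ofMul_prod]
  congr 2
  funext σ τ
  rw [Finset.prod_apply, Finset.prod_apply]

private theorem cl_zpow (D : Subgroup (M ≃ₐ[k] M)) (c : (M ≃ₐ[k] M) → (M ≃ₐ[k] M) → Mˣ) (n : ℤ) :
    cl D (Additive.ofMul fun σ τ => c σ τ ^ n) = n • cl D (Additive.ofMul c) := by
  rw [← map_zsmul, ← ofMul_zpow]
  rfl

/-- two automorphisms which agree on `K` -/
private theorem tri_repl {K : Set M} {c : (M ≃ₐ[k] M) → (M ≃ₐ[k] M) → Mˣ}
    (hinv : ∀ g ∈ Fx k K, Tri (Ge k K) (fun σ τ => tw g c σ τ * (c σ τ)⁻¹))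
    {D : Subgroup (M ≃ₐ[k] M)} {ψ ψ' : M ≃ₐ[k] M} (h : ∀ x ∈ K, ψ x = ψ' x)
    (hD : ∀ σ ∈ D, ψ'⁻¹ * σ * ψ' ∈ Ge k K) :
    Tri D (fun σ τ => tw ψ c σ τ * (tw ψ' c σ τ)⁻¹) := by
  have hg : ψ'⁻¹ * ψ ∈ Fx k K := by
    intro x hx
    show ψ'⁻¹ (ψ x) = x
    rw [h x hx]
    exact ψ'.symm_apply_apply x
  refine (NOC.Tri.cj ψ' hD (hinv _ hg)).congr fun σ _ τ _ => ?_
  show ψ' • (tw (ψ'⁻¹ * ψ) c (ψ'⁻¹ * σ * ψ') (ψ'⁻¹ * τ * ψ') *
    (c (ψ'⁻¹ * σ * ψ') (ψ'⁻¹ * τ * ψ'))⁻¹) = tw ψ c σ τ * (tw ψ' c σ τ)⁻¹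
  rw [smul_mul', smul_inv']
  congr 1
  have h1 := congrFun (congrFun (NOC.cj_cj ψ' (ψ'⁻¹ * ψ) c) σ) τ
  rw [mul_inv_cancel_left] at h1
  exact h1

private theorem cl_repl {K : Set M} {c : (M ≃ₐ[k] M) → (M ≃ₐ[k] M) → Mˣ}
    (hinv : ∀ g ∈ Fx k K, Tri (Ge k K) (fun σ τ => tw g c σ τ * (c σ τ)⁻¹))
    {D : Subgroup (M ≃ₐ[k] M)} {ψ ψ' : M ≃ₐ[k] M} (h : ∀ x ∈ K, ψ x = ψ' x)
    (hD : ∀ σ ∈ D, ψ'⁻¹ * σ * ψ' ∈ Ge k K) :
    cl D (Additive.ofMul (tw ψ c)) = cl D (Additive.ofMul (tw ψ' c)) :=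
  cl_eq D _ _ (tri_repl hinv h hD)

/-- the conjugate of a relation -/
private theorem cl_conj {K : Set M} {c : (M ≃ₐ[k] M) → (M ≃ₐ[k] M) → Mˣ}
    (hinv : ∀ g ∈ Fx k K, Tri (Ge k K) (fun σ τ => tw g c σ τ * (c σ τ)⁻¹))
    {D D' : Subgroup (M ≃ₐ[k] M)} (t : M ≃ₐ[k] M) (ht : ∀ σ ∈ D', t⁻¹ * σ * t ∈ D)
    {B : Type*} [Fintype B] (γ θ : B → (M ≃ₐ[k] M)) (h : ∀ b, ∀ x ∈ K, t (γ b x) = θ b x)
    (hD : ∀ b, ∀ σ ∈ D', (θ b)⁻¹ * σ * θ b ∈ Ge k K) (N : ℤ)
    (h1 : N • ∑ b, cl D (Additive.ofMul (tw (γ b) c)) = 0) :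
    N • ∑ b, cl D' (Additive.ofMul (tw (θ b) c)) = 0 := by
  have h2 : ∀ b, cl D' (Additive.ofMul (tw (θ b) c)) =
      cl D' (Additive.ofMul (tw (t * γ b) c)) := fun b =>
    (cl_repl hinv (ψ := t * γ b) (ψ' := θ b) (h b) (hD b)).symm
  rw [Finset.sum_congr rfl fun b _ => h2 b, ← cl_sum, ← cl_zpow, cl_zero]
  rw [← cl_sum, ← cl_zpow, cl_zero] at h1
  refine (NOC.Tri.cj t ht h1).congr fun σ _ τ _ => ?_
  show t • (∏ b, tw (γ b) c (t⁻¹ * σ * t) (t⁻¹ * τ * t)) ^ N = (∏ b, tw (t * γ b) c σ τ) ^ N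
  rw [smul_zpow_units, Finset.smul_prod']
  exact congrArg (· ^ N) (Finset.prod_congr rfl fun b _ =>
    congrFun (congrFun (NOC.cj_cj t (γ b) c) σ) τ)

end


/-! ## Orders -/

section

variable {k Ω : Type u} [Field k] [Field Ω] [Algebra k Ω]

private theorem val_near {A : IntermediateField k Ω} {V : ValuationSubring Ω} {r : V →+* Ω}
    (hV : Plc A V r) {y : Ω} {b b' : A} (hb : V.valuation (y - (b : Ω)) < 1) (hbb : b' ≠ b) :
    V.valuation (y - (b' : Ω)) = 1 := by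
  have h1 : V.valuation ((b : Ω) - (b' : Ω)) = 1 :=
    hV.val_A (A.sub_mem b.2 b'.2) fun h => hbb (Subtype.ext (sub_eq_zero.1 h).symm)
  have h2 : y - (b' : Ω) = (y - (b : Ω)) + ((b : Ω) - (b' : Ω)) := by ring
  rw [h2, Valuation.map_add_eq_of_lt_right _ (by rw [h1]; exact hb), h1]

private theorem val_A_le {A : IntermediateField k Ω} {V : ValuationSubring Ω} {r : V →+* Ω}
    (hV : Plc A V r) (b : A) : V.valuation (b : Ω) ≤ 1 :=
  (ValuationSubring.valuation_le_one_iff _ _).2 (hV.mem _ b.2)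

private theorem val_le_of_near {A : IntermediateField k Ω} {V : ValuationSubring Ω} {r : V →+* Ω}
    (hV : Plc A V r) {y : Ω} {b : A} (hb : V.valuation (y - (b : Ω)) < 1) :
    V.valuation y ≤ 1 := by
  have h2 : y = (y - (b : Ω)) + (b : Ω) := by ring
  rw [h2]
  exact V.valuation.map_add_le hb.le (val_A_le hV b)

private theorem val_of_gt {A : IntermediateField k Ω} {V : ValuationSubring Ω} {r : V →+* Ω}
    (hV : Plc A V r) {y : Ω} (b : A) (hb : 1 < V.valuation y) :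
    V.valuation (y - (b : Ω)) = V.valuation y := by
  have h2 : y - (b : Ω) = y + -(b : Ω) := by ring
  rw [h2, Valuation.map_add_eq_of_lt_left _
    (by rw [Valuation.map_neg]; exact (val_A_le hV b).trans_lt hb)]

private theorem val_of_le {A : IntermediateField k Ω} {V : ValuationSubring Ω} {r : V →+* Ω}
    (hV : Plc A V r) {y : Ω} (b : A) (hb : V.valuation y ≤ 1)
    (hn : ¬ V.valuation (y - (b : Ω)) < 1) : V.valuation (y - (b : Ω)) = 1 := by
  refine le_antisymm ?_ (not_lt.1 hn)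
  have h2 : y - (b : Ω) = y + -(b : Ω) := by ring
  rw [h2]
  exact V.valuation.map_add_le hb (by rw [Valuation.map_neg]; exact val_A_le hV b)

private theorem resE_val {A : IntermediateField k Ω} {V : ValuationSubring Ω} {r : V →+* Ω}
    (hV : Plc A V r) : ResE A V r A.val 1 :=
  ⟨fun x => hV.mem _ x.2, fun x h => hV.res.fix _ h x.2⟩

end

section

variable {k Ω : Type u} [Field k] [Field Ω] [Algebra k Ω]

/-- the relations give a multiple of the class, or a multiple of the sum of the `γ b` -/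
private theorem main_rel [hΩ : IsAlgClosed Ω]
    (hR : BlockRP k Ω) (A : IntermediateField k Ω) [hA : IsAlgClosed A]
    (hI : InvSt k A) (Gd : IntermediateField k A → Prop) (hGd : ∀ L, Gd L → L.FG)
    (K : IntermediateField k A) (hfg : K.FG) (hKal : ∀ x : A, IsAlgebraic K x)
    (trA : ∀ x : Ω, x ∉ A → ∀ y : Ω, IsAlgebraic (AA A {x}) y)
    (htd : Algebra.trdeg k A < Cardinal.aleph0) (y : Ω) (hy : y ∉ A)
    {B : Type} [Fintype B] [Nonempty B] (bv : B → A) (hbv : Function.Injective bv)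
    (γ : B → (A ≃ₐ[k] A))
    (m : ℕ) (ξ : Fin m → (A →ₐ[k] Ω)) (h : Fin m → Ω) (h0 : ∀ i, h i ≠ 0)
    (hloc : ∀ (V : ValuationSubring Ω) (r : V →+* Ω), Plc A V r →
      LocM A Gd K ξ h (fun b => (bv b : Ω)) γ y V r) (p : ℕ) (hp : ExpChar k p) :
    (∃ (S : Finset A) (N : ℤ), N ≠ 0 ∧ ∀ c, UnC (K : Set A) c →
      ∃ s : ℕ, Tri (Ge k (S : Set A)) (fun σ τ => c σ τ ^ (N * (p : ℤ) ^ s))) ∨
    ∃ (J : Type) (_ : Fintype J) (L : J → IntermediateField k A) (S : Finset A) (N : ℤ), N ≠ 0 ∧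
      (∀ j, Gd (L j) ∧ ∀ x : A, IsAlgebraic (L j) x) ∧
      ∀ ℓ : ℕ, ∃ f : ∀ j, Vl k K A ℓ →* Vl k (L j) A ℓ,
        ∀ (c : sysG k K A ℓ) (C : ℕ → (A ≃ₐ[k] A) → (A ≃ₐ[k] A) → Aˣ), SysU (K : Set A) ℓ C →
          (∀ n σ τ, C n (rsh K σ) (rsh K τ) =
            (c : ℕ → (A ≃ₐ[K] A) → (A ≃ₐ[K] A) → Aˣ) n σ τ) →
          (∀ j, f j (QuotientGroup.mk c) = 1) → ∀ l, ∃ s : ℕ,
            (N * (p : ℤ) ^ s) • ∑ b, cl (Ge k (S : Set A)) (Additive.ofMul (tw (γ b) (C l))) =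
              0 := by
  classical
  obtain ⟨G, hGK⟩ := hfg
  have hyb : ∀ b : A, y - (b : Ω) ∉ A := fun b hb => hy (by
    have := A.add_mem hb b.2
    rwa [sub_add_cancel] at this)
  have hyb0 : ∀ b : A, y - (b : Ω) ≠ 0 := fun b hb => hyb b (by rw [hb]; exact zero_mem A)
  have hy0 : y ≠ 0 := fun h => hy (by rw [h]; exact zero_mem A)
  obtain ⟨n, V, r, e, S, hPl, he1, he2, he3, he4, hcov, hrel⟩ :=
    hR hΩ A hA trA K ⟨G, hGK⟩ hKal htd (Fin m ⊕ (B ⊕ Unit)) inferInstance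
      (Sum.elim ξ fun _ => A.val)
      (Sum.elim h (Sum.elim (fun b => y - (bv b : Ω)) fun _ => y)) (by
        rintro (i | b | _)
        · exact h0 i
        · exact hyb0 (bv b)
        · exact hy0)
      (Finset.univ.image fun b => (y - (bv b : Ω))⁻¹) ⟨y, hy⟩ p hp
  have hψ : ∀ j i, ∃ ψ, (∀ x, ξ i x ∈ V j) → ResE A (V j) (r j) (ξ i) ψ := by
    intro j i
    by_cases hi : ∀ x, ξ i x ∈ V j
    · obtain ⟨ψ, hψ⟩ := exists_resE_F A htd (V j) (r j) (hPl j) (ξ i) hi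
      exact ⟨ψ, fun _ => hψ⟩
    · exact ⟨1, fun h' => absurd h' hi⟩
  choose ψ hψ using hψ
  have hψ' : ∀ (j : Fin n) (i : Fin m ⊕ (B ⊕ Unit)),
      (∀ x, (Sum.elim ξ fun _ => A.val : Fin m ⊕ (B ⊕ Unit) → (A →ₐ[k] Ω)) i x ∈ V j) →
      ResE A (V j) (r j) ((Sum.elim ξ fun _ => A.val : Fin m ⊕ (B ⊕ Unit) → (A →ₐ[k] Ω)) i)
        ((Sum.elim (ψ j) fun _ => 1 : Fin m ⊕ (B ⊕ Unit) → (A ≃ₐ[k] A)) i) := by
    rintro j (i | b) hi
    · exact hψ j i hi
    · exact resE_val (hPl j)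
  let P : Fin n → Fin m → Prop := fun j i => (∀ x, ξ i x ∈ V j) ∧ (V j).valuation (h i) ≠ 1
  let near : Fin n → B → Prop := fun j b => (V j).valuation (y - (bv b : Ω)) < 1
  have hun : ∀ j b b', near j b → near j b' → b = b' := by
    intro j b b' hb hb'
    by_contra hne
    have h1 : (V j).valuation (y - (bv b' : Ω)) = 1 :=
      val_near (hPl j) hb fun h => hne (hbv h).symm
    exact absurd hb' (by
      show ¬ (V j).valuation (y - (bv b' : Ω)) < 1
      rw [h1]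
      exact lt_irrefl _)
  have hzero : ∀ j b, (V j).valuation (y - (bv b : Ω)) = 1 → e j (Sum.inr (Sum.inl b)) = 0 := by
    intro j b hb
    have h1 : ¬ 0 < e j (Sum.inr (Sum.inl b)) := fun h => absurd ((he1 j _).1 h) (by
      show ¬ (V j).valuation (y - (bv b : Ω)) < 1
      rw [hb]
      exact lt_irrefl _)
    have h2 : ¬ e j (Sum.inr (Sum.inl b)) < 0 := fun h => absurd ((he2 j _).1 h) (by
      show ¬ 1 < (V j).valuation (y - (bv b : Ω))
      rw [hb]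
      exact lt_irrefl _)
    omega
  by_cases hE : ∃ b, ∑ j, e j (Sum.inr (Sum.inl b)) ≠ 0
  · left
    obtain ⟨b, hb⟩ := hE
    refine ⟨S, _, hb, fun c hc => ?_⟩
    obtain ⟨s, hs⟩ := hrel c hc _ hψ' (Sum.inr (Sum.inl b))
    refine ⟨s, hs.congr fun σ _ τ _ => ?_⟩
    rw [Finset.sum_mul, ← zpow_sum']
    refine Finset.prod_congr rfl fun j _ => ?_
    by_cases hv : (V j).valuation (y - (bv b : Ω)) = 1
    · rw [if_neg fun h => h.2 hv, hzero j b hv, zero_mul, zpow_zero]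
    · rw [if_pos ⟨fun x => (hPl j).mem _ x.2, hv⟩]
      show tw 1 c σ τ ^ _ = _
      rw [tw_one]
  right
  push Not at hE
  -- the orders of `y - b`
  have hsplit : ∀ j b, e j (Sum.inr (Sum.inl b)) = (if near j b then e j (Sum.inr (Sum.inl b))
      else 0) + (if 1 < (V j).valuation y then e j (Sum.inr (Sum.inr ())) else 0) := by
    intro j b
    by_cases hb : near j b
    · rw [if_pos hb, if_neg (not_lt.2 (val_le_of_near (hPl j) hb)), add_zero]
    rw [if_neg hb, zero_add]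
    by_cases hv : 1 < (V j).valuation y
    · rw [if_pos hv]
      exact he3 j _ _ (val_of_gt (hPl j) (bv b) hv)
    · rw [if_neg hv]
      exact hzero j b (val_of_le (hPl j) (bv b) (not_lt.1 hv) hb)
  obtain ⟨N, hNdef⟩ : ∃ N : ℤ, N =
      -∑ j, (if 1 < (V j).valuation y then e j (Sum.inr (Sum.inr ())) else 0) := ⟨_, rfl⟩
  have hN : ∀ b, ∑ j, (if near j b then e j (Sum.inr (Sum.inl b)) else 0) = N := by
    intro b
    have h1 := hE b
    rw [Finset.sum_congr rfl fun j _ => hsplit j b, Finset.sum_add_distrib] at h1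
    rw [hNdef]
    linarith
  have hNpos : 0 < N := by
    obtain ⟨b⟩ := (inferInstance : Nonempty B)
    rw [← hN b]
    obtain ⟨W, rW, hW, hWy⟩ := exists_plc A trA (y - (bv b : Ω)) (hyb (bv b))
    obtain ⟨j, hj⟩ := hcov W rW hW ⟨Sum.inr (Sum.inl b), hWy.ne⟩
    have h1 : near j b := by
      have h2 := (hj (y - (bv b : Ω))⁻¹
        (Finset.mem_image.2 ⟨b, Finset.mem_univ b, rfl⟩)).1
      show (V j).valuation (y - (bv b : Ω)) < 1
      rw [val_lt_iff _ _ (hyb0 _), ← h2, ← val_lt_iff _ _ (hyb0 _)]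
      exact hWy
    refine Finset.sum_pos' (fun j' _ => ?_) ⟨j, Finset.mem_univ j, ?_⟩
    · split_ifs with hj'
      · exact ((he1 j' (Sum.inr (Sum.inl b))).2 hj').le
      · exact le_rfl
    · rw [if_pos h1]
      exact (he1 j _).2 h1
  -- the places which are not near a `b`
  have hL : ∀ j, ∃ L : IntermediateField k A, (∀ b, ¬ near j b) →
      Gd L ∧ (∀ x : A, IsAlgebraic L x) ∧
      ∀ g ∈ Fx k (L : Set A), ∃ π : Equiv.Perm {i : Fin m // P j i},
        ∀ i, e j (Sum.inl (π i : Fin m)) = e j (Sum.inl (i : Fin m)) ∧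
          ∀ x ∈ K, g (ψ j i x) = ψ j (π i) x := by
    intro j
    by_cases ht : ∀ b, ¬ near j b
    · obtain ⟨L, h1, h2, h3⟩ := (hloc (V j) (r j) (hPl j)).2 ht
      refine ⟨L, fun _ => ⟨h1, h2, fun g hg => ?_⟩⟩
      obtain ⟨π, hπ⟩ := h3 g hg
      refine ⟨π, fun i => ⟨he3 j _ _ (hπ i).1, fun x hx => ?_⟩⟩
      exact (hπ i).2 _ _ (hψ j i i.2.1) (hψ j (π i) (π i).2.1) x hx
    · exact ⟨⊥, fun h' => absurd h' ht⟩
  choose L hL using hL
  have hinv : ∀ j, ∃ (μ : ℕ) (Sj : Finset A), (∀ b, ¬ near j b) → 0 < μ ∧ ∀ ℓ : ℕ,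
      ∃ f : Vl k K A ℓ →* Vl k (L j) A ℓ,
      ∀ (c : sysG k K A ℓ) (C : ℕ → (A ≃ₐ[k] A) → (A ≃ₐ[k] A) → Aˣ), SysU (K : Set A) ℓ C →
        (∀ n σ τ, C n (rsh K σ) (rsh K τ) =
          (c : ℕ → (A ≃ₐ[K] A) → (A ≃ₐ[K] A) → Aˣ) n σ τ) →
        f (QuotientGroup.mk c) = 1 →
          ∀ n, Tri (Ge k (Sj : Set A)) (fun σ τ =>
            (∏ i : {i : Fin m // P j i}, tw (ψ j i) (C n) σ τ ^ e j (Sum.inl (i : Fin m))) ^
              μ) := by
    intro j
    by_cases ht : ∀ b, ¬ near j b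
    · obtain ⟨h1, h2, h3⟩ := hL j ht
      obtain ⟨μ, Sj, h4, h5⟩ := hI hA K (L j) ⟨G, hGK⟩ (hGd _ h1) hKal h2
        {i : Fin m // P j i} inferInstance (fun i => ψ j i) (fun i => e j (Sum.inl (i : Fin m))) h3
      exact ⟨μ, Sj, fun _ => ⟨h4, h5⟩⟩
    · exact ⟨0, ∅, fun h' => absurd h' ht⟩
  choose μ Sj hinv using hinv
  let S1 : Finset A := S ∪ (Finset.univ.biUnion fun b => G.image (γ b)) ∪ Finset.univ.biUnion Sj
  have hGeS : Ge k (S1 : Set A) ≤ Ge k (S : Set A) := by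
    refine Ge_mono fun x hx => ?_
    simp only [S1, Finset.coe_union]
    exact Or.inl (Or.inl hx)
  have hGeSj : ∀ j, Ge k (S1 : Set A) ≤ Ge k (Sj j : Set A) := by
    intro j
    refine Ge_mono fun x hx => ?_
    simp only [S1, Finset.coe_union, Finset.coe_biUnion]
    exact Or.inr (Set.mem_biUnion (Finset.mem_coe.2 (Finset.mem_univ j)) hx)
  have hGeγ : ∀ b, ∀ σ ∈ Ge k (S1 : Set A), (γ b)⁻¹ * σ * γ b ∈ Ge k (K : Set A) := by
    intro b σ hσ
    have h1 : Ge k (K : Set A) = Ge k (G : Set A) := by rw [← hGK, Ge_adjoin]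
    rw [h1]
    refine NOC.mem_Ge_image (Ge_mono ?_ hσ)
    rintro _ ⟨x, hx, rfl⟩
    simp only [S1, Finset.coe_union, Finset.coe_biUnion]
    refine Or.inl (Or.inr (Set.mem_biUnion (Finset.mem_coe.2 (Finset.mem_univ b)) ?_))
    rw [Finset.coe_image]
    exact ⟨x, hx, rfl⟩
  refine ⟨{j : Fin n // ∀ b, ¬ near j b}, inferInstance, fun j => L j, S1,
    N * ∏ j, (if (∃ b, near j b) then 1 else (μ j : ℤ)), mul_ne_zero hNpos.ne' ?_,
    fun j => ⟨(hL j j.2).1, (hL j j.2).2.1⟩, fun ℓ => ?_⟩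
  · refine Finset.prod_ne_zero_iff.2 fun j _ => ?_
    split_ifs with hj
    · exact one_ne_zero
    · push Not at hj
      exact_mod_cast ((hinv j hj).1).ne'
  choose f hf using fun j : {j : Fin n // ∀ b, ¬ near j b} => (hinv j j.2).2 ℓ
  refine ⟨f, fun c C hC hCc hfc l => ?_⟩
  refine main_alg P (fun j i => e j (Sum.inl i)) (fun j b => e j (Sum.inr (Sum.inl b))) near hun N
    hN p (fun j i => cl (Ge k (S1 : Set A)) (Additive.ofMul (tw (ψ j i) (C l))))
    (fun b => cl (Ge k (S1 : Set A)) (Additive.ofMul (tw (γ b) (C l)))) ?_ ?_ μ ?_ ?_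
  · intro j b hb i hi
    exact cl_repl (fun g hg => hC.inv l g hg)
      ((((hloc (V j) (r j) (hPl j)).1 b hb).1 i hi.1 hi.2).2 _ (hψ j i hi.1)) (hGeγ b)
  · intro j b hb
    have h1 := he4 j (Sum.elim (fun i => if P j i then 1 else 0)
      (Sum.elim (fun b' => if b' = b then -1 else 0) fun _ => 0)) (by
        rw [Fintype.prod_sum_type, Fintype.prod_sum_type]
        have h2 := ((hloc (V j) (r j) (hPl j)).1 b hb).2
        have h3 : ∏ i, (Sum.elim h (Sum.elim (fun b => y - (bv b : Ω)) fun _ => y) :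
            Fin m ⊕ (B ⊕ Unit) → Ω) (Sum.inl i) ^
            ((Sum.elim (fun i => if P j i then (1 : ℤ) else 0)
              (Sum.elim (fun b' => if b' = b then -1 else 0) fun _ => 0) :
                Fin m ⊕ (B ⊕ Unit) → ℤ) (Sum.inl i)) =
            ∏ i, if (∀ x, ξ i x ∈ V j) ∧ (V j).valuation (h i) ≠ 1 then h i else 1 := by
          refine Finset.prod_congr rfl fun i _ => ?_
          show h i ^ (if P j i then (1 : ℤ) else 0) = _
          by_cases hi : P j i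
          · rw [if_pos hi, zpow_one, if_pos hi]
          · rw [if_neg hi, zpow_zero, if_neg hi]
        have h4 : ∏ b', (Sum.elim h (Sum.elim (fun b => y - (bv b : Ω)) fun _ => y) :
            Fin m ⊕ (B ⊕ Unit) → Ω) (Sum.inr (Sum.inl b')) ^
            ((Sum.elim (fun i => if P j i then (1 : ℤ) else 0)
              (Sum.elim (fun b' => if b' = b then -1 else 0) fun _ => 0) :
                Fin m ⊕ (B ⊕ Unit) → ℤ) (Sum.inr (Sum.inl b'))) = (y - (bv b : Ω))⁻¹ := by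
          rw [Finset.prod_eq_single b (fun b' _ hb' => ?_) (fun h => absurd (Finset.mem_univ _) h)]
          · show (y - (bv b : Ω)) ^ (if b = b then (-1 : ℤ) else 0) = _
            rw [if_pos rfl, zpow_neg_one]
          · show (y - (bv b' : Ω)) ^ (if b' = b then (-1 : ℤ) else 0) = _
            rw [if_neg hb', zpow_zero]
        rw [h3, h4, map_mul, map_mul, h2, map_inv₀]
        have h5 : ∏ u, (Sum.elim h (Sum.elim (fun b => y - (bv b : Ω)) fun _ => y) :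
            Fin m ⊕ (B ⊕ Unit) → Ω) (Sum.inr (Sum.inr u)) ^
            ((Sum.elim (fun i => if P j i then (1 : ℤ) else 0)
              (Sum.elim (fun b' => if b' = b then -1 else 0) fun _ => 0) :
                Fin m ⊕ (B ⊕ Unit) → ℤ) (Sum.inr (Sum.inr u))) = 1 :=
          Finset.prod_eq_one fun u _ => zpow_zero _
        rw [h5, map_one, mul_one, mul_inv_cancel₀ ((_root_.map_ne_zero _).2 (hyb0 _))])
    rw [Fintype.sum_sum_type, Fintype.sum_sum_type] at h1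
    have h3 : ∑ i, (Sum.elim (fun i => if P j i then (1 : ℤ) else 0)
              (Sum.elim (fun b' => if b' = b then -1 else 0) fun _ => 0) :
                Fin m ⊕ (B ⊕ Unit) → ℤ) (Sum.inl i) * e j (Sum.inl i) =
        ∑ i, (if P j i then e j (Sum.inl i) else 0) := by
      refine Finset.sum_congr rfl fun i _ => ?_
      show (if P j i then (1 : ℤ) else 0) * e j (Sum.inl i) = _
      rw [ite_mul, one_mul, zero_mul]
    have h4 : ∑ b', (Sum.elim (fun i => if P j i then (1 : ℤ) else 0)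
              (Sum.elim (fun b' => if b' = b then -1 else 0) fun _ => 0) :
                Fin m ⊕ (B ⊕ Unit) → ℤ) (Sum.inr (Sum.inl b')) * e j (Sum.inr (Sum.inl b')) =
        - e j (Sum.inr (Sum.inl b)) := by
      rw [Finset.sum_eq_single b (fun b' _ hb' => ?_) (fun h => absurd (Finset.mem_univ _) h)]
      · show (if b = b then (-1 : ℤ) else 0) * _ = _
        rw [if_pos rfl, neg_one_mul]
      · show (if b' = b then (-1 : ℤ) else 0) * _ = _
        rw [if_neg hb', zero_mul]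
    have h5 : ∑ u, (Sum.elim (fun i => if P j i then (1 : ℤ) else 0)
              (Sum.elim (fun b' => if b' = b then -1 else 0) fun _ => 0) :
                Fin m ⊕ (B ⊕ Unit) → ℤ) (Sum.inr (Sum.inr u)) * e j (Sum.inr (Sum.inr u)) = 0 :=
      Finset.sum_eq_zero fun u _ => zero_mul _
    rw [h3, h4, h5] at h1
    linarith
  · intro j hj
    have h1 := (hf ⟨j, hj⟩ c C hC hCc (hfc ⟨j, hj⟩) l).mono (hGeSj j)
    have h2 : Tri (Ge k (S1 : Set A)) (fun σ τ =>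
        (∏ i : Fin m, (if P j i then tw (ψ j i) (C l) σ τ ^ e j (Sum.inl i) else 1)) ^
          ((μ j : ℤ))) := by
      refine h1.congr fun σ _ τ _ => ?_
      rw [prod_valid (P j) (fun i => tw (ψ j i) (C l) σ τ ^ e j (Sum.inl i)), zpow_natCast]
    rw [← cl_zero, cl_zpow, cl_sum] at h2
    refine Eq.trans ?_ h2
    congr 1
    refine Finset.sum_congr rfl fun i _ => ?_
    by_cases hi : P j i
    · simp only [if_pos hi]
      exact (cl_zpow _ _ _).symm
    · simp only [if_neg hi]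
      exact ((cl_zero _ _).2 (Tri.one _)).symm
  · intro i
    obtain ⟨s, hs⟩ := hrel (C l) (unC_of_sysU hC l) _ hψ' (Sum.inl i)
    refine ⟨s, ?_⟩
    have h1 := hs.mono hGeS
    rw [← cl_zero, cl_sum] at h1
    refine Eq.trans ?_ h1
    refine Finset.sum_congr rfl fun j _ => ?_
    by_cases hi : P j i
    · rw [if_pos hi]
      have h2 : (fun σ τ => if (∀ x, (Sum.elim ξ fun _ => A.val :
          Fin m ⊕ (B ⊕ Unit) → (A →ₐ[k] Ω)) (Sum.inl i) x ∈ V j) ∧
          (V j).valuation ((Sum.elim h (Sum.elim (fun b => y - (bv b : Ω)) fun _ => y) :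
            Fin m ⊕ (B ⊕ Unit) → Ω) (Sum.inl i)) ≠ 1 then
          tw ((Sum.elim (ψ j) fun _ => 1 : Fin m ⊕ (B ⊕ Unit) → (A ≃ₐ[k] A)) (Sum.inl i)) (C l) σ τ ^
            (e j (Sum.inl i) * (p : ℤ) ^ s) else 1) =
          fun σ τ => tw (ψ j i) (C l) σ τ ^ (e j (Sum.inl i) * (p : ℤ) ^ s) := by
        funext σ τ
        exact if_pos hi
      rw [h2]
      exact (cl_zpow _ _ _).symm
    · rw [if_neg hi]
      have h2 : (fun σ τ => if (∀ x, (Sum.elim ξ fun _ => A.val :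
          Fin m ⊕ (B ⊕ Unit) → (A →ₐ[k] Ω)) (Sum.inl i) x ∈ V j) ∧
          (V j).valuation ((Sum.elim h (Sum.elim (fun b => y - (bv b : Ω)) fun _ => y) :
            Fin m ⊕ (B ⊕ Unit) → Ω) (Sum.inl i)) ≠ 1 then
          tw ((Sum.elim (ψ j) fun _ => 1 : Fin m ⊕ (B ⊕ Unit) → (A ≃ₐ[k] A)) (Sum.inl i)) (C l) σ τ ^
            (e j (Sum.inl i) * (p : ℤ) ^ s) else 1) = fun _ _ => 1 := by
        funext σ τ
        exact if_neg hi
      rw [h2]
      exact ((cl_zero _ _).2 (Tri.one _)).symm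

end

/-- the last step -/
private theorem one_of_tri {k A : Type u} [Field k] [Field A] [Algebra k A] [IsAlgClosed A]
    (K : IntermediateField k A) (G : Finset A)
    (hGK : IntermediateField.adjoin k (G : Set A) = K) (hKal : ∀ x : A, IsAlgebraic K x)
    {ℓ : ℕ} (hℓ : ℓ.Prime) (hℓk : (ℓ : k) ≠ 0) (p : ℕ) [ExpChar k p] (c : sysG k K A ℓ)
    (C : ℕ → (A ≃ₐ[k] A) → (A ≃ₐ[k] A) → Aˣ)
    (hCc : ∀ n σ τ, C n (rsh K σ) (rsh K τ) =
      (c : ℕ → (A ≃ₐ[K] A) → (A ≃ₐ[K] A) → Aˣ) n σ τ) (S : Finset A) (N : ℤ) (hN : N ≠ 0)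
    (h : ∀ l, ∃ s : ℕ, Tri (Ge k (S : Set A)) (fun σ τ => C l σ τ ^ (N * (p : ℤ) ^ s))) :
    (QuotientGroup.mk c : Vl k K A ℓ) = 1 := by
  classical
  have h1 := fin_step K hKal ℓ hℓ hℓk p _ c.2 C hCc (S ∪ G) (by
    rw [← hGK]
    refine IntermediateField.adjoin.mono k _ _ ?_
    rw [Finset.coe_union]
    exact Set.subset_union_right) N hN (fun l => by
    obtain ⟨s, hs⟩ := h l
    exact ⟨s, hs.mono (Ge_mono (by
      rw [Finset.coe_union]
      exact Set.subset_union_left))⟩)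
  refine (QuotientGroup.eq_one_iff c).2 ?_
  rw [Subgroup.mem_subgroupOf]
  exact h1

/-- The sum of the `(γ b')⁻¹ γ b` is a multiple of the identity modulo the families `w j` of the
fields `Lf j`; the reciprocity relations and the local statements give the theorem. -/
theorem combineM {k Ω : Type u} [Field k] [Field Ω] [Algebra k Ω] [hΩ : IsAlgClosed Ω]
    (hR : BlockRP k Ω) (A : IntermediateField k Ω) [hA : IsAlgClosed A]
    (hI : InvSt k A) (Gd : IntermediateField k A → Prop) (hGd : ∀ L, Gd L → L.FG)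
    (K : IntermediateField k A) (hfg : K.FG) (hKal : ∀ x : A, IsAlgebraic K x)
    (trA : ∀ x : Ω, x ∉ A → ∀ y : Ω, IsAlgebraic (AA A {x}) y)
    (htd : Algebra.trdeg k A < Cardinal.aleph0) (y : Ω) (hy : y ∉ A)
    {B : Type} [Fintype B] [Nonempty B] (bv : B → A) (hbv : Function.Injective bv)
    (γ : B → (A ≃ₐ[k] A))
    (m : ℕ) (ξ : Fin m → (A →ₐ[k] Ω)) (h : Fin m → Ω) (h0 : ∀ i, h i ≠ 0)
    (hloc : ∀ (V : ValuationSubring Ω) (r : V →+* Ω), Plc A V r →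
      LocM A Gd K ξ h (fun b => (bv b : Ω)) γ y V r)
    {Γ : Type} [Fintype Γ] [DecidableEq Γ] (θ : Γ → (A ≃ₐ[k] A)) (g₀ : Γ)
    (hg₀ : ∀ x ∈ K, θ g₀ x = x)
    (ρ : B → B → Γ) (hρ : ∀ b b', ∀ x ∈ K, γ b x = γ b' (θ (ρ b b') x))
    {J : Type} [Fintype J] (Lf : J → IntermediateField k A) (hLf : ∀ j, Gd (Lf j))
    (hLfal : ∀ j, ∀ x : A, IsAlgebraic (Lf j) x) (wf : J → Γ → ℤ)
    (hperm : ∀ j, ∀ g ∈ Fx k (Lf j : Set A), ∃ π : Equiv.Perm Γ, ∀ i, wf j (π i) = wf j i ∧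
      ∀ x ∈ K, g (θ i x) = θ (π i) x)
    (af : J → ℤ) (d : ℤ) (hd : d ≠ 0)
    (hnum : ∀ g : Γ, (((Finset.univ : Finset (B × B)).filter fun q => ρ q.1 q.2 = g).card : ℤ) +
      ∑ j, af j * wf j g = if g = g₀ then d else 0) :
    ∃ (n : ℕ) (L : Fin n → IntermediateField k A),
      (∀ j, Gd (L j) ∧ ∀ x : A, IsAlgebraic (L j) x) ∧
      ∀ ℓ : ℕ, ℓ.Prime → (ℓ : k) ≠ 0 →
        ∃ f : Vl k K A ℓ →* (∀ j, Vl k (L j) A ℓ), Function.Injective f := by
  classical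
  obtain ⟨G, hGK⟩ := hfg
  obtain ⟨p, hp⟩ := ExpChar.exists k
  rcases main_rel hR A hI Gd hGd K ⟨G, hGK⟩ hKal trA htd y hy bv hbv γ m ξ h h0 hloc p hp with
    ⟨S, N, hN, hS⟩ | ⟨J', hJ', L, S, N, hN, hL, hf⟩
  · -- a multiple of every class is zero
    refine ⟨0, fun j => j.elim0, fun j => j.elim0, fun ℓ hℓ hℓk =>
      ⟨1, (injective_iff_map_eq_one _).2 fun x _ => ?_⟩⟩
    obtain ⟨c, rfl⟩ := QuotientGroup.mk_surjective x
    obtain ⟨C, hC, hCc⟩ := sysK K hKal ℓ _ c.2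
    exact one_of_tri K G hGK hKal hℓ hℓk p c C hCc S N hN fun l => hS _ (unC_of_sysU hC l)
  choose μ Sf hμ hff using fun j => hI hA K (Lf j) ⟨G, hGK⟩ (hGd _ (hLf j)) hKal (hLfal j)
    Γ inferInstance θ (wf j) (hperm j)
  let LL : J' ⊕ J → IntermediateField k A := Sum.elim L Lf
  have hLL : ∀ j, Gd (LL j) ∧ ∀ x : A, IsAlgebraic (LL j) x := by
    rintro (j | j)
    · exact hL j
    · exact ⟨hLf j, hLfal j⟩
  let ε : (J' ⊕ J) ≃ Fin (Fintype.card (J' ⊕ J)) := Fintype.equivFin _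
  refine ⟨Fintype.card (J' ⊕ J), fun i => LL (ε.symm i), fun i => hLL _, fun ℓ hℓ hℓk => ?_⟩
  obtain ⟨f1, hf1⟩ := hf ℓ
  choose f2 hf2 using fun j => hff j ℓ
  let ff : ∀ j : J' ⊕ J, Vl k K A ℓ →* Vl k (LL j) A ℓ := fun j =>
    match j with
    | Sum.inl j => f1 j
    | Sum.inr j => f2 j
  refine pi_inj_aux (V := Vl k K A ℓ) (W := fun j : J' ⊕ J => Vl k (LL j) A ℓ) ff ε
    fun x hfx => ?_
  obtain ⟨c, rfl⟩ := QuotientGroup.mk_surjective x
  have hfc1 : ∀ j, f1 j (QuotientGroup.mk c) = 1 := fun j => hfx (Sum.inl j)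
  have hfc2 : ∀ j, f2 j (QuotientGroup.mk c) = 1 := fun j => hfx (Sum.inr j)
  obtain ⟨C, hC, hCc⟩ := sysK K hKal ℓ _ c.2
  -- the set
  let S' : Finset A := (Finset.univ.biUnion fun b => S.image ((γ b)⁻¹ : A ≃ₐ[k] A)) ∪
    (Finset.univ.biUnion fun g => G.image (θ g)) ∪ Finset.univ.biUnion Sf ∪ G
  have hK : Ge k (K : Set A) = Ge k (G : Set A) := by rw [← hGK, Ge_adjoin]
  have hGeK : Ge k (S' : Set A) ≤ Ge k (K : Set A) := by
    rw [hK]
    refine Ge_mono fun x hx => ?_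
    simp only [S', Finset.coe_union]
    exact Or.inr hx
  have hGeSf : ∀ j, Ge k (S' : Set A) ≤ Ge k (Sf j : Set A) := by
    intro j
    refine Ge_mono fun x hx => ?_
    simp only [S', Finset.coe_union, Finset.coe_biUnion]
    exact Or.inl (Or.inr (Set.mem_biUnion (Finset.mem_coe.2 (Finset.mem_univ j)) hx))
  have hGeθ : ∀ g, ∀ σ ∈ Ge k (S' : Set A), (θ g)⁻¹ * σ * θ g ∈ Ge k (K : Set A) := by
    intro g σ hσ
    rw [hK]
    refine NOC.mem_Ge_image (Ge_mono ?_ hσ)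
    rintro _ ⟨x, hx, rfl⟩
    simp only [S', Finset.coe_union, Finset.coe_biUnion]
    refine Or.inl (Or.inl (Or.inr (Set.mem_biUnion (Finset.mem_coe.2 (Finset.mem_univ g)) ?_)))
    rw [Finset.coe_image]
    exact ⟨x, hx, rfl⟩
  have hGeγ : ∀ b, ∀ σ ∈ Ge k (S' : Set A), ((γ b)⁻¹)⁻¹ * σ * (γ b)⁻¹ ∈ Ge k (S : Set A) := by
    intro b σ hσ
    refine NOC.mem_Ge_image (Ge_mono ?_ hσ)
    rintro _ ⟨x, hx, rfl⟩
    simp only [S', Finset.coe_union, Finset.coe_biUnion]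
    refine Or.inl (Or.inl (Or.inl (Set.mem_biUnion (Finset.mem_coe.2 (Finset.mem_univ b)) ?_)))
    rw [Finset.coe_image]
    exact ⟨x, hx, rfl⟩
  refine one_of_tri K G hGK hKal hℓ hℓk p c C hCc S' (N * (∏ j, (μ j : ℤ)) * d)
    (mul_ne_zero (mul_ne_zero hN (Finset.prod_ne_zero_iff.2 fun j _ => by
      exact_mod_cast (hμ j).ne')) hd) fun l => ?_
  obtain ⟨s, hs⟩ := hf1 c C hC hCc hfc1 l
  refine ⟨s, ?_⟩
  have h1 : ∀ b', (N * (p : ℤ) ^ s) • ∑ b, cl (Ge k (S' : Set A))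
      (Additive.ofMul (tw (θ (ρ b b')) (C l))) = 0 := by
    intro b'
    refine cl_conj (fun g hg => hC.inv l g hg) (γ b')⁻¹ (hGeγ b') γ (fun b => θ (ρ b b'))
      (fun b x hx => ?_) (fun b => hGeθ _) _ hs
    rw [hρ b b' x hx]
    exact (γ b').symm_apply_apply _
  have h2 : ∀ j, (μ j : ℤ) • ∑ g, wf j g • cl (Ge k (S' : Set A))
      (Additive.ofMul (tw (θ g) (C l))) = 0 := by
    intro j
    have h3 := (hf2 j c C hC hCc (hfc2 j) l).mono (hGeSf j)
    have h4 : Tri (Ge k (S' : Set A)) (fun σ τ =>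
        (∏ g, tw (θ g) (C l) σ τ ^ wf j g) ^ ((μ j : ℤ))) := by
      refine h3.congr fun σ _ τ _ => ?_
      rw [zpow_natCast]
    rw [← cl_zero, cl_zpow, cl_sum] at h4
    refine Eq.trans ?_ h4
    exact congrArg (fun z => (μ j : ℤ) • z)
      (Finset.sum_congr rfl fun g _ => (cl_zpow _ _ _).symm)
  have h3 := rel_alg g₀ ρ wf af d hnum (N * (p : ℤ) ^ s)
    (fun g => cl (Ge k (S' : Set A)) (Additive.ofMul (tw (θ g) (C l)))) h1 μ h2
  have h4 : cl (Ge k (S' : Set A)) (Additive.ofMul (tw (θ g₀) (C l))) =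
      cl (Ge k (S' : Set A)) (Additive.ofMul (C l)) := by
    have h5 := cl_repl (fun g hg => hC.inv l g hg) (ψ := θ g₀) (ψ' := 1) hg₀
      (D := Ge k (S' : Set A)) (fun σ hσ => by
        rw [inv_one, one_mul, mul_one]
        exact hGeK hσ)
    rwa [tw_one] at h5
  rw [h4, ← cl_zpow, cl_zero] at h3
  refine h3.congr fun σ _ τ _ => ?_
  congr 1
  ring

end Pool.Agent.FRB
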