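import Pool.Agent.FRB.Defs
import Pool.Agent.WLD.W4
import Pool.Agent.TUQ.S4c

/-!
# The embeddings and the data
-/

set_option autoImplicit false

namespace Pool.Agent.FRB

open Polynomial Pool.Agent.TBR Pool.Agent.TUQ Pool.Agent.WLD

universe u

section

variable {k Ω : Type u} [Field k] [Field Ω] [Algebra k Ω]
variable {A H : IntermediateField k Ω}
variable {K₀ : IntermediateField k A} {Y Z : A} {p e n : ℕ} {v w a U t : Ω}
variable {A₁ A₂ : H[X]} {m : ℕ} {T : Fin m → Ω}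
  {s : Fin m → (Ω ≃ₐ[k] Ω)} {ξ : Fin m → (A →ₐ[k] Ω)} {f : Polynomial Ω}

theorem ext_z4 {M L : Type*} [Field M] [Field L] [Algebra k M] [Algebra k L]
    {K : IntermediateField k M} {z : M} (f g : M →ₐ[k] L) (h : ∀ x ∈ K, f x = g x) (hz : f z = g z) :
    ∀ x ∈ K ⊔ IntermediateField.adjoin k {z}, f x = g x := by
  let E : IntermediateField k M :=
    { carrier := {x | f x = g x}
      mul_mem' := fun {x y} hx hy => by
        show f (x * y) = g (x * y)
        rw [map_mul, map_mul, hx, hy]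
      add_mem' := fun {x y} hx hy => by
        show f (x + y) = g (x + y)
        rw [map_add, map_add, hx, hy]
      algebraMap_mem' := fun c => by
        show f (algebraMap k M c) = g (algebraMap k M c)
        rw [AlgHom.commutes, AlgHom.commutes]
      inv_mem' := fun x hx => by
        show f x⁻¹ = g x⁻¹
        rw [map_inv₀, map_inv₀, hx] }
  have h1 : K ⊔ IntermediateField.adjoin k {z} ≤ E := by
    refine sup_le (fun x hx => h x hx) ?_
    rw [IntermediateField.adjoin_le_iff]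
    rintro x rfl
    exact hz
  exact fun x hx => h1 hx

/-- homomorphisms which agree on `K₀`, `Y` and `Z` -/
theorem ext_yz {M : Type u} {L : Type*} [Field M] [Field L] [Algebra k M] [Algebra k L]
    {K : IntermediateField k M} {Y Z : M} (f g : M →ₐ[k] L) (h : ∀ x ∈ K, f x = g x)
    (hY : f Y = g Y) (hZ : f Z = g Z) : ∀ x ∈ KYZ K Y Z, f x = g x :=
  ext_z4 f g (ext_z4 f g h hY) hZ

/-- extension of an embedding of a subfield -/
theorem ext_emb [IsAlgClosed Ω] (K : IntermediateField k A) (al : ∀ x : A, IsAlgebraic K x)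
    (g : K →ₐ[k] Ω) (P : K[X]) (irr : Irreducible P) (z : A) (hz : aeval z P = 0) (z' : Ω)
    (hz' : P.eval₂ (g : K →+* Ω) z' = 0) :
    ∃ ξ : A →ₐ[k] Ω, (∀ x : K, ξ x = g x) ∧ ξ z = z' := by
  let _ : Algebra K Ω := (g : K →+* Ω).toAlgebra
  have hg : ∀ x : K, algebraMap K Ω x = g x := fun x => rfl
  have hmin : P * C P.leadingCoeff⁻¹ = minpoly K z := minpoly.eq_of_irreducible irr hz
  have hN : aeval z' (minpoly K z) = 0 := by
    rw [← hmin, map_mul]
    have h2 : aeval z' P = 0 := hz'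
    rw [h2, zero_mul]
  obtain ⟨ψ, hψ⟩ := (IntermediateField.exists_algHom_of_splits_of_aeval (F := K) (E := A) (K := Ω)
    (x := z) (y := z') (fun x => ⟨(al x).isIntegral, IsAlgClosed.splits _⟩) hN)
  refine ⟨{ (ψ : A →+* Ω) with commutes' := fun c => ?_ }, fun x => ?_, hψ⟩
  · have h1 := ψ.commutes (algebraMap k K c)
    have h2 : algebraMap K Ω (algebraMap k K c) = algebraMap k Ω c := by
      rw [hg]
      exact g.commutes c
    rw [h2] at h1
    exact h1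
  · exact ψ.commutes x

/-- an embedding of `A` is given by its values on `K₀`, `Y` and `Z` -/
theorem exists_emb [IsAlgClosed Ω] (al : ∀ x : A, IsAlgebraic K₀ x) (pp : p.Prime) (ch : CharP k p)
    (YK : Y ^ p - Y ∈ K₀) (ZK : Z ^ e ∈ K₀)
    (irrY : Irreducible (X ^ p - X - C (⟨Y ^ p - Y, YK⟩ : K₀)))
    (irrZ : Irreducible (X ^ e - C (⟨Z ^ e, (le_sup_left : K₀ ≤ KZ K₀ Y) ZK⟩ : KZ K₀ Y)))
    (s : Ω ≃ₐ[k] Ω) (Y' Z' : Ω) (hY' : Y' ^ p - Y' = s ((Y ^ p - Y : A) : Ω))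
    (hZ' : Z' ^ e = s ((Z ^ e : A) : Ω)) :
    ∃ ξ : A →ₐ[k] Ω, (∀ x ∈ K₀, ξ x = s x) ∧ ξ Y = Y' ∧ ξ Z = Z' := by
  have hK : K₀ ≤ KZ K₀ Y := le_sup_left
  have hYK : Y ∈ KZ K₀ Y :=
    (le_sup_right : _ ≤ KZ K₀ Y) (IntermediateField.mem_adjoin_simple_self k Y)
  have al2 : ∀ x : A, IsAlgebraic (KZ K₀ Y) x := by
    intro x
    obtain ⟨q, hq, hq0⟩ := al x
    refine ⟨q.map (IntermediateField.inclusion hK : K₀ →+* KZ K₀ Y), ?_, ?_⟩
    · exact (Polynomial.map_ne_zero_iff (RingHom.injective _)).2 hq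
    · rw [Polynomial.aeval_def, Polynomial.eval₂_map]
      exact hq0
  let g : K₀ →ₐ[k] Ω := (s : Ω →ₐ[k] Ω).comp (A.val.comp K₀.val)
  obtain ⟨ψ, hψK, hψY⟩ := ext_emb K₀ al g _ irrY Y (by
    rw [map_sub, map_sub, map_pow, aeval_X, aeval_C]
    exact sub_self _) Y' (by
    rw [eval₂_sub, eval₂_sub, eval₂_X_pow, eval₂_X, eval₂_C, hY']
    exact sub_self _)
  have hψK' : ∀ x ∈ K₀, ψ x = s x := fun x hx => hψK ⟨x, hx⟩
  let g' : KZ K₀ Y →ₐ[k] Ω := ψ.comp (KZ K₀ Y).val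
  obtain ⟨ξ, hξK, hξZ⟩ := ext_emb (KZ K₀ Y) al2 g' _ irrZ Z (by
    rw [map_sub, map_pow, aeval_X, aeval_C]
    exact sub_self _) Z' (by
    rw [eval₂_sub, eval₂_X_pow, eval₂_C, hZ', sub_eq_zero]
    exact (hψK' _ ZK).symm)
  refine ⟨ξ, fun x hx => ?_, ?_, hξZ⟩
  · have h1 : ξ x = ψ x := hξK ⟨x, hK hx⟩
    rw [h1, hψK' x hx]
  · have h1 : ξ Y = ψ Y := hξK ⟨Y, hYK⟩
    rw [h1, hψY]

theorem CfM.a04 (hc : CfM A H K₀ Y Z p e n v w a U t) : a ≠ 0 := fun h => hc.aA (h ▸ zero_mem A)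

theorem CfM.v04 (hc : CfM A H K₀ Y Z p e n v w a U t) : v ≠ 0 := by
  rintro rfl
  have h := hc.eqZ
  rw [mul_zero] at h
  exact hc.a04 h.symm

theorem CfM.yt4 (hc : CfM A H K₀ Y Z p e n v w a U t) : a ^ e ∈ AA H {t} := by
  rw [← hc.eqZ, mul_pow]
  exact mul_mem (hc.K₀t _ hc.ZK) (pow_mem hc.vt _)

/-- existence of the data -/
theorem CfM.exists_GD [IsAlgClosed Ω] [IsAlgClosed H] [IsAlgClosed A]
    (hc : CfM A H K₀ Y Z p e n v w a U t) (hyH : a ^ e ∉ H) :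
    ∃ (A₁ A₂ : H[X]) (m : ℕ) (T : Fin m → Ω) (s : Fin m → (Ω ≃ₐ[k] Ω))
      (ξ : Fin m → (A →ₐ[k] Ω)) (f : Polynomial Ω),
      GDM A H K₀ Y Z p e n v w a U t A₁ A₂ T s ξ f := by
  classical
  obtain ⟨A₁, A₂, hcop, hA₂, hA₂t, haeq⟩ := exists_frac H t hc.tH (a ^ e) hc.yt4
  have ha0 := hc.a04
  have hΩp : CharP Ω p := by
    have := hc.ch
    exact charP_of_injective_algebraMap (algebraMap k Ω).injective p
  have hpf : Fact p.Prime := ⟨hc.pp⟩
  have ha' : aeval t A₁ / aeval t A₂ = a ^ e := by rw [div_eq_iff hA₂t, haeq]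
  have hq : 0 < p ^ n := pow_pos hc.pp.pos n
  have hq2 : 2 ≤ p ^ n := by
    calc 2 ≤ p := hc.pp.two_le
      _ = p ^ 1 := (pow_one p).symm
      _ ≤ p ^ n := Nat.pow_le_pow_right hc.pp.pos hc.n0
  set y : Ω := a ^ e with hy
  have hy0 : y ≠ 0 := pow_ne_zero e ha0
  set α₁ : Polynomial Ω := A₁.map (algebraMap H Ω) with hα₁
  set α₂ : Polynomial Ω := A₂.map (algebraMap H Ω) with hα₂
  set f : Polynomial Ω := α₁ - C (y ^ (p ^ n)) * α₂ with hf
  have hyqH : y ^ (p ^ n) ∉ H := fun h => hyH (pow_mem_H hq h)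
  have heval : ∀ (x : Ω) (P : H[X]), (P.map (algebraMap H Ω)).eval x = aeval x P := fun x P =>
    eval_map_algebraMap P x
  have hf0 : f ≠ 0 := by
    intro h
    obtain ⟨j, hj⟩ : ∃ j, A₂.coeff j ≠ 0 := by
      by_contra hcon
      push Not at hcon
      exact hA₂ (Polynomial.ext fun j => by rw [hcon j, coeff_zero])
    have h1 := congrArg (fun p => p.coeff j) h
    rw [hf, hα₁, hα₂] at h1
    simp only [coeff_sub, coeff_C_mul, coeff_map, coeff_zero] at h1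
    have hj' : ((A₂.coeff j : H) : Ω) ≠ 0 := fun h => hj (Subtype.ext h)
    apply hyqH
    have h2 : y ^ (p ^ n) = ((A₁.coeff j : H) : Ω) / (A₂.coeff j : H) := by
      rw [eq_div_iff hj']
      exact (sub_eq_zero.1 h1).symm
    rw [h2]
    exact div_mem (Subtype.property _) (Subtype.property _)
  have hroot : ∀ x, f.IsRoot x → aeval x A₁ = y ^ (p ^ n) * aeval x A₂ := by
    intro x hx
    have h1 := hx.eq_zero
    rw [hf, eval_sub, eval_mul, eval_C, heval, heval, sub_eq_zero] at h1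
    exact h1
  have hTH : ∀ x, f.IsRoot x → x ∉ H := by
    intro x hx hxH
    have h1 := hroot x hx
    have hm : ∀ P : H[X], aeval x P ∈ H := by
      intro P
      have : aeval x P = ((P.eval ⟨x, hxH⟩ : H) : Ω) := by
        have h2 := aeval_algebraMap_apply Ω (⟨x, hxH⟩ : H) P
        exact h2
      rw [this]
      exact Subtype.property _
    have h2 : aeval x A₂ = 0 := by
      by_contra hne
      apply hyqH
      have h3 : y ^ (p ^ n) = aeval x A₁ / aeval x A₂ := by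
        rw [eq_div_iff hne, h1]
      rw [h3]
      exact div_mem (hm _) (hm _)
    rw [h2, mul_zero] at h1
    obtain ⟨p, q, hpq⟩ := hcop
    have := congrArg (aeval x) hpq
    rw [map_add, map_mul, map_mul, h1, h2, mul_zero, mul_zero, add_zero, map_one] at this
    exact zero_ne_one this
  -- the roots
  obtain ⟨m, T, hT⟩ : ∃ (m : ℕ) (T : Fin m → Ω), f.roots = Finset.univ.val.map T := by
    refine ⟨f.roots.toList.length, f.roots.toList.get, ?_⟩
    rw [Fin.univ_val_map, List.ofFn_get, Multiset.coe_toList]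
  have hTr : ∀ i, f.IsRoot (T i) := by
    intro i
    rw [← mem_roots hf0, hT, Multiset.mem_map]
    exact ⟨i, Finset.mem_univ_val _, rfl⟩
  have hs : ∀ i, ∃ s ∈ Fx k (H : Set Ω), s t = T i := fun i =>
    exists_s H hc.trH t (T i) hc.tH (hTH _ (hTr i))
  choose s hsH hst using hs
  have hA₂T : ∀ i, aeval (T i) A₂ ≠ 0 := fun i => aeval_ne_zero H _ (hTH _ (hTr i)) A₂ hA₂
  have hsy : ∀ i, s i y = y ^ (p ^ n) := by
    intro i
    conv_lhs => rw [← ha']
    rw [map_div₀, Fx_aeval H (hsH i), Fx_aeval H (hsH i), hst, hroot _ (hTr i), mul_div_assoc,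
      div_self (hA₂T i), mul_one]
  have hTt : ∀ i, T i ≠ t := by
    intro i h
    have h1 := hroot _ (hTr i)
    rw [h, ← haeq] at h1
    have h2 : y = y ^ (p ^ n) := mul_right_cancel₀ hA₂t h1
    have h3 : y ^ (p ^ n - 1) = 1 := by
      apply mul_left_cancel₀ hy0
      rw [← pow_succ', Nat.sub_add_cancel hq, mul_one]
      exact h2.symm
    apply hyH
    refine pow_mem_H (e := p ^ n - 1) (by omega) ?_
    rw [h3]
    exact one_mem H
  have hv0 := hc.v04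
  have hsv : ∀ i, s i v ≠ 0 := fun i => (map_ne_zero (s i)).2 hv0
  have hYΩ : ((Y ^ p - Y : A) : Ω) = w ^ p - w + y := by
    have h1 : ((Y ^ p - Y : A) : Ω) = (Y : Ω) ^ p - (Y : Ω) := rfl
    rw [h1, ← hc.eqY, add_pow_char, hy, ← hc.eqU]
    ring
  have hξ : ∀ i, ∃ ξ : A →ₐ[k] Ω, (∀ x ∈ K₀, ξ x = s i x) ∧ ξ Y = s i w + U ^ (p ^ n) ∧
      ξ Z = a ^ (p ^ n) / s i v := by
    intro i
    refine exists_emb hc.al hc.pp hc.ch hc.YK hc.ZK hc.irrY hc.irrZ (s i) _ _ ?_ ?_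
    · rw [hYΩ, map_add, map_sub, map_pow, hsy, add_pow_char]
      have h1 : (U ^ (p ^ n)) ^ p - U ^ (p ^ n) = y ^ (p ^ n) := by
        rw [← pow_mul, mul_comm, pow_mul, ← sub_pow_char_pow, hc.eqU]
      linear_combination h1
    · have h1 : ((Z ^ e : A) : Ω) * v ^ e = y := by
        have h2 : ((Z ^ e : A) : Ω) = (Z : Ω) ^ e := rfl
        rw [h2, ← mul_pow, hc.eqZ]
      have h3 := congrArg (s i) h1
      rw [map_mul, map_pow, hsy] at h3
      rw [div_pow, ← pow_mul, mul_comm (p ^ n) e, pow_mul, div_eq_iff (pow_ne_zero e (hsv i)), h3]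
  choose ξ hξK hξY hξZ using hξ
  exact ⟨A₁, A₂, m, T, s, ξ, f, hcop, hA₂, hA₂t, haeq, hf0, rfl, hT, fun i => hTH _ (hTr i),
    hTt, hsH, hst, hsy, hsv, hξK, hξY, hξZ⟩

/-- an automorphism over `H(a ^ e)` permutes the roots -/
theorem GDM.perm (hG : GDM A H K₀ Y Z p e n v w a U t A₁ A₂ T s ξ f) (σ : Ω ≃ₐ[k] Ω)
    (hσ : σ ∈ Fx k (H : Set Ω)) (ha : σ (a ^ e) = a ^ e) :
    ∃ π : Equiv.Perm (Fin m), ∀ i, σ (T i) = T (π i) := by
  let g : Ω →+* Ω := (σ : Ω →+* Ω)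
  have hgP : ∀ P : H[X], (P.map (algebraMap H Ω)).map g = P.map (algebraMap H Ω) := by
    intro P
    rw [Polynomial.map_map]
    congr 1
    ext x
    exact hσ _ x.2
  have hgf : f.map g = f := by
    have hga : g ((a ^ e) ^ (p ^ n)) = (a ^ e) ^ (p ^ n) := by
      rw [map_pow]
      exact congrArg (· ^ (p ^ n)) ha
    rw [hG.fdef, Polynomial.map_sub, Polynomial.map_mul, hgP, hgP, map_C, hga]
  have h1 : f.roots.map g = f.roots := by
    have h2 := Polynomial.map_roots_le_of_injective f (f := g) g.injective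
    rw [hgf] at h2
    exact Multiset.eq_of_le_of_card_le h2 (by rw [Multiset.card_map])
  rw [hG.roots, Multiset.map_map] at h1
  exact exists_perm_of_map _ _ h1

theorem GDM.conj (hc : CfM A H K₀ Y Z p e n v w a U t)
    (hG : GDM A H K₀ Y Z p e n v w a U t A₁ A₂ T s ξ f) (σ : Ω ≃ₐ[k] Ω)
    (hσ : σ ∈ Fx k (H : Set Ω)) (i j : Fin m) (h : σ (T i) = T j) :
    (∀ x ∈ K₀, σ (ξ i x) = ξ j x) ∧ σ (ξ i Y) = ξ j Y + (σ U - U) ^ (p ^ n) ∧
      σ (ξ i Z) = (σ a / a) ^ (p ^ n) * ξ j Z := by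
  have hΩp : CharP Ω p := by
    have := hc.ch
    exact charP_of_injective_algebraMap (algebraMap k Ω).injective p
  have hpf : Fact p.Prime := ⟨hc.pp⟩
  have hag : ∀ x ∈ AA H {t}, σ (s i x) = s j x := by
    intro x hx
    obtain ⟨p, q, rfl⟩ := (Pool.Agent.TBR.V.mem_AA H t x).mp hx
    rw [map_div₀, map_div₀, map_div₀, Fx_aeval H (hG.sH i), Fx_aeval H (hG.sH i),
      Fx_aeval H (hG.sH j), Fx_aeval H (hG.sH j), Fx_aeval H hσ, Fx_aeval H hσ, hG.st, hG.st, h]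
  refine ⟨fun x hx => ?_, ?_, ?_⟩
  · rw [hG.ξK i x hx, hG.ξK j x hx]
    exact hag x (hc.K₀t x hx)
  · rw [hG.ξY, hG.ξY, map_add, hag w hc.wt, map_pow, sub_pow_char_pow]
    ring
  · have ha0 := hc.a04
    rw [hG.ξZ, hG.ξZ, map_div₀, hag v hc.vt, map_pow, div_pow]
    have h1 : a ^ (p ^ n) ≠ 0 := pow_ne_zero _ ha0
    field_simp

end

end Pool.Agent.FRB
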