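import Pool.Agent.FRB.Defs
import Pool.Agent.FRB.M4

/-!
# The automorphisms over `K₀`; the field with `p ^ n` elements
-/

set_option autoImplicit false

namespace Pool.Agent.FRB

open Polynomial Pool.Agent.TBR Pool.Agent.TUQ Pool.Agent.WLD Pool.Agent.UQ

universe u

section

variable {k M : Type u} [Field k] [Field M] [Algebra k M]

theorem natDegree_as {F : Type*} [Field F] (p : ℕ) (hp : 2 ≤ p) (c : F) :
    (X ^ p - X - C c : F[X]).natDegree = p := by
  rw [natDegree_sub_C, natDegree_sub_eq_left_of_natDegree_lt, natDegree_X_pow]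
  rw [natDegree_X, natDegree_X_pow]
  omega

theorem monic_as {F : Type*} [Field F] (p : ℕ) (hp : 2 ≤ p) (c : F) :
    (X ^ p - X - C c : F[X]).Monic := by
  rw [sub_sub]
  refine monic_X_pow_sub ?_
  rw [degree_X_add_C]
  exact_mod_cast (show 1 < p by omega)

/-- the general form of the coprime degree argument -/
theorem irr_cop {F M : Type*} [Field F] [Field M] [Algebra F M] (p e : ℕ) (hp2 : 2 ≤ p)
    (he : 0 < e) (hpe : Nat.Coprime e p) (Y Z : M) (c d : F)
    (hY : Y ^ p - Y = algebraMap F M c) (hZ : Z ^ e = algebraMap F M d)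
    (irrY : Irreducible (X ^ p - X - C c : F[X])) (irrZ : Irreducible (X ^ e - C d : F[X])) :
    Irreducible (X ^ e - C (algebraMap F (IntermediateField.adjoin F {Y}) d) :
      (IntermediateField.adjoin F {Y})[X]) := by
  have hmY : minpoly F Y = X ^ p - X - C c := by
    symm
    refine minpoly.eq_of_irreducible_of_monic irrY ?_ (monic_as p hp2 c)
    rw [map_sub, map_sub, map_pow, aeval_X, aeval_C, hY, sub_self]
  have hmZ : minpoly F Z = X ^ e - C d := by
    symm
    refine minpoly.eq_of_irreducible_of_monic irrZ ?_ (monic_X_pow_sub_C d he.ne')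
    rw [map_sub, map_pow, aeval_X, aeval_C, hZ, sub_self]
  have hiY : IsIntegral F Y := ⟨X ^ p - X - C c, monic_as p hp2 c, by
    rw [← Polynomial.aeval_def, map_sub, map_sub, map_pow, aeval_X, aeval_C, hY, sub_self]⟩
  have hiZ : IsIntegral F Z := ⟨X ^ e - C d, monic_X_pow_sub_C d he.ne', by
    rw [← Polynomial.aeval_def, map_sub, map_pow, aeval_X, aeval_C, hZ, sub_self]⟩
  set E := IntermediateField.adjoin F {Y} with hE
  have hiZE : IsIntegral E Z := hiZ.tower_top
  have hfE : Module.finrank F E = p := by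
    rw [hE, IntermediateField.adjoin.finrank hiY, hmY, natDegree_as p hp2]
  let L := IntermediateField.adjoin E {Z}
  have hfL : Module.finrank E L = (minpoly E Z).natDegree := IntermediateField.adjoin.finrank hiZE
  have hst : IsScalarTower F L M := IsScalarTower.of_algebraMap_eq fun _ => rfl
  let z' : L := IntermediateField.AdjoinSimple.gen E Z
  have hz' : algebraMap L M z' = Z := IntermediateField.AdjoinSimple.algebraMap_gen E Z
  have hmz : minpoly F z' = X ^ e - C d := by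
    rw [← hmZ, ← hz']
    exact (minpoly.algebraMap_eq (algebraMap L M).injective z').symm
  have hfdE : FiniteDimensional F E := IntermediateField.adjoin.finiteDimensional hiY
  have hfdL : FiniteDimensional E L := IntermediateField.adjoin.finiteDimensional hiZE
  have hfd : FiniteDimensional F L := Module.Finite.trans E L
  have h1 : Module.finrank F L = p * (minpoly E Z).natDegree := by
    rw [← Module.finrank_mul_finrank F E L, hfE, hfL]
  have h2 : e ∣ Module.finrank F L := by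
    have hiz : IsIntegral F z' := IsIntegral.of_finite F z'
    have h3 := Module.finrank_mul_finrank F (IntermediateField.adjoin F {z'}) L
    rw [IntermediateField.adjoin.finrank hiz, hmz, natDegree_X_pow_sub_C] at h3
    exact ⟨_, h3.symm⟩
  rw [h1] at h2
  have h4 : e ∣ (minpoly E Z).natDegree := hpe.dvd_of_dvd_mul_left h2
  have h5 : minpoly E Z ∣ X ^ e - C (algebraMap F E d) := by
    apply minpoly.dvd
    rw [map_sub, map_pow, aeval_X, aeval_C, hZ, ← IsScalarTower.algebraMap_apply, sub_self]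
  have h6 : X ^ e - C (algebraMap F E d) = minpoly E Z := by
    refine eq_of_monic_of_dvd_of_natDegree_le (minpoly.monic hiZE)
      (monic_X_pow_sub_C _ he.ne') h5 ?_
    rw [natDegree_X_pow_sub_C]
    exact Nat.le_of_dvd (minpoly.natDegree_pos hiZE) h4
  rw [h6]
  exact minpoly.irreducible hiZE

theorem restrict_adjoin (K₀ : IntermediateField k M) (Y : M) :
    (IntermediateField.adjoin K₀ {Y}).restrictScalars k = KZ K₀ Y := by
  apply le_antisymm
  · intro x hx
    have hx' : x ∈ IntermediateField.adjoin K₀ {Y} := hx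
    refine IntermediateField.adjoin_induction (F := K₀) (p := fun x _ => x ∈ KZ K₀ Y) ?_ ?_ ?_ ?_ ?_ hx'
    · intro z hz
      rw [Set.mem_singleton_iff.1 hz]
      exact (le_sup_right : _ ≤ KZ K₀ Y) (IntermediateField.mem_adjoin_simple_self k Y)
    · intro z
      exact (le_sup_left : K₀ ≤ KZ K₀ Y) z.2
    · intro a b _ _ ha hb
      exact add_mem ha hb
    · intro a _ ha
      exact inv_mem ha
    · intro a b _ _ ha hb
      exact mul_mem ha hb
  · refine sup_le ?_ ?_
    · intro x hx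
      exact (IntermediateField.adjoin K₀ {Y}).algebraMap_mem ⟨x, hx⟩
    · rw [IntermediateField.adjoin_le_iff, Set.singleton_subset_iff]
      exact IntermediateField.mem_adjoin_simple_self K₀ Y

theorem irr_restrict (K₀ : IntermediateField k M) (E : IntermediateField K₀ M)
    (K' : IntermediateField k M) (h : E.restrictScalars k = K') (e : ℕ) (z : M) (hz : z ∈ E)
    (hz' : z ∈ K') (irr : Irreducible (X ^ e - C (⟨z, hz⟩ : E))) :
    Irreducible (X ^ e - C (⟨z, hz'⟩ : K')) := by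
  subst h
  exact irr

/-- an irreducible Kummer equation of degree prime to `p` stays irreducible over an extension of
degree `p` -/
theorem irr_up (K₀ : IntermediateField k M) (p e : ℕ) (hp : p.Prime) (hpe : ¬ p ∣ e) (Y Z : M)
    (YK : Y ^ p - Y ∈ K₀) (ZK : Z ^ e ∈ K₀)
    (irrY : Irreducible (X ^ p - X - C (⟨Y ^ p - Y, YK⟩ : K₀)))
    (irrZ : Irreducible (X ^ e - C (⟨Z ^ e, ZK⟩ : K₀))) :
    Irreducible (X ^ e - C (⟨Z ^ e, (le_sup_left : K₀ ≤ KZ K₀ Y) ZK⟩ : KZ K₀ Y)) := by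
  have he : 0 < e := by
    rcases Nat.eq_zero_or_pos e with rfl | h
    · exact absurd (dvd_zero p) hpe
    · exact h
  have h1 := irr_cop p e hp.two_le he ((hp.coprime_iff_not_dvd.2 hpe).symm) Y Z
    (⟨Y ^ p - Y, YK⟩ : K₀) (⟨Z ^ e, ZK⟩ : K₀) rfl rfl irrY irrZ
  exact irr_restrict K₀ _ _ (restrict_adjoin K₀ Y) e (Z ^ e)
    ((IntermediateField.adjoin K₀ {Y}).algebraMap_mem ⟨Z ^ e, ZK⟩) _ h1

/-- elements with `c ^ p = c` -/
theorem exists_natCast_of_pow (p : ℕ) (hp : p.Prime) [CharP M p] (c : M)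
    (hc : c ^ p = c) : ∃ m : ℕ, c = m := by
  have := Fact.mk hp
  letI : Algebra (ZMod p) M := ZMod.algebra M p
  have h1 : (X ^ p - X : (ZMod p)[X]) ≠ 0 := FiniteField.X_pow_card_sub_X_ne_zero _ hp.one_lt
  have h2 := (GaloisField.splits_zmod_X_pow_sub_X p)
  have h3 := Splits.image_rootSet (R := ZMod p) (A := ZMod p) (B := M)
    (f := (X ^ p - X : (ZMod p)[X])) (by simpa using h2) (Algebra.ofId (ZMod p) M)
  have h4 : c ∈ (X ^ p - X : (ZMod p)[X]).rootSet M := by
    rw [mem_rootSet_of_ne h1, map_sub, map_pow, aeval_X, hc, sub_self]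
  rw [← h3] at h4
  obtain ⟨x, -, hx⟩ := h4
  refine ⟨x.val, ?_⟩
  rw [← hx]
  conv_lhs => rw [← ZMod.natCast_zmod_val x]
  exact map_natCast _ _

/-- the automorphisms over `K₀` -/
theorem exists_theta [IsAlgClosed M] (K₀ : IntermediateField k M) (hal : ∀ x : M, IsAlgebraic K₀ x)
    (p e : ℕ) (hp : p.Prime) (hch : CharP k p) (Y Z : M) (YK : Y ^ p - Y ∈ K₀) (ZK : Z ^ e ∈ K₀)
    (irrY : Irreducible (X ^ p - X - C (⟨Y ^ p - Y, YK⟩ : K₀)))
    (irrZ : Irreducible (X ^ e - C (⟨Z ^ e, (le_sup_left : K₀ ≤ KZ K₀ Y) ZK⟩ : KZ K₀ Y)))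
    (c ζ : M) (hc : c ^ p = c) (hζ : ζ ^ e = 1) :
    ∃ θ : M ≃ₐ[k] M, (∀ x ∈ K₀, θ x = x) ∧ θ Y = Y + c ∧ θ Z = ζ * Z := by
  have hMp : CharP M p := charP_of_injective_algebraMap (algebraMap k M).injective p
  have hpf : Fact p.Prime := ⟨hp⟩
  have he : 0 < e := by
    rcases Nat.eq_zero_or_pos e with rfl | h
    · exfalso
      have h1 : (X ^ 0 - C (⟨Z ^ 0, (le_sup_left : K₀ ≤ KZ K₀ Y) ZK⟩ : KZ K₀ Y)) = 0 := by
        have h2 : (⟨Z ^ 0, (le_sup_left : K₀ ≤ KZ K₀ Y) ZK⟩ : KZ K₀ Y) = 1 := by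
          apply Subtype.ext
          exact pow_zero Z
        rw [h2, pow_zero, map_one, sub_self]
      exact irrZ.ne_zero h1
    · exact h
  obtain ⟨mc, hmc⟩ := exists_natCast_of_pow p hp c hc
  have hal' : Algebra.IsAlgebraic K₀ M := ⟨hal⟩
  have hN : Normal K₀ M := by
    have h1 : IsAlgClosure K₀ M := ⟨inferInstance, inferInstance⟩
    exact IsAlgClosure.normal K₀ M
  have hK : K₀ ≤ KZ K₀ Y := le_sup_left
  have hYK : Y ∈ KZ K₀ Y :=
    (le_sup_right : _ ≤ KZ K₀ Y) (IntermediateField.mem_adjoin_simple_self k Y)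
  have hal2 : ∀ x : M, IsAlgebraic (KZ K₀ Y) x := by
    intro x
    obtain ⟨q, hq, hq0⟩ := hal x
    refine ⟨q.map (IntermediateField.inclusion hK : K₀ →+* KZ K₀ Y), ?_, ?_⟩
    · exact (Polynomial.map_ne_zero_iff (RingHom.injective _)).2 hq
    · rw [Polynomial.aeval_def, Polynomial.eval₂_map]
      exact hq0
  have hal2' : Algebra.IsAlgebraic (KZ K₀ Y) M := ⟨hal2⟩
  have hN2 : Normal (KZ K₀ Y) M := by
    have h1 : IsAlgClosure (KZ K₀ Y) M := ⟨inferInstance, inferInstance⟩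
    exact IsAlgClosure.normal (KZ K₀ Y) M
  -- the first automorphism
  have hmY : minpoly K₀ Y = X ^ p - X - C (⟨Y ^ p - Y, YK⟩ : K₀) := by
    symm
    refine minpoly.eq_of_irreducible_of_monic irrY ?_ (monic_as p hp.two_le _)
    rw [map_sub, map_sub, map_pow, aeval_X, aeval_C]
    exact sub_self _
  obtain ⟨σ, hσ⟩ := minpoly.exists_algEquiv_of_root' (K := K₀) (x := Y + c) (hal Y) (by
    rw [hmY, map_sub, map_sub, map_pow, aeval_X, aeval_C, add_pow_char, hc]
    show Y ^ p + c - (Y + c) - (Y ^ p - Y) = 0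
    ring)
  have hσK : ∀ x ∈ K₀, σ x = x := fun x hx => σ.commutes ⟨x, hx⟩
  have hσZ : (σ Z) ^ e = Z ^ e := by
    rw [← map_pow]
    exact hσK _ ZK
  -- the second automorphism
  have hmZ : minpoly (KZ K₀ Y) (σ Z) = X ^ e - C (⟨Z ^ e, hK ZK⟩ : KZ K₀ Y) := by
    symm
    refine minpoly.eq_of_irreducible_of_monic irrZ ?_ (monic_X_pow_sub_C _ he.ne')
    rw [map_sub, map_pow, aeval_X, aeval_C, hσZ]
    exact sub_self _
  obtain ⟨τ, hτ⟩ := minpoly.exists_algEquiv_of_root' (K := KZ K₀ Y) (x := ζ * Z)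
    (hal2 (σ Z)) (by
    rw [hmZ, map_sub, map_pow, aeval_X, aeval_C, mul_pow, hζ, one_mul]
    exact sub_self _)
  have hτK : ∀ x ∈ KZ K₀ Y, τ x = x := fun x hx => τ.commutes ⟨x, hx⟩
  refine ⟨(σ.restrictScalars k).trans (τ.restrictScalars k), ?_, ?_, ?_⟩
  · intro x hx
    show τ (σ x) = x
    rw [hσK x hx, hτK x (hK hx)]
  · show τ (σ Y) = Y + c
    rw [hσ, hτK]
    refine add_mem hYK ?_
    rw [hmc]
    exact natCast_mem _ _
  · exact hτ

theorem GoodM.fg {K₀ : IntermediateField k M} (hK₀ : K₀.FG) {Y Z : M} (L : IntermediateField k M)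
    (h : GoodM K₀ Y Z L) : L.FG := by
  have h1 : ∀ z : M, (KZ K₀ z).FG := fun z =>
    IntermediateField.fg_sup hK₀ ⟨{z}, by rw [Finset.coe_singleton]⟩
  rcases h with ⟨K₁, K₂, h1, h2, -, -, rfl⟩ | rfl | rfl | rfl
  · exact IntermediateField.fg_sup h1 h2
  · exact hK₀
  · exact h1 Y
  · exact h1 Z

theorem GoodM.congr {M' : Type u} [Field M'] [Algebra k M']
    (ε : M ≃ₐ[k] M') {K₀ : IntermediateField k M} {Y Z : M} {L : IntermediateField k M'}
    (h : GoodM (K₀.map (ε : M →ₐ[k] M')) (ε Y) (ε Z) L) :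
    GoodM K₀ Y Z (L.map (ε.symm : M' →ₐ[k] M)) := by
  have h0 : ∀ z : M, (KZ (K₀.map (ε : M →ₐ[k] M')) (ε z)).map (ε.symm : M' →ₐ[k] M) = KZ K₀ z := by
    intro z
    have h1 : (KZ K₀ z).map (ε : M →ₐ[k] M') = KZ (K₀.map (ε : M →ₐ[k] M')) (ε z) :=
      map_sup_adjoin (ε : M →ₐ[k] M') K₀ z
    rw [← h1, map_map_symm]
  rcases h with ⟨K₁, K₂, h1, h2, h3, h4, rfl⟩ | rfl | rfl | rfl
  · left
    exact ⟨K₁.map _, K₂.map _, map_fg _ _ h1, map_fg _ _ h2, (map_trdeg _ K₁).le.trans h3,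
      (map_trdeg _ K₂).le.trans h4, IntermediateField.map_sup _ _ _⟩
  · right
    left
    rw [map_map_symm]
  · right
    right
    left
    exact h0 Y
  · right
    right
    right
    exact h0 Z

/-- the elements of the field with `p ^ n` elements -/
theorem exists_fq [IsAlgClosed M] (p n : ℕ) [Fact p.Prime] [CharP M p] (hn : 0 < n) :
    ∃ ι : GaloisField p n →+* M, ∀ x : M, x ^ (p ^ n) = x → ∃ b, ι b = x := by
  letI : Algebra (ZMod p) M := ZMod.algebra M p
  have hp : 1 < p := (Fact.out : p.Prime).one_lt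
  have h1 : (X ^ p ^ n - X : (ZMod p)[X]) ≠ 0 :=
    FiniteField.X_pow_card_pow_sub_X_ne_zero _ hn.ne' hp
  let g : GaloisField p n →ₐ[ZMod p] M := IsAlgClosed.lift
  have h2 : ((X ^ p ^ n - X : (ZMod p)[X]).map (algebraMap (ZMod p) (GaloisField p n))).Splits :=
    SplittingField.splits (X ^ p ^ n - X : (ZMod p)[X])
  have h3 := Splits.image_rootSet h2 g
  refine ⟨(g : GaloisField p n →+* M), fun x hx => ?_⟩
  have h4 : x ∈ (X ^ p ^ n - X : (ZMod p)[X]).rootSet M := by
    rw [mem_rootSet_of_ne h1, map_sub, map_pow, aeval_X, hx, sub_self]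
  rw [← h3] at h4
  obtain ⟨y, -, hy⟩ := h4
  exact ⟨y, hy⟩

end

end Pool.Agent.FRB
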