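import Mathlib

/-!
# The number of solutions of `tr b - tr b' = s`, `(b / b') ^ ((q - 1) / e) = ζ`
-/

set_option autoImplicit false

namespace Pool.Agent.FRB

open Finset

/-- fibres of bounded size which add up to the maximum have the maximal size -/
theorem fibre_card {α β : Type*} [Fintype α] [DecidableEq β] (g : α → β)
    (S : Finset β) (hg : ∀ a, g a ∈ S) (c d : ℕ) (hS : S.card ≤ c)
    (hd : ∀ s ∈ S, (univ.filter fun a => g a = s).card ≤ d) (h : Fintype.card α = c * d)
    (s : β) (hs : s ∈ S) : (univ.filter fun a => g a = s).card = d := by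
  have h1 : ∑ s ∈ S, (univ.filter fun a => g a = s).card = Fintype.card α := by
    rw [← card_eq_sum_card_fiberwise (fun a _ => hg a)]
    rfl
  refine le_antisymm (hd s hs) ?_
  by_contra h2
  push Not at h2
  have h3 : ∑ s ∈ S, (univ.filter fun a => g a = s).card < ∑ _s ∈ S, d :=
    sum_lt_sum hd ⟨s, hs, h2⟩
  rw [h1, h, sum_const, smul_eq_mul] at h3
  exact absurd (Nat.mul_le_mul_right d hS) (not_le.2 h3)

/-- the polynomial `∑ X ^ (p ^ j)` -/
theorem tr_natDegree (F : Type) [Field F] (p n : ℕ) (hp : 2 ≤ p) (hn : 0 < n) (s : F) :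
    (∑ j ∈ range n, Polynomial.X ^ (p ^ j) - Polynomial.C s : Polynomial F).natDegree =
      p ^ (n - 1) := by
  obtain ⟨n, rfl⟩ : ∃ m, n = m + 1 := ⟨n - 1, by omega⟩
  rw [Polynomial.natDegree_sub_C, sum_range_succ, Nat.add_sub_cancel]
  rw [Polynomial.natDegree_add_eq_right_of_degree_lt, Polynomial.natDegree_X_pow]
  rw [Polynomial.degree_X_pow]
  refine lt_of_le_of_lt (Polynomial.degree_sum_le _ _) ?_
  rw [Finset.sup_lt_iff (WithBot.bot_lt_coe _)]
  intro j hj
  rw [Polynomial.degree_X_pow]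
  exact_mod_cast Nat.pow_lt_pow_right hp (mem_range.1 hj)

/-- the trace of the field with `p ^ n` elements -/
theorem trace_card (F : Type) [Field F] [Fintype F] [DecidableEq F] (p n : ℕ) (hp : p.Prime)
    (hn : 0 < n) (hF : Fintype.card F = p ^ n) (s : F) (hs : s ^ p = s) :
    (univ.filter fun b : F => ∑ j ∈ range n, b ^ (p ^ j) = s).card = p ^ (n - 1) := by
  have := Fact.mk hp
  have hch : CharP F p := charP_of_card_eq_prime_pow hF
  have hS : ((Polynomial.X ^ p - Polynomial.X : Polynomial F).roots.toFinset).card ≤ p := by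
    refine (Multiset.toFinset_card_le _).trans ((Polynomial.card_roots' _).trans ?_)
    rw [FiniteField.X_pow_card_sub_X_natDegree_eq F hp.one_lt]
  have hX : (Polynomial.X ^ p - Polynomial.X : Polynomial F) ≠ 0 :=
    FiniteField.X_pow_card_sub_X_ne_zero F hp.one_lt
  have hmem : ∀ x : F, x ∈ (Polynomial.X ^ p - Polynomial.X : Polynomial F).roots.toFinset ↔
      x ^ p = x := by
    intro x
    rw [Multiset.mem_toFinset, Polynomial.mem_roots hX, Polynomial.IsRoot.def,
      Polynomial.eval_sub, Polynomial.eval_pow, Polynomial.eval_X, sub_eq_zero]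
  refine fibre_card (fun b : F => ∑ j ∈ range n, b ^ (p ^ j))
    (Polynomial.X ^ p - Polynomial.X : Polynomial F).roots.toFinset ?_ p (p ^ (n - 1)) hS ?_ ?_ s
    ((hmem s).2 hs)
  · intro b
    rw [hmem, sum_pow_char]
    have h1 : ∀ j ∈ range n, (b ^ (p ^ j)) ^ p = b ^ (p ^ (j + 1)) := fun j _ => by
      rw [← pow_mul, pow_succ]
    rw [sum_congr rfl h1]
    have h2 := sum_range_succ' (fun j => b ^ (p ^ j)) n
    rw [sum_range_succ] at h2
    have h3 : b ^ (p ^ n) = b := by
      rw [← hF]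
      exact FiniteField.pow_card b
    rw [h3, pow_zero, pow_one] at h2
    exact (add_right_cancel h2).symm
  · intro s _
    have h0 : (∑ j ∈ range n, Polynomial.X ^ (p ^ j) - Polynomial.C s : Polynomial F) ≠ 0 := by
      intro h
      have h1 := tr_natDegree F p n hp.two_le hn s
      rw [h, Polynomial.natDegree_zero] at h1
      exact absurd h1.symm (pow_ne_zero _ hp.ne_zero)
    refine (card_le_card (t := (∑ j ∈ range n, Polynomial.X ^ (p ^ j) -
      Polynomial.C s : Polynomial F).roots.toFinset) ?_).trans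
      ((Multiset.toFinset_card_le _).trans ((Polynomial.card_roots' _).trans
        (tr_natDegree F p n hp.two_le hn s).le))
    intro b hb
    rw [mem_filter] at hb
    rw [Multiset.mem_toFinset, Polynomial.mem_roots h0, Polynomial.IsRoot.def,
      Polynomial.eval_sub, Polynomial.eval_finsetSum, Polynomial.eval_C, sub_eq_zero]
    simpa using hb.2
  · rw [hF, ← pow_succ']
    congr 1
    omega

/-- the power map onto the roots of unity of order `e` -/
theorem power_card (F : Type) [Field F] [Fintype F] [DecidableEq F] (e : ℕ)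
    (he : e ∣ Fintype.card F - 1) (ζ : Fˣ) (hζ : ζ ^ e = 1) :
    (univ.filter fun b : Fˣ => b ^ ((Fintype.card F - 1) / e) = ζ).card =
      (Fintype.card F - 1) / e := by
  have hq : 0 < Fintype.card F - 1 := by
    have := Fintype.one_lt_card (α := F)
    omega
  have he0 : 0 < e := Nat.pos_of_ne_zero (by
    rintro rfl
    exact hq.ne' (Nat.eq_zero_of_zero_dvd he))
  have hd0 : 0 < (Fintype.card F - 1) / e := Nat.div_pos (Nat.le_of_dvd hq he) he0
  have hb : ∀ (d : ℕ) (_ : 0 < d) (ζ : Fˣ), (univ.filter fun b : Fˣ => b ^ d = ζ).card ≤ d := by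
    intro d hd ζ
    have h0 : (Polynomial.X ^ d - Polynomial.C (ζ : F) : Polynomial F) ≠ 0 :=
      Polynomial.X_pow_sub_C_ne_zero hd _
    refine (card_le_card_of_injOn (t := (Polynomial.X ^ d -
      Polynomial.C (ζ : F) : Polynomial F).roots.toFinset) (fun b : Fˣ => (b : F)) ?_
        (fun a _ b _ h => Units.ext h)).trans
      ((Multiset.toFinset_card_le _).trans ((Polynomial.card_roots' _).trans ?_))
    · intro b hb
      have hb' := (mem_filter.1 (mem_coe.1 hb)).2
      rw [mem_coe, Multiset.mem_toFinset, Polynomial.mem_roots h0, Polynomial.IsRoot.def,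
        Polynomial.eval_sub, Polynomial.eval_pow, Polynomial.eval_X, Polynomial.eval_C,
        sub_eq_zero, ← hb', Units.val_pow_eq_pow_val]
    · rw [Polynomial.natDegree_X_pow_sub_C]
  refine fibre_card (fun b : Fˣ => b ^ ((Fintype.card F - 1) / e))
    (univ.filter fun ζ : Fˣ => ζ ^ e = 1) ?_ e _ (hb e he0 1) (fun ζ _ => hb _ hd0 ζ) ?_ ζ ?_
  · intro b
    rw [mem_filter]
    refine ⟨mem_univ _, ?_⟩
    rw [← pow_mul, Nat.div_mul_cancel he]
    exact Units.ext (by
      rw [Units.val_pow_eq_pow_val, Units.val_one]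
      exact FiniteField.pow_card_sub_one_eq_one _ b.ne_zero)
  · rw [Fintype.card_units, Nat.mul_div_cancel' he]
  · rw [mem_filter]
    exact ⟨mem_univ _, hζ⟩

/-- the number of units with given trace -/
theorem trace_card_units (F : Type) [Field F] [Fintype F] [DecidableEq F] (p n : ℕ)
    (hp : p.Prime) (hn : 0 < n) (hF : Fintype.card F = p ^ n) (s : F) (hs : s ^ p = s) :
    ((univ.filter fun b : Fˣ => ∑ j ∈ range n, (b : F) ^ (p ^ j) = s).card : ℤ) =
      p ^ (n - 1) - if s = 0 then 1 else 0 := by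
  have h1 := trace_card F p n hp hn hF s hs
  have h2 : (univ.filter fun b : Fˣ => ∑ j ∈ range n, (b : F) ^ (p ^ j) = s).card =
      ((univ.filter fun b : F => ∑ j ∈ range n, b ^ (p ^ j) = s).erase 0).card := by
    refine card_bij (fun b _ => (b : F)) ?_ (fun a _ b _ h => Units.ext h) ?_
    · intro b hb
      rw [mem_filter] at hb
      rw [mem_erase, mem_filter]
      exact ⟨b.ne_zero, mem_univ _, hb.2⟩
    · intro b hb
      rw [mem_erase, mem_filter] at hb
      exact ⟨Units.mk0 b hb.1, mem_filter.2 ⟨mem_univ _, hb.2.2⟩, rfl⟩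
  have h0 : ∑ j ∈ range n, (0 : F) ^ (p ^ j) = 0 :=
    sum_eq_zero fun j _ => zero_pow (pow_ne_zero _ hp.ne_zero)
  rw [h2]
  split_ifs with h
  · rw [card_erase_of_mem (mem_filter.2 ⟨mem_univ _, by rw [h0, h]⟩), h1, Nat.cast_sub
      (Nat.one_le_pow _ _ hp.pos)]
    push_cast
    ring
  · rw [erase_eq_of_notMem, h1]
    · push_cast
      ring
    · rw [mem_filter, h0]
      exact fun h3 => h h3.2.symm

/-- the count: `|Gauss sum| ^ 2 = q` -/
theorem gauss_count (F : Type) [Field F] [Fintype F] [DecidableEq F] (p n e : ℕ) (hp : p.Prime)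
    (hn : 0 < n) (hF : Fintype.card F = p ^ n) (he : e ∣ p ^ n - 1) (s : F) (hs : s ^ p = s)
    (ζ : Fˣ) (hζ : ζ ^ e = 1) :
    (((univ : Finset (Fˣ × Fˣ)).filter fun q =>
      (∑ j ∈ range n, (q.1 : F) ^ (p ^ j)) - (∑ j ∈ range n, (q.2 : F) ^ (p ^ j)) = s ∧
        (q.1 / q.2) ^ ((p ^ n - 1) / e) = ζ).card : ℤ) =
      (p ^ (n - 1) : ℤ) * (((p ^ n - 1) / e : ℕ) : ℤ) - (p ^ (n - 1) : ℤ) * (if ζ = 1 then 1 else 0)
        - (((p ^ n - 1) / e : ℕ) : ℤ) * (if s = 0 then 1 else 0) +
        (p ^ n : ℤ) * (if s = 0 ∧ ζ = 1 then 1 else 0) := by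
  have := Fact.mk hp
  have hch : CharP F p := charP_of_card_eq_prime_pow hF
  obtain ⟨d, hd⟩ : ∃ d, d = (p ^ n - 1) / e := ⟨_, rfl⟩
  rw [← hd]
  have hpw : (univ.filter fun u : Fˣ => u ^ d = ζ).card = d := by
    have h := power_card F e (by rw [hF]; exact he) ζ hζ
    rw [hF, ← hd] at h
    exact h
  -- the trace is additive
  have htr : ∀ a b : F, (∑ j ∈ range n, a ^ (p ^ j)) - (∑ j ∈ range n, b ^ (p ^ j)) =
      ∑ j ∈ range n, (a - b) ^ (p ^ j) := by
    intro a b
    rw [← sum_sub_distrib]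
    exact sum_congr rfl fun j _ => (sub_pow_char_pow (p := p) a b j).symm
  -- the number of `b'` for a given quotient `u`
  have hfib : ∀ u : Fˣ, ((univ.filter fun b : Fˣ =>
      ∑ j ∈ range n, (((u : F) - 1) * b) ^ (p ^ j) = s).card : ℤ) =
        if u = 1 then (if s = 0 then (p ^ n : ℤ) - 1 else 0) else
          p ^ (n - 1) - if s = 0 then 1 else 0 := by
    intro u
    by_cases hu : u = 1
    · subst hu
      have h0 : ∑ j ∈ range n, (0 : F) ^ (p ^ j) = 0 :=
        sum_eq_zero fun j _ => zero_pow (pow_ne_zero _ hp.ne_zero)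
      simp only [Units.val_one, sub_self, zero_mul, h0, if_true]
      split_ifs with h
      · rw [h, filter_true_of_mem (fun _ _ => rfl), card_univ, Fintype.card_units, hF,
          Nat.cast_sub (Nat.one_le_pow _ _ hp.pos)]
        push_cast
        ring
      · rw [filter_false_of_mem (fun _ _ h1 => h h1.symm), card_empty, Nat.cast_zero]
    · rw [if_neg hu, ← trace_card_units F p n hp hn hF s hs]
      have hu1 : (u : F) - 1 ≠ 0 := fun h => hu (Units.ext (sub_eq_zero.1 h))
      congr 1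
      refine card_bij (fun b _ => Units.mk0 ((u : F) - 1) hu1 * b) ?_ ?_ ?_
      · intro b hb
        rw [mem_filter] at hb ⊢
        exact ⟨mem_univ _, by rw [Units.val_mul, Units.val_mk0]; exact hb.2⟩
      · intro a _ b _ h
        exact mul_left_cancel h
      · intro b hb
        rw [mem_filter] at hb
        refine ⟨(Units.mk0 ((u : F) - 1) hu1)⁻¹ * b, mem_filter.2 ⟨mem_univ _, ?_⟩,
          mul_inv_cancel_left _ _⟩
        rw [← hb.2]
        refine sum_congr rfl fun j _ => ?_
        congr 1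
        rw [Units.val_mul, Units.val_inv_eq_inv_val, Units.val_mk0, mul_inv_cancel_left₀ hu1]
  -- the pairs as pairs `(u, b')`
  have hsum : (((univ : Finset (Fˣ × Fˣ)).filter fun q =>
      (∑ j ∈ range n, (q.1 : F) ^ (p ^ j)) - (∑ j ∈ range n, (q.2 : F) ^ (p ^ j)) = s ∧
        (q.1 / q.2) ^ d = ζ).card) =
      ∑ u ∈ univ.filter (fun u : Fˣ => u ^ d = ζ), (univ.filter fun b : Fˣ =>
        ∑ j ∈ range n, (((u : F) - 1) * b) ^ (p ^ j) = s).card := by
    rw [← card_sigma]
    refine card_bij' (fun q _ => (⟨q.1 / q.2, q.2⟩ : (_ : Fˣ) × Fˣ)) (fun q _ => (q.1 * q.2, q.2))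
      ?_ ?_ ?_ ?_
    · rintro ⟨b, b'⟩ hq
      rw [mem_filter] at hq
      rw [mem_sigma, mem_filter, mem_filter]
      refine ⟨⟨mem_univ _, hq.2.2⟩, mem_univ _, ?_⟩
      rw [← hq.2.1, htr]
      refine sum_congr rfl fun j _ => ?_
      congr 1
      rw [sub_mul, one_mul, ← Units.val_mul, div_mul_cancel]
    · rintro ⟨u, b'⟩ hq
      rw [mem_sigma, mem_filter, mem_filter] at hq
      rw [mem_filter]
      refine ⟨mem_univ _, ?_, ?_⟩
      · rw [htr, ← hq.2.2]
        refine sum_congr rfl fun j _ => ?_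
        congr 1
        rw [Units.val_mul, sub_mul, one_mul]
      · rw [mul_div_cancel_right]
        exact hq.1.2
    · rintro ⟨b, b'⟩ _
      exact Prod.ext (div_mul_cancel _ _) rfl
    · rintro ⟨u, b'⟩ _
      exact Sigma.ext (mul_div_cancel_right _ _) HEq.rfl
  rw [hsum, Nat.cast_sum, sum_congr rfl fun u _ => hfib u, sum_ite]
  have h1 : (filter (fun u : Fˣ => u = 1) (univ.filter fun u : Fˣ => u ^ d = ζ)).card =
      if ζ = 1 then 1 else 0 := by
    split_ifs with h
    · rw [card_eq_one]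
      refine ⟨1, ?_⟩
      ext u
      rw [mem_filter, mem_filter, mem_singleton]
      refine ⟨fun h2 => h2.2, ?_⟩
      rintro rfl
      exact ⟨⟨mem_univ _, by rw [one_pow, h]⟩, rfl⟩
    · rw [card_eq_zero, filter_eq_empty_iff]
      rintro u hu rfl
      rw [mem_filter, one_pow] at hu
      exact h hu.2.symm
  have h2 : (filter (fun u : Fˣ => ¬ u = 1) (univ.filter fun u : Fˣ => u ^ d = ζ)).card +
      (filter (fun u : Fˣ => u = 1) (univ.filter fun u : Fˣ => u ^ d = ζ)).card = d := by
    rw [add_comm, card_filter_add_card_filter_not, hpw]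
  rw [sum_const, sum_const, nsmul_eq_mul, nsmul_eq_mul]
  have h3 : ((filter (fun u : Fˣ => ¬ u = 1) (univ.filter fun u : Fˣ => u ^ d = ζ)).card : ℤ) =
      d - if ζ = 1 then 1 else 0 := by
    rw [h1] at h2
    rw [eq_sub_iff_add_eq]
    exact_mod_cast h2
  rw [h3, h1]
  by_cases hz : ζ = 1 <;> by_cases hs0 : s = 0 <;> simp [hz, hs0] <;> ring

end Pool.Agent.FRB
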