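import Pool.Agent.FRB.Defs
import Pool.Agent.TUQ.R9

/-!
# The reciprocity relations
-/

set_option autoImplicit false

namespace Pool.Agent.FRB

open Polynomial Pool.Agent.TBR Pool.Agent.TUQ Pool.Agent.WLD Pool.Agent.URR

universe u

open Classical in
set_option maxHeartbeats 400000 in
/-- block R with the family of embeddings indexed by `Fin m` -/
theorem blockRP_fin (k Ω : Type u) [Field k] [Field Ω] [Algebra k Ω] (hΩ : IsAlgClosed Ω)
    (A : IntermediateField k Ω) (hAc : IsAlgClosed A)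
    (hA1 : ∀ x : Ω, x ∉ A → ∀ y : Ω, IsAlgebraic (AA A {x}) y)
    (K : IntermediateField k A) (hK : K.FG) (hKalg : ∀ x : A, IsAlgebraic K x)
    (m : ℕ) (ξ : Fin m → (A →ₐ[k] Ω)) (h : Fin m → Ω) (h0 : ∀ i, h i ≠ 0)
    (T : Finset Ω) (hy : ∃ y : Ω, y ∉ A) (p : ℕ) (hp : ExpChar k p) :
    ∃ (n : ℕ) (V : Fin n → ValuationSubring Ω) (r : ∀ j, V j →+* Ω) (e : Fin n → Fin m → ℤ)
      (S : Finset A),
      (∀ j, Plc A (V j) (r j)) ∧
      (∀ j i, 0 < e j i ↔ (V j).valuation (h i) < 1) ∧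
      (∀ j i, e j i < 0 ↔ 1 < (V j).valuation (h i)) ∧
      (∀ j i i', (V j).valuation (h i) = (V j).valuation (h i') → e j i = e j i') ∧
      (∀ j (ν : Fin m → ℤ), (V j).valuation (∏ i, h i ^ ν i) = 1 → ∑ i, ν i * e j i = 0) ∧
      (∀ (W : ValuationSubring Ω) (rW : W →+* Ω), Plc A W rW → (∃ i, W.valuation (h i) ≠ 1) →
        ∃ j, ∀ x ∈ T, (x ∈ W ↔ x ∈ V j) ∧ ∀ (h : x ∈ W) (h' : x ∈ V j), rW ⟨x, h⟩ = r j ⟨x, h'⟩) ∧
      ∀ c : (A ≃ₐ[k] A) → (A ≃ₐ[k] A) → Aˣ, UnC (K : Set A) c →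
        ∀ ψ : Fin n → Fin m → (A ≃ₐ[k] A),
          (∀ j i, (∀ x, ξ i x ∈ V j) → ResE A (V j) (r j) (ξ i) (ψ j i)) →
          ∀ i, ∃ s : ℕ, Tri (Ge k (S : Set A)) (fun σ τ => ∏ j,
            if (∀ x, ξ i x ∈ V j) ∧ (V j).valuation (h i) ≠ 1 then
              tw (ψ j i) c σ τ ^ (e j i * (p : ℤ) ^ s) else 1) := by
  obtain ⟨y, hy⟩ := hy
  obtain ⟨G, hG⟩ := hK
  have hpΩ : ExpChar Ω p := expChar_of_injective_algebraMap (algebraMap k Ω).injective p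
  obtain ⟨B, hBT, hBh, hBξ, hBy⟩ : ∃ B : Finset Ω, (∀ x ∈ T, x ∈ B) ∧ (∀ i, h i ∈ B) ∧
      (∀ i, ∀ g ∈ G, ξ i g ∈ B) ∧ y ∈ B := by
    refine ⟨T ∪ Finset.univ.image h ∪ (Finset.univ.biUnion fun i => G.image (ξ i)) ∪ {y},
      fun x hx => ?_, fun i => ?_, fun i g hg => ?_, ?_⟩
    · exact Finset.mem_union_left _ (Finset.mem_union_left _ (Finset.mem_union_left _ hx))
    · exact Finset.mem_union_left _ (Finset.mem_union_left _ (Finset.mem_union_right _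
        (Finset.mem_image_of_mem h (Finset.mem_univ i))))
    · exact Finset.mem_union_left _ (Finset.mem_union_right _ (Finset.mem_biUnion.2
        ⟨i, Finset.mem_univ i, Finset.mem_image_of_mem (ξ i) hg⟩))
    · exact Finset.mem_union_right _ (Finset.mem_singleton_self y)
  have hAE : A ≤ AA A (B : Set Ω) := le_AA A _
  have hBE : ∀ x ∈ B, x ∈ AA A (B : Set Ω) := fun x hx => sub_AA A _ hx
  obtain ⟨n, W, π, e, hW, hπ, hW4, hW2, hW3, he⟩ := exists_places A hA1 (B : Set Ω)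
    B.finite_toSet (fun V hV => exists_unif A hA1 (B : Set Ω) B.finite_toSet ⟨y, hBy, hy⟩ V hV)
    m h h0 (fun i => hBE _ (hBh i))
  have hr : ∀ j, ∃ r : W j →+* Ω, IsRes A (W j) r := fun j =>
    exists_isRes A hA1 (W j) (hW j).1 (hW j).2
  choose r hr using hr
  have hP : ∀ j, Plc A (W j) (r j) := fun j => ⟨(hW j).1, (hW j).2, hr j⟩
  obtain ⟨S₁, hS₁A, hS₁⟩ := exists_stabS A (B : Set Ω) m h (fun i => hBE _ (hBh i)) n W hW hW2
    hW4 hW3
  obtain ⟨S₂, hS₂A, hS₂1, hS₂G⟩ : ∃ S₂ : Finset Ω, (∀ x ∈ S₂, x ∈ A) ∧ (∀ x ∈ S₁, x ∈ S₂) ∧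
      ∀ g ∈ G, ((g : A) : Ω) ∈ S₂ := by
    refine ⟨S₁ ∪ G.image (fun g : A => (g : Ω)), fun x hx => ?_, fun x hx => ?_, fun g hg => ?_⟩
    · rcases Finset.mem_union.1 hx with hx | hx
      · exact hS₁A hx
      · obtain ⟨g, _, rfl⟩ := Finset.mem_image.1 hx
        exact g.2
    · exact Finset.mem_union_left _ hx
    · exact Finset.mem_union_right _ (Finset.mem_image_of_mem (fun g : A => (g : Ω)) hg)
  have hSit : Sit A (Ge k ((S₂ : Set Ω) ∪ B)) (B : Set Ω) := sit_of A hA1 (S₂ : Set Ω)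
    (fun x hx => hS₂A x hx) (fun x hx => r_alg_adjoin A G (fun x => by rw [hG]; exact hKalg x) _
      (fun g hg => hS₂G g hg) x hx) (B : Set Ω)
    B.finite_toSet ⟨y, hBy, hy⟩
  obtain ⟨S₃, hS₃⟩ := r8_exists_lift A B (fun x => alg_mono _ _ (by
    refine sup_le le_sup_left ?_
    rw [IntermediateField.adjoin_le_iff]
    rintro _ rfl
    exact hBE _ hBy) x (hA1 y hy x))
  obtain ⟨S, hS3, hS2, hSR⟩ : ∃ S : Finset A, (∀ x ∈ S₃, x ∈ S) ∧
      (∀ x : A, (x : Ω) ∈ S₂ → x ∈ S) ∧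
      ∀ j i, ∀ g ∈ G, ∀ (hx : ξ i g ∈ W j) (a : A), r j ⟨ξ i g, hx⟩ = a → a ∈ S := by
    refine ⟨S₃ ∪ S₂.subtype (· ∈ A) ∪ (Finset.univ.biUnion fun j =>
      Finset.univ.biUnion fun i => G.image fun g =>
        if hx : ξ i g ∈ W j then ⟨r j ⟨ξ i g, hx⟩, (hr j).mem _⟩ else 0),
        fun x hx => ?_, fun x hx => ?_, fun j i g hg hx a ha => ?_⟩
    · exact Finset.mem_union_left _ (Finset.mem_union_left _ hx)
    · exact Finset.mem_union_left _ (Finset.mem_union_right _ (Finset.mem_subtype.2 hx))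
    · refine Finset.mem_union_right _ (Finset.mem_biUnion.2 ⟨j, Finset.mem_univ j,
        Finset.mem_biUnion.2 ⟨i, Finset.mem_univ i, Finset.mem_image.2 ⟨g, hg, ?_⟩⟩⟩)
      rw [dif_pos hx]
      exact Subtype.ext ha
  have hπ0 : ∀ j, 0 < (W j).valuation (π j) := fun j => (Valuation.pos_iff _).2 (hπ j).ne
  refine ⟨n, W, r, e, S, hP, ?_, ?_, ?_, ?_, ?_, ?_⟩
  · intro j i
    rw [he j i, zpow_lt_one_iff_right_of_lt_one₀ (hπ0 j) (hπ j).lt]
  · intro j i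
    rw [he j i, one_lt_zpow_iff_right_of_lt_one₀ (hπ0 j) (hπ j).lt]
  · intro j i i' h1
    rw [he j i, he j i'] at h1
    exact zpow_right_injective₀ (hπ0 j) (hπ j).lt.ne h1
  · intro j ν h1
    have h2 : ∀ s : Finset (Fin m), (W j).valuation (∏ i ∈ s, h i ^ ν i) =
        (W j).valuation (π j) ^ (∑ i ∈ s, ν i * e j i) := by
      intro s
      induction s using Finset.induction_on with
      | empty => simp
      | insert a s ha ih =>
        rw [Finset.prod_insert ha, Finset.sum_insert ha, map_mul, ih, map_zpow₀, he j a,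
          ← zpow_mul, zpow_add₀ (hπ0 j).ne', mul_comm (e j a)]
    rw [h2, ← zpow_zero ((W j).valuation (π j))] at h1
    exact zpow_right_injective₀ (hπ0 j) (hπ j).lt.ne h1
  · intro V rV hV hi
    obtain ⟨j, hj⟩ := hW3 V ⟨hV.mem, hV.ne⟩ hi
    exact ⟨j, fun x hx => ⟨hj x (hBE x (hBT x hx)), fun h1 h2 =>
      r_same_res hAE hV (hP j) hj x (hBE x (hBT x hx)) h1 h2⟩⟩
  intro c hc ψ hψ
  obtain ⟨c', hc'l, hc'c, hc'1, hc't⟩ := exists_normalized (Ge k (K : Set A)) c hc.lc hc.coc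
  have hunr : ∀ V : ValuationSubring A, (∀ x : k, algebraMap k A x ∈ V) → V ≠ ⊤ →
      Tri (Ge k (K : Set A) ⊓ St k V) c' := by
    intro V h1 h2
    have h3 := (hc't.mono inf_le_left).mul (hc.unr V h1 h2)
    exact h3.congr fun σ _ τ _ => by rw [inv_mul_cancel_right]
  have hN : ∀ i, ∀ σ ∈ Ge k ((S₂ : Set Ω) ∪ B), (∀ x ∈ K, σ (ξ i x) = ξ i x) ∧
      ∀ x : Ω, IsAlgebraic k x → σ x = x := by
    intro i σ hσ
    refine ⟨fun x hx => ?_, fun x hx => hσ.2 x hx⟩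
    rw [← hG] at hx
    exact r_fix_adjoin ((σ : Ω →ₐ[k] Ω).comp (ξ i)) (ξ i) (G : Set A)
      (fun g hg => hσ.1 _ (Or.inr (hBξ i g hg))) x hx
  have hst : ∀ σ ∈ Ge k ((S₂ : Set Ω) ∪ B), ∀ j, ∀ x ∈ AA A (B : Set Ω), σ x ∈ W j ↔ x ∈ W j := by
    intro σ hσ
    refine (hS₁ σ (hSit.stab σ hσ) fun x hx => hσ.1 x ?_).2
    rcases hx with hx | hx
    · exact Or.inl (hS₂1 x hx)
    · exact Or.inr hx
  have hψ' : ∀ i j, (∀ x, ξ i x ∈ W j) → ∀ x : A, (W j).valuation (ξ i x - ψ j i x) < 1 := by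
    intro i j h1 x
    have h2 := (hψ j i h1).eq x (h1 x)
    rw [← h2]
    exact (nonunits_iff _ _).1 ((hr j).sub ⟨ξ i x, h1 x⟩)
  have hone := fun i => one hSit p K hKalg (ξ i) (hN i) (h i) (hBE _ (hBh i)) (h0 i)
    (fun σ hσ => hσ.1 _ (Or.inr (hBh i))) n W π (fun j => e j i) hW hπ hW2
    (fun V hV hVi => hW3 V hV ⟨i, hVi⟩) (fun j => he j i) hst c' hc'l hc'c hc'1 hunr
    (fun j => ψ j i) (hψ' i)
  choose s b hbl hbA hb using hone
  have hlift : ∀ g : A ≃ₐ[k] A, g ∈ Ge k (S : Set A) →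
      ∃ σ ∈ Ge k ((S₂ : Set Ω) ∪ B), ∀ x : A, σ x = g x := by
    intro g hg
    obtain ⟨σ, hσ1, hσ2⟩ := hS₃ g fun x hx => hg.1 x (hS3 x hx)
    refine ⟨σ, ⟨?_, ?_⟩, hσ1⟩
    · rintro x (hx | hx)
      · have h1 := hσ1 ⟨x, hS₂A x hx⟩
        rw [hg.1 _ (hS2 ⟨x, hS₂A x hx⟩ hx)] at h1
        exact h1
      · exact hσ2 x hx
    · intro x hx
      have hxA := r_mem_of_algk A x hx
      have h1 := hσ1 ⟨x, hxA⟩
      rw [hg.2 ⟨x, hxA⟩ (by
        have : IsAlgebraic k (algebraMap A Ω ⟨x, hxA⟩) := hx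
        exact (isAlgebraic_algebraMap_iff (algebraMap A Ω).injective).1 this)] at h1
      exact h1
  have hT : ∀ i, Tri (Ge k (S : Set A)) (fun g g' => ∏ j,
      if (∀ x, ξ i x ∈ W j) ∧ (W j).valuation (h i) ≠ 1 then
        tw (ψ j i) c' g g' ^ (e j i * (p : ℤ) ^ s i) else 1) := fun i =>
    toA A (Ge k ((S₂ : Set Ω) ∪ B)) S hlift _ (b i) (hbl i) (hbA i)
      fun σ hσ τ hτ g g' h1 h2 => congrArg Units.val (hb i σ hσ τ hτ g g' h1 h2)
  have hG' : ∀ j i, (∀ x, ξ i x ∈ W j) → ∀ g ∈ Ge k (S : Set A),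
      (ψ j i)⁻¹ * g * ψ j i ∈ Ge k (K : Set A) := by
    intro j i h1 g hg
    have h2 : ∀ x : A, g (ψ j i x) = ψ j i x → ((ψ j i)⁻¹ * g * ψ j i) x = x := by
      intro x hx
      rw [AlgEquiv.mul_apply, AlgEquiv.mul_apply, hx]
      exact (ψ j i).symm_apply_apply x
    refine ⟨fun x hx => h2 x ?_, fun x hx => h2 x (hg.2 _ (hx.algHom (ψ j i : A →ₐ[k] A)))⟩
    have hx' : x ∈ IntermediateField.adjoin k (G : Set A) := by rw [hG]; exact hx
    exact r_fix_adjoin ((g : A →ₐ[k] A).comp (ψ j i : A →ₐ[k] A)) (ψ j i : A →ₐ[k] A) (G : Set A)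
      (fun y hy => hg.1 _ (hSR j i y hy (h1 y) _ ((hψ j i h1).eq y (h1 y)))) x hx'
  intro i
  have hTR : Tri (Ge k (S : Set A)) (fun g g' => ∏ j,
      if (∀ x, ξ i x ∈ W j) ∧ (W j).valuation (h i) ≠ 1 then
        tw (ψ j i) (fun σ τ => c' σ τ * (c σ τ)⁻¹) g g' ^ (e j i * (p : ℤ) ^ s i)
          else 1) := by
    refine r_tri_prod Finset.univ _ _ fun j _ => ?_
    by_cases h1 : (∀ x, ξ i x ∈ W j) ∧ (W j).valuation (h i) ≠ 1
    · simp only [if_pos h1]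
      exact (tri_tw (Ge k (K : Set A)) (Ge k (S : Set A)) (ψ j i) (hG' j i h1.1) _ hc't).zpow _
    · simp only [if_neg h1]
      exact r_tri_one _
  refine ⟨s i, ((hT i).mul hTR.inv).congr fun g _ g' _ => ?_⟩
  rw [← Finset.prod_inv_distrib, ← Finset.prod_mul_distrib]
  refine Finset.prod_congr rfl fun j _ => ?_
  split_ifs
  · have h3 : tw (ψ j i) (fun σ τ => c' σ τ * (c σ τ)⁻¹) g g' =
        tw (ψ j i) c' g g' * (tw (ψ j i) c g g')⁻¹ := by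
      simp only [tw, smul_mul', smul_inv']
    rw [h3, mul_zpow, inv_zpow, mul_inv, inv_inv, mul_inv_cancel_left]
  · rw [inv_one, mul_one]

theorem blockRP (k Ω : Type u) [Field k] [Field Ω] [Algebra k Ω] : BlockRP k Ω := by
  classical
  intro hΩ A hAc hA1 K hK hKalg htd ι hι ξ h h0 T hy p hp
  let E : ι ≃ Fin (Fintype.card ι) := Fintype.equivFin ι
  obtain ⟨n, V, r, e, S, g1, g2, g3, g4, g5, g6, g7⟩ := blockRP_fin k Ω hΩ A hAc hA1 K hK hKalg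
    (Fintype.card ι) (fun i => ξ (E.symm i)) (fun i => h (E.symm i)) (fun i => h0 _) T hy p hp
  refine ⟨n, V, r, fun j i => e j (E i), S, g1, fun j i => ?_, fun j i => ?_, fun j i i' h1 => ?_,
    fun j ν h1 => ?_, fun W rW hW h1 => ?_, fun c hc ψ hψ i => ?_⟩
  · have := g2 j (E i)
    rwa [E.symm_apply_apply] at this
  · have := g3 j (E i)
    rwa [E.symm_apply_apply] at this
  · refine g4 j (E i) (E i') ?_
    rw [E.symm_apply_apply, E.symm_apply_apply]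
    exact h1
  · have h2 : ∏ i, h (E.symm i) ^ ν (E.symm i) = ∏ i, h i ^ ν i :=
      Equiv.prod_comp E.symm (fun i => h i ^ ν i)
    have h3 := g5 j (fun i => ν (E.symm i)) (by rw [h2]; exact h1)
    rw [← h3, ← Equiv.sum_comp E (fun i => ν (E.symm i) * e j i)]
    refine Finset.sum_congr rfl fun i _ => ?_
    rw [E.symm_apply_apply]
  · obtain ⟨i, hi⟩ := h1
    refine g6 W rW hW ⟨E i, ?_⟩
    rw [E.symm_apply_apply]
    exact hi
  · obtain ⟨s, hs⟩ := g7 c hc (fun j i => ψ j (E.symm i)) (fun j i h1 => hψ j _ h1) (E i)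
    refine ⟨s, ?_⟩
    simp only [E.symm_apply_apply] at hs
    exact hs

end Pool.Agent.FRB
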