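import Pool.Agent.FRB.S7M
import Pool.Agent.FRB.RP
import Pool.Agent.FRB.F6M
import Pool.Agent.FRB.NUM
import Pool.Agent.FRB.F9a
import Pool.Agent.TUQ.F10
import Pool.Agent.WLD.EAI

set_option maxSynthPendingDepth 3

/-!
# The theorem for the embedded fields
-/

set_option autoImplicit false

namespace Pool.Agent.FRB

open Polynomial Pool.Agent.TBR Pool.Agent.TUQ Pool.Agent.WLD Pool.Agent.UQ

universe u

/-- the trace is in the prime field -/
theorem trq_pow {R : Type*} [CommRing R] (p n : ℕ) [Fact p.Prime] [CharP R p] (b : R)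
    (hb : b ^ (p ^ n) = b) : (trq p n b) ^ p = trq p n b := by
  have h1 : (trq p n b) ^ p = ∑ j ∈ Finset.range n, b ^ (p ^ (j + 1)) := by
    rw [trq, ← frobenius_def, map_sum]
    refine Finset.sum_congr rfl fun j _ => ?_
    rw [frobenius_def, ← pow_mul, ← pow_succ]
  have h2 := Finset.sum_range_succ (fun j => b ^ (p ^ j)) n
  have h3 := Finset.sum_range_succ' (fun j => b ^ (p ^ j)) n
  rw [h2, pow_zero, pow_one, hb] at h3
  rw [h1, trq]
  exact (add_right_cancel h3).symm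

theorem coreM {k Ω : Type u} [Field k] [Field Ω] [Algebra k Ω] [hΩ : IsAlgClosed Ω]
    (A H : IntermediateField k Ω) [hA : IsAlgClosed A] [hH : IsAlgClosed H]
    (K₀ : IntermediateField k A) (Y Z : A) (p e n : ℕ) (v w a U t : Ω)
    (hc : CfM A H K₀ Y Z p e n v w a U t) (hμ : ∀ ζ : A, ζ ^ e = 1 → ζ ∈ K₀)
    (hNU : NU (KYZ K₀ Y Z)) :
    ∃ (N : ℕ) (L : Fin N → IntermediateField k A),
      (∀ j, GoodM K₀ Y Z (L j) ∧ ∀ x : A, IsAlgebraic (L j) x) ∧
      ∀ ℓ : ℕ, ℓ.Prime → (ℓ : k) ≠ 0 →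
        ∃ f : Vl k (KYZ K₀ Y Z) A ℓ →* (∀ j, Vl k (L j) A ℓ), Function.Injective f := by
  classical
  obtain ⟨m, ξ, h, h0, hloc⟩ := blockGM k Ω hΩ A H hA hH K₀ Y Z p e n v w a U t hc hNU
  have hpf : Fact p.Prime := ⟨hc.pp⟩
  have hch := hc.ch
  have hAp : CharP A p := charP_of_injective_algebraMap (algebraMap k A).injective p
  obtain ⟨ι, hι⟩ := exists_fq (M := A) p n hc.n0
  let F := GaloisField p n
  have hFfin : Finite F := Nat.finite_of_card_ne_zero (by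
    rw [GaloisField.card p n hc.n0.ne']
    exact pow_ne_zero _ hc.pp.ne_zero)
  let hFt : Fintype F := Fintype.ofFinite F
  have hcard : Fintype.card F = p ^ n := by
    rw [← Nat.card_eq_fintype_card]
    exact GaloisField.card p n hc.n0.ne'
  have hq1 : 1 < p ^ n := Nat.one_lt_pow hc.n0.ne' hc.pp.one_lt
  have hFq : ∀ b : F, b ^ (p ^ n) = b := fun b => by
    rw [← hcard]
    exact FiniteField.pow_card b
  have hFu : ∀ b : Fˣ, b ^ (p ^ n - 1) = 1 := fun b => by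
    have h1 := pow_card_eq_one' (x := b)
    rwa [Nat.card_eq_fintype_card, Fintype.card_units, hcard] at h1
  have hιpow : ∀ b : F, (ι b) ^ (p ^ n) = ι b := fun b => by rw [← map_pow, hFq]
  have hee : e * ((p ^ n - 1) / e) = p ^ n - 1 := Nat.mul_div_cancel' hc.en
  have hee' : (p ^ n - 1) / e * e = p ^ n - 1 := Nat.div_mul_cancel hc.en
  -- the indices
  let Γ := {c : F // c ^ p = c} × {ζ : Fˣ // ζ ^ e = 1}
  let tr : F → {c : F // c ^ p = c} := fun b => ⟨trq p n b, trq_pow p n b (hFq b)⟩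
  have hthe : ∀ g : Γ, ∃ θ : A ≃ₐ[k] A, (∀ x ∈ K₀, θ x = x) ∧ θ Y = Y + ι g.1.1 ∧
      θ Z = ι (g.2.1 : F) * Z := by
    intro g
    refine exists_theta K₀ hc.al p e hc.pp hch Y Z hc.YK hc.ZK hc.irrY hc.irrZ _ _ ?_ ?_
    · rw [← map_pow, g.1.2]
    · have h1 := congrArg (fun x : Fˣ => (x : F)) g.2.2
      simp only [Units.val_pow_eq_pow_val, Units.val_one] at h1
      rw [← map_pow, h1, map_one]
  choose θ hθK hθY hθZ using hthe
  let pw : Fˣ → {ζ : Fˣ // ζ ^ e = 1} := fun b => ⟨b ^ ((p ^ n - 1) / e), by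
    rw [← pow_mul, hee', hFu]⟩
  let γ : Fˣ → (A ≃ₐ[k] A) := fun b => θ (tr b, pw b)
  let g₀ : Γ := (⟨0, zero_pow hc.pp.ne_zero⟩, ⟨1, one_pow e⟩)
  have hsubp : ∀ x y : F, x ^ p = x → y ^ p = y → (x - y) ^ p = x - y := by
    intro x y hx hy
    rw [sub_pow_char, hx, hy]
  have haddp : ∀ x y : F, x ^ p = x → y ^ p = y → (x + y) ^ p = x + y := by
    intro x y hx hy
    rw [add_pow_char, hx, hy]
  let ρ : Fˣ → Fˣ → Γ := fun b b' =>
    (⟨trq p n (b : F) - trq p n (b' : F), hsubp _ _ (tr b).2 (tr b').2⟩,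
      ⟨(b / b') ^ ((p ^ n - 1) / e), by rw [← pow_mul, hee', hFu]⟩)
  -- the fixed elements
  have hfixp : ∀ (g : A ≃ₐ[k] A) (c : {c : F // c ^ p = c}), g (ι c.1) = ι c.1 := by
    intro g c
    obtain ⟨z, hz⟩ := exists_zmod p (ι c.1) (by rw [← map_pow, c.2])
    rw [hz, map_natCast]
  have hζK : ∀ ζ : {ζ : Fˣ // ζ ^ e = 1}, ι (ζ.1 : F) ∈ K₀ := by
    intro ζ
    apply hμ
    have h1 := congrArg (fun x : Fˣ => (x : F)) ζ.2
    simp only [Units.val_pow_eq_pow_val, Units.val_one] at h1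
    rw [← map_pow, h1, map_one]
  have hg₀ : ∀ x ∈ KYZ K₀ Y Z, θ g₀ x = x := by
    refine ext_yz (θ g₀ : A →ₐ[k] A) (AlgHom.id k A) (fun x hx => hθK g₀ x hx) ?_ ?_
    · show θ g₀ Y = Y
      rw [hθY]
      show Y + ι 0 = Y
      rw [map_zero, add_zero]
    · show θ g₀ Z = Z
      rw [hθZ]
      show ι ((1 : Fˣ) : F) * Z = Z
      rw [Units.val_one, map_one, one_mul]
  have hρ : ∀ b b', ∀ x ∈ KYZ K₀ Y Z, γ b x = γ b' (θ (ρ b b') x) := by
    intro b b'
    refine ext_yz (γ b : A →ₐ[k] A) ((γ b' : A →ₐ[k] A).comp (θ (ρ b b') : A →ₐ[k] A)) ?_ ?_ ?_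
    · intro x hx
      show γ b x = γ b' (θ (ρ b b') x)
      rw [hθK (ρ b b') x hx]
      exact (hθK (tr b, pw b) x hx).trans (hθK (tr b', pw b') x hx).symm
    · show γ b Y = γ b' (θ (ρ b b') Y)
      rw [hθY (ρ b b'), map_add, hfixp (γ b') (ρ b b').1]
      show θ (tr b, pw b) Y = θ (tr b', pw b') Y + ι (ρ b b').1.1
      rw [hθY, hθY]
      show Y + ι (trq p n (b : F)) = Y + ι (trq p n (b' : F)) +
        ι (trq p n (b : F) - trq p n (b' : F))
      rw [map_sub]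
      ring
    · show γ b Z = γ b' (θ (ρ b b') Z)
      rw [hθZ (ρ b b'), map_mul]
      have h1 : γ b' (ι ((ρ b b').2.1 : F)) = ι ((ρ b b').2.1 : F) :=
        hθK _ _ (hζK (ρ b b').2)
      rw [h1]
      show θ (tr b, pw b) Z = ι ((ρ b b').2.1 : F) * θ (tr b', pw b') Z
      rw [hθZ, hθZ]
      show ι ((b ^ ((p ^ n - 1) / e) : Fˣ) : F) * Z =
        ι (((b / b') ^ ((p ^ n - 1) / e) : Fˣ) : F) * (ι ((b' ^ ((p ^ n - 1) / e) : Fˣ) : F) * Z)
      rw [← mul_assoc, ← map_mul, ← Units.val_mul, ← mul_pow, div_mul_cancel]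
  -- the action on the embeddings
  have hact : ∀ g ∈ Fx k (K₀ : Set A), ∃ (c : {c : F // c ^ p = c}) (ζ : {ζ : Fˣ // ζ ^ e = 1}),
      g Y = Y + ι c.1 ∧ g Z = ι (ζ.1 : F) * Z := by
    intro g hg
    have h1 : (g Y - Y) ^ p = g Y - Y := by
      have h2 := hg _ hc.YK
      rw [map_sub, map_pow] at h2
      rw [sub_pow_char]
      linear_combination h2
    obtain ⟨c, hc'⟩ := hι (g Y - Y) (by
      have h2 : ∀ j : ℕ, (g Y - Y) ^ (p ^ j) = g Y - Y := by
        intro j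
        induction j with
        | zero => rw [pow_zero, pow_one]
        | succ j ih => rw [pow_succ, pow_mul, ih, h1]
      exact h2 n)
    have hcp : c ^ p = c := by
      apply ι.injective
      rw [map_pow, hc', h1]
    have hZ1 : (g Z / Z) ^ e = 1 := by
      have h2 := hg _ hc.ZK
      rw [map_pow] at h2
      rw [div_pow, h2, div_self (pow_ne_zero _ hc.Z0)]
    obtain ⟨ζ, hζ⟩ := hι (g Z / Z) (by
      have h2 : (g Z / Z) ^ (p ^ n - 1) = 1 := by rw [← hee, pow_mul, hZ1, one_pow]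
      have h3 : p ^ n = p ^ n - 1 + 1 := by omega
      rw [h3, pow_succ, h2, one_mul])
    have hζ0 : ζ ≠ 0 := by
      rintro rfl
      rw [map_zero] at hζ
      rw [← hζ, zero_pow (by have := hc.e2; omega)] at hZ1
      exact zero_ne_one hZ1
    refine ⟨⟨c, hcp⟩, ⟨Units.mk0 ζ hζ0, ?_⟩, ?_, ?_⟩
    · apply Units.ext
      rw [Units.val_pow_eq_pow_val, Units.val_mk0, Units.val_one]
      apply ι.injective
      rw [map_pow, hζ, hZ1, map_one]
    · rw [hc']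
      ring
    · rw [Units.val_mk0, hζ, div_mul_cancel₀ _ hc.Z0]
  have hactθ : ∀ g ∈ Fx k (K₀ : Set A), ∀ (c : {c : F // c ^ p = c}) (ζ : {ζ : Fˣ // ζ ^ e = 1}),
      g Y = Y + ι c.1 → g Z = ι (ζ.1 : F) * Z → ∃ π : Equiv.Perm Γ,
        (∀ i, (π i).1.1 = i.1.1 + c.1 ∧ (π i).2.1 = i.2.1 * ζ.1) ∧
        ∀ i, ∀ x ∈ KYZ K₀ Y Z, g (θ i x) = θ (π i) x := by
    intro g hg c ζ hgY hgZ
    let π₀ : Γ → Γ := fun i => (⟨i.1.1 + c.1, haddp _ _ i.1.2 c.2⟩,
      ⟨i.2.1 * ζ.1, by rw [mul_pow, i.2.2, ζ.2, one_mul]⟩)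
    have hinj : Function.Injective π₀ := by
      intro i j hij
      have h1 : i.1.1 + c.1 = j.1.1 + c.1 := congrArg (fun x : Γ => x.1.1) hij
      have h2 : i.2.1 * ζ.1 = j.2.1 * ζ.1 := congrArg (fun x : Γ => x.2.1) hij
      exact Prod.ext (Subtype.ext (add_right_cancel h1)) (Subtype.ext (mul_right_cancel h2))
    refine ⟨Equiv.ofBijective π₀ (Finite.injective_iff_bijective.1 hinj), fun i => ⟨rfl, rfl⟩,
      fun i => ?_⟩
    refine ext_yz ((g : A →ₐ[k] A).comp (θ i : A →ₐ[k] A)) (θ (π₀ i) : A →ₐ[k] A) ?_ ?_ ?_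
    · intro x hx
      show g (θ i x) = θ (π₀ i) x
      rw [hθK _ x hx, hθK _ x hx]
      exact hg x hx
    · show g (θ i Y) = θ (π₀ i) Y
      rw [hθY, hθY, map_add, hgY, hfixp g i.1]
      show Y + ι c.1 + ι i.1.1 = Y + ι (i.1.1 + c.1)
      rw [map_add]
      ring
    · show g (θ i Z) = θ (π₀ i) Z
      rw [hθZ, hθZ, map_mul, hgZ, hg _ (hζK i.2)]
      show ι (i.2.1 : F) * (ι (ζ.1 : F) * Z) = ι ((i.2.1 * ζ.1 : Fˣ) : F) * Z
      rw [Units.val_mul, map_mul, mul_assoc]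
  -- the local statements
  have hlocM : ∀ (V : ValuationSubring Ω) (r : V →+* Ω), Plc A V r →
      LocM A (GoodM K₀ Y Z) (KYZ K₀ Y Z) ξ h (fun b : Fˣ => ((ι (b : F) : A) : Ω)) γ (a ^ e)
        V r := by
    intro V r hP
    obtain ⟨h1, h2⟩ := hloc V r hP
    refine ⟨fun b hb => ?_, fun hb => h2 fun b hb0 hbq hb' => ?_⟩
    · have hb0 : ι (b : F) ≠ 0 := (_root_.map_ne_zero ι).2 b.ne_zero
      obtain ⟨h3, h4⟩ := h1 (ι (b : F)) hb0 (hιpow b) hb
      refine ⟨fun i hi hi' => ?_, h4⟩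
      obtain ⟨h5, h6⟩ := h3 i hi hi'
      refine ⟨h5, fun ψ hψ => ?_⟩
      obtain ⟨h7, h8, h9⟩ := h6 ψ hψ
      refine ext_yz (ψ : A →ₐ[k] A) (γ b : A →ₐ[k] A) ?_ ?_ ?_
      · intro x hx
        show ψ x = γ b x
        rw [h7 x hx]
        exact (hθK _ x hx).symm
      · show ψ Y = θ (tr b, pw b) Y
        rw [h8, hθY]
        show Y + trq p n (ι (b : F)) = Y + ι (trq p n (b : F))
        rw [trq, trq, map_sum]
        simp only [map_pow]
      · show ψ Z = θ (tr b, pw b) Z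
        rw [h9, hθZ]
        show (ι (b : F)) ^ ((p ^ n - 1) / e) * Z = ι ((b ^ ((p ^ n - 1) / e) : Fˣ) : F) * Z
        rw [Units.val_pow_eq_pow_val, map_pow]
    · obtain ⟨b', rfl⟩ := hι b hbq
      have hb'0 : b' ≠ 0 := by
        rintro rfl
        exact hb0 (map_zero ι)
      exact hb (Units.mk0 b' hb'0) hb'
  have hfgY : (KZ K₀ Y).FG := IntermediateField.fg_sup hc.fg ⟨{Y}, by rw [Finset.coe_singleton]⟩
  have hfgK : (KYZ K₀ Y Z).FG := IntermediateField.fg_sup hfgY ⟨{Z}, by rw [Finset.coe_singleton]⟩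
  have hyA : a ^ e ∉ A := hc.yA
  have alg1 : ∀ F' : IntermediateField k A, K₀ ≤ F' → ∀ x : A, IsAlgebraic F' x := by
    intro F' hle x
    obtain ⟨q, hq, hq0⟩ := hc.al x
    refine ⟨q.map (IntermediateField.inclusion hle : _ →+* _), ?_, ?_⟩
    · exact (Polynomial.map_ne_zero_iff (RingHom.injective _)).2 hq
    · rw [Polynomial.aeval_def, Polynomial.eval₂_map]
      exact hq0
  have hιinj : Function.Injective (fun b : Fˣ => ι (b : F)) := fun b b' hbb =>
    Units.ext (ι.injective hbb)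
  refine combineM (blockRP k Ω) A (invSt k A) (GoodM K₀ Y Z) (fun L hL => GoodM.fg hc.fg L hL)
    (KYZ K₀ Y Z) hfgK (alKYZ hc.al) hc.trA (by rw [hc.tdA]; exact Cardinal.ofNat_lt_aleph0)
    (a ^ e) hyA (fun b : Fˣ => ι (b : F)) hιinj γ m ξ h h0 hlocM θ g₀ hg₀ ρ hρ
    (J := Fin 3) ![K₀, KZ K₀ Y, KZ K₀ Z] ?_ ?_
    ![fun _ => 1, fun g => if g.1.1 = 0 then 1 else 0, fun g => if g.2.1 = 1 then 1 else 0] ?_
    ![-((p ^ (n - 1) : ℤ) * (((p ^ n - 1) / e : ℕ) : ℤ)), (((p ^ n - 1) / e : ℕ) : ℤ),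
      (p ^ (n - 1) : ℤ)] (p ^ n : ℤ) (pow_ne_zero _ (by exact_mod_cast hc.pp.ne_zero)) ?_
  · intro j
    fin_cases j
    · exact Or.inr (Or.inl rfl)
    · exact Or.inr (Or.inr (Or.inl rfl))
    · exact Or.inr (Or.inr (Or.inr rfl))
  · intro j
    fin_cases j
    · exact hc.al
    · exact alg1 _ le_sup_left
    · exact alg1 _ le_sup_left
  · intro j g hg
    have hgK : g ∈ Fx k (K₀ : Set A) := by
      fin_cases j
      · exact hg
      · exact fun x hx => hg x ((le_sup_left : K₀ ≤ KZ K₀ Y) hx)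
      · exact fun x hx => hg x ((le_sup_left : K₀ ≤ KZ K₀ Z) hx)
    obtain ⟨c, ζ, h1, h2⟩ := hact g hgK
    obtain ⟨π, h3, h4⟩ := hactθ g hgK c ζ h1 h2
    refine ⟨π, fun i => ⟨?_, h4 i⟩⟩
    fin_cases j
    · rfl
    · have hgY : g Y = Y := hg Y ((le_sup_right : IntermediateField.adjoin k {Y} ≤ KZ K₀ Y)
        (IntermediateField.mem_adjoin_simple_self k Y))
      have hc0 : c.1 = 0 := by
        rw [hgY] at h1
        have h5 : ι c.1 = 0 := by linear_combination -h1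
        exact (map_eq_zero ι).1 h5
      show (if (π i).1.1 = 0 then (1 : ℤ) else 0) = if i.1.1 = 0 then 1 else 0
      rw [(h3 i).1, hc0, add_zero]
    · have hgZ : g Z = Z := hg Z ((le_sup_right : IntermediateField.adjoin k {Z} ≤ KZ K₀ Z)
        (IntermediateField.mem_adjoin_simple_self k Z))
      have hζ1 : ζ.1 = 1 := by
        rw [hgZ] at h2
        have h5 : ι (ζ.1 : F) = 1 := by
          have h6 : (ι (ζ.1 : F) - 1) * Z = 0 := by linear_combination -h2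
          exact sub_eq_zero.1 ((mul_eq_zero.1 h6).resolve_right hc.Z0)
        apply Units.ext
        apply ι.injective
        rw [h5, Units.val_one, map_one]
      show (if (π i).2.1 = 1 then (1 : ℤ) else 0) = if i.2.1 = 1 then 1 else 0
      rw [(h3 i).2, hζ1, mul_one]
  · intro g
    have h1 := gauss_count F p n e hc.pp hc.n0 hcard hc.en g.1.1 g.1.2 g.2.1 g.2.2
    have h2 : ((Finset.univ : Finset (Fˣ × Fˣ)).filter fun q => ρ q.1 q.2 = g) =
        (Finset.univ : Finset (Fˣ × Fˣ)).filter fun q =>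
          (∑ j ∈ Finset.range n, (q.1 : F) ^ (p ^ j)) -
            (∑ j ∈ Finset.range n, (q.2 : F) ^ (p ^ j)) = g.1.1 ∧
            (q.1 / q.2) ^ ((p ^ n - 1) / e) = g.2.1 := by
      refine Finset.filter_congr fun q _ => ?_
      constructor
      · rintro rfl
        exact ⟨rfl, rfl⟩
      · rintro ⟨h3, h4⟩
        exact Prod.ext (Subtype.ext h3) (Subtype.ext h4)
    rw [h2, h1, Fin.sum_univ_three]
    have h3 : (g = g₀) ↔ (g.1.1 = 0 ∧ g.2.1 = 1) := by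
      constructor
      · rintro rfl
        exact ⟨rfl, rfl⟩
      · rintro ⟨h3, h4⟩
        exact Prod.ext (Subtype.ext h3) (Subtype.ext h4)
    show _ + (-((p ^ (n - 1) : ℤ) * (((p ^ n - 1) / e : ℕ) : ℤ)) * 1 +
      (((p ^ n - 1) / e : ℕ) : ℤ) * (if g.1.1 = 0 then 1 else 0) +
      (p ^ (n - 1) : ℤ) * (if g.2.1 = 1 then 1 else 0)) = _
    simp only [h3]
    generalize (((p ^ n - 1) / e : ℕ) : ℤ) = cc
    by_cases h5 : g.1.1 = 0
    · by_cases h6 : g.2.1 = 1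
      · simp only [if_pos h5, if_pos h6, if_pos (And.intro h5 h6)]
        ring
      · simp only [if_pos h5, if_neg h6, if_neg (fun h : g.1.1 = 0 ∧ g.2.1 = 1 => h6 h.2)]
        ring
    · by_cases h6 : g.2.1 = 1
      · simp only [if_neg h5, if_pos h6, if_neg (fun h : g.1.1 = 0 ∧ g.2.1 = 1 => h5 h.1)]
        ring
      · simp only [if_neg h5, if_neg h6, if_neg (fun h : g.1.1 = 0 ∧ g.2.1 = 1 => h5 h.1)]
        ring

end Pool.Agent.FRB
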