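import Pool.Agent.WLD.Defs
import Pool.Agent.TUQ.F1

/-!
# Constant extensions and descent of irreducibility
-/

set_option autoImplicit false

namespace Pool.Agent.FRB

open Polynomial

universe u

/-- an extension of the constants does not change the transcendence degree -/
theorem trdeg_const {k M : Type u} [Field k] [Field M] [Algebra k M]
    (E K : IntermediateField k M) (hE : Algebra.IsAlgebraic k E) (h : Algebra.trdeg k K ≤ 1) :
    Algebra.trdeg k (E ⊔ K : IntermediateField k M) ≤ 1 := by
  let B : IntermediateField k M := (algebraicClosure K M).restrictScalars k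
  have hle : E ⊔ K ≤ B := by
    refine sup_le (fun x hx => ?_) (fun x hx => ?_)
    · have h1 : IsAlgebraic k x :=
        (hE.isAlgebraic (⟨x, hx⟩ : E)).algebraMap (A := M)
      exact (mem_algebraicClosure_iff).2 (h1.tower_top K)
    · exact (mem_algebraicClosure_iff).2 (isAlgebraic_algebraMap (⟨x, hx⟩ : K))
  have h1 : Algebra.IsAlgebraic K (algebraicClosure K M) := inferInstance
  have h2 : Algebra.trdeg k (algebraicClosure K M) = Algebra.trdeg k K :=
    Pool.Agent.TUQ.trdeg_alg k K (algebraicClosure K M)
  exact (trdeg_le_of_injective (IntermediateField.inclusion hle)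
    (IntermediateField.inclusion_injective hle)).trans (h2.le.trans h)

/-- `X ^ e - c` is irreducible over the smaller field -/
theorem irr_descend {k M : Type u} [Field k] [Field M] [Algebra k M]
    (K L : IntermediateField k M) (h : K ≤ L) (z : M) (e : ℕ) (he : 0 < e) (zK : z ^ e ∈ K)
    (irr : Irreducible (X ^ e - C (⟨z ^ e, h zK⟩ : L))) :
    Irreducible (X ^ e - C (⟨z ^ e, zK⟩ : K)) := by
  refine Monic.irreducible_of_irreducible_map (IntermediateField.inclusion h : K →+* L) _
    (monic_X_pow_sub_C _ he.ne') ?_
  rw [Polynomial.map_sub, Polynomial.map_pow, map_X, map_C]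
  exact irr

end Pool.Agent.FRB
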