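import Pool.Agent.FRB.M3
import Pool.Agent.FRB.M4
import Pool.Agent.WLD.W10a

/-!
# The discs of the roots `T i` at the places which do not contain `H`
-/

set_option autoImplicit false

namespace Pool.Agent.FRB

open Polynomial Pool.Agent.TBR Pool.Agent.TUQ Pool.Agent.WLD

universe u

section

variable {k Ω : Type u} [Field k] [Field Ω] [Algebra k Ω]
variable {A H : IntermediateField k Ω} {V : ValuationSubring Ω} {r : V →+* Ω}
variable {K₀ : IntermediateField k A} {Y Z : A} {p e n : ℕ} {v w a U t : Ω}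
variable {A₁ A₂ : H[X]} {m : ℕ} {T : Fin m → Ω}
  {s : Fin m → (Ω ≃ₐ[k] Ω)} {ξ : Fin m → (A →ₐ[k] Ω)} {f : Polynomial Ω}

/-- the values of the embedding `ξ i` on `K₀` belong to `H(T i)` -/
theorem GDM.xi_AA [IsAlgClosed H] (hc : CfM A H K₀ Y Z p e n v w a U t)
    (hG : GDM A H K₀ Y Z p e n v w a U t A₁ A₂ T s ξ f) (i : Fin m) (x : A) (hx : x ∈ K₀) :
    ξ i x ∈ AA H {T i} := by
  obtain ⟨p, q, -, hq, hqt, hpq⟩ := exists_frac H t hc.tH x (hc.K₀t x hx)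
  rw [Pool.Agent.TBR.V.mem_AA]
  refine ⟨p, q, ?_⟩
  rw [eq_div_iff (aeval_ne_zero H (T i) (hG.TH i) q hq), hG.ξK i x hx, ← hG.st i,
    ← Fx.aeval (hG.sH i), ← Fx.aeval (hG.sH i), ← map_mul, hpq]

theorem GDM.exists_gauss [IsAlgClosed Ω] [IsAlgClosed H] [IsAlgClosed A]
    (hc : CfM A H K₀ Y Z p e n v w a U t) (hNU : NU (KYZ K₀ Y Z))
    (hG : GDM A H K₀ Y Z p e n v w a U t A₁ A₂ T s ξ f) (hP : Plc A V r) (hH : ∃ β ∈ H, β ∉ V)
    (i : Fin m) (hi : ∀ x, ξ i x ∈ V) :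
    ∃ α π : H, π ≠ 0 ∧ Gen hP.res hP.mem H α π (T i) := by
  have hr := hP.res
  have hV := hP.mem
  rcases gauss_or_imm hr hV hc.trA H hH (T i) (hG.TH i) with ⟨α, π, θ, hG'⟩ | hI
  · obtain ⟨α', π', -, -, h1, h2⟩ := hG'.gen
    exact ⟨α', π', h1, h2⟩
  exfalso
  have hle : K₀ ≤ KYZ K₀ Y Z := le_sup_left.trans le_sup_left
  obtain ⟨ε, he⟩ := exists_resE hr ((ξ i).comp (KYZ K₀ Y Z).val) fun x => hi x
  have hκ := kA_closed hr hV H
  have htr : Algebra.trdeg k A < Cardinal.aleph0 := by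
    rw [hc.tdA]
    exact Cardinal.ofNat_lt_aleph0
  refine g_nu_emb htr (KYZ K₀ Y Z) (fun x => alg_mono' hle (hc.al x)) hNU ε (kA hr hV H) 0 hκ
    (kA_trdeg hr hV H hH hc.tdH) ?_
  -- the values on `K₀`
  have h1 : ∀ x : A, ∀ hx : x ∈ K₀, ε ⟨x, hle hx⟩ ∈ kA hr hV H := by
    intro x hx
    obtain ⟨h2, h3⟩ := he ⟨x, hle hx⟩
    rw [mem_kA, ← h3]
    exact imm_res hr hV H (T i) hI _ (hG.xi_AA hc i x hx) h2
  -- the values on `K`
  have h2 : ∀ x, ε x ∈ kA hr hV H := by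
    intro x
    refine g_mem_of_alg (kA hr hV H) _ ?_
    obtain ⟨q, hq0, hq⟩ := hc.al (x : A)
    let g : K₀ →+* kA hr hV H :=
      { toFun := fun y => ⟨ε ⟨y, hle y.2⟩, h1 y y.2⟩
        map_one' := Subtype.ext (map_one ε)
        map_mul' := fun x y => Subtype.ext (map_mul ε (⟨x, hle x.2⟩ : KYZ K₀ Y Z) ⟨y, hle y.2⟩)
        map_zero' := Subtype.ext (map_zero ε)
        map_add' := fun x y => Subtype.ext
          (map_add ε (⟨x, hle x.2⟩ : KYZ K₀ Y Z) ⟨y, hle y.2⟩) }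
    refine ⟨q.map g, (Polynomial.map_ne_zero_iff g.injective).2 hq0, ?_⟩
    have h3 : aeval x (q.map (IntermediateField.inclusion hle : K₀ →+* KYZ K₀ Y Z)) = 0 := by
      apply (algebraMap (KYZ K₀ Y Z) A).injective
      rw [map_zero, aeval_def, hom_eval₂, eval₂_map]
      exact hq
    have h4 := congrArg (ε : KYZ K₀ Y Z →+* A) h3
    rw [map_zero, aeval_def, hom_eval₂, eval₂_map] at h4
    rw [aeval_def, eval₂_map]
    exact h4
  intro x
  exact (le_sup_left (a := kA hr hV H)) (h2 x)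

/-- the equation of `T i` -/
theorem GDM.val_T (hG : GDM A H K₀ Y Z p e n v w a U t A₁ A₂ T s ξ f) (i : Fin m) :
    aeval (T i) A₁ = (a ^ e) ^ (p ^ n) * aeval (T i) A₂ := by
  have h1 := congrArg (s i) hG.yeq
  rw [map_mul, Fx.aeval (hG.sH i), Fx.aeval (hG.sH i), hG.st i, hG.sy i] at h1
  exact h1.symm

/-- the residue field of `H` has transcendence degree one -/
theorem GDM.alg_kA [IsAlgClosed Ω] [IsAlgClosed H] [IsAlgClosed A]
    (hc : CfM A H K₀ Y Z p e n v w a U t)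
    (hG : GDM A H K₀ Y Z p e n v w a U t A₁ A₂ T s ξ f) (hP : Plc A V r) (hH : ∃ β ∈ H, β ∉ V)
    (i : Fin m) (hi : ∀ x, ξ i x ∈ V) (K₂ : IntermediateField k A) (η : A) (hη : η ∈ K₂)
    (hη' : (η : Ω) ∉ kap hP.res hP.mem H) :
    ∀ x : A, IsAlgebraic (kA hP.res hP.mem H ⊔ K₂ : IntermediateField k A) x := by
  have hr := hP.res
  have hV := hP.mem
  have hκ := kA_closed hr hV H
  have htr : Algebra.trdeg k A < Cardinal.aleph0 := by
    rw [hc.tdA]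
    exact Cardinal.ofNat_lt_aleph0
  obtain ⟨θ, hθ, hθ1⟩ := res_AA hr hV hc.trA H hH (T i) (hG.TH i)
  obtain ⟨ε, he⟩ := exists_resE hr ((ξ i).comp K₀.val) fun x => hi x
  have h1 : ∀ x : K₀, ε x ∈ AA (kA hr hV H) {(⟨θ, hθ⟩ : A)} := by
    intro x
    obtain ⟨h2, h3⟩ := he x
    have h4 := hθ1 _ (hG.xi_AA hc i x x.2) h2
    have h5 : AA (kap hr hV H) {θ} = (AA (kA hr hV H) {(⟨θ, hθ⟩ : A)}).map A.val := by
      rw [AA, AA, IntermediateField.map_sup, IntermediateField.adjoin_map, Set.image_singleton]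
      have h6 : (kA hr hV H).map A.val = kap hr hV H :=
        IntermediateField.lift_restrict (kap_le hr hV H)
      rw [h6]
      rfl
    rw [h5, IntermediateField.mem_map] at h4
    obtain ⟨y, hy, hyx⟩ := h4
    have h7 : y = ε x := Subtype.ext (hyx.trans h3)
    rwa [h7] at hy
  have h2 : ∀ y : A, IsAlgebraic (AA (kA hr hV H) {(⟨θ, hθ⟩ : A)}) y :=
    g_alg_of_emb htr K₀ hc.al ε _ fun x =>
      isAlgebraic_algebraMap (⟨ε x, h1 x⟩ : AA (kA hr hV H) {(⟨θ, hθ⟩ : A)})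
  intro x
  refine alg_mono' ?_ (alg_exchange (kA hr hV H) ⟨θ, hθ⟩ η (fun h => hη' ((mem_kA hr hV H η).1 h))
    h2 x)
  refine sup_le_sup le_rfl ?_
  rw [IntermediateField.adjoin_le_iff]
  rintro _ rfl
  exact hη

end

end Pool.Agent.FRB
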