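import Pool.Agent.FRB.M10a
import Pool.Agent.WLD.W10a

/-!
# The disc of `a` and the distances at the places which do not contain `H`
-/

set_option autoImplicit false

namespace Pool.Agent.FRB

open Polynomial Pool.Agent.TBR Pool.Agent.TUQ Pool.Agent.WLD

universe u

section

variable {k Ω : Type u} [Field k] [Field Ω] [Algebra k Ω]
variable {A H : IntermediateField k Ω} {V : ValuationSubring Ω} {r : V →+* Ω}
variable {K₀ : IntermediateField k A} {Y Z : A} {p e n : ℕ} {v w a U t : Ω}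
variable {A₁ A₂ : H[X]} {m : ℕ} {T : Fin m → Ω}
  {s : Fin m → (Ω ≃ₐ[k] Ω)} {ξ : Fin m → (A →ₐ[k] Ω)} {f : Polynomial Ω}

/-- a power of an element which is not in `H` is not in `H` -/
theorem pow_notMem_H [IsAlgClosed H] {x : Ω} (hx : x ∉ H) {N : ℕ} (hN : 0 < N) : x ^ N ∉ H :=
  fun h => hx (pow_mem_H hN h)

/-- `a` is generic in a disc -/
theorem GDM.a_gauss [IsAlgClosed Ω] [IsAlgClosed H] [IsAlgClosed A]
    (hc : CfM A H K₀ Y Z p e n v w a U t) (hyH : a ^ e ∉ H)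
    (hG : GDM A H K₀ Y Z p e n v w a U t A₁ A₂ T s ξ f) (hP : Plc A V r) (hH : ∃ β ∈ H, β ∉ V)
    (i : Fin m) (α π : H) (hπ : π ≠ 0) (hgen : Gen hP.res hP.mem H α π (T i)) :
    ∃ (α' π' : H) (_ : π' ≠ 0) (hV : (a - α') / π' ∈ V),
      r ⟨(a - α') / π', hV⟩ ∉ kap hP.res hP.mem H := by
  have haH : a ∉ H := fun h => hyH (pow_mem h e)
  rcases gauss_or_imm hP.res hP.mem hc.trA H hH a haH with ⟨α', π', θ, hG'⟩ | hI
  · obtain ⟨α'', π'', -, -, h1, ⟨hV, h2⟩⟩ := hG'.gen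
    exact ⟨α'', π'', h1, hV, h2⟩
  exfalso
  have hyq : (a ^ e) ^ (p ^ n) ∉ H := pow_notMem_H hyH (pow_pos hc.pp.pos n)
  have hval := hG.val_T i
  obtain ⟨γ, ρ, β, P₁, Q₁, hN⟩ := exists_nred hP.res hP.mem H (asub α π A₁) (asub α π A₂)
    (asub_ne_zero α π hπ A₂ hG.A₂0) (by
      intro γ hγ
      have h1 := congrArg (aeval ((T i - α) / π)) hγ
      rw [map_mul, aeval_C, aeval_asub' α π hπ, aeval_asub' α π hπ, hval] at h1
      have h2 := mul_right_cancel₀ (aeval_ne_zero H (T i) (hG.TH i) A₂ hG.A₂0) h1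
      apply hyq
      rw [h2]
      exact γ.2)
  obtain ⟨hT, hT1⟩ := hgen
  obtain ⟨hY, hη, -⟩ := hN.eta ((a ^ e) ^ (p ^ n)) ⟨_, hT⟩ hT1 (by
    change aeval ((T i - α) / π) (asub α π A₁) = (a ^ e) ^ (p ^ n) *
      aeval ((T i - α) / π) (asub α π A₂)
    rw [aeval_asub' α π hπ, aeval_asub' α π hπ, hval])
  refine hη (imm_res hP.res hP.mem H a hI _ ?_ hY)
  exact div_mem (sub_mem (pow_mem (pow_mem (self_mem_AA H a) e) _) (mem_AA_le H a γ.2))
    (mem_AA_le H a ρ.2)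

/-- a Gauss root `x` for the value `y ^ q` and a root `t` for the value `y` have different
residues, `q = p ^ n` -/
theorem nred_frob (hP : Plc A V r) [IsAlgClosed Ω] [IsAlgClosed A] [IsAlgClosed H]
    (pp : p.Prime) (ch : CharP k p)
    (n0 : 0 < n) {P Q : H[X]} {γ ρ β : H} {P₁ Q₁ : (VH V H)[X]}
    (h : Nred hP.res hP.mem H P Q γ ρ β P₁ Q₁) (y : Ω) (x t : V)
    (hx : r x ∉ kap hP.res hP.mem H)
    (hroot : aeval (x : Ω) P = y ^ (p ^ n) * aeval (x : Ω) Q)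
    (hroot' : aeval (t : Ω) P = y * aeval (t : Ω) Q) : r x ≠ r t := by
  intro hxt
  have hq : 1 < p ^ n := Nat.one_lt_pow n0.ne' pp.one_lt
  have h1 := h.same (y ^ (p ^ n)) y x t hx hxt.symm hroot hroot'
  obtain ⟨hY, hη, -⟩ := h.eta (y ^ (p ^ n)) x hx hroot
  have hρ : (ρ : Ω) ≠ 0 := by simpa using h.ρ0
  have hvρ : 0 < V.valuation (ρ : Ω) := zero_lt_iff.2 ((_root_.map_ne_zero _).2 hρ)
  suffices hh : ∃ c ∈ H, V.valuation (y ^ (p ^ n) - c) < V.valuation (ρ : Ω) by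
    obtain ⟨c, hc, h2⟩ := hh
    apply hη
    have h5 : V.valuation ((y ^ (p ^ n) - γ) / ρ - (c - γ) / ρ) < 1 := by
      have h4 : (y ^ (p ^ n) - γ) / ρ - (c - γ) / ρ = (y ^ (p ^ n) - c) / ρ := by ring
      rw [h4, map_div₀, div_lt_one₀ hvρ]
      exact h2
    have h6 : (c - γ) / (ρ : Ω) ∈ V := by
      have h7 : (c - γ) / (ρ : Ω) = (y ^ (p ^ n) - γ) / ρ -
        ((y ^ (p ^ n) - γ) / ρ - (c - γ) / ρ) := by ring
      rw [h7]
      exact sub_mem hY ((val_le V _).mpr h5.le)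
    rw [(hP.res.eq_of_sub hP.mem hY h6).mpr h5]
    exact res_mem_kap hP.res hP.mem H h6 (div_mem (sub_mem hc γ.2) ρ.2)
  rcases lt_or_ge 1 (V.valuation y) with hy1 | hy1
  · refine ⟨0, zero_mem H, ?_⟩
    rw [sub_zero]
    have h2 : V.valuation (y ^ (p ^ n) - y) = V.valuation (y ^ (p ^ n)) := by
      refine Valuation.map_sub_eq_of_lt_left _ ?_
      rw [map_pow]
      exact lt_self_pow₀ hy1 hq
    rw [← h2]
    exact h1
  rcases lt_or_ge 1 (V.valuation (ρ : Ω)) with hρ1 | hρ1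
  · refine ⟨0, zero_mem H, ?_⟩
    rw [sub_zero, map_pow]
    exact lt_of_le_of_lt (pow_le_one₀ zero_le hy1) hρ1
  have hyV : y ∈ V := (val_le V _).2 hy1
  have hΩ : CharP Ω p := charP_of_injective_algebraMap (algebraMap k Ω).injective p
  have hpf : Fact p.Prime := ⟨pp⟩
  -- the residue of `y`
  have hy0A : r ⟨y, hyV⟩ ∈ A := hP.res.mem _
  have h2 : (r ⟨y, hyV⟩) ^ (p ^ n) = r ⟨y, hyV⟩ := by
    rw [← map_pow]
    refine (hP.res.eq_of_sub hP.mem (pow_mem hyV _) hyV).2 ?_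
    exact lt_of_lt_of_le h1 hρ1
  have h3 : IsAlgebraic k (r ⟨y, hyV⟩) := by
    refine ⟨X ^ (p ^ n) - X, FiniteField.X_pow_card_sub_X_ne_zero k hq, ?_⟩
    rw [map_sub, map_pow, aeval_X, h2, sub_self]
  have hy0H : r ⟨y, hyV⟩ ∈ H := s_mem_of_alg H _ h3
  have hy0V : r ⟨y, hyV⟩ ∈ V := hP.mem _ hy0A
  have hd : V.valuation (y - r ⟨y, hyV⟩) < 1 := by
    refine (hP.res.eq_of_sub hP.mem hyV hy0V).1 ?_
    rw [hP.res.fix _ _ hy0A]
  have h4 : y ^ (p ^ n) - y = (y - r ⟨y, hyV⟩) ^ (p ^ n) - (y - r ⟨y, hyV⟩) := by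
    rw [sub_pow_char_pow, h2]
    ring
  have hpow : V.valuation ((y - r ⟨y, hyV⟩) ^ (p ^ n)) ≤ V.valuation (y - r ⟨y, hyV⟩) := by
    rw [map_pow]
    exact pow_le_of_le_one zero_le hd.le (by omega)
  have h5 : V.valuation (y - r ⟨y, hyV⟩) < V.valuation (ρ : Ω) := by
    rcases eq_or_ne (y - r ⟨y, hyV⟩) 0 with h0 | h0
    · rw [h0, map_zero]
      exact hvρ
    have h6 : V.valuation ((y - r ⟨y, hyV⟩) ^ (p ^ n)) < V.valuation (y - r ⟨y, hyV⟩) := by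
      rw [map_pow]
      exact pow_lt_self_of_lt_one₀ (zero_lt_iff.2 ((_root_.map_ne_zero _).2 h0)) hd hq
    have h7 : V.valuation (y ^ (p ^ n) - y) = V.valuation (y - r ⟨y, hyV⟩) := by
      rw [h4]
      exact Valuation.map_sub_eq_of_lt_right _ h6
    rw [← h7]
    exact h1
  refine ⟨r ⟨y, hyV⟩, hy0H, ?_⟩
  have h6 : y ^ (p ^ n) - r ⟨y, hyV⟩ = (y - r ⟨y, hyV⟩) ^ (p ^ n) := by
    rw [sub_pow_char_pow, h2]
  rw [h6]
  exact lt_of_le_of_lt hpow h5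

theorem GDM.dist [IsAlgClosed Ω] [IsAlgClosed H] [IsAlgClosed A]
    (hc : CfM A H K₀ Y Z p e n v w a U t) (hyH : a ^ e ∉ H)
    (hG : GDM A H K₀ Y Z p e n v w a U t A₁ A₂ T s ξ f) (hP : Plc A V r)
    (i : Fin m) (α π : H) (hπ : π ≠ 0) (hgen : Gen hP.res hP.mem H α π (T i))
    (σ : Ω ≃ₐ[k] Ω) (hσ : σ ∈ Fx k (H : Set Ω)) (ha : σ a = a) (g : A ≃ₐ[k] A)
    (hg : ∀ x ∈ kA hP.res hP.mem H, g x = x) (hL : Lft A V r σ g) :
    V.valuation (σ (T i) - t) = V.valuation (T i - t) := by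
  have hr := hP.res
  have hV := hP.mem
  have hval := hG.val_T i
  have hπ' : (π : Ω) ≠ 0 := by simpa using hπ
  -- `σ (T i)` is a generic point of the same disc
  have hgen' : Gen hP.res hP.mem H α π (σ (T i)) := by
    obtain ⟨hT, hT1⟩ := hgen
    have e1 : (σ (T i) - α) / π = σ ((T i - α) / π) := by
      rw [map_div₀, map_sub, hσ α α.2, hσ π π.2]
    have hT' : (σ (T i) - α) / π ∈ V := by
      rw [e1, hL.mem]
      exact hT
    refine ⟨hT', ?_⟩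
    have h1 : r ⟨(σ (T i) - α) / π, hT'⟩ = g ⟨r ⟨_, hT⟩, hr.mem _⟩ := by
      have hT'' : σ ((T i - α) / π) ∈ V := by
        rw [hL.mem]
        exact hT
      have e2 : (⟨_, hT'⟩ : V) = ⟨σ ((T i - α) / π), hT''⟩ := Subtype.ext e1
      rw [e2]
      exact hL.res _ hT _ ⟨r ⟨_, hT⟩, hr.mem _⟩ rfl
    rw [h1, ← mem_kA hr hV]
    intro h2
    have h3 := hg _ h2
    have h4 := g.injective h3
    rw [h4, mem_kA] at h2
    exact hT1 h2
  have hval' : aeval (σ (T i)) A₁ = (a ^ e) ^ (p ^ n) * aeval (σ (T i)) A₂ := by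
    have h1 := congrArg σ hval
    rw [Fx.aeval hσ, map_mul, Fx.aeval hσ, map_pow, map_pow, ha] at h1
    exact h1
  by_cases ht : (t - α) / π ∈ V
  · obtain ⟨γ, ρ, β, P₁, Q₁, hN⟩ := exists_nred hP.res hP.mem H (asub α π A₁) (asub α π A₂)
      (asub_ne_zero α π hπ A₂ hG.A₂0) (by
        intro γ hγ
        have h1 := congrArg (aeval ((t - α) / π)) hγ
        rw [map_mul, aeval_C, aeval_asub' α π hπ, aeval_asub' α π hπ, ← hG.yeq] at h1
        have h2 := mul_right_cancel₀ hG.A₂t h1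
        apply hyH
        rw [h2]
        exact γ.2)
    have key : ∀ T' : Ω, Gen hP.res hP.mem H α π T' →
        aeval T' A₁ = (a ^ e) ^ (p ^ n) * aeval T' A₂ →
          V.valuation (T' - t) = V.valuation (π : Ω) := by
      rintro T' ⟨hT', hT1'⟩ hv
      refine dist_eq hr hV α π T' t hπ' hT' ht ?_
      refine nred_frob hP hc.pp hc.ch hc.n0 hN (a ^ e) ⟨_, hT'⟩ ⟨_, ht⟩ hT1' ?_ ?_
      · change aeval ((T' - α) / π) (asub α π A₁) = (a ^ e) ^ (p ^ n) *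
          aeval ((T' - α) / π) (asub α π A₂)
        rw [aeval_asub' α π hπ, aeval_asub' α π hπ, hv]
      · change aeval ((t - α) / π) (asub α π A₁) = a ^ e * aeval ((t - α) / π) (asub α π A₂)
        rw [aeval_asub' α π hπ, aeval_asub' α π hπ, hG.yeq]
    rw [key _ hgen hval, key _ hgen' hval']
  · obtain ⟨hT, -⟩ := hgen
    obtain ⟨hT', -⟩ := hgen'
    rw [dist_eq' V α π _ t hπ' hT ht, dist_eq' V α π _ t hπ' hT' ht]

end

end Pool.Agent.FRB
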