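import Pool.Agent.FRB.Defs
import Pool.Agent.WLD.W3
import Pool.Agent.TUQ.S3f

/-!
# The configuration: the places at which `a ^ e` is algebraic; `K₀` and `a ^ e` are not in `H`
-/

set_option autoImplicit false

namespace Pool.Agent.FRB

open Polynomial Pool.Agent.TBR Pool.Agent.TUQ Pool.Agent.WLD

universe u

section

variable {k Ω : Type u} [Field k] [Field Ω] [Algebra k Ω]
variable {A H : IntermediateField k Ω} {V : ValuationSubring Ω} {r : V →+* Ω}
variable {K₀ : IntermediateField k A} {Y Z : A} {p e n : ℕ} {v w a U t : Ω}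

theorem aeval_as {L : Type u} [Field L] [Algebra k L] (p : ℕ) (x : L) :
    aeval x (X ^ p - X : k[X]) = x ^ p - x := by
  rw [map_sub, map_pow, aeval_X]

/-- `X ^ p - X` is additive in characteristic `p` -/
theorem addPoly_as (p : ℕ) (hp : p.Prime) [CharP k p] :
    Pool.Agent.UQ.AddPoly (X ^ p - X : k[X]) := by
  intro L _ _ x y
  have : Fact p.Prime := ⟨hp⟩
  have : CharP L p := charP_of_injective_algebraMap (algebraMap k L).injective p
  rw [aeval_as, aeval_as, aeval_as, add_pow_char]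
  ring

theorem CfM.ad (hc : CfM A H K₀ Y Z p e n v w a U t) : Ad (X ^ p - X : k[X]) e := by
  have := hc.ch
  refine ⟨addPoly_as p hc.pp, ?_, ?_, hc.e2, hc.ek⟩
  · rw [derivative_sub, derivative_X_pow, derivative_X, CharP.cast_eq_zero, map_zero, zero_mul,
      zero_sub]
    exact neg_ne_zero.2 one_ne_zero
  · rw [FiniteField.X_pow_card_sub_X_natDegree_eq k hc.pp.one_lt]
    exact hc.pp.one_lt

/-- the curve -/
theorem CfM.toC (hc : CfM A H K₀ Y Z p e n v w a U t) : CfC H (X ^ p - X : k[X]) e a U :=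
  ⟨hc.trH, hc.ad, by rw [aeval_as, hc.eqU]⟩

theorem CfM.a0 (hc : CfM A H K₀ Y Z p e n v w a U t) : a ≠ 0 :=
  fun h => hc.aA (by rw [h]; exact zero_mem A)

theorem CfM.v0 (hc : CfM A H K₀ Y Z p e n v w a U t) : v ≠ 0 := by
  rintro rfl
  exact hc.a0 (by rw [← hc.eqZ, mul_zero])

/-- `a ^ e` is in `H(t)` -/
theorem CfM.yt (hc : CfM A H K₀ Y Z p e n v w a U t) : a ^ e ∈ AA H {t} := by
  have h1 : a ^ e = ((Z ^ e : A) : Ω) * v ^ e := by
    rw [← hc.eqZ, mul_pow]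
    rfl
  rw [h1]
  exact mul_mem (hc.K₀t _ hc.ZK) (pow_mem hc.vt e)

theorem CfM.mem_of_pow (E : IntermediateField k Ω) [IsAlgClosed E]
    (hc : CfM A H K₀ Y Z p e n v w a U t) (h : a ^ e ∈ E) : a ∈ E := by
  apply s_mem_of_alg' E
  refine IsAlgebraic.of_pow (n := e) (by have := hc.e2; omega) ?_
  exact isAlgebraic_algebraMap (⟨a ^ e, h⟩ : E)

theorem CfM.yA [IsAlgClosed A] (hc : CfM A H K₀ Y Z p e n v w a U t) : a ^ e ∉ A :=
  fun h => hc.aA (hc.mem_of_pow A h)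

/-- the elements of `K₀` are not all in `H` -/
theorem CfM.K₀H [IsAlgClosed Ω] [IsAlgClosed A] [IsAlgClosed H]
    (hc : CfM A H K₀ Y Z p e n v w a U t) : ∃ x ∈ K₀, (x : Ω) ∉ H := by
  by_contra hcon
  push Not at hcon
  have h1 := le_of_K₀ A H K₀ hc.al hcon
  have h2 := eq_of_le A H hc.trA t hc.tH h1
  have hU : U ∈ AA H {t} := by
    have h3 : U = Y - w := by rw [← hc.eqY, add_sub_cancel_left]
    rw [h3]
    exact sub_mem (mem_AA_le H t (h1 Y.2)) hc.wt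
  have ha : a ∈ AA H {t} := by
    rw [← hc.eqZ]
    exact mul_mem (mem_AA_le H t (h1 Z.2)) hc.vt
  have h4 := as_rat H t hc.tH hc.ad.add hc.ad.sep hc.ad.deg e hc.e2 hc.ek a U ha hU
    (by rw [aeval_as, hc.eqU])
  rw [h2] at h4
  apply hc.yA
  rw [← hc.eqU]
  exact sub_mem (pow_mem h4 p) h4

/-- the places at which `a ^ e` has a finite value `b ≠ 0` which is algebraic over `k` contain
`H` -/
theorem CfM.H_mem [IsAlgClosed H] [IsAlgClosed A] (hc : CfM A H K₀ Y Z p e n v w a U t)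
    (hNU : NU (KYZ K₀ Y Z)) (hP : Plc A V r) (b : Ω) (hb : IsAlgebraic k b) (hb0 : b ≠ 0)
    (hy : V.valuation (a ^ e - b) < 1) : ∀ x ∈ H, x ∈ V := by
  by_contra hcon
  push Not at hcon
  have hr := hP.res
  have hV := hP.mem
  have hbA : b ∈ A := s_mem_of_alg A b hb
  obtain ⟨θ, hθ, h1⟩ := res_AA hr hV hc.trA H hcon t hc.tH
  obtain ⟨hyV, hry⟩ := hP.sub_lt hbA hy
  have hkc := kap_closed hr hV H
  have he := hc.e2
  -- `a` and `U` are integral over `V`
  have haV : a ∈ V := by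
    refine plc_mem_of_aeval hP (X ^ e : k[X]) (by rw [natDegree_X_pow]; omega) ?_
    rw [map_pow, aeval_X]
    exact hyV
  have hUV : U ∈ V := by
    refine plc_mem_of_aeval hP (X ^ p - X : k[X]) (by have := hc.ad.deg; omega) ?_
    rw [aeval_as, hc.eqU]
    exact hyV
  -- the residues of `a` and `U` are algebraic over `k`
  have hra : r ⟨a, haV⟩ ^ e = b := by
    rw [← hry, ← map_pow]
    congr 1
  have hra0 : r ⟨a, haV⟩ ≠ 0 := by
    intro h0
    apply hb0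
    rw [← hra, h0, zero_pow (by omega)]
  have hraalg : IsAlgebraic k (r ⟨a, haV⟩) := by
    refine IsAlgebraic.of_pow (n := e) (by omega) ?_
    rwa [hra]
  have hu : aeval (r ⟨U, hUV⟩) (X ^ p - X : k[X]) = b := by
    rw [← hP.res_aeval (X ^ p - X : k[X]) hUV, ← hry]
    congr 1
    exact Subtype.ext (by
      show aeval U (X ^ p - X : k[X]) = a ^ e
      rw [aeval_as, hc.eqU])
  have hφ0 : (X ^ p - X : k[X]) ≠ 0 := by
    intro h0
    exact hc.ad.sep (by rw [h0, derivative_zero])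
  have hualg : IsAlgebraic k (r ⟨U, hUV⟩) := by
    refine IsAlgebraic.of_aeval (X ^ p - X : k[X]) (by have := hc.ad.deg; omega)
      (mem_nonZeroDivisors_of_ne_zero (leadingCoeff_ne_zero.2 hφ0)) ?_
    rw [hu]
    exact hb
  have huk : r ⟨U, hUV⟩ ∈ AA (kap hr hV H) {θ} :=
    mem_AA_le _ _ (s_mem_of_alg (kap hr hV H) _ hualg)
  have hak : r ⟨a, haV⟩ ∈ AA (kap hr hV H) {θ} :=
    mem_AA_le _ _ (s_mem_of_alg (kap hr hV H) _ hraalg)
  -- the element `Y`
  have hwV : w ∈ V := by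
    have h2 : w = Y - U := by rw [← hc.eqY, add_sub_cancel_right]
    rw [h2]
    exact sub_mem (hV _ Y.2) hUV
  have hY : (Y : Ω) = r ⟨w, hwV⟩ + r ⟨U, hUV⟩ := by
    rw [← map_add]
    have h2 : (⟨w, hwV⟩ + ⟨U, hUV⟩ : V) = ⟨(Y : Ω), hV _ Y.2⟩ := Subtype.ext hc.eqY
    rw [h2, hr.fix _ _ Y.2]
  -- the element `Z`
  have hZ0 : (Z : Ω) ≠ 0 := fun h => hc.Z0 (Subtype.ext h)
  have hvV : v ∈ V := by
    have h2 : v = ((Z⁻¹ : A) : Ω) * a := by
      rw [← hc.eqZ, ← mul_assoc]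
      have h3 : ((Z⁻¹ : A) : Ω) * (Z : Ω) = 1 := by
        rw [← show ((Z⁻¹ * Z : A) : Ω) = ((Z⁻¹ : A) : Ω) * (Z : Ω) from rfl,
          inv_mul_cancel₀ hc.Z0]
        rfl
      rw [h3, one_mul]
    rw [h2]
    exact mul_mem (hV _ (Z⁻¹ : A).2) haV
  have hZv : (Z : Ω) * r ⟨v, hvV⟩ = r ⟨a, haV⟩ := by
    have h2 : (⟨(Z : Ω), hV _ Z.2⟩ * ⟨v, hvV⟩ : V) = ⟨a, haV⟩ := Subtype.ext hc.eqZ
    rw [← h2, map_mul, hr.fix _ _ Z.2]
  have hv0 : r ⟨v, hvV⟩ ≠ 0 := by
    intro h0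
    apply hra0
    rw [← hZv, h0, mul_zero]
  have hZ : (Z : Ω) = r ⟨a, haV⟩ / r ⟨v, hvV⟩ := by
    rw [eq_div_iff hv0, hZv]
  refine hNU.not (kap hr hV H) (kap_le hr hV H) ?_ θ hθ ?_
  · have h2 := trdeg_kap hr hV H hcon
    rw [hc.tdH] at h2
    have h3 : (2 : Cardinal) = 1 + 1 := by norm_num
    rw [h3] at h2
    exact (Cardinal.add_one_le_add_one_iff).1 h2
  · have h2 : K₀ ⊔ IntermediateField.adjoin k {Y} ⊔ IntermediateField.adjoin k {Z} ≤
        (AA (kap hr hV H) {θ}).comap A.val := by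
      refine sup_le (sup_le ?_ ?_) ?_
      · intro x hx
        show (x : Ω) ∈ AA (kap hr hV H) {θ}
        have h3 := h1 x (hc.K₀t x hx) (hV _ x.2)
        rwa [hr.fix _ _ x.2] at h3
      · rw [IntermediateField.adjoin_le_iff]
        rintro x rfl
        show (x : Ω) ∈ AA (kap hr hV H) {θ}
        rw [hY]
        exact add_mem (h1 w hc.wt hwV) huk
      · rw [IntermediateField.adjoin_le_iff]
        rintro x rfl
        show (x : Ω) ∈ AA (kap hr hV H) {θ}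
        rw [hZ]
        exact div_mem hak (h1 v hc.vt hvV)
    exact fun x hx => h2 hx

/-- `a ^ e` is not in `H` -/
theorem CfM.yH [IsAlgClosed Ω] [IsAlgClosed H] [IsAlgClosed A]
    (hc : CfM A H K₀ Y Z p e n v w a U t) (hNU : NU (KYZ K₀ Y Z)) : a ^ e ∉ H := by
  intro hyH
  have h3 : a ^ e - 1 ∉ A := fun h => hc.yA (by simpa using add_mem h (one_mem A))
  obtain ⟨V, r, hP, hv⟩ := exists_plc A hc.trA (a ^ e - 1) h3
  have h1 := hc.H_mem hNU hP 1 isAlgebraic_one one_ne_zero hv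
  have h2 : (a ^ e - 1)⁻¹ ∈ V := h1 _ (inv_mem (sub_mem hyH (one_mem H)))
  have h0 : a ^ e - 1 ≠ 0 := fun h => h3 (by rw [h]; exact zero_mem A)
  rw [val_le, map_inv₀, inv_le_one₀ (zero_lt_iff.mpr ((_root_.map_ne_zero _).mpr h0))] at h2
  exact absurd hv (not_lt.mpr h2)

theorem CfM.aH [IsAlgClosed Ω] [IsAlgClosed H] [IsAlgClosed A]
    (hc : CfM A H K₀ Y Z p e n v w a U t) (hNU : NU (KYZ K₀ Y Z)) : a ∉ H :=
  fun h => hc.yH hNU (pow_mem h e)

end

end Pool.Agent.FRB
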