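import Pool.Agent.FRB.M3
import Pool.Agent.WLD.W6a

/-!
# The inertia at `a = 0` and at `a = ∞`
-/

set_option autoImplicit false

namespace Pool.Agent.FRB

open Polynomial Pool.Agent.TBR Pool.Agent.TUQ Pool.Agent.WLD

universe u

section

variable {k Ω : Type u} [Field k] [Field Ω] [Algebra k Ω]

/-- the values of the elements of `κ(α, β)` are preserved by all automorphisms over `κ(α)`, if `β`
is totally ramified at infinity -/
theorem tau_val' (κ : IntermediateField k Ω) (V : ValuationSubring Ω) (hκ : ∀ x ∈ κ, x ∈ V)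
    (α : Ω) (hα : 1 < V.valuation α) (β y : Ω) (P : κ[X]) (e : ℕ) (he : e ≠ 0)
    (hQe : Nat.Coprime e P.natDegree) (hβ : aeval β P = y) (hy : y ∈ AA κ {α})
    (hvy : V.valuation y = V.valuation α ^ e) (σ : Ω →ₐ[k] Ω)
    (hσ : ∀ x ∈ κ, σ x = x) (hσα : σ α = α) :
    ∀ x ∈ AA (AA κ {α}) {β}, V.valuation (σ x) = V.valuation x := by
  classical
  set E : IntermediateField k Ω := AA κ {α} with hE
  have hκE : κ ≤ E := Pool.Agent.TBR.V.le_AA _ _
  -- `σ` fixes `E`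
  have hσE : ∀ x ∈ E, σ x = x := by
    intro x hx
    obtain ⟨p, q, rfl⟩ := (Pool.Agent.TBR.V.mem_AA κ α x).1 hx
    have h1 : ∀ p : κ[X], σ (aeval α p) = aeval α p := by
      intro p
      rw [aeval_eq_sum_range, map_sum]
      refine Finset.sum_congr rfl fun i _ => ?_
      rw [Algebra.smul_def, map_mul, map_pow, hσα]
      congr 1
      exact hσ _ (Subtype.coe_prop _)
    rw [map_div₀, h1, h1]
  have hσP : aeval (σ β) P = y := by
    have h1 : aeval (σ β) P = σ (aeval β P) := by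
      rw [aeval_eq_sum_range, aeval_eq_sum_range, map_sum]
      refine Finset.sum_congr rfl fun i _ => ?_
      rw [Algebra.smul_def, Algebra.smul_def, map_mul, map_pow]
      congr 1
      exact (hσ _ (Subtype.coe_prop _)).symm
    rw [h1, hβ, hσE y hy]
  have hv1 : 1 < V.valuation y := by
    rw [hvy]
    exact one_lt_pow₀ hα he
  obtain ⟨h1, h1'⟩ := val_root_inf κ V hκ P β (by rw [hβ]; exact hv1)
  obtain ⟨h2, h2'⟩ := val_root_inf κ V hκ P (σ β) (by rw [hσP]; exact hv1)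
  rw [hβ, hvy] at h1
  rw [hσP, hvy] at h2
  have hQ0 : P.natDegree ≠ 0 := by
    intro h0
    rw [h0, pow_zero] at h1
    exact absurd h1.symm (one_lt_pow₀ hα he).ne'
  have hveq : V.valuation (σ β) = V.valuation β :=
    (pow_left_inj₀ zero_le zero_le hQ0).1 (h2.trans h1.symm)
  have o1 := orth_inf κ V hκ α hα β P.natDegree e hQe h1
  have o2 := orth_inf κ V hκ α hα (σ β) P.natDegree e hQe h2
  -- the monic polynomial of `β`
  let P' : E[X] := P.map (IntermediateField.inclusion hκE : κ →+* E) - C ⟨y, hy⟩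
  have hPdeg : (P.map (IntermediateField.inclusion hκE : κ →+* E)).natDegree = P.natDegree :=
    natDegree_map _
  have hP'deg : P'.natDegree = P.natDegree := by
    rw [natDegree_sub_C, hPdeg]
  have hP'0 : P' ≠ 0 := by
    intro h0
    rw [h0, natDegree_zero] at hP'deg
    exact hQ0 hP'deg.symm
  let l : E := P'.leadingCoeff
  have hl : l ≠ 0 := leadingCoeff_ne_zero.2 hP'0
  have hmon : (C l⁻¹ * P').Monic :=
    monic_C_mul_of_mul_leadingCoeff_eq_one (inv_mul_cancel₀ hl)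
  have hdeg : (C l⁻¹ * P').natDegree = P.natDegree := by
    rw [natDegree_C_mul (inv_ne_zero hl), hP'deg]
  have hroot : aeval β (C l⁻¹ * P') = 0 := by
    have h3 : aeval β P' = 0 := by
      rw [map_sub, aeval_C, sub_eq_zero]
      have h4 : aeval β (P.map (IntermediateField.inclusion hκE : κ →+* E)) = aeval β P := by
        rw [aeval_def, eval₂_map]
        rfl
      rw [h4, hβ]
      rfl
    rw [map_mul, h3, mul_zero]
  intro x hx
  obtain ⟨c, hc, rfl⟩ := exists_coeffs E β _ hmon hroot hx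
  have o1' : Orth V (E : Set Ω) (fun j : Fin (C l⁻¹ * P').natDegree => β ^ (j : ℕ)) := by
    rw [hdeg]
    exact o1
  have o2' : Orth V (E : Set Ω) (fun j : Fin (C l⁻¹ * P').natDegree => (σ β) ^ (j : ℕ)) := by
    rw [hdeg]
    exact o2
  exact o1'.val_map o2' (σ : Ω →+* Ω)
    (fun x hx => ⟨by rw [RingHom.coe_coe, hσE x hx]; exact hx, by rw [RingHom.coe_coe, hσE x hx]⟩)
    (fun j => by rw [RingHom.coe_coe, map_pow])
    (fun j => by rw [map_pow, map_pow, hveq]) hc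

variable {A H : IntermediateField k Ω} {V : ValuationSubring Ω} {r : V →+* Ω}

/-- a totally ramified extension `P(β) = y` of `H(α)` has all conjugations in the decomposition
group -/
theorem exists_ram [IsAlgClosed Ω] (hH : ∀ x ∈ H, x ∈ V) (α β β' y : Ω)
    (hα : 1 < V.valuation α) (halg : ∀ x : Ω, IsAlgebraic (AA H {α}) x) (hy : y ∈ AA H {α})
    (P : H[X]) (e : ℕ) (he : e ≠ 0) (hcop : Nat.Coprime e P.natDegree)
    (hβ : aeval β P = y) (hβ' : aeval β' P = y) (hvy : V.valuation y = V.valuation α ^ e) :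
    ∃ σ ∈ Fx k (H : Set Ω), σ α = α ∧ σ β = β' ∧ ∀ x, σ x ∈ V ↔ x ∈ V := by
  set E : IntermediateField k Ω := AA H {α} with hE
  have hHE : H ≤ E := Pool.Agent.TBR.V.le_AA H {α}
  have hEF : E ≤ AA E {β} := Pool.Agent.TBR.V.le_AA _ {β}
  have hαE : α ∈ E := self_mem_AA H α
  have hv1 : 1 < V.valuation (aeval β P) := by
    rw [hβ, hvy]
    exact one_lt_pow₀ hα he
  obtain ⟨h1, h1'⟩ := val_root_inf H V hH P β hv1
  rw [hβ, hvy] at h1
  have o1 := orth_inf H V hH α hα β P.natDegree e hcop h1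
  have hβ0 : β ≠ 0 := by
    rintro rfl
    rw [map_zero] at h1'
    exact absurd h1' (not_lt.2 zero_le_one)
  have hd : P.natDegree ≠ 0 := by
    intro h0
    rw [h0, pow_zero] at h1
    exact absurd h1.symm (one_lt_pow₀ hα he).ne'
  let P' : E[X] := P.map (IntermediateField.inclusion hHE : H →+* E) - C ⟨y, hy⟩
  have hPd : P'.natDegree = P.natDegree := by rw [natDegree_sub_C, natDegree_map]
  have hP0 : P' ≠ 0 := by
    intro h0
    rw [h0, natDegree_zero] at hPd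
    exact hd hPd.symm
  have hPx : ∀ x : Ω, aeval x P' = aeval x P - y := by
    intro x
    rw [map_sub, aeval_C]
    have h4 : aeval x (P.map (IntermediateField.inclusion hHE : H →+* E)) = aeval x P := by
      rw [aeval_def, eval₂_map]
      rfl
    rw [h4]
    rfl
  obtain ⟨τ, hτ, hτU⟩ := exists_conj_of_deg E halg P' hP0 β β'
    (by rw [hPx, hβ, sub_self])
    (by rw [hPx, hβ', sub_self]) (by
      intro q hq hq0
      rw [hPd] at hq
      ext i
      rw [coeff_zero]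
      by_cases hi : i < P.natDegree
      · have h2 := o1.eq_zero (c := fun j => ((q.coeff (j : ℕ) : E) : Ω))
          (fun j => pow_ne_zero _ hβ0) (fun j => Subtype.coe_prop _) (by
            rw [aeval_eq_sum_range' hq] at hq0
            rw [Finset.sum_range] at hq0
            rw [← hq0]
            refine Finset.sum_congr rfl fun j _ => ?_
            rw [Algebra.smul_def]
            rfl) ⟨i, hi⟩
        exact congrArg _ (Subtype.ext h2)
      · rw [coeff_eq_zero_of_natDegree_lt (lt_of_lt_of_le hq (not_lt.1 hi))])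
  have hτH : τ ∈ Fx k (H : Set Ω) := fun x hx => hτ x (hHE hx)
  have hval := tau_val' H V hH α hα β y P e he hcop hβ hy hvy (τ : Ω →ₐ[k] Ω) hτH (hτ α hαE)
  obtain ⟨σ, hσF, hσV⟩ := exists_dec V (AA E {β}) (fun x => alg_up hEF (halg x)) τ hval
  refine ⟨σ, fun x hx => ?_, ?_, ?_, hσV⟩
  · rw [hσF x (hEF (hHE hx))]
    exact hτH x hx
  · rw [hσF α (hEF hαE), hτ α hαE]
  · rw [hσF β (self_mem_AA _ β), hτU]

end

section

variable {k Ω : Type u} [Field k] [Field Ω] [Algebra k Ω]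
variable {A H : IntermediateField k Ω} {V : ValuationSubring Ω} {r : V →+* Ω}
variable {K₀ : IntermediateField k A} {Y Z : A} {p e n : ℕ} {v w a U t : Ω}

/-- the inertia at `a = ∞`, the part over `H(a)` -/
theorem CfM.exists_tau_inf [IsAlgClosed Ω] [IsAlgClosed H] [IsAlgClosed A]
    (hc : CfM A H K₀ Y Z p e n v w a U t) (hP : Plc A V r) (hH : ∀ x ∈ H, x ∈ V) (ha : a ∉ V)
    (c : Ω) (hc0 : c ^ p = c) :
    ∃ σ ∈ Fx k (H : Set Ω), σ a = a ∧ σ U = U + c ∧ (∀ x, σ x ∈ V ↔ x ∈ V) ∧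
      ∀ (x : Ω) (h : x ∈ V) (h' : σ x ∈ V), r ⟨σ x, h'⟩ = r ⟨x, h⟩ := by
  have haH : a ∉ H := fun h => ha (hH a h)
  have hα : 1 < V.valuation a := not_le.1 fun h => ha ((V.valuation_le_one_iff _).1 h)
  have hC := hc.toC
  obtain ⟨q, m, hq, -, -, hQ, hqe⟩ := hC.ad.exists_p
  have hcop : Nat.Coprime e ((X ^ p - X : k[X]).map (algebraMap k H)).natDegree := by
    rw [natDegree_map, hQ]
    exact Nat.Coprime.pow_right m ((hq.coprime_iff_not_dvd.2 hqe).symm)
  have he : e ≠ 0 := by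
    have := hC.ad.e2
    omega
  obtain ⟨σ, hσH, h1, h2, hσV⟩ := exists_ram hH a U (U + c) (a ^ e) hα (hc.trH a haH)
    (pow_mem (self_mem_AA H a) e) _ e he hcop
    (by rw [aeval_map_algebraMap, hC.eqU])
    (by
      have h3 : aeval c (X ^ p - X : k[X]) = 0 := by
        rw [map_sub, map_pow, aeval_X, hc0, sub_self]
      rw [aeval_map_algebraMap, hC.ad.add, h3, hC.eqU, add_zero])
    (map_pow _ _ _)
  exact ⟨σ, hσH, h1, h2, hσV, fun x h h' => res_fix hP hH hc.tdA hc.tdH σ hσH hσV x h h'⟩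

/-- the inertia at `a = ∞`, the part over `H(U)` -/
theorem CfM.exists_rho_inf [IsAlgClosed Ω] [IsAlgClosed H] [IsAlgClosed A]
    (hc : CfM A H K₀ Y Z p e n v w a U t) (hP : Plc A V r) (hH : ∀ x ∈ H, x ∈ V) (ha : a ∉ V)
    (ζ : Ω) (hζ : ζ ^ e = 1) :
    ∃ σ ∈ Fx k (H : Set Ω), σ a = ζ * a ∧ σ U = U ∧ (∀ x, σ x ∈ V ↔ x ∈ V) ∧
      ∀ (x : Ω) (h : x ∈ V) (h' : σ x ∈ V), r ⟨σ x, h'⟩ = r ⟨x, h⟩ := by
  have hα : 1 < V.valuation a := not_le.1 fun h => ha ((V.valuation_le_one_iff _).1 h)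
  have hC := hc.toC
  obtain ⟨q, m, hq, -, -, hQ, hqe⟩ := hC.ad.exists_p
  have hcop : Nat.Coprime (X ^ p - X : k[X]).natDegree e := by
    rw [hQ]
    exact Nat.Coprime.pow_left m (hq.coprime_iff_not_dvd.2 hqe)
  have he : e ≠ 0 := by
    have := hC.ad.e2
    omega
  have hd : (X ^ p - X : k[X]).natDegree ≠ 0 := by
    have := hC.ad.deg
    omega
  have hv1 : 1 < V.valuation (aeval U ((X ^ p - X : k[X]).map (algebraMap k H))) := by
    rw [aeval_map_algebraMap, hC.eqU, map_pow]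
    exact one_lt_pow₀ hα he
  obtain ⟨h1, hU1⟩ := val_root_inf H V hH ((X ^ p - X : k[X]).map (algebraMap k H)) U hv1
  rw [natDegree_map, aeval_map_algebraMap, hC.eqU] at h1
  have hUH : U ∉ H := fun h => absurd ((V.valuation_le_one_iff _).2 (hH U h)) (not_le.2 hU1)
  have hyU : a ^ e ∈ AA H {U} := by
    rw [← hc.eqU]
    exact sub_mem (pow_mem (self_mem_AA H U) p) (self_mem_AA H U)
  obtain ⟨σ, hσH, h2, h3, hσV⟩ := exists_ram hH U a (ζ * a) (a ^ e) hU1 (hc.trH U hUH)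
    hyU (X ^ e : H[X]) (X ^ p - X : k[X]).natDegree hd (by rwa [natDegree_X_pow])
    (by rw [map_pow, aeval_X])
    (by rw [map_pow, aeval_X, mul_pow, hζ, one_mul])
    h1.symm
  exact ⟨σ, hσH, h3, h2, hσV, fun x h h' => res_fix hP hH hc.tdA hc.tdH σ hσH hσV x h h'⟩

/-- the inertia at `a = ∞` -/
theorem CfM.exists_inf [IsAlgClosed Ω] [IsAlgClosed H] [IsAlgClosed A]
    (hc : CfM A H K₀ Y Z p e n v w a U t) (hP : Plc A V r) (hH : ∀ x ∈ H, x ∈ V) (ha : a ∉ V)
    (c ζ : Ω) (hc0 : c ^ p = c) (hζ : ζ ^ e = 1) :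
    ∃ σ ∈ Fx k (H : Set Ω), σ a = ζ * a ∧ σ U = U + c ∧ (∀ x, σ x ∈ V ↔ x ∈ V) ∧
      ∀ (x : Ω) (h : x ∈ V) (h' : σ x ∈ V), r ⟨σ x, h'⟩ = r ⟨x, h⟩ := by
  obtain ⟨τ, hτH, hτa, hτU, hτV, -⟩ := hc.exists_tau_inf hP hH ha c hc0
  obtain ⟨ρ, hρH, hρa, hρU, hρV, -⟩ := hc.exists_rho_inf hP hH ha ζ hζ
  have he : e ≠ 0 := by
    have := hc.e2
    omega
  have hζH : ζ ∈ H := by
    refine s_mem_of_alg H ζ ⟨X ^ e - 1, ?_, ?_⟩
    · rw [← C_1]
      exact (monic_X_pow_sub_C (1 : k) he).ne_zero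
    · rw [map_sub, map_pow, aeval_X, hζ, map_one, sub_self]
  have hσH : τ * ρ ∈ Fx k (H : Set Ω) := mul_mem hτH hρH
  have hσV : ∀ x, (τ * ρ) x ∈ V ↔ x ∈ V := fun x => by
    rw [AlgEquiv.mul_apply, hτV, hρV]
  refine ⟨τ * ρ, hσH, ?_, ?_, hσV,
    fun x h h' => res_fix hP hH hc.tdA hc.tdH _ hσH hσV x h h'⟩
  · rw [AlgEquiv.mul_apply, hρa, map_mul, hτa, hτH ζ hζH]
  · rw [AlgEquiv.mul_apply, hρU, hτU]

/-- the inertia at `a = 0` -/
theorem CfM.exists_zero [IsAlgClosed Ω] [IsAlgClosed H] [IsAlgClosed A]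
    (hc : CfM A H K₀ Y Z p e n v w a U t) (hP : Plc A V r) (hH : ∀ x ∈ H, x ∈ V)
    (ha : V.valuation a < 1) (ζ : Ω) (hζ : ζ ^ e = 1) :
    ∃ σ ∈ Fx k (H : Set Ω), σ a = ζ * a ∧ σ U = U ∧ (∀ x, σ x ∈ V ↔ x ∈ V) ∧
      ∀ (x : Ω) (h : x ∈ V) (h' : σ x ∈ V), r ⟨σ x, h'⟩ = r ⟨x, h⟩ := by
  have hC := hc.toC
  have he : e ≠ 0 := by
    have := hc.e2
    omega
  have ha0 := hc.a0
  have hp2 := hc.pp.two_le
  have hae : V.valuation (a ^ e) < 1 := by
    rw [map_pow]
    exact pow_lt_one₀ zero_le ha he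
  -- `U` is in `V`
  have hU : U ∈ V := by
    by_contra h
    rw [← V.valuation_le_one_iff, not_le] at h
    have h1 : V.valuation (U ^ p) ≤ V.valuation U := by
      have h2 : U ^ p = U + a ^ e := by
        rw [← hc.eqU]
        ring
      rw [h2]
      exact (V.valuation.map_add _ _).trans (max_le le_rfl (hae.trans h).le)
    rw [map_pow] at h1
    exact absurd h1 (not_le.2 (lt_self_pow₀ h (by omega)))
  -- the residue of `U`
  set c : Ω := r ⟨U, hU⟩ with hcdef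
  have hcA : c ∈ A := hP.res.mem _
  have hcp : c ^ p = c := by
    have h1 : c ^ p - c = r ⟨U ^ p - U, sub_mem (pow_mem hU p) hU⟩ := by
      rw [hcdef, ← map_pow, ← map_sub]
      rfl
    have h2 : r ⟨U ^ p - U, sub_mem (pow_mem hU p) hU⟩ = 0 := by
      rw [hP.res.zero_iff hP.mem]
      change V.valuation (U ^ p - U) < 1
      rw [hc.eqU]
      exact hae
    rw [h2] at h1
    exact sub_eq_zero.1 h1
  have hcφ : aeval c (X ^ p - X : k[X]) = 0 := by
    rw [map_sub, map_pow, aeval_X, hcp, sub_self]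
  have hcH : c ∈ H := s_mem_of_alg H c ⟨X ^ p - X, hC.ad.ne_zero, hcφ⟩
  have hUc : V.valuation (U - c) < 1 :=
    (hP.res.eq_of_sub hP.mem hU (hP.mem c hcA)).1 (hP.res.fix _ _ hcA).symm
  -- the parameter
  have hu : (U - c) ^ p - (U - c) = a ^ e := by
    have h1 := add_sub' hC.ad.add U c
    rw [hcφ, hC.eqU, sub_zero, map_sub, map_pow, aeval_X] at h1
    exact h1
  set u : Ω := U - c with hudef
  have hu0 : u ≠ 0 := by
    intro h0
    rw [h0, zero_pow hc.pp.ne_zero, sub_zero] at hu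
    exact pow_ne_zero e ha0 hu.symm
  have hvu0 : 0 < V.valuation u := zero_lt_iff.2 ((_root_.map_ne_zero _).2 hu0)
  have hvu : V.valuation (a ^ e) = V.valuation u := by
    rw [← hu]
    refine Valuation.map_sub_eq_of_lt_right _ ?_
    rw [map_pow]
    exact pow_lt_self_of_lt_one₀ hvu0 hUc (by omega)
  have hα : 1 < V.valuation u⁻¹ := by
    rw [map_inv₀]
    exact (one_lt_inv₀ hvu0).2 hUc
  have hαH : u⁻¹ ∉ H := fun h => absurd ((V.valuation_le_one_iff _).2 (hH _ h)) (not_le.2 hα)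
  have huE : u ∈ AA H {u⁻¹} := by
    have h1 := inv_mem (self_mem_AA H u⁻¹)
    rwa [inv_inv] at h1
  have hyE : (a ^ e)⁻¹ ∈ AA H {u⁻¹} := by
    rw [← hu]
    exact inv_mem (sub_mem (pow_mem huE p) huE)
  obtain ⟨σ, hσH, h2, h3, hσV⟩ := exists_ram hH u⁻¹ a⁻¹ (ζ⁻¹ * a⁻¹) (a ^ e)⁻¹ hα
    (hc.trH _ hαH) hyE (X ^ e : H[X]) 1 one_ne_zero (Nat.coprime_one_left _)
    (by rw [map_pow, aeval_X, inv_pow])
    (by rw [map_pow, aeval_X, mul_pow, inv_pow, inv_pow, hζ, inv_one, one_mul])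
    (by rw [map_inv₀, map_inv₀, hvu, pow_one])
  rw [map_inv₀] at h2 h3
  refine ⟨σ, hσH, ?_, ?_, hσV, fun x h h' => res_fix hP hH hc.tdA hc.tdH σ hσH hσV x h h'⟩
  · rw [← inv_inj, h3, mul_inv]
  · have h4 := inv_inj.1 h2
    rw [hudef, map_sub, hσH c hcH] at h4
    exact sub_left_injective h4

end

end Pool.Agent.FRB
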