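import Pool.Agent.FRB.M5b
import Pool.Agent.FRB.M6
import Pool.Agent.WLD.W6c

/-!
# The local statement at the places which contain `H`
-/

set_option autoImplicit false

namespace Pool.Agent.FRB

open Polynomial Pool.Agent.TBR Pool.Agent.TUQ Pool.Agent.WLD

universe u

section

variable {k Ω : Type u} [Field k] [Field Ω] [Algebra k Ω]
variable {A H : IntermediateField k Ω} {V : ValuationSubring Ω} {r : V →+* Ω}
variable {K₀ : IntermediateField k A} {Y Z : A} {p e n : ℕ} {v w a U t : Ω}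
variable {A₁ A₂ : H[X]} {m : ℕ} {T : Fin m → Ω}
  {s : Fin m → (Ω ≃ₐ[k] Ω)} {ξ : Fin m → (A →ₐ[k] Ω)} {f : Polynomial Ω}

theorem frob_iter {R : Type*} [Monoid R] {c : R} {p : ℕ} (h : c ^ p = c) (n : ℕ) :
    c ^ (p ^ n) = c := by
  induction n with
  | zero => rw [pow_zero, pow_one]
  | succ n ih => rw [pow_succ, pow_mul, ih, h]

theorem root_iter {R : Type*} [Monoid R] {ζ : R} {p e n : ℕ} (hp : 0 < p ^ n)
    (h : ζ ^ e = 1) (hd : e ∣ p ^ n - 1) : ζ ^ (p ^ n) = ζ := by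
  obtain ⟨d, hd⟩ := hd
  have h1 : p ^ n = e * d + 1 := by omega
  rw [h1, pow_succ, pow_mul, h, one_pow, one_mul]

/-- the action of an inertia element on the embeddings near `t` -/
theorem GDM.inertia [IsAlgClosed Ω] [IsAlgClosed H] [IsAlgClosed A]
    (hc : CfM A H K₀ Y Z p e n v w a U t) (hCP : CP A H K₀ t)
    (hG : GDM A H K₀ Y Z p e n v w a U t A₁ A₂ T s ξ f)
    (hP : Plc A V r) (hH : ∀ x ∈ H, x ∈ V) (c ζ : A) (hcp : c ^ p = c) (hζ : ζ ^ e = 1)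
    (σ : Ω ≃ₐ[k] Ω) (hσH : σ ∈ Fx k (H : Set Ω)) (hσa : σ a = ζ * a) (hσU : σ U = U + c)
    (hσV : ∀ x, σ x ∈ V ↔ x ∈ V)
    (hσr : ∀ (x : Ω) (h : x ∈ V) (h' : σ x ∈ V), r ⟨σ x, h'⟩ = r ⟨x, h⟩) :
    ∃ π : Equiv.Perm (Fin m),
      ∀ (i : {i : Fin m // (∀ x, ξ i x ∈ V) ∧ V.valuation (T i - t) ≠ 1}) (ψ : A ≃ₐ[k] A),
        ResE A V r (ξ i) ψ →
        V.valuation (T (π i) - t) < 1 ∧ ∀ ψ', ResE A V r (ξ (π i)) ψ' →
          ψ Y = ψ' Y + c ∧ ψ Z = ζ * ψ' Z := by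
  have ht := hCP.t_mem hP hH
  have hpn : 0 < p ^ n := pow_pos hc.pp.pos n
  have hζΩ : (ζ : Ω) ^ e = 1 := by
    have h1 := congrArg (fun x : A => (x : Ω)) hζ
    exact h1
  have hcΩ : (c : Ω) ^ p = c := congrArg (fun x : A => (x : Ω)) hcp
  have hy : σ (a ^ e) = a ^ e := by
    rw [map_pow, hσa, mul_pow, hζΩ, one_mul]
  obtain ⟨π, hπ⟩ := hG.perm σ hσH hy
  refine ⟨π, fun i ψ hψ => ?_⟩
  have hlt : V.valuation (T i - t) < 1 := (hG.idx_iff hc hCP hP hH i).1 i.2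
  obtain ⟨hTV, hTr⟩ := res_of_lt hP ht hlt
  have hT2 : T (π i) ∈ V := by
    rw [← hπ, hσV]
    exact hTV
  refine ⟨?_, fun ψ' hψ' => ?_⟩
  · refine (hP.res.eq_of_sub hP.mem hT2 ht).1 ?_
    rw [← hTr, ← hσr (T i) hTV ((hσV _).2 hTV)]
    congr 1
    exact Subtype.ext (hπ i).symm
  · obtain ⟨-, h1, h2⟩ := hG.conj hc σ hσH i (π i) (hπ i)
    rw [hσU, add_sub_cancel_left, frob_iter hcΩ] at h1
    rw [hσa, mul_div_cancel_right₀ _ hc.a0, root_iter hpn hζΩ hc.en] at h2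
    have hmY : ξ i Y ∈ V := i.2.1 Y
    have hmZ : ξ i Z ∈ V := i.2.1 Z
    have hYe := hψ'.eq Y (hψ'.mem Y)
    have hZe := hψ'.eq Z (hψ'.mem Z)
    constructor
    · have h4 : (⟨σ (ξ i Y), (hσV _).2 hmY⟩ : V) =
          ⟨ξ (π i) Y, hψ'.mem Y⟩ + ⟨(c : Ω), hP.mem _ c.2⟩ := Subtype.ext h1
      have h5 := hσr (ξ i Y) hmY ((hσV _).2 hmY)
      rw [h4, map_add, hYe, hP.res.fix _ _ c.2, hψ.eq Y hmY] at h5
      exact Subtype.ext h5.symm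
    · have h4 : (⟨σ (ξ i Z), (hσV _).2 hmZ⟩ : V) =
          ⟨(ζ : Ω), hP.mem _ ζ.2⟩ * ⟨ξ (π i) Z, hψ'.mem Z⟩ := Subtype.ext h2
      have h5 := hσr (ξ i Z) hmZ ((hσV _).2 hmZ)
      rw [h4, map_mul, hZe, hP.res.fix _ _ ζ.2, hψ.eq Z hmZ] at h5
      exact Subtype.ext h5.symm

/-- the residues are permuted if there are enough inertia elements -/
theorem GDM.perm_of_inertia [IsAlgClosed Ω] [IsAlgClosed H] [IsAlgClosed A]
    (hc : CfM A H K₀ Y Z p e n v w a U t) (hCP : CP A H K₀ t)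
    (hG : GDM A H K₀ Y Z p e n v w a U t A₁ A₂ T s ξ f)
    (hP : Plc A V r) (hH : ∀ x ∈ H, x ∈ V) (Q : A → Prop)
    (hI : ∀ c ζ : A, c ^ p = c → Q c → ζ ^ e = 1 →
      ∃ σ ∈ Fx k (H : Set Ω), σ a = ζ * a ∧ σ U = U + c ∧ (∀ x, σ x ∈ V ↔ x ∈ V) ∧
        ∀ (x : Ω) (h : x ∈ V) (h' : σ x ∈ V), r ⟨σ x, h'⟩ = r ⟨x, h⟩)
    (g : A ≃ₐ[k] A) (hg : g ∈ Fx k (K₀ : Set A))
    (hQ : ∀ i : Fin m, V.valuation (T i - t) < 1 → ∀ ψ, ResE A V r (ξ i) ψ →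
      Q (ψ Y - g (ψ Y))) :
    ∃ π : Equiv.Perm {i : Fin m // (∀ x, ξ i x ∈ V) ∧ V.valuation (T i - t) ≠ 1},
        ∀ i, V.valuation (T (π i) - t) = V.valuation (T i - t) ∧
          ∀ ψ ψ', ResE A V r (ξ i) ψ → ResE A V r (ξ (π i)) ψ' →
            ∀ x ∈ KYZ K₀ Y Z, g (ψ x) = ψ' x := by
  classical
  have ht := hCP.t_mem hP hH
  have hlt : ∀ i : {i : Fin m // (∀ x, ξ i x ∈ V) ∧ V.valuation (T i - t) ≠ 1},
      V.valuation (T i - t) < 1 := fun i => (hG.idx_iff hc hCP hP hH i).1 i.2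
  have htd : Algebra.trdeg k A < Cardinal.aleph0 := by
    rw [hc.tdA]
    exact Cardinal.natCast_lt_aleph0
  choose ψ hψ using fun i : {i : Fin m // (∀ x, ξ i x ∈ V) ∧ V.valuation (T i - t) ≠ 1} =>
    exists_resE_F A htd V r hP (ξ i) i.2.1
  have hK : ∀ (i : {i : Fin m // (∀ x, ξ i x ∈ V) ∧ V.valuation (T i - t) ≠ 1}), ∀ x ∈ K₀,
      ψ i x = x := fun i x hx => hG.psi_K₀ hc hP hH ht i (hlt i) (ψ i) (hψ i) x hx
  -- the differences are zeros of `X ^ p - X`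
  have := hc.ch
  have : CharP A p := (Algebra.charP_iff k A p).1 hc.ch
  have : Fact p.Prime := ⟨hc.pp⟩
  have hsub : ∀ x y : A, (x - y) ^ p - (x - y) = (x ^ p - x) - (y ^ p - y) := by
    intro x y
    rw [sub_pow_char]
    ring
  have hφ : ∀ i, (ψ i Y) ^ p - ψ i Y = Y ^ p - Y := by
    intro i
    rw [← map_pow, ← map_sub]
    exact hK i _ hc.YK
  have hc0 : ∀ i, (ψ i Y - g (ψ i Y)) ^ p = ψ i Y - g (ψ i Y) := by
    intro i
    have h1 : (g (ψ i Y)) ^ p - g (ψ i Y) = Y ^ p - Y := by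
      rw [← map_pow, ← map_sub, hφ]
      exact hg _ hc.YK
    rw [← sub_eq_zero, hsub, hφ, h1, sub_self]
  have hψZ : ∀ i, ψ i Z ≠ 0 := fun i => (_root_.map_ne_zero _).2 hc.Z0
  have hgZ : ∀ i, g (ψ i Z) ≠ 0 := fun i => (_root_.map_ne_zero _).2 (hψZ i)
  have hz0 : ∀ i, (ψ i Z / g (ψ i Z)) ^ e = 1 := by
    intro i
    have h1 : (ψ i Z) ^ e = Z ^ e := by
      rw [← map_pow]
      exact hK i _ hc.ZK
    have h2 : (g (ψ i Z)) ^ e = Z ^ e := by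
      rw [← map_pow, h1]
      exact hg _ hc.ZK
    rw [div_pow, h1, h2, div_self (pow_ne_zero _ hc.Z0)]
  -- the inertia elements
  have hτ : ∀ c ζ : A, ∃ π : Equiv.Perm (Fin m), c ^ p = c → Q c → ζ ^ e = 1 →
      ∀ (i : {i : Fin m // (∀ x, ξ i x ∈ V) ∧ V.valuation (T i - t) ≠ 1}) (ψ : A ≃ₐ[k] A),
        ResE A V r (ξ i) ψ →
        V.valuation (T (π i) - t) < 1 ∧ ∀ ψ', ResE A V r (ξ (π i)) ψ' →
          ψ Y = ψ' Y + c ∧ ψ Z = ζ * ψ' Z := by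
    intro c ζ
    by_cases h : c ^ p = c ∧ Q c ∧ ζ ^ e = 1
    swap
    · exact ⟨1, fun h1 h2 h3 => absurd ⟨h1, h2, h3⟩ h⟩
    obtain ⟨h1, h2, h3⟩ := h
    obtain ⟨σ, hσH, hσa, hσU, hσV, hσr⟩ := hI c ζ h1 h2 h3
    obtain ⟨π, hπ⟩ := hG.inertia hc hCP hP hH c ζ h1 h3 σ hσH hσa hσU hσV hσr
    exact ⟨π, fun _ _ _ => hπ⟩
  choose Pf hPf using hτ
  have hPf' : ∀ i : {i : Fin m // (∀ x, ξ i x ∈ V) ∧ V.valuation (T i - t) ≠ 1},
      V.valuation (T (Pf (ψ i Y - g (ψ i Y)) (ψ i Z / g (ψ i Z)) i) - t) < 1 ∧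
      ∀ ψ', ResE A V r (ξ (Pf (ψ i Y - g (ψ i Y)) (ψ i Z / g (ψ i Z)) i)) ψ' →
          ψ i Y = ψ' Y + (ψ i Y - g (ψ i Y)) ∧ ψ i Z = (ψ i Z / g (ψ i Z)) * ψ' Z :=
    fun i => hPf _ _ (hc0 i) (hQ i (hlt i) (ψ i) (hψ i)) (hz0 i) i (ψ i) (hψ i)
  -- the permutation
  let F : {i : Fin m // (∀ x, ξ i x ∈ V) ∧ V.valuation (T i - t) ≠ 1} →
      {i : Fin m // (∀ x, ξ i x ∈ V) ∧ V.valuation (T i - t) ≠ 1} := fun i =>
    ⟨Pf (ψ i Y - g (ψ i Y)) (ψ i Z / g (ψ i Z)) i, (hG.idx_iff hc hCP hP hH _).2 (hPf' i).1⟩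
  have hFY : ∀ i, ψ (F i) Y = g (ψ i Y) := by
    intro i
    have h1 := ((hPf' i).2 (ψ (F i)) (hψ (F i))).1
    linear_combination -h1
  have hFZ : ∀ i, ψ (F i) Z = g (ψ i Z) := by
    intro i
    have h1 := ((hPf' i).2 (ψ (F i)) (hψ (F i))).2
    rw [div_mul_eq_mul_div, eq_div_iff (hgZ i)] at h1
    exact (mul_left_cancel₀ (hψZ i) h1).symm
  have hinj : Function.Injective F := by
    intro i j hij
    have h1 : ψ i Y = ψ j Y := by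
      apply g.injective
      rw [← hFY, ← hFY, hij]
    have h1' : ψ i Z = ψ j Z := by
      apply g.injective
      rw [← hFZ, ← hFZ, hij]
    have h2 := congrArg Subtype.val hij
    have h3 : Pf (ψ i Y - g (ψ i Y)) (ψ i Z / g (ψ i Z)) i =
      Pf (ψ j Y - g (ψ j Y)) (ψ j Z / g (ψ j Z)) j := h2
    rw [h1, h1'] at h3
    exact Subtype.ext ((Pf _ _).injective h3)
  refine ⟨Equiv.ofBijective F (Finite.injective_iff_bijective.1 hinj), fun i => ⟨?_, ?_⟩⟩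
  · exact hG.val_near hc hCP hP hH _ _ (hlt (F i)) (hlt i)
  · intro ψ₁ ψ₂ h₁ h₂
    rw [h₁.unique (hψ i), h₂.unique (hψ (F i))]
    refine ext_yz ((g : A →ₐ[k] A).comp (ψ i : A →ₐ[k] A)) (ψ (F i) : A →ₐ[k] A) ?_ ?_ ?_
    · intro x hx
      show g (ψ i x) = ψ (F i) x
      rw [hK i x hx, hK (F i) x hx, hg x hx]
    · exact (hFY i).symm
    · exact (hFZ i).symm

/-- `a = ∞`: `L = K₀` -/
theorem GDM.locB_inf [IsAlgClosed Ω] [IsAlgClosed H] [IsAlgClosed A]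
    (hc : CfM A H K₀ Y Z p e n v w a U t) (hCP : CP A H K₀ t)
    (hG : GDM A H K₀ Y Z p e n v w a U t A₁ A₂ T s ξ f)
    (hP : Plc A V r) (hH : ∀ x ∈ H, x ∈ V) (ha : a ∉ V) :
    LocB A (GoodM K₀ Y Z) (KYZ K₀ Y Z) ξ (fun i => T i - t) V r := by
  refine ⟨K₀, Or.inr (Or.inl rfl), hc.al, fun g hg => ?_⟩
  exact hG.perm_of_inertia hc hCP hP hH (fun _ => True)
    (fun c ζ h1 _ h3 => hc.exists_inf hP hH ha (c : Ω) (ζ : Ω)
      (congrArg (fun x : A => (x : Ω)) h1) (congrArg (fun x : A => (x : Ω)) h3))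
    g hg (fun _ _ _ _ => trivial)

/-- `a = 0`: `L = K₀(Y)` -/
theorem GDM.locB_zero [IsAlgClosed Ω] [IsAlgClosed H] [IsAlgClosed A]
    (hc : CfM A H K₀ Y Z p e n v w a U t) (hCP : CP A H K₀ t)
    (hG : GDM A H K₀ Y Z p e n v w a U t A₁ A₂ T s ξ f)
    (hP : Plc A V r) (hH : ∀ x ∈ H, x ∈ V) (ha : V.valuation a < 1) :
    LocB A (GoodM K₀ Y Z) (KYZ K₀ Y Z) ξ (fun i => T i - t) V r := by
  have ht := hCP.t_mem hP hH
  have hle : K₀ ≤ KZ K₀ Y := le_sup_left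
  have hY : Y ∈ KZ K₀ Y := (le_sup_right : IntermediateField.adjoin k {Y} ≤ KZ K₀ Y)
    (IntermediateField.mem_adjoin_simple_self k Y)
  refine ⟨KZ K₀ Y, Or.inr (Or.inr (Or.inl rfl)), fun x => alg_up hle (hc.al x),
    fun g hg => ?_⟩
  exact hG.perm_of_inertia hc hCP hP hH (fun c => c = 0)
    (fun c ζ _ h2 h3 => by
      obtain ⟨σ, h4, h5, h6, h7⟩ := hc.exists_zero hP hH ha (ζ : Ω)
        (congrArg (fun x : A => (x : Ω)) h3)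
      refine ⟨σ, h4, h5, ?_, h7⟩
      rw [h6, h2]
      exact (add_zero U).symm)
    g (fun x hx => hg x (hle hx)) (fun i hi ψ hψ => by
      rw [hG.psi_Y0 hc hP hH ht ha i hi ψ hψ, hg Y hY, sub_self])

/-- the other values of `a` -/
theorem GDM.locB_H [IsAlgClosed Ω] [IsAlgClosed H] [IsAlgClosed A]
    (hc : CfM A H K₀ Y Z p e n v w a U t) (hCP : CP A H K₀ t)
    (hG : GDM A H K₀ Y Z p e n v w a U t A₁ A₂ T s ξ f)
    (hP : Plc A V r) (hH : ∀ x ∈ H, x ∈ V)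
    (hb : ∀ b : A, b ≠ 0 → b ^ (p ^ n) = b → ¬ V.valuation (a ^ e - b) < 1) :
    LocB A (GoodM K₀ Y Z) (KYZ K₀ Y Z) ξ (fun i => T i - t) V r := by
  by_cases ha : a ∉ V
  · exact hG.locB_inf hc hCP hP hH ha
  rw [not_not] at ha
  rcases lt_or_eq_of_le ((V.valuation_le_one_iff a).2 ha) with h1 | h1
  · exact hG.locB_zero hc hCP hP hH h1
  have ht := hCP.t_mem hP hH
  have haV : a ^ e ∈ V := pow_mem ha e
  have hemp : IsEmpty {i : Fin m // (∀ x, ξ i x ∈ V) ∧ V.valuation (T i - t) ≠ 1} := by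
    refine ⟨fun i => ?_⟩
    have hlt : V.valuation (T i - t) < 1 := (hG.idx_iff hc hCP hP hH i).1 i.2
    have h2 := hG.res_y hc hP hH ht haV i hlt
    have h3 : V.valuation (a ^ e - r ⟨a ^ e, haV⟩) < 1 :=
      (hP.res.eq_of_sub hP.mem haV (hP.mem _ (hP.res.mem _))).1
        (hP.res.fix _ _ (hP.res.mem _)).symm
    refine hb ⟨r ⟨a ^ e, haV⟩, hP.res.mem _⟩ ?_ (Subtype.ext h2) h3
    intro h0
    have h4 : r ⟨a ^ e, haV⟩ = 0 := congrArg (fun x : A => (x : Ω)) h0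
    rw [h4, sub_zero, map_pow, h1, one_pow] at h3
    exact lt_irrefl _ h3
  refine ⟨K₀, Or.inr (Or.inl rfl), hc.al, fun g _ => ⟨1, fun i => ?_⟩⟩
  exact hemp.elim i

end

end Pool.Agent.FRB
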