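import Pool.Agent.FRB.M6c
import Pool.Agent.FRB.M10

/-!
# Block G
-/

set_option autoImplicit false

namespace Pool.Agent.FRB

open Polynomial Pool.Agent.TBR Pool.Agent.TUQ Pool.Agent.WLD

universe u

/-- block G: the geometry of the embeddings -/
theorem blockGM (k Ω : Type u) [Field k] [Field Ω] [Algebra k Ω] : BlockGM k Ω := by
  intro hΩ A H hA hH K₀ Y Z p e n v w a U t hc hNU
  obtain ⟨t', hc', hCP⟩ := hc.exists_coord
  have hyH := hc'.yH hNU
  obtain ⟨A₁, A₂, m, T, s, ξ, f, hG⟩ := hc'.exists_GD hyH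
  refine ⟨m, ξ, fun i => T i - t', fun i => sub_ne_zero.2 (hG.Tt i), fun V r hP => ⟨?_, ?_⟩⟩
  · intro b hb0 hb hy
    have halg : IsAlgebraic k (b : Ω) := by
      have hpn : (p ^ n) ≠ 0 := pow_ne_zero _ hc'.pp.ne_zero
      have h1 : 1 < p ^ n := Nat.one_lt_pow hc'.n0.ne' hc'.pp.one_lt
      refine ⟨X ^ (p ^ n) - X, ?_, ?_⟩
      · exact FiniteField.X_pow_card_sub_X_ne_zero k h1
      · rw [map_sub, map_pow, aeval_X, sub_eq_zero]
        exact congrArg Subtype.val hb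
    have hHV := hc'.H_mem hNU hP (b : Ω) halg (fun h => hb0 (Subtype.ext h)) hy
    refine ⟨fun i hi hi' => ?_, hG.val_prod hc' hCP hP hHV b hb hy⟩
    have h1 := (hG.idx_iff hc' hCP hP hHV i).1 ⟨hi, hi'⟩
    have ht := hCP.t_mem hP hHV
    exact ⟨h1, fun ψ hψ => ⟨fun x hx => hG.psi_K₀ hc' hP hHV ht i h1 ψ hψ x hx,
      hG.psi_b hc' hP hHV ht b hb0 hb hy i h1 ψ hψ⟩⟩
  · intro hb
    by_cases hHV : ∀ x ∈ H, x ∈ V
    · exact hG.locB_H hc' hCP hP hHV hb
    · push Not at hHV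
      exact locB_of_notMem hc' hNU hG hP hHV

end Pool.Agent.FRB
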