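import Pool.Agent.KTW.E2

/-!
# Cyclic Kummer extensions of hypersurfaces of low degree, `2 ≠ 0`
-/

set_option autoImplicit false

namespace Pool.Agent.FRB

open Polynomial Pool.Agent.TBR Pool.Agent.TUQ Pool.Agent.UQ Pool.Agent.WLD Pool.Agent.ADT
  Pool.Agent.KTW

universe u v

section Arc

variable {k : Type u} {K : Type v} [Field k] [Field K] [Algebra k K] [IsAlgClosed K] {m : ℕ}

/-- arcs on `P = 0`, `G φ(w) = H` -/
theorem arc_strict2 (φ : k[X]) (P H G : MvPolynomial (Fin m) k) (i₀ : Fin m) (w : Fin m → ℕ)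
    (d D : ℕ)
    (hdP : MvPolynomial.weightedTotalDegree w P ≤ d)
    (hdH : MvPolynomial.weightedTotalDegree w H ≤ D)
    (hdG : MvPolynomial.weightedTotalDegree w G + φ.natDegree * w i₀ ≤ D)
    (hsum : d + D < ∑ i, w i)
    (ξ : Fin m → K) (hP : MvPolynomial.aeval ξ P = 0)
    (h0 : MvPolynomial.aeval ξ G * aeval (ξ i₀) φ = MvPolynomial.aeval ξ H) :
    ∃ 𝒳 : Fin m → K[X], (∀ i, (𝒳 i).eval 0 = ξ i) ∧ MvPolynomial.aeval 𝒳 P = 0 ∧
      MvPolynomial.aeval 𝒳 G * aeval (𝒳 i₀) φ = MvPolynomial.aeval 𝒳 H ∧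
      ∃ i, (𝒳 i).natDegree ≠ 0 := by
  classical
  let ι := (Σ i : Fin m, Fin (w i))
  let R := MvPolynomial ι K
  let 𝒴 : Fin m → R[X] := fun i => ser (MvPolynomial.C (ξ i))
    (fun j => MvPolynomial.X ⟨i, j⟩)
  have hcard : Fintype.card ι = ∑ i, w i := by
    simp [ι, Fintype.card_sigma]
  have halg : ∀ a : k, algebraMap k R a = MvPolynomial.C (algebraMap k K a) := fun a => rfl
  have hRaev : ∀ P : MvPolynomial (Fin m) k,
      MvPolynomial.aeval (fun i => (MvPolynomial.C (ξ i) : R)) P =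
        MvPolynomial.C (MvPolynomial.aeval ξ P) := fun P =>
    MvPolynomial.aeval_algebraMap_apply (R := k) (A := K) R ξ P
  have hKaev : ∀ P : MvPolynomial (Fin m) k, MvPolynomial.aeval (fun i => (C (ξ i) : K[X])) P =
      C (MvPolynomial.aeval ξ P) := fun P =>
    MvPolynomial.aeval_algebraMap_apply (R := k) (A := K) K[X] ξ P
  have hRφ : aeval (MvPolynomial.C (ξ i₀) : R) φ = MvPolynomial.C (aeval (ξ i₀) φ) :=
    Polynomial.aeval_algebraMap_apply (R := k) (A := K) R (ξ i₀) φ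
  have hKφ : aeval (C (ξ i₀) : K[X]) φ = C (aeval (ξ i₀) φ) :=
    Polynomial.aeval_algebraMap_apply (R := k) (A := K) K[X] (ξ i₀) φ
  obtain ⟨y, hy, hy'⟩ := exists_map_eq_zero (K := K) (ι := ι)
    (MvPolynomial.aeval 𝒴 P + X ^ d *
      (MvPolynomial.aeval 𝒴 G * aeval (𝒴 i₀) φ - MvPolynomial.aeval 𝒴 H))
    (by
      rw [hcard]
      have h0' : (MvPolynomial.aeval 𝒴 P).natDegree ≤ MvPolynomial.weightedTotalDegree w P :=
        natDegree_aeval_le P w 𝒴 (fun i => ser_natDegree _ _)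
      have h1 : (MvPolynomial.aeval 𝒴 G).natDegree ≤ MvPolynomial.weightedTotalDegree w G :=
        natDegree_aeval_le G w 𝒴 (fun i => ser_natDegree _ _)
      have h2 : (MvPolynomial.aeval 𝒴 H).natDegree ≤ MvPolynomial.weightedTotalDegree w H :=
        natDegree_aeval_le H w 𝒴 (fun i => ser_natDegree _ _)
      have h3 : (aeval (𝒴 i₀) φ).natDegree ≤ φ.natDegree * w i₀ :=
        (natDegree_aeval_poly φ (𝒴 i₀)).trans (Nat.mul_le_mul_left _ (ser_natDegree _ _))
      have h6 := natDegree_mul_le (p := MvPolynomial.aeval 𝒴 G) (q := aeval (𝒴 i₀) φ)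
      have h7 := natDegree_sub_le (MvPolynomial.aeval 𝒴 G * aeval (𝒴 i₀) φ)
        (MvPolynomial.aeval 𝒴 H)
      have h8 := natDegree_mul_le (p := (X ^ d : R[X]))
        (q := MvPolynomial.aeval 𝒴 G * aeval (𝒴 i₀) φ - MvPolynomial.aeval 𝒴 H)
      have h9 : (X ^ d : R[X]).natDegree ≤ d := natDegree_X_pow_le d
      have h10 := natDegree_add_le (MvPolynomial.aeval 𝒴 P) (X ^ d *
        (MvPolynomial.aeval 𝒴 G * aeval (𝒴 i₀) φ - MvPolynomial.aeval 𝒴 H))
      omega)
    (by
      rw [coeff_zero_eq_eval_zero, eval_add, eval_mul, eval_sub, eval_mul, eval_aeval_mv,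
        eval_aeval_mv, eval_aeval_mv, eval_aeval_poly]
      simp only [𝒴, ser_eval]
      rw [hRaev, hRaev, hRaev, hRφ, ← map_mul, h0, sub_self, mul_zero, hP, map_zero, add_zero])
    (by
      have hcc : ∀ a : k, (MvPolynomial.constantCoeff : MvPolynomial ι K →+* K)
          (algebraMap k R a) = algebraMap k K a := fun a => by
        have h : algebraMap k (MvPolynomial ι K) a = MvPolynomial.C (algebraMap k K a) := rfl
        rw [h, MvPolynomial.constantCoeff_C]
      rw [Polynomial.map_add, Polynomial.map_mul, Polynomial.map_sub, Polynomial.map_mul,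
        map_aeval_mv (k := k) (MvPolynomial.constantCoeff : MvPolynomial ι K →+* K) hcc P 𝒴,
        map_aeval_mv (k := k) (MvPolynomial.constantCoeff : MvPolynomial ι K →+* K) hcc G 𝒴,
        map_aeval_mv (k := k) (MvPolynomial.constantCoeff : MvPolynomial ι K →+* K) hcc H 𝒴,
        map_aeval_poly (k := k) (MvPolynomial.constantCoeff : MvPolynomial ι K →+* K) hcc φ (𝒴 i₀)]
      simp only [𝒴, ser_map, MvPolynomial.constantCoeff_C, MvPolynomial.constantCoeff_X, ser_zero]
      rw [hKaev, hKaev, hKaev, hKφ, ← C_mul, h0, sub_self, mul_zero, hP, C_0, add_zero])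
  have hC : ∀ c : K, (MvPolynomial.aeval y : MvPolynomial ι K →ₐ[K] K).toRingHom
      (MvPolynomial.C c) = c := fun c => (MvPolynomial.aeval_C y c).trans rfl
  have hX : ∀ i, (MvPolynomial.aeval y : MvPolynomial ι K →ₐ[K] K).toRingHom
      (MvPolynomial.X i) = y i := fun i => MvPolynomial.aeval_X y i
  have hyc : ∀ a : k, (MvPolynomial.aeval y : MvPolynomial ι K →ₐ[K] K).toRingHom
      (algebraMap k R a) = algebraMap k K a := fun a => by
    rw [halg]
    exact hC _
  rw [Polynomial.map_add, Polynomial.map_mul, Polynomial.map_sub, Polynomial.map_mul,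
    Polynomial.map_pow, map_X,
    map_aeval_mv (k := k) (MvPolynomial.aeval y : MvPolynomial ι K →ₐ[K] K).toRingHom hyc P 𝒴,
    map_aeval_mv (k := k) (MvPolynomial.aeval y : MvPolynomial ι K →ₐ[K] K).toRingHom hyc G 𝒴,
    map_aeval_mv (k := k) (MvPolynomial.aeval y : MvPolynomial ι K →ₐ[K] K).toRingHom hyc H 𝒴,
    map_aeval_poly (k := k) (MvPolynomial.aeval y : MvPolynomial ι K →ₐ[K] K).toRingHom hyc φ
      (𝒴 i₀)] at hy'
  simp only [𝒴, ser_map, hC, hX] at hy'
  obtain ⟨𝒳, h𝒳⟩ : ∃ 𝒳 : Fin m → K[X], 𝒳 = fun i => ser (ξ i) (fun j => y ⟨i, j⟩) :=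
    ⟨_, rfl⟩
  have h𝒳i : ∀ i, ser (ξ i) (fun j => y ⟨i, j⟩) = 𝒳 i := fun i => by rw [h𝒳]
  have h𝒳e : ∀ i, (𝒳 i).eval 0 = ξ i := fun i => by
    rw [h𝒳]
    exact ser_eval _ _
  simp only [h𝒳i] at hy'
  obtain ⟨e1, e2⟩ := split_eq_zero d _ _ ((natDegree_aeval_le P w 𝒳 (fun i => by
      rw [h𝒳]
      exact ser_natDegree _ _)).trans hdP) (by
    rw [coeff_zero_eq_eval_zero, eval_sub, eval_mul, eval_aeval_mv, eval_aeval_mv,
      eval_aeval_poly]
    simp only [h𝒳e]
    rw [h0, sub_self]) hy'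
  refine ⟨𝒳, h𝒳e, e1, sub_eq_zero.1 e2, ?_⟩
  by_contra hcon
  push Not at hcon
  apply hy
  ext ⟨i, j⟩
  exact ser_natDegree_eq_zero (ξ i) (fun j => y ⟨i, j⟩) (by
      rw [h𝒳i]
      exact hcon i) j

end Arc

section Uni

variable {κ : Type u} [Field κ]

/-- the varieties `P = 0`, `G φ(w) = H` of weighted degree less than the sum of the weights are
uniruled -/
theorem uniruled_strict2 {L : Type u} [Field L] [Algebra κ L] {m : ℕ} (φ : κ[X])
    (hdeg : 1 < φ.natDegree) (ξ : Fin m → L)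
    (hgen : IntermediateField.adjoin κ (Set.range ξ) = ⊤)
    (hfin : Algebra.trdeg κ L < Cardinal.aleph0)
    (htr : (m : Cardinal) ≤ Algebra.trdeg κ L + 2) (i₀ : Fin m) (P : MvPolynomial (Fin m) κ)
    (hP0 : P ≠ 0) (hPv : i₀ ∉ P.vars) (hP : MvPolynomial.aeval ξ P = 0)
    (H G : MvPolynomial (Fin m) κ)
    (hH : i₀ ∉ H.vars) (hG : i₀ ∉ G.vars) (hG0 : MvPolynomial.aeval ξ G ≠ 0)
    (h0 : MvPolynomial.aeval ξ G * aeval (ξ i₀) φ = MvPolynomial.aeval ξ H) (w : Fin m → ℕ)
    (d D : ℕ) (hdP : MvPolynomial.weightedTotalDegree w P ≤ d)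
    (hdH : MvPolynomial.weightedTotalDegree w H ≤ D)
    (hdG : MvPolynomial.weightedTotalDegree w G + φ.natDegree * w i₀ ≤ D)
    (hsum : d + D < ∑ i, w i) : Uniruled κ L := by
  classical
  let K := AlgebraicClosure L
  let j : L →ₐ[κ] K := IsScalarTower.toAlgHom κ L K
  obtain ⟨𝒳, h1, hX, h2, i, hi⟩ := arc_strict2 (K := K) φ P H G i₀ w d D hdP hdH hdG hsum
    (fun i => j (ξ i)) (by rw [← MvPolynomial.comp_aeval_apply, hP, map_zero]) (by
    rw [← MvPolynomial.comp_aeval_apply, ← MvPolynomial.comp_aeval_apply,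
      Polynomial.aeval_algHom_apply, ← map_mul, h0])
  exact uniruled_of_arc2 φ hdeg ξ hgen hfin htr i₀ P hP0 hPv hP H G hH hG hG0 h0 𝒳 h1 hX h2 i hi

theorem wle_two {r : ℕ} (ω : Fin r → ℕ) (f : MvPolynomial (Fin r) κ) (n : ℕ)
    (h : MvPolynomial.weightedTotalDegree ω f ≤ n) :
    MvPolynomial.weightedTotalDegree (fun i => 2 * ω i) f ≤ 2 * n := by
  rw [wle_iff] at *
  intro d hd
  refine le_trans (le_of_eq ?_) (Nat.mul_le_mul_left 2 (h d hd))
  rw [Finsupp.weight_apply, Finsupp.weight_apply, Finsupp.sum_fintype _ _ (by simp),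
    Finsupp.sum_fintype _ _ (by simp), Finset.mul_sum]
  refine Finset.sum_congr rfl fun i _ => ?_
  rw [smul_eq_mul, smul_eq_mul]
  ring

/-- the threefold `g(x) = 0`, `w ^ e (1 + a ^ 2) = h(x)` is uniruled -/
theorem kum_uni {K₀ L : Type u} [Field K₀] [Field L] [Algebra κ K₀]
    [Algebra κ L] [Algebra K₀ L] [IsScalarTower κ K₀ L] {r : ℕ} (x : Fin r → K₀)
    (hK₀ : IntermediateField.adjoin κ (Set.range x) = ⊤) (htd : Algebra.trdeg κ K₀ + 1 = r)
    (g₀ h : MvPolynomial (Fin r) κ) (hg0 : g₀ ≠ 0) (hg₀ : MvPolynomial.aeval x g₀ = 0)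
    (e : ℕ) (a w : L) (ha : Transcendental K₀ a) (hw0 : w ≠ 0)
    (hw : w ^ e * (1 + a ^ 2) = algebraMap K₀ L (MvPolynomial.aeval x h))
    (hgen : IntermediateField.adjoin K₀ {a, w} = ⊤) (ω : Fin r → ℕ)
    (hω : 2 * MvPolynomial.weightedTotalDegree ω g₀ + MvPolynomial.weightedTotalDegree ω h <
      2 * ∑ i, ω i) : Uniruled κ L := by
  classical
  obtain ⟨d, hd⟩ : ∃ d, d = MvPolynomial.weightedTotalDegree ω g₀ := ⟨_, rfl⟩
  obtain ⟨D, hD⟩ : ∃ D, D = MvPolynomial.weightedTotalDegree ω h := ⟨_, rfl⟩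
  rw [← hd, ← hD] at hω
  let g : Fin r → Fin (r + 1 + 1) := fun i => i.castSucc.castSucc
  have hg : Function.Injective g := fun i j h =>
    Fin.castSucc_injective _ (Fin.castSucc_injective _ h)
  let i₀ : Fin (r + 1 + 1) := Fin.last (r + 1)
  let i₁ : Fin (r + 1 + 1) := (Fin.last r).castSucc
  let ξ : Fin (r + 1 + 1) → L :=
    Fin.snoc (Fin.snoc (fun i => algebraMap K₀ L (x i)) w) a
  let Ω : Fin (r + 1 + 1) → ℕ := Fin.snoc (Fin.snoc (fun i => 2 * ω i) 0) D
  have ξg : ∀ i, ξ (g i) = algebraMap K₀ L (x i) := fun i => by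
    simp only [ξ, g, Fin.snoc_castSucc]
  have ξ0 : ξ i₀ = a := by simp only [ξ, i₀, Fin.snoc_last]
  have ξ1 : ξ i₁ = w := by simp only [ξ, i₁, Fin.snoc_castSucc, Fin.snoc_last]
  have Ωg : (fun i => Ω (g i)) = fun i => 2 * ω i := by
    funext i
    simp only [Ω, g, Fin.snoc_castSucc]
  have Ω0 : Ω i₀ = D := by simp only [Ω, i₀, Fin.snoc_last]
  have Ω1 : Ω i₁ = 0 := by simp only [Ω, i₁, Fin.snoc_castSucc, Fin.snoc_last]
  have hsum : ∑ i, Ω i = 2 * ∑ i, ω i + D := by
    rw [Fin.sum_univ_castSucc, Fin.sum_univ_castSucc, Finset.mul_sum]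
    simp only [Ω, Fin.snoc_castSucc, Fin.snoc_last, add_zero]
  have hr : ∀ P : MvPolynomial (Fin r) κ, MvPolynomial.aeval ξ (MvPolynomial.rename g P) =
        algebraMap K₀ L (MvPolynomial.aeval x P) := by
    intro P
    rw [MvPolynomial.aeval_rename, ← MvPolynomial.aeval_algebraMap_apply (A := K₀) (B := L) x P]
    congr 2
    ext i
    exact ξg i
  have hgi : ∀ i, g i ≠ i₀ := fun i h => Fin.castSucc_ne_last _ h
  have hv : ∀ P : MvPolynomial (Fin r) κ, i₀ ∉ (MvPolynomial.rename g P).vars := by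
    intro P hr
    have := MvPolynomial.vars_rename g P hr
    rw [Finset.mem_image] at this
    obtain ⟨j, -, hj⟩ := this
    exact hgi j hj
  have hi : i₁ ≠ i₀ := fun h => Fin.castSucc_ne_last _ h
  -- generators
  have hgen' : IntermediateField.adjoin κ (Set.range ξ) = ⊤ := by
    set E := IntermediateField.adjoin κ (Set.range ξ) with hE
    have hmem : ∀ i, ξ i ∈ E := fun i => IntermediateField.subset_adjoin κ _ ⟨i, rfl⟩
    have hK : ∀ b : K₀, algebraMap K₀ L b ∈ E := by
      intro b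
      have h1 : (⊤ : IntermediateField κ K₀) ≤ E.comap (IsScalarTower.toAlgHom κ K₀ L) := by
        rw [← hK₀, IntermediateField.adjoin_le_iff]
        rintro _ ⟨i, rfl⟩
        show algebraMap K₀ L (x i) ∈ E
        rw [← ξg]
        exact hmem _
      exact h1 (IntermediateField.mem_top (x := b))
    have hw' : w ∈ E := by
      rw [← ξ1]
      exact hmem _
    have ha' : a ∈ E := by
      rw [← ξ0]
      exact hmem _
    let E' : IntermediateField K₀ L :=
      { E.toSubfield with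
        algebraMap_mem' := hK }
    have h1 : (⊤ : IntermediateField K₀ L) ≤ E' := by
      rw [← hgen, IntermediateField.adjoin_le_iff]
      rintro c (rfl | rfl)
      · exact ha'
      · exact hw'
    rw [eq_top_iff]
    intro b _
    exact h1 (IntermediateField.mem_top (x := b))
  -- the transcendence degree
  have hEss : Algebra.EssFiniteType K₀ L := by
    rw [← IntermediateField.fg_top_iff, ← hgen]
    exact IntermediateField.fg_adjoin_of_finite (Set.toFinite _)
  have hfin : Algebra.trdeg K₀ L < Cardinal.aleph0 := trdeg_lt_aleph0 K₀ L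
  have hadd' := trdeg_add_eq κ K₀ (A := L)
  have hfin₀ : Algebra.trdeg κ K₀ < Cardinal.aleph0 := by
    refine lt_of_le_of_lt (self_le_add_right _ 1) ?_
    rw [htd]
    exact Cardinal.natCast_lt_aleph0
  have hfin' : Algebra.trdeg κ L < Cardinal.aleph0 := by
    rw [← hadd']
    exact Cardinal.add_lt_aleph0 hfin₀ hfin
  have h1' : (1 : Cardinal) ≤ Algebra.trdeg K₀ L := by
    rw [Cardinal.one_le_iff_ne_zero, trdeg_ne_zero_iff]
    exact ⟨a, ha⟩
  have hwr : ∀ (P : MvPolynomial (Fin r) κ) (n : ℕ), MvPolynomial.weightedTotalDegree ω P ≤ n →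
      MvPolynomial.weightedTotalDegree Ω (MvPolynomial.rename g P) ≤ 2 * n := fun P n h =>
    wle_rename Ω g hg P _ (by rw [Ωg]; exact wle_two ω P n h)
  have hφ : (1 + X ^ 2 : κ[X]).natDegree = 2 := by compute_degree!
  refine uniruled_strict2 (1 + X ^ 2) (by rw [hφ]; norm_num) ξ hgen' hfin' ?_ i₀
    (MvPolynomial.rename g g₀) ?_ (hv g₀) ?_
    (MvPolynomial.rename g h) (MvPolynomial.X i₁ ^ e)
    (hv h) ?_ ?_ ?_ Ω (2 * d) (2 * D) (hwr _ _ hd.ge) (hwr _ _ hD.ge) ?_ ?_
  · rw [← hadd']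
    push_cast
    rw [← htd, add_assoc, add_assoc, add_assoc]
    gcongr
    norm_num
  · intro h
    exact hg0 (MvPolynomial.rename_injective g hg (by rw [h, map_zero]))
  · rw [hr, hg₀, map_zero]
  · intro h
    have := MvPolynomial.vars_pow _ e h
    rw [MvPolynomial.vars_X, Finset.mem_singleton] at this
    exact hi this.symm
  · rw [map_pow, MvPolynomial.aeval_X, ξ1]
    exact pow_ne_zero _ hw0
  · rw [map_pow, MvPolynomial.aeval_X, hr, ← hw, ξ0, ξ1, map_add, map_one, map_pow, aeval_X]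
  · rw [hφ, Ω0]
    have h1 := wle_X_pow (k := κ) Ω i₁ e
    rw [Ω1, mul_zero] at h1
    omega
  · rw [hsum]
    omega

/-- the surface `g(x) = 0`, `y ^ 2 = h(x)` is uniruled -/
theorem sqrt_uni {L : Type u} [Field L] [Algebra κ L] {r : ℕ} (x : Fin r → L) (y : L)
    (hgen : IntermediateField.adjoin κ (Set.range x ∪ {y}) = ⊤)
    (htd : Algebra.trdeg κ L + 1 = r)
    (g₀ h : MvPolynomial (Fin r) κ) (hg0 : g₀ ≠ 0) (hg₀ : MvPolynomial.aeval x g₀ = 0)
    (hy : y ^ 2 = MvPolynomial.aeval x h) (ω : Fin r → ℕ)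
    (hω : 2 * MvPolynomial.weightedTotalDegree ω g₀ + MvPolynomial.weightedTotalDegree ω h <
      2 * ∑ i, ω i) : Uniruled κ L := by
  classical
  obtain ⟨d, hd⟩ : ∃ d, d = MvPolynomial.weightedTotalDegree ω g₀ := ⟨_, rfl⟩
  obtain ⟨D, hD⟩ : ∃ D, D = MvPolynomial.weightedTotalDegree ω h := ⟨_, rfl⟩
  rw [← hd, ← hD] at hω
  let g : Fin r → Fin (r + 1) := fun i => i.castSucc
  have hg : Function.Injective g := fun i j h => Fin.castSucc_injective _ h
  let i₀ : Fin (r + 1) := Fin.last r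
  let ξ : Fin (r + 1) → L := Fin.snoc x y
  let Ω : Fin (r + 1) → ℕ := Fin.snoc (fun i => 2 * ω i) D
  have ξg : ∀ i, ξ (g i) = x i := fun i => by
    simp only [ξ, g, Fin.snoc_castSucc]
  have ξ0 : ξ i₀ = y := by simp only [ξ, i₀, Fin.snoc_last]
  have Ωg : (fun i => Ω (g i)) = fun i => 2 * ω i := by
    funext i
    simp only [Ω, g, Fin.snoc_castSucc]
  have Ω0 : Ω i₀ = D := by simp only [Ω, i₀, Fin.snoc_last]
  have hsum : ∑ i, Ω i = 2 * ∑ i, ω i + D := by
    rw [Fin.sum_univ_castSucc, Finset.mul_sum]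
    simp only [Ω, Fin.snoc_castSucc, Fin.snoc_last]
  have hr : ∀ P : MvPolynomial (Fin r) κ, MvPolynomial.aeval ξ (MvPolynomial.rename g P) =
        MvPolynomial.aeval x P := by
    intro P
    rw [MvPolynomial.aeval_rename]
    congr 2
    ext i
    exact ξg i
  have hgi : ∀ i, g i ≠ i₀ := fun i h => Fin.castSucc_ne_last _ h
  have hv : ∀ P : MvPolynomial (Fin r) κ, i₀ ∉ (MvPolynomial.rename g P).vars := by
    intro P hr
    have := MvPolynomial.vars_rename g P hr
    rw [Finset.mem_image] at this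
    obtain ⟨j, -, hj⟩ := this
    exact hgi j hj
  have hgen' : IntermediateField.adjoin κ (Set.range ξ) = ⊤ := by
    rw [eq_top_iff, ← hgen, IntermediateField.adjoin_le_iff]
    rintro _ (⟨i, rfl⟩ | rfl)
    · rw [← ξg]
      exact IntermediateField.subset_adjoin κ _ ⟨_, rfl⟩
    · rw [← ξ0]
      exact IntermediateField.subset_adjoin κ _ ⟨_, rfl⟩
  have hfin : Algebra.trdeg κ L < Cardinal.aleph0 := by
    refine lt_of_le_of_lt (self_le_add_right _ 1) ?_
    rw [htd]
    exact Cardinal.natCast_lt_aleph0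
  have hwr : ∀ (P : MvPolynomial (Fin r) κ) (n : ℕ), MvPolynomial.weightedTotalDegree ω P ≤ n →
      MvPolynomial.weightedTotalDegree Ω (MvPolynomial.rename g P) ≤ 2 * n := fun P n h =>
    wle_rename Ω g hg P _ (by rw [Ωg]; exact wle_two ω P n h)
  have hφ : (X ^ 2 : κ[X]).natDegree = 2 := natDegree_X_pow 2
  refine uniruled_strict2 (X ^ 2) (by rw [hφ]; norm_num) ξ hgen' hfin ?_ i₀
    (MvPolynomial.rename g g₀) ?_ (hv g₀) ?_
    (MvPolynomial.rename g h) 1
    (hv h) ?_ ?_ ?_ Ω (2 * d) (2 * D) (hwr _ _ hd.ge) (hwr _ _ hD.ge) ?_ ?_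
  · push_cast
    rw [← htd, add_assoc]
    gcongr
    norm_num
  · intro h
    exact hg0 (MvPolynomial.rename_injective g hg (by rw [h, map_zero]))
  · rw [hr, hg₀]
  · intro h
    have h1 : (1 : MvPolynomial (Fin (r + 1)) κ) = MvPolynomial.C 1 := by rw [map_one]
    rw [h1, MvPolynomial.vars_C] at h
    simp at h
  · rw [map_one]
    exact one_ne_zero
  · rw [map_one, one_mul, hr, ξ0, map_pow, aeval_X, hy]
  · rw [hφ, Ω0]
    have h1 := wle_one (k := κ) Ω
    omega
  · rw [hsum]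
    omega

end Uni

section Emt

variable {k M : Type u} [Field k] [Field M] [Algebra k M]

/-- **Cyclic Kummer extensions of hypersurfaces of low degree.** -/
theorem emt_kummer [IsAlgClosed M] (htd : Algebra.trdeg k M = 2) (E : IntermediateField k M)
    (hEfg : E.FG) {r : ℕ} (hr : Algebra.trdeg k E + r = 3) (x : Fin r → M)
    (K₀ : IntermediateField k M)
    (hK₀ : K₀ = E ⊔ IntermediateField.adjoin k (Set.range x)) (hal : ∀ y : M, IsAlgebraic K₀ y)
    (h2 : (2 : k) ≠ 0) (e : ℕ) (he : 2 ≤ e) (hek : (e : k) ≠ 0)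
    (g h : MvPolynomial (Fin r) E) (hg0 : g ≠ 0) (hg : MvPolynomial.aeval x g = 0) (z : M)
    (z0 : z ≠ 0) (hz : z ^ e = MvPolynomial.aeval x h) (zK : z ^ e ∈ K₀)
    (irr : Irreducible (X ^ e - C (⟨z ^ e, zK⟩ : K₀) : K₀[X])) (ω : Fin r → ℕ)
    (hω : 2 * MvPolynomial.weightedTotalDegree ω g + MvPolynomial.weightedTotalDegree ω h <
      2 * ∑ i, ω i) : Emt (KZ K₀ z) := by
  classical
  have hxfg : (IntermediateField.adjoin k (Set.range x) : IntermediateField k M).FG :=
    ⟨Finset.univ.image x, by rw [Finset.coe_image, Finset.coe_univ, Set.image_univ]⟩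
  have hfg : K₀.FG := by
    rw [hK₀]
    exact IntermediateField.fg_sup hEfg hxfg
  have hEfg' : (⊤ : IntermediateField k E).FG := by
    rw [IntermediateField.fg_top_iff]
    exact IntermediateField.essFiniteType_iff.2 hEfg
  have hle₀ : E ≤ K₀ := by
    rw [hK₀]
    exact le_sup_left
  have hxK₀ : ∀ i, x i ∈ K₀ := fun i => by
    rw [hK₀]
    exact (le_sup_right : IntermediateField.adjoin k (Set.range x) ≤ _)
      (IntermediateField.subset_adjoin _ _ ⟨i, rfl⟩)
  have h2' : (2 : E) ≠ 0 := by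
    intro h
    apply h2
    apply (algebraMap k E).injective
    rw [map_ofNat, map_zero, h]
  have hlt : (2 : Cardinal.{u}) < Cardinal.aleph0 := by
    exact_mod_cast Cardinal.natCast_lt_aleph0 (n := 2)
  -- `trdeg` over `E` of the fields between `K₀` and `M`
  have htdE : ∀ (K : IntermediateField k M) (_ : K₀ ≤ K) [Algebra E K] [IsScalarTower k E K],
      Algebra.trdeg E K + 1 = r := by
    intro K hK _ _
    have hKal : Algebra.IsAlgebraic K M := ⟨fun y => alg_le hK (hal y)⟩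
    have htdK : Algebra.trdeg k K = 2 := by
      have h3 := trdeg_add_eq k K (A := M)
      rwa [trdeg_eq_zero_iff.2 hKal, add_zero, htd] at h3
    have h5 := trdeg_add_eq k E (A := K)
    rw [htdK] at h5
    have hE2 : Algebra.trdeg k E ≤ 2 := by
      rw [← h5]
      exact self_le_add_right _ _
    have h6 : Algebra.trdeg k E + (Algebra.trdeg E K + 1) = Algebra.trdeg k E + r := by
      rw [hr, ← add_assoc, h5]
      norm_num
    exact Cardinal.eq_of_add_eq_add_left h6 (hE2.trans_lt hlt)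
  -- the base
  have hbase : Emt K₀ := emt_hyper htd E hEfg x hr K₀ hK₀ hal g hg0 hg ω (by omega)
  -- the double covers
  have hdbl : ∀ y : M, y ^ 2 = MvPolynomial.aeval x h → Emt (KZ K₀ y) := by
    intro y hy
    obtain ⟨K, hK⟩ : ∃ K, K = KZ K₀ y := ⟨_, rfl⟩
    rw [← hK]
    have hle : K₀ ≤ K := by
      rw [hK]
      exact le_sup_left
    have hEK : E ≤ K := hle₀.trans hle
    have hxK : ∀ i, x i ∈ K := fun i => hle (hxK₀ i)
    have hyK : y ∈ K := by
      rw [hK]
      exact (le_sup_right : IntermediateField.adjoin k {y} ≤ _)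
        (IntermediateField.subset_adjoin _ _ rfl)
    let ι : E →ₐ[k] K := IntermediateField.inclusion hEK
    let algE : Algebra E K := ι.toRingHom.toAlgebra
    have tow2 : IsScalarTower k E K :=
      IsScalarTower.of_algebraMap_eq (fun b => (ι.commutes b).symm)
    have tow4 : IsScalarTower E K M := IsScalarTower.of_algebraMap_eq (fun _ => rfl)
    let ξ : Fin r → K := fun i => ⟨x i, hxK i⟩
    have hval : ∀ P : MvPolynomial (Fin r) E, ((MvPolynomial.aeval ξ P : K) : M) =
        MvPolynomial.aeval x P := fun P =>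
      (MvPolynomial.aeval_algebraMap_apply (A := K) (B := M) ξ P).symm
    have hgen : IntermediateField.adjoin E (Set.range ξ ∪ {(⟨y, hyK⟩ : K)}) = ⊤ := by
      rw [eq_top_iff]
      intro b _
      obtain ⟨S, hS⟩ : ∃ S : Set K, S = Set.range ξ ∪ {(⟨y, hyK⟩ : K)} := ⟨_, rfl⟩
      rw [← hS]
      let N' : IntermediateField k M :=
        ((IntermediateField.adjoin E S).restrictScalars k).map K.val
      have hEN : E ≤ N' := fun c hc => ⟨⟨c, hEK hc⟩,
        (IntermediateField.adjoin E S).algebraMap_mem ⟨c, hc⟩, rfl⟩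
      have hx : IntermediateField.adjoin k (Set.range x) ≤ N' := by
        rw [IntermediateField.adjoin_le_iff]
        rintro _ ⟨i, rfl⟩
        refine ⟨⟨x i, hxK i⟩, IntermediateField.subset_adjoin E _ ?_, rfl⟩
        rw [hS]
        exact Or.inl ⟨i, rfl⟩
      have hyN : IntermediateField.adjoin k {y} ≤ N' := by
        rw [IntermediateField.adjoin_le_iff, Set.singleton_subset_iff]
        refine ⟨⟨y, hyK⟩, IntermediateField.subset_adjoin E _ ?_, rfl⟩
        rw [hS]
        exact Or.inr rfl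
      have hb : (b : M) ∈ (E ⊔ IntermediateField.adjoin k (Set.range x)) ⊔
          IntermediateField.adjoin k {y} := by
        rw [← hK₀]
        exact hK.le b.2
      obtain ⟨c, hc, hcb⟩ := (sup_le (sup_le hEN hx) hyN) hb
      have e : c = b := Subtype.ext hcb
      rw [← e]
      exact hc
    refine emt_of_uniruled K ?_ htd (fun y => alg_le hle (hal y)) (Uniruled.tower (E := E) hEfg'
      (sqrt_uni (κ := E) ξ (⟨y, hyK⟩ : K) hgen (htdE K hle) g h hg0 ?_ ?_ ω hω))
    · rw [hK]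
      exact IntermediateField.fg_sup hfg ⟨{y}, by rw [Finset.coe_singleton]⟩
    · apply Subtype.ext
      rw [hval, hg]
      rfl
    · apply Subtype.ext
      rw [hval, ← hy]
      rfl
  rcases eq_or_ne e 2 with rfl | he2
  · exact hdbl z hz
  -- the threefold
  have hF0 : (⟨z ^ e, zK⟩ : K₀) ≠ 0 := fun h => pow_ne_zero e z0 (congrArg Subtype.val h)
  obtain ⟨hb, hbds⟩ := bc_34 (k := k) (M := M) e hek h2
  obtain ⟨L, i1, i2, i3, i4, a, w, ha, -, hw, hgen⟩ := Pool.Agent.TUQ.fam_exists (k := k) e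
    (by omega) (⟨z ^ e, zK⟩ : K₀) hF0
  refine emt_final K₀ hfg htd hal e (1 + X ^ 2) 1 hb z z0 zK irr L a w ha ?_ hgen ?_ ?_
  · rw [map_add, map_one, map_pow, aeval_X, mul_one]
    exact hw
  · let ι : E →ₐ[k] K₀ := IntermediateField.inclusion hle₀
    let algE : Algebra E K₀ := ι.toRingHom.toAlgebra
    let algL : Algebra E L := ((algebraMap K₀ L).comp ι.toRingHom).toAlgebra
    have tow1 : IsScalarTower E K₀ L := IsScalarTower.of_algebraMap_eq (fun _ => rfl)
    have tow2 : IsScalarTower k E K₀ :=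
      IsScalarTower.of_algebraMap_eq (fun b => (ι.commutes b).symm)
    have tow3 : IsScalarTower k E L := IsScalarTower.of_algebraMap_eq (fun b => by
      rw [IsScalarTower.algebraMap_apply k K₀ L, ← ι.commutes b]
      rfl)
    have tow4 : IsScalarTower E K₀ M := IsScalarTower.of_algebraMap_eq (fun _ => rfl)
    let ξ : Fin r → K₀ := fun i => ⟨x i, hxK₀ i⟩
    have hval : ∀ P : MvPolynomial (Fin r) E, ((MvPolynomial.aeval ξ P : K₀) : M) =
        MvPolynomial.aeval x P := fun P =>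
      (MvPolynomial.aeval_algebraMap_apply (A := K₀) (B := M) ξ P).symm
    have hgen₀ : IntermediateField.adjoin E (Set.range ξ) = ⊤ := by
      rw [eq_top_iff]
      intro b _
      let N' : IntermediateField k M :=
        ((IntermediateField.adjoin E (Set.range ξ)).restrictScalars k).map K₀.val
      have hE : E ≤ N' := fun c hc => ⟨⟨c, hle₀ hc⟩,
        (IntermediateField.adjoin E (Set.range ξ)).algebraMap_mem ⟨c, hc⟩, rfl⟩
      have hx : IntermediateField.adjoin k (Set.range x) ≤ N' := by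
        rw [IntermediateField.adjoin_le_iff]
        rintro _ ⟨i, rfl⟩
        exact ⟨ξ i, IntermediateField.subset_adjoin E _ ⟨i, rfl⟩, rfl⟩
      have hb : (b : M) ∈ E ⊔ IntermediateField.adjoin k (Set.range x) := by
        rw [← hK₀]
        exact b.2
      obtain ⟨c, hc, hcb⟩ := (sup_le hE hx) hb
      have e : c = b := Subtype.ext hcb
      rw [← e]
      exact hc
    have hw0 : w ≠ 0 := by
      rintro rfl
      rw [zero_pow (by omega), zero_mul] at hw
      exact hF0 ((algebraMap K₀ L).injective (by rw [← hw, map_zero]))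
    refine Uniruled.tower (E := E) hEfg' (kum_uni (κ := E) ξ hgen₀ (htdE K₀ le_rfl) g h hg0 ?_
      e a w ha hw0 ?_ hgen ω hω)
    · apply Subtype.ext
      rw [hval, hg]
      rfl
    · rw [hw]
      congr 1
      apply Subtype.ext
      rw [hval, ← hz]
  · intro b hb
    have hK : K₀ ⊔ IntermediateField.adjoin k {z ^ e} = K₀ := by
      refine sup_eq_left.2 ?_
      rw [IntermediateField.adjoin_le_iff, Set.singleton_subset_iff]
      exact zK
    rcases hbds b hb with rfl | rfl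
    · rw [Nat.gcd_one_right, Nat.div_one, hK]
      exact hbase
    · rcases Nat.even_or_odd e with hE | hO
      · obtain ⟨j, hj⟩ := hE
        have h3 : Nat.gcd e 2 = 2 := Nat.gcd_eq_right ⟨j, by omega⟩
        rw [h3]
        refine hdbl _ ?_
        rw [← pow_mul, Nat.div_mul_cancel ⟨j, by omega⟩, hz]
      · have h3 : Nat.gcd e 2 = 1 := Nat.Coprime.gcd_eq_one (Nat.coprime_two_right.2 hO)
        rw [h3, Nat.div_one, hK]
        exact hbase

end Emt

end Pool.Agent.FRB
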